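import Pool.Agent.Lib.L1I.Blue

/-! The abstract theorem from its blocks. -/

noncomputable section

open Set Function Filter Topology MeasureTheory BCO
open scoped InnerProductSpace

namespace Pool.Agent.Lib.L1I

open CX

section

variable {G : Type} [Group G] {E : Type} [NormedAddCommGroup E] [NormedSpace ℝ E]

theorem amp_mul' (T S : E →L[ℝ] E) : amp G (T * S) = amp G T * amp G S := map_mul (ampA G) T S

theorem amp_sum' {r : ℕ} (T : Fin r → E →L[ℝ] E) : amp G (∑ a, T a) = ∑ a, amp G (T a) :=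
  map_sum (ampA G) T _

theorem FS_le_RA {A : V G E →L[ℝ] V G E} (h : A ∈ FS G E) : A ∈ RA G E :=
  Submodule.le_topologicalClosure _ h

theorem amp_mem_FS (T : E →L[ℝ] E) : amp G T ∈ FS G E :=
  Submodule.subset_span ⟨1, T, (tw_one T).symm⟩

theorem mul_mem_FS {A B : V G E →L[ℝ] V G E} (hA : A ∈ FS G E) (hB : B ∈ FS G E) :
    A * B ∈ FS G E := by
  induction hA using Submodule.span_induction with
  | mem A h =>
    obtain ⟨g, T, rfl⟩ := h
    induction hB using Submodule.span_induction with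
    | mem B h =>
      obtain ⟨h, S, rfl⟩ := h
      exact Submodule.subset_span ⟨_, _, tw_mul g h T S⟩
    | zero => rw [mul_zero]; exact zero_mem _
    | add B C _ _ h1 h2 => rw [mul_add]; exact add_mem h1 h2
    | smul r B _ h1 => rw [mul_smul_comm]; exact Submodule.smul_mem _ _ h1
  | zero => rw [zero_mul]; exact zero_mem _
  | add A C _ _ h1 h2 => rw [add_mul]; exact add_mem h1 h2
  | smul r A _ h1 => rw [smul_mul_assoc]; exact Submodule.smul_mem _ _ h1

theorem coef_add (g : G) (A B : V G E →L[ℝ] V G E) : coef g (A + B) = coef g A + coef g B := by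
  simp only [coef, ContinuousLinearMap.add_comp, ContinuousLinearMap.comp_add]

theorem coef_zero (g : G) : coef g (0 : V G E →L[ℝ] V G E) = 0 := by
  simp only [coef, ContinuousLinearMap.zero_comp, ContinuousLinearMap.comp_zero]

theorem summable_coef_sum {ι : Type} (s : Finset ι) (A : ι → V G E →L[ℝ] V G E)
    (h : ∀ i, Summable fun g => ‖coef g (A i)‖) : Summable fun g => ‖coef g (∑ i ∈ s, A i)‖ := by
  classical
  induction s using Finset.induction_on with
  | empty => simpa [coef_zero] using summable_zero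
  | insert i s hi ih =>
    rw [Finset.sum_insert hi]
    refine ((h i).add ih).of_nonneg_of_le (fun _ => norm_nonneg _) fun g => ?_
    rw [coef_add]
    exact norm_add_le _ _

end

theorem stABS (hQEX : St_QEX) (hTRF : St_TRF) (hLINF : St_LINF) (hRH : St_RH) (hSUM : St_SUM)
    (hL1A : St_L1A) (hSAND : St_SAND) (hK1 : St_K1) : St_ABS := by
  intro G _ M _ μ N w F R X τ hτ hR hF
  obtain ⟨Q, hQ⟩ := hQEX G M μ N w R X hR
  obtain ⟨t1, t2⟩ := hTRF G M μ N w R Q X hQ
  obtain ⟨s1, s2, s3, s4⟩ := hSAND G M μ N w F R Q X hR hQ hF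
  obtain ⟨l1, l2, l3, -⟩ := hL1A G (Lp (Eu N) 2 μ)
  have hFF : F * F = F := by
    rw [hF, smul_mul_smul_comm, mul_sub, sub_mul, sub_mul, X.ww]
    simp only [one_mul, mul_one]
    module
  have hFs : Sym F := fun u v => by
    rw [hF]
    simp only [ContinuousLinearMap.smul_apply, ContinuousLinearMap.sub_apply,
      ContinuousLinearMap.one_apply, real_inner_smul_left, real_inner_smul_right, inner_sub_left,
      inner_sub_right, X.symw u v]
  have hb : ∀ f, Bd 1 f → Bd (1 / X.c) (Q (Q f)) := fun f hf =>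
    hLINF G M μ N Q X.c X.cpos hQ.sym t1 1 f zero_le_one hf
  have hZ : ∀ a, amp G (X.P a).Z = (X.P a).U' * (amp G (X.P a).Z * (X.P a).U) := fun a => by
    rw [← (X.P a).uz, ← mul_assoc, (X.P a).uu', one_mul]
  have hZ' : ∀ a, amp G (X.P a).Z = (X.P a).U' * amp G (X.P a).Z * (X.P a).U := fun a => by
    rw [mul_assoc]; exact hZ a
  have hA : amp G X.v * Q * amp G X.η = ∑ a, ∑ b, (amp G (X.v' a) * (X.P a).U') *
      (amp G (X.P a).Z * (X.P a).U * Q * (X.P b).U' * amp G (X.P b).Z) *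
        ((X.P b).U * amp G (X.η' b)) := by
    conv_lhs => rw [X.decv, X.decη, amp_sum', amp_sum', Finset.sum_mul, Finset.sum_mul]
    refine Finset.sum_congr rfl fun a _ => ?_
    rw [Finset.mul_sum]
    refine Finset.sum_congr rfl fun b _ => ?_
    rw [amp_mul', amp_mul']
    conv_lhs => rw [hZ a, hZ' b]
    simp only [mul_assoc]
  have hS : Summable fun g => ‖coef g (amp G X.v * Q * amp G X.η)‖ := by
    rw [hA]
    refine summable_coef_sum _ _ fun a => summable_coef_sum _ _ fun b => ?_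
    refine l2 _ ?_ _ (mul_mem_FS (amp_mem_FS _) (X.P a).fs') _
      (mul_mem_FS (X.P b).fs (amp_mem_FS _))
      (hSUM G M μ N (X.P a) (X.P b) Q _ hQ.sym hb (hRH G M μ N _ Q hQ.sym (t2 a).1 (t2 a).2)
        (hRH G M μ N _ Q hQ.sym (t2 b).1 (t2 b).2))
    exact mul_mem (mul_mem (mul_mem (mul_mem (FS_le_RA (amp_mem_FS _)) (FS_le_RA (X.P a).fs))
      hQ.mem) (FS_le_RA (X.P b).fs')) (FS_le_RA (amp_mem_FS _))
  have hm : amp G X.v * Q * amp G X.η ∈ RA G (Lp (Eu N) 2 μ) :=
    mul_mem (mul_mem (FS_le_RA (amp_mem_FS _)) hQ.mem) (FS_le_RA (amp_mem_FS _))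
  obtain ⟨z, h1, h2⟩ := hK1 G _ F _ _ τ hτ hFF hFs hS (l3 _ s2) (l1 _ hm hS) s3
  exact ⟨hFF, s1, z, s4 z h1, h2⟩

end Pool.Agent.Lib.L1I
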