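import Pool.Agent.Lib.L1I.Row

/-! Sums of uniformly bounded localized operators. -/

noncomputable section

open scoped ENNReal Topology
open Filter

namespace Pool.Agent.Lib.L1I

variable {H J ι : Type*} [NormedAddCommGroup H] [NormedSpace ℝ H] {π : J → H →L[ℝ] H}

/-- Finite sets of cells of bounded size and bounded multiplicity. -/
structure Loc (N : ι → Finset J) (M : ℕ) : Prop where
  card : ∀ j, (N j).card ≤ M
  mult : ∀ i, ∃ S : Finset ι, S.card ≤ M ∧ ∀ j, i ∈ N j → j ∈ S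

/-- The ranges lie in the given cells. -/
def LL (π : J → H →L[ℝ] H) (N : ι → Finset J) (E : ι → H →L[ℝ] H) : Prop :=
  ∀ j, ∀ k ∉ N j, π k * E j = 0

/-- The operators only see the given cells. -/
def RL (π : J → H →L[ℝ] H) (N : ι → Finset J) (E : ι → H →L[ℝ] H) : Prop :=
  ∀ j, ∀ k ∉ N j, E j * π k = 0

variable {N : ι → Finset J} {M : ℕ} {E : ι → H →L[ℝ] H}

theorem en_sum (s : Finset ι) (T : ι → H →L[ℝ] H) : en (∑ j ∈ s, T j) ≤ ∑ j ∈ s, en (T j) :=
  (en_le (norm_sum_le s T)).trans_eq (ENNReal.ofReal_sum_of_nonneg fun _ _ => norm_nonneg _)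

theorem LL.mul (h : LL π N E) (X : ι → H →L[ℝ] H) : LL π N fun j => E j * X j :=
  fun j k hk => by rw [← mul_assoc, h j k hk, zero_mul]

theorem RL.mul (h : RL π N E) (X : ι → H →L[ℝ] H) : RL π N fun j => X j * E j :=
  fun j k hk => by rw [mul_assoc, h j k hk, mul_zero]

theorem Cells.norm_sum_sq (h : Cells π) (s : Finset J) (x : H) :
    ‖∑ k ∈ s, π k x‖ ^ 2 = ∑ k ∈ s, ‖π k x‖ ^ 2 := by
  classical
  have h1 : ∀ i, π i (∑ k ∈ s, π k x) = if i ∈ s then π i x else 0 := fun i => by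
    rw [map_sum, ← Finset.sum_ite_eq s i fun k => π k x]
    refine Finset.sum_congr rfl fun k _ => ?_
    split_ifs with hik
    · subst hik
      exact congrArg (fun A : H →L[ℝ] H => A x) (h.idem i)
    · exact congrArg (fun A : H →L[ℝ] H => A x) (h.orth i k hik)
  refine (h.pyth _).unique ?_
  rw [← Finset.sum_congr rfl fun k (hk : k ∈ s) => congrArg (‖·‖ ^ 2) ((h1 k).trans (if_pos hk))]
  exact hasSum_sum_of_ne_finset_zero fun k hk => by rw [h1 k, if_neg hk]; simp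

theorem RL.apply_eq (h : Cells π) (hE : RL π N E) (j : ι) (x : H) :
    E j x = E j (∑ k ∈ N j, π k x) := by
  rw [map_sum]
  exact ((h.sum x).mapL (E j)).unique (hasSum_sum_of_ne_finset_zero fun k hk =>
    congrArg (fun A : H →L[ℝ] H => A x) (hE j k hk))

theorem Loc.sum_le (hN : Loc N M) {a : J → ℝ} {A : ℝ} (ha : HasSum a A) (h0 : ∀ k, 0 ≤ a k)
    (s : Finset ι) : ∑ j ∈ s, ∑ k ∈ N j, a k ≤ M * A := by
  classical
  have h1 : ∑ j ∈ s, ∑ k ∈ N j, a k =
      ∑ k ∈ s.biUnion N, ((s.filter fun j => k ∈ N j).card : ℝ) * a k := by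
    simp only [Finset.card_filter, Nat.cast_sum, Finset.sum_mul]
    rw [Finset.sum_comm]
    refine Finset.sum_congr rfl fun j hj => ?_
    rw [← Finset.sum_subset (Finset.subset_biUnion_of_mem N hj) fun k _ hk => by simp [hk]]
    exact Finset.sum_congr rfl fun k hk => by simp [hk]
  rw [h1]
  calc _ ≤ ∑ k ∈ s.biUnion N, (M : ℝ) * a k := Finset.sum_le_sum fun k _ => by
        obtain ⟨S, hS, hS'⟩ := hN.mult k
        refine mul_le_mul_of_nonneg_right (Nat.cast_le.2 (le_trans (Finset.card_le_card ?_) hS))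
          (h0 k)
        exact fun j hj => hS' j (Finset.mem_filter.1 hj).2
    _ ≤ M * A := by
        rw [← Finset.mul_sum]
        exact mul_le_mul_of_nonneg_left (sum_le_hasSum _ (fun k _ => h0 k) ha) (Nat.cast_nonneg _)

theorem LL.norm_sum_sq_le (h : Cells π) (hN : Loc N M) (hE : LL π N E) (s : Finset ι) (x : H) :
    ‖∑ j ∈ s, E j x‖ ^ 2 ≤ M * ∑ j ∈ s, ‖E j x‖ ^ 2 := by
  classical
  have h2 : HasSum (fun i => (M : ℝ) * ∑ j ∈ s, ‖π i (E j x)‖ ^ 2) (M * ∑ j ∈ s, ‖E j x‖ ^ 2) :=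
    (hasSum_sum fun j _ => h.pyth (E j x)).mul_left _
  refine hasSum_le (fun i => ?_) (h.pyth _) h2
  obtain ⟨S, hS, hS'⟩ := hN.mult i
  have h3 : π i (∑ j ∈ s, E j x) = ∑ j ∈ s ∩ S, π i (E j x) := by
    rw [map_sum]
    refine (Finset.sum_subset Finset.inter_subset_left fun j hj hj' => ?_).symm
    exact congrArg (fun A : H →L[ℝ] H => A x)
      (hE j i fun hi => hj' (Finset.mem_inter.2 ⟨hj, hS' j hi⟩))
  rw [h3]
  calc _ ≤ (∑ j ∈ s ∩ S, ‖π i (E j x)‖) ^ 2 := by
        gcongr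
        exact norm_sum_le _ _
    _ ≤ (s ∩ S).card * ∑ j ∈ s ∩ S, ‖π i (E j x)‖ ^ 2 := sq_sum_le_card_mul_sum_sq
    _ ≤ _ := by
        gcongr
        · exact (Finset.card_le_card Finset.inter_subset_right).trans hS
        · exact Finset.inter_subset_left

/-- The row norm of a strongly convergent localized sum. -/
theorem rn_le_of_hasSum (h : Cells π) (hN : Loc N M) (hL : LL π N E) (hR : RL π N E) {δ : ℝ}
    (hδ : ∀ j, ‖E j‖ ≤ δ) {T : H →L[ℝ] H} (hT : ∀ x, HasSum (fun j => E j x) (T x)) :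
    rn π T ≤ M ^ 2 * ENNReal.ofReal δ := by
  refine iSup_le fun i => ?_
  obtain ⟨S, hS, hS'⟩ := hN.mult i
  have h1 : π i * T = ∑ j ∈ S, π i * E j := by
    ext x
    rw [sum_apply]
    exact ((hT x).mapL (π i)).unique (hasSum_sum_of_ne_finset_zero fun j hj =>
      congrArg (fun A : H →L[ℝ] H => A x) (hL j i fun hi => hj (hS' j hi)))
  calc ∑' k, en (π i * T * π k) ≤ ∑' k, ∑ j ∈ S, en (π i * E j * π k) :=
        ENNReal.tsum_le_tsum fun k => by
          rw [h1, Finset.sum_mul]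
          exact en_sum S _
    _ = ∑ j ∈ S, ∑ k ∈ N j, en (π i * E j * π k) := by
        rw [Summable.tsum_finsetSum fun _ _ => ENNReal.summable]
        exact Finset.sum_congr rfl fun j _ => tsum_eq_sum fun k hk => by
          rw [mul_assoc, hR j k hk, mul_zero, en_zero]
    _ ≤ ∑ j ∈ S, ∑ k ∈ N j, ENNReal.ofReal δ := Finset.sum_le_sum fun j _ =>
        Finset.sum_le_sum fun k _ => en_le ((h.norm_entry_le _ _ _).trans (hδ j))
    _ ≤ ∑ j ∈ S, M * ENNReal.ofReal δ := Finset.sum_le_sum fun j _ => by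
        rw [Finset.sum_const, nsmul_eq_mul]
        gcongr
        exact hN.card j
    _ ≤ _ := by
        rw [Finset.sum_const, nsmul_eq_mul, sq, mul_assoc]
        gcongr

/-- A uniformly bounded localized family has a strongly convergent sum. -/
theorem exists_sum [CompleteSpace H] (h : Cells π) (hN : Loc N M) (hL : LL π N E) (hR : RL π N E)
    {δ : ℝ} (hδ : ∀ j, ‖E j‖ ≤ δ) : ∃ T : H →L[ℝ] H, (∀ x, HasSum (fun j => E j x) (T x)) ∧
      rn π T ≤ M ^ 2 * ENNReal.ofReal δ := by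
  have hb : ∀ x (s : Finset ι), ‖∑ j ∈ s, E j x‖ ^ 2 ≤
      ∑ j ∈ s, M * δ ^ 2 * ∑ k ∈ N j, ‖π k x‖ ^ 2 := fun x s => by
    refine (hL.norm_sum_sq_le h hN s x).trans ?_
    rw [Finset.mul_sum]
    refine Finset.sum_le_sum fun j _ => ?_
    rw [mul_assoc, ← h.norm_sum_sq, ← mul_pow, hR.apply_eq h j x]
    gcongr
    exact (E j).le_of_opNorm_le (hδ j) _
  have hb' : ∀ x (s : Finset ι), ∑ j ∈ s, M * δ ^ 2 * ∑ k ∈ N j, ‖π k x‖ ^ 2 ≤
      (M * |δ| * ‖x‖) ^ 2 := fun x s => by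
    rw [← Finset.mul_sum]
    calc _ ≤ M * δ ^ 2 * (M * ‖x‖ ^ 2) := by
          gcongr
          exact hN.sum_le (h.pyth x) (fun _ => sq_nonneg _) s
      _ = _ := by rw [mul_pow, mul_pow, sq_abs]; ring
  have hs : ∀ x, Summable fun j => E j x := fun x => by
    have ha : Summable fun j => M * δ ^ 2 * ∑ k ∈ N j, ‖π k x‖ ^ 2 :=
      summable_of_sum_le (fun j => by positivity) (hb' x)
    rw [summable_iff_vanishing_norm] at ha ⊢
    intro ε hε
    obtain ⟨s, hs⟩ := ha (ε ^ 2) (by positivity)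
    refine ⟨s, fun t ht => lt_of_pow_lt_pow_left₀ 2 hε.le ?_⟩
    exact (hb x t).trans_lt ((le_abs_self _).trans_lt (hs t ht))
  let T₀ : H →ₗ[ℝ] H :=
    { toFun := fun x => ∑' j, E j x
      map_add' := fun x y => by
        simp only [map_add]
        exact (hs x).tsum_add (hs y)
      map_smul' := fun c x => by
        simp only [map_smul, RingHom.id_apply]
        exact (hs x).tsum_const_smul c }
  have hT₀ : ∀ x, ‖T₀ x‖ ≤ M * |δ| * ‖x‖ := fun x =>
    le_of_tendsto' (hs x).hasSum.norm fun s =>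
      (sq_le_sq₀ (norm_nonneg _) (by positivity)).1 ((hb x s).trans (hb' x s))
  exact ⟨T₀.mkContinuous _ hT₀, fun x => (hs x).hasSum,
    rn_le_of_hasSum h hN hL hR hδ fun x => (hs x).hasSum⟩

end Pool.Agent.Lib.L1I
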