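import Pool.Agent.Lib.CX.Blue
import Pool.Agent.Lib.DG.Blue

/-! Blueprint of the `l1` route: the trace of the index of a triple is the trace of an idempotent
over `l1 (G)` up to an integer. Block `X` is `theorem stX (earlier blocks) : St_X`. -/

noncomputable section

open Set Function Filter Topology MeasureTheory CliffordAlgebra BCO
open scoped Manifold ContDiff InnerProductSpace ENNReal

namespace Pool.Agent.Lib.L1I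

open CX

/-! ### operators on `l2 (G, E)` -/

section Ops

variable {G : Type} [Group G] {E : Type} [NormedAddCommGroup E] [NormedSpace ℝ E]

open Classical in
/-- the inclusion of the summand `g` -/
def sg (g : G) : E →L[ℝ] V G E := lp.singleContinuousLinearMap ℝ (fun _ : G => E) 2 g

/-- the coefficient of `g` -/
def coef (g : G) (A : V G E →L[ℝ] V G E) : E →L[ℝ] E :=
  lp.evalCLM ℝ (fun _ : G => E) 2 g ∘L A ∘L sg 1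

variable (G E) in
/-- finite sums of the operators `tw g T` -/
def FS : Submodule ℝ (V G E →L[ℝ] V G E) := Submodule.span ℝ {A | ∃ g T, A = tw g T}

/-- symmetric operators -/
def Sym {H : Type} [NormedAddCommGroup H] [InnerProductSpace ℝ H] (A : H →L[ℝ] H) : Prop :=
  ∀ u v, ⟪A u, v⟫_ℝ = ⟪u, A v⟫_ℝ

end Ops

/-- the trace property -/
def IsTr {G : Type} [Group G] (τ : BCH.K0 (Cr G) →+ ℝ) : Prop :=
  ∀ (k : ℕ) (p : Matrix (Fin k) (Fin k) (Cr G)), p * p = p → τ (BCH.cls p) = ∑ i, IT.tr (p i i).1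

/-- real numbers that are traces of `l1` idempotents up to a rational number -/
def L1Val (G : Type) [Group G] (t : ℝ) : Prop :=
  ∃ (r : ℕ) (e : Fin r → Fin r → G → ℝ) (q : ℚ), DG.L1Idem e ∧ t = ∑ i, e i i 1 + q

/-- MFU (from the main route): the index of a pair of idempotents is unique -/
def St_MFU : Prop := ∀ (G : Type) [Group G] (E : Type) [NormedAddCommGroup E]
  [InnerProductSpace ℝ E] [CompleteSpace E] (e : V G E →L[ℝ] V G E) (P : E →L[ℝ] E)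
  (z z' : BCH.K0 (Cr G)), e ∈ RA G E → e * e = e → P * P = P →
  IsInd e (amp G P) z → IsInd e (amp G P) z' → z = z'

/-- INV: an element of `RA` that is invertible as an operator is invertible in `RA` -/
def St_INV : Prop := ∀ (G : Type) [Group G] (E : Type) [NormedAddCommGroup E]
  [InnerProductSpace ℝ E] [CompleteSpace E] (W W' : V G E →L[ℝ] V G E), W ∈ RA G E →
  W * W' = 1 → W' * W = 1 → W' ∈ RA G E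

/-- L1A: coefficients -/
def St_L1A : Prop := ∀ (G : Type) [Group G] (E : Type) [NormedAddCommGroup E] [NormedSpace ℝ E]
  [CompleteSpace E],
  (∀ A ∈ RA G E, (Summable fun g => ‖coef g A‖) → HasSum (fun g => tw g (coef g A)) A) ∧
  (∀ A ∈ RA G E, ∀ B ∈ FS G E, ∀ B' ∈ FS G E, (Summable fun g => ‖coef g A‖) →
    Summable fun g => ‖coef g (B * A * B')‖) ∧
  (∀ A ∈ KK G E, ∀ g, IsCompactOperator (coef g A)) ∧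
  (∀ A ∈ KK G E, ∀ B ∈ RA G E, B * A ∈ KK G E ∧ A * B ∈ KK G E)

/-- K1: compression of an idempotent `P + l1 (G, compact)` to a matrix over `l1 (G)` -/
def St_K1 : Prop := ∀ (G : Type) [Group G] (E : Type) [NormedAddCommGroup E]
  [InnerProductSpace ℝ E] [CompleteSpace E] (P : E →L[ℝ] E) (k : G → E →L[ℝ] E)
  (A : V G E →L[ℝ] V G E) (τ : BCH.K0 (Cr G) →+ ℝ), IsTr τ → P * P = P → Sym P →
  (Summable fun g => ‖k g‖) → (∀ g, IsCompactOperator (k g)) → HasSum (fun g => tw g (k g)) A →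
  (amp G P + A) * (amp G P + A) = amp G P + A →
  ∃ z, IsInd (amp G P + A) (amp G P) z ∧ L1Val G (τ z)

/-- CJ: the index only depends on the pair up to an equivalence that is compatible with `P` -/
def St_CJ : Prop := ∀ (G : Type) [Group G] (E : Type) [NormedAddCommGroup E] [NormedSpace ℝ E]
  [CompleteSpace E] (e e' P x y : V G E →L[ℝ] V G E) (z : BCH.K0 (Cr G)), P ∈ RA G E →
  x ∈ RA G E → y ∈ RA G E → e * e = e → e' * e' = e' → P * P = P → y * x = e → x * y = e' →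
  P * (e' * x * e) - P * e ∈ KK G E → IsInd e' P z → IsInd e P z

/-! ### the abstract analytic part -/

section Abs

variable {G : Type} [Group G] {M : Type} [MeasurableSpace M] {μ : Measure M} {N : ℕ}

/-- pointwise bound on the covering -/
def Bd (m : ℝ) (ξ : V G (Lp (Eu N) 2 μ)) : Prop := ∀ γ, ∀ᵐ p ∂μ, ‖ξ γ p‖ ≤ m

/-- the functions used in the test sections `Ψ (|u|²) u` -/
def Cut (Ψ : ℝ → ℝ) : Prop :=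
  ContDiff ℝ ∞ Ψ ∧ Monotone Ψ ∧ (∀ t, 0 ≤ Ψ t) ∧ ∃ T, ∀ t, T ≤ t → Ψ t = 1

variable (μ) in
/-- `T` is the multiplication by `a` -/
def IsMul (a : M → Eu N →L[ℝ] Eu N) (T : Lp (Eu N) 2 μ →L[ℝ] Lp (Eu N) 2 μ) : Prop :=
  ∀ s, T s =ᵐ[μ] fun p => a p (s p)

variable (G μ N) in
/-- a change of trivialisation `U`, a cut-off `Z`, its Clifford differential `C` and a larger
weight `Y` supported in `K` -/
structure Patch where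
  U : V G (Lp (Eu N) 2 μ) →L[ℝ] V G (Lp (Eu N) 2 μ)
  U' : V G (Lp (Eu N) 2 μ) →L[ℝ] V G (Lp (Eu N) 2 μ)
  Z : Lp (Eu N) 2 μ →L[ℝ] Lp (Eu N) 2 μ
  C : Lp (Eu N) 2 μ →L[ℝ] Lp (Eu N) 2 μ
  Y : Lp (Eu N) 2 μ →L[ℝ] Lp (Eu N) 2 μ
  K : Set M
  C0 : ℝ
  uu : U * U' = 1
  uu' : U' * U = 1
  adj : ∀ ξ η, ⟪U ξ, η⟫_ℝ = ⟪ξ, U' η⟫_ℝ
  fs : U ∈ FS G _
  fs' : U' ∈ FS G _
  bd : ∀ m ξ, Bd m ξ → Bd m (U ξ)
  bd' : ∀ m ξ, Bd m ξ → Bd m (U' ξ)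
  symZ : Sym Z
  skewC : ∀ s t, ⟪C s, t⟫_ℝ = -⟪s, C t⟫_ℝ
  zc : Z * C = C * Z
  zy : ∀ s, ‖Z s‖ ≤ ‖Y s‖
  cy : ∀ s, ‖C s‖ ≤ C0 * ‖Y s‖
  mK : MeasurableSet K
  fK : μ K ≠ ⊤
  uz : U * amp G Z = amp G Z * U

variable (P : Patch G μ N) (Q : V G (Lp (Eu N) 2 μ) →L[ℝ] V G (Lp (Eu N) 2 μ))

/-- the commutator of the resolvent with a cut-off on one sheet -/
def Patch.Comm : Prop := ∀ β g,
  Q (P.U' (sg g (P.Z (P.U β g) + P.C (P.U (Q β) g)))) = P.U' (sg g (P.Z (P.U (Q β) g)))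

/-- the interpolation inequality -/
def Patch.Ehr : Prop := ∀ δ : ℝ, 0 < δ → ∃ C : ℝ, ∀ β g, ‖P.Y (P.U (Q β) g)‖ ≤
  δ * (‖P.Z (P.U (Q β) g)‖ + ‖P.Z (P.U β g) + P.C (P.U (Q β) g)‖) +
    C * ∫ p in P.K, ‖P.U (Q β) g p‖ ∂μ

/-- the interior estimate -/
def Patch.RH : Prop := ∃ C : ℝ, 0 ≤ C ∧ ∀ f g, P.Z (P.U f g) = 0 →
  ‖P.Z (P.U (Q f) g)‖ ≤ C * ∫ p in P.K, ‖P.U (Q (Q f)) g p‖ ∂μ ∧
  ‖P.Z (P.U (Q (Q f)) g)‖ ≤ C * ∫ p in P.K, ‖P.U (Q (Q f)) g p‖ ∂μ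

/-- the hypothesis of the maximum principle -/
def NLQ (c : ℝ) : Prop := ∃ D : Set (V G (Lp (Eu N) 2 μ)), Dense D ∧ ∀ Ψ, Cut Ψ → ∃ C : ℝ,
  ∀ β ∈ D, ∃ β', (∀ γ, Q β' γ =ᵐ[μ] fun p => Ψ (‖Q β γ p‖ ^ 2) • Q β γ p) ∧
    c * ⟪Q β, Q β'⟫_ℝ ≤ ⟪β, β'⟫_ℝ ∧ ‖β'‖ ≤ C * ‖β‖

/-- the analytic package on the covering: `Gr` is the graph of `D` on test sections,
`R = (D + w)⁻¹` -/
structure Pack (w : Lp (Eu N) 2 μ →L[ℝ] Lp (Eu N) 2 μ)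
    (R : V G (Lp (Eu N) 2 μ) →L[ℝ] V G (Lp (Eu N) 2 μ)) where
  Gr : Set (V G (Lp (Eu N) 2 μ) × V G (Lp (Eu N) 2 μ))
  v : Lp (Eu N) 2 μ →L[ℝ] Lp (Eu N) 2 μ
  η : Lp (Eu N) 2 μ →L[ℝ] Lp (Eu N) 2 μ
  c : ℝ
  r : ℕ
  P : Fin r → Patch G μ N
  v' : Fin r → Lp (Eu N) 2 μ →L[ℝ] Lp (Eu N) 2 μ
  η' : Fin r → Lp (Eu N) 2 μ →L[ℝ] Lp (Eu N) 2 μ
  k : Fin r → Lp (Eu N) 2 μ →L[ℝ] Lp (Eu N) 2 μ
  ww : w * w = 1
  symw : Sym w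
  res : ∀ q ∈ Gr, R (q.2 + amp G w q.1) = q.1
  dense : Dense ((fun q => q.2 + amp G w q.1) '' Gr)
  sym : ∀ q ∈ Gr, ∀ q' ∈ Gr, ⟪q.2, q'.1⟫_ℝ = ⟪q.1, q'.2⟫_ℝ
  gr : ∀ q ∈ Gr, (amp G w q.1, -amp G w q.2) ∈ Gr
  symv : Sym v
  vw : v * w = w * v
  ηw : η * w = w * η
  ηv : η * v = v
  cpos : 0 < c
  lb : ∀ q ∈ Gr, c * ‖q.1‖ ^ 2 ≤ ‖q.2 + amp G (v * w) q.1‖ ^ 2
  nl : ∀ Ψ, Cut Ψ → ∃ C : ℝ, ∀ q ∈ Gr, ∃ q' ∈ Gr,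
    (∀ γ, q'.1 γ =ᵐ[μ] fun p => Ψ (‖q.1 γ p‖ ^ 2) • q.1 γ p) ∧
    c * ⟪q.1, q'.1⟫_ℝ ≤ ⟪q.2 + amp G (v * w) q.1, q'.2 + amp G (v * w) q'.1⟫_ℝ ∧
    ‖q'.2‖ ≤ C * (‖q.2‖ + ‖q.1‖)
  cm : ∀ a g, ∀ q ∈ Gr, ((P a).U' (sg g ((P a).Z ((P a).U q.1 g))),
    (P a).U' (sg g ((P a).Z ((P a).U q.2 g) + (P a).C ((P a).U q.1 g)))) ∈ Gr
  ehr : ∀ a (δ : ℝ), 0 < δ → ∃ C : ℝ, ∀ q ∈ Gr, ∀ g, ‖(P a).Y ((P a).U q.1 g)‖ ≤
    δ * (‖(P a).Z ((P a).U q.1 g)‖ + ‖(P a).Z ((P a).U q.2 g) + (P a).C ((P a).U q.1 g)‖) +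
      C * ∫ p in (P a).K, ‖(P a).U q.1 g p‖ ∂μ
  com : ∀ a, ∀ T ∈ ({w, v} : Set _), (P a).U * amp G T = amp G T * (P a).U ∧
    (P a).Z * T = T * (P a).Z
  kc : ∀ a, IsCompactOperator (k a)
  cpt : ∀ a g, ∀ q ∈ Gr, k a ((P a).Z ((P a).U (q.2 + amp G w q.1) g) + (P a).C ((P a).U q.1 g)) =
    (P a).Z ((P a).U q.1 g)
  decv : v = ∑ a, v' a * (P a).Z
  decη : η = ∑ a, (P a).Z * η' a

/-- `Q = (D + v w)⁻¹` -/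
structure Pack.IsQ {w : Lp (Eu N) 2 μ →L[ℝ] Lp (Eu N) 2 μ}
    {R : V G (Lp (Eu N) 2 μ) →L[ℝ] V G (Lp (Eu N) 2 μ)} (X : Pack w R) : Prop where
  symR : Sym R
  anti : amp G w * R + R * amp G w = 2 * (R * R)
  mem : Q ∈ RA G (Lp (Eu N) 2 μ)
  sym : Sym Q
  inv : ∃ W' ∈ RA G (Lp (Eu N) 2 μ), (1 + amp G ((X.v - 1) * w) * R) * W' = 1 ∧
    W' * (1 + amp G ((X.v - 1) * w) * R) = 1 ∧ Q = R * W'

end Abs

/-- MUL: multiplication operators -/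
def St_MUL : Prop := ∀ (M : Type) [MeasurableSpace M] (μ : Measure M) (N : ℕ)
  (a : M → Eu N →L[ℝ] Eu N) (C : ℝ), AEStronglyMeasurable a μ → (∀ p, ‖a p‖ ≤ C) →
  ∃ T, IsMul μ a T

/-- LINF: the maximum principle -/
def St_LINF : Prop := ∀ (G : Type) [Group G] (M : Type) [MeasurableSpace M] (μ : Measure M) (N : ℕ)
  (Q : V G (Lp (Eu N) 2 μ) →L[ℝ] V G (Lp (Eu N) 2 μ)) (c : ℝ), 0 < c → Sym Q → NLQ Q c →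
  ∀ m f, 0 ≤ m → Bd m f → Bd (m / c) (Q (Q f))

/-- RH: Caccioppoli and absorption -/
def St_RH : Prop := ∀ (G : Type) [Group G] (M : Type) [MeasurableSpace M] (μ : Measure M) (N : ℕ)
  (P : Patch G μ N) (Q : V G (Lp (Eu N) 2 μ) →L[ℝ] V G (Lp (Eu N) 2 μ)), Sym Q → P.Comm Q →
  P.Ehr Q → P.RH Q

/-- SUM: summable coefficients between two patches -/
def St_SUM : Prop := ∀ (G : Type) [Group G] (M : Type) [MeasurableSpace M] (μ : Measure M) (N : ℕ)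
  (P P' : Patch G μ N) (Q : V G (Lp (Eu N) 2 μ) →L[ℝ] V G (Lp (Eu N) 2 μ)) (b : ℝ), Sym Q →
  (∀ f, Bd 1 f → Bd b (Q (Q f))) → P.RH Q → P'.RH Q →
  Summable fun g => ‖coef g (amp G P.Z * P.U * Q * P'.U' * amp G P'.Z)‖

/-- QEX (from INV): the resolvent `Q` exists -/
def St_QEX : Prop := ∀ (G : Type) [Group G] (M : Type) [MeasurableSpace M] (μ : Measure M) (N : ℕ)
  (w : Lp (Eu N) 2 μ →L[ℝ] Lp (Eu N) 2 μ) (R : V G (Lp (Eu N) 2 μ) →L[ℝ] V G (Lp (Eu N) 2 μ))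
  (X : Pack w R), R ∈ RA G (Lp (Eu N) 2 μ) → ∃ Q, X.IsQ Q

/-- TRF: transfer from the graph to the resolvent -/
def St_TRF : Prop := ∀ (G : Type) [Group G] (M : Type) [MeasurableSpace M] (μ : Measure M) (N : ℕ)
  (w : Lp (Eu N) 2 μ →L[ℝ] Lp (Eu N) 2 μ) (R Q : V G (Lp (Eu N) 2 μ) →L[ℝ] V G (Lp (Eu N) 2 μ))
  (X : Pack w R), X.IsQ Q → NLQ Q X.c ∧ ∀ a, (X.P a).Comm Q ∧ (X.P a).Ehr Q

/-- SAND (from L1A, CJ): the sandwiched idempotent -/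
def St_SAND : Prop := ∀ (G : Type) [Group G] (M : Type) [MeasurableSpace M] (μ : Measure M) (N : ℕ)
  (w F : Lp (Eu N) 2 μ →L[ℝ] Lp (Eu N) 2 μ)
  (R Q : V G (Lp (Eu N) 2 μ) →L[ℝ] V G (Lp (Eu N) 2 μ)) (X : Pack w R),
  R ∈ RA G (Lp (Eu N) 2 μ) → X.IsQ Q → F = (1 / 2 : ℝ) • (1 - w) →
  (amp G F + R) * (amp G F + R) = amp G F + R ∧ amp G X.v * Q * amp G X.η ∈ KK G _ ∧
  (amp G F + amp G X.v * Q * amp G X.η) * (amp G F + amp G X.v * Q * amp G X.η) =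
    amp G F + amp G X.v * Q * amp G X.η ∧
  ∀ z, IsInd (amp G F + amp G X.v * Q * amp G X.η) (amp G F) z → IsInd (amp G F + R) (amp G F) z

/-- ABS: the abstract theorem -/
def St_ABS : Prop := ∀ (G : Type) [Group G] (M : Type) [MeasurableSpace M] (μ : Measure M) (N : ℕ)
  (w F : Lp (Eu N) 2 μ →L[ℝ] Lp (Eu N) 2 μ)
  (R : V G (Lp (Eu N) 2 μ) →L[ℝ] V G (Lp (Eu N) 2 μ)) (_ : Pack w R) (τ : BCH.K0 (Cr G) →+ ℝ),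
  IsTr τ → R ∈ RA G (Lp (Eu N) 2 μ) → F = (1 / 2 : ℝ) • (1 - w) →
  F * F = F ∧ (amp G F + R) * (amp G F + R) = amp G F + R ∧
    ∃ z, IsInd (amp G F + R) (amp G F) z ∧ L1Val G (τ z)

/-! ### fields on the covering -/

section Cov

/-- the spin connection in the frame `a` -/
def nab {n N : ℕ} (X : SM n) (S : Spinor n N) (a : ℕ) (i : Fin n) (ψ : X.M → Eu N) (x : X.M) :
    Eu N :=
  X.dd a i ψ x + (1 / 4 : ℝ) •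
    ∑ j, ∑ k, X.ga a i j k x • S.c (ι (Qn n) (bv j) * ι (Qn n) (bv k)) (ψ x)

/-- the gradient in the frame `a` -/
def grad {n : ℕ} (X : SM n) (a : ℕ) (φ : X.M → ℝ) (x : X.M) : Eu n := ∑ i, X.dd a i φ x • bv i

variable {G : Type} [Group G] {m N : ℕ} (x : Sing G m) (S : Spinor (m + 1) N)

/-- the label of the sheets -/
def kap (i : ℕ) (p : x.X.M) : G := (x.f p).co i (x.f p).ix

/-- the domain of the frame `a` and of the join coordinate `i` -/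
def Om (a i : ℕ) : Set x.X.M := x.X.U a ∩ {p | (x.f p).t i ≠ 0}

/-- test functions -/
def Tst (a i : ℕ) (ψ : x.X.M → Eu N) : Prop :=
  ContMDiff (𝓡 (m + 1)) 𝓘(ℝ, Eu N) ∞ ψ ∧ HasCompactSupport ψ ∧ tsupport ψ ⊆ Om x a i

/-- the components in the frame `a` on the sheet `g_i = g` -/
def comp (a i : ℕ) (g : G) (ξ : G → x.X.M → Eu N) (p : x.X.M) : Eu N :=
  S.c (x.X.s a (x.X.fr p) p) (ξ ((kap x i p)⁻¹ * g) p)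

/-- smooth fields with compact support on the covering -/
structure Sm (ξ : G → x.X.M → Eu N) : Prop where
  fin : ∃ s : Finset G, ∀ γ ∉ s, ξ γ = 0
  cpt : ∃ K, IsCompact K ∧ ∀ γ, ∀ p ∉ K, ξ γ p = 0
  sm : ∀ a i g, ContMDiffOn (𝓡 (m + 1)) 𝓘(ℝ, Eu N) ∞ (comp x S a i g ξ) (Om x a i)

/-- the Dirac operator on the covering -/
def Dt (ξ : G → x.X.M → Eu N) (γ : G) (p : x.X.M) : Eu N :=
  x.X.dirac S (x.X.fr p) (comp x S (x.X.fr p) (x.f p).ix γ ξ) p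

/-- the pointwise form `⟨∇ ξ, ∇ ξ'⟩` on the covering -/
def Gam (ξ ξ' : G → x.X.M → Eu N) (γ : G) (p : x.X.M) : ℝ :=
  ∑ j, ⟪nab x.X S (x.X.fr p) j (comp x S (x.X.fr p) (x.f p).ix γ ξ) p,
    nab x.X S (x.X.fr p) j (comp x S (x.X.fr p) (x.f p).ix γ ξ') p⟫_ℝ

/-- `ξ'` is the class of `ξ` -/
def Cls {M : Type} [MeasurableSpace M] (μ : Measure M) (ξ : G → M → Eu N)
    (ξ' : V G (Lp (Eu N) 2 μ)) : Prop := ∀ γ, ξ' γ =ᵐ[μ] ξ γ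

/-- the graph of the Dirac operator on smooth fields with compact support -/
def Grf (μ : Measure x.X.M) : Set (V G (Lp (Eu N) 2 μ) × V G (Lp (Eu N) 2 μ)) :=
  {q | ∃ ξ, Sm x S ξ ∧ Cls μ ξ q.1 ∧ Cls μ (Dt x S ξ) q.2}

/-- the potential -/
structure Pot (v : x.X.M → ℝ) (c : ℝ) : Prop where
  sm : ContMDiff (𝓡 (m + 1)) 𝓘(ℝ, ℝ) ∞ v
  cpt : HasCompactSupport v
  pos : 0 < c
  le : ∀ p, c + ‖grad x.X (x.X.fr p) v p‖ ≤ x.X.scal p / 4 + v p ^ 2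

end Cov

/-! ### facts on the base, from the main route -/

/-- VOL: the volume is finite on compact sets -/
def St_VOL : Prop := ∀ (n : ℕ) (X : SM n) (μ : Measure X.M), X.IsVol μ →
  ∀ K, IsCompact K → μ K ≠ ⊤

/-- COC: the cocycle is locally constant -/
def St_COC : Prop := ∀ (G : Type) [Group G] (i j : ℕ) (g : G),
  IsOpen {p : BG G | p.t i ≠ 0 ∧ p.t j ≠ 0 ∧ p.co i j = g}

/-- GAU: gauge covariance -/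
def St_GAU : Prop := ∀ (n N : ℕ) (X : SM n) (S : Spinor n N) (a b : ℕ) (p : X.M),
  p ∈ X.U a → p ∈ X.U b → ∀ ψ ψ' : X.M → Eu N, MDifferentiableAt (𝓡 n) 𝓘(ℝ, Eu N) ψ p →
  MDifferentiableAt (𝓡 n) 𝓘(ℝ, Eu N) ψ' p →
  X.dirac S b (fun y => S.c (X.s b a y) (ψ y)) p = S.c (X.s b a p) (X.dirac S a ψ p) ∧
  ∑ j, ⟪nab X S b j (fun y => S.c (X.s b a y) (ψ y)) p,
    nab X S b j (fun y => S.c (X.s b a y) (ψ' y)) p⟫_ℝ =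
    ∑ j, ⟪nab X S a j ψ p, nab X S a j ψ' p⟫_ℝ

/-- LOC: the integrated identities in one frame -/
def St_LOC : Prop := ∀ (n N : ℕ) (X : SM n) (S : Spinor n N) (μ : Measure X.M), X.IsVol μ →
  ∀ (a : ℕ) (O : Set X.M) (ψ ψ' : X.M → Eu N), IsOpen O → O ⊆ X.U a →
  ContMDiffOn (𝓡 n) 𝓘(ℝ, Eu N) ∞ ψ O → ContMDiff (𝓡 n) 𝓘(ℝ, Eu N) ∞ ψ' → HasCompactSupport ψ' →
  tsupport ψ' ⊆ O →
  ∫ p, ⟪X.dirac S a ψ p, ψ' p⟫_ℝ ∂μ = ∫ p, ⟪ψ p, X.dirac S a ψ' p⟫_ℝ ∂μ ∧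
  Integrable (fun p => ∑ j, ⟪nab X S a j ψ p, nab X S a j ψ' p⟫_ℝ) μ ∧
  Integrable (fun p => X.scal p / 4 * ⟪ψ p, ψ' p⟫_ℝ) μ ∧
  ∫ p, ⟪X.dirac S a ψ p, X.dirac S a ψ' p⟫_ℝ ∂μ =
    ∫ p, (∑ j, ⟪nab X S a j ψ p, nab X S a j ψ' p⟫_ℝ + X.scal p / 4 * ⟪ψ p, ψ' p⟫_ℝ) ∂μ

/-- SMO: the Dirac operator of a smooth function is smooth -/
def St_SMO : Prop := ∀ (n N : ℕ) (X : SM n) (S : Spinor n N) (a : ℕ) (O : Set X.M)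
  (ψ : X.M → Eu N), IsOpen O → O ⊆ X.U a → ContMDiffOn (𝓡 n) 𝓘(ℝ, Eu N) ∞ ψ O →
  ContMDiffOn (𝓡 n) 𝓘(ℝ, Eu N) ∞ (X.dirac S a ψ) O

/-- CUT: a potential with small gradient -/
def St_CUT : Prop := ∀ (G : Type) [Group G] (m : ℕ) (x : Sing G m), (∀ y, 0 < x.N.scal y) →
  ∃ v c, Pot x v c

/-- SEC: continuous functions with compact support give square integrable fields -/
def St_SEC : Prop := ∀ (G : Type) [Group G] (m N : ℕ) (x : Sing G m) (S : Spinor (m + 1) N)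
  (μ : Measure x.X.M), x.X.IsVol μ → ∀ a i g (φ : x.X.M → Eu N), Continuous φ →
  HasCompactSupport φ → tsupport φ ⊆ Om x a i → ∃ ξ, Cls μ (x.sec S a i g φ) ξ

/-- K0: Rellich on the base -/
def St_K0 : Prop := ∀ (G : Type) [Group G] (m N : ℕ) (x : Sing G m) (S : Spinor (m + 1) N)
  (μ : Measure x.X.M), 4 ∣ m + 1 → x.X.IsVol μ →
  ∀ (a : ℕ) (K : Set x.X.M), IsCompact K → K ⊆ x.X.U a →
  ∃ k : Lp (Eu N) 2 μ →L[ℝ] Lp (Eu N) 2 μ, IsCompactOperator k ∧ ∀ ψ : x.X.M → Eu N,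
    ContMDiff (𝓡 (m + 1)) 𝓘(ℝ, Eu N) ∞ ψ → tsupport ψ ⊆ K → ∀ s s' : Lp (Eu N) 2 μ,
    (s =ᵐ[μ] fun p => S.c (x.X.s (x.X.fr p) a p) (ψ p)) →
    (s' =ᵐ[μ] fun p => S.c (x.X.s (x.X.fr p) a p) (x.X.dirac S a ψ p + S.gr (ψ p))) → k s' = s

/-- DEN: the test vectors span a dense subspace -/
def St_DEN : Prop := ∀ (G : Type) [Group G] (m N : ℕ) (x : Sing G m) (S : Spinor (m + 1) N)
  (μ : Measure x.X.M), 4 ∣ m + 1 → (∀ y, 0 < x.N.scal y) → x.X.IsVol μ →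
  Dense (Submodule.span ℝ {ξ : V G (Lp (Eu N) 2 μ) | ∃ a i g ψ, Tst x a i ψ ∧
    Cls μ (x.sec S a i g (ψ + x.X.dirac S a fun p => S.gr (ψ p))) ξ} :
      Set (V G (Lp (Eu N) 2 μ)))

/-! ### geometric blocks of this route -/

/-- EHR (from LOC or the flat library): Sobolev and interpolation in one frame -/
def St_EHR : Prop := ∀ (n N : ℕ) (X : SM n) (S : Spinor n N) (μ : Measure X.M), 3 ≤ n →
  X.IsVol μ → ∀ (a : ℕ) (O K₀ : Set X.M), IsOpen O → O ⊆ X.U a → IsCompact K₀ → K₀ ⊆ O →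
  ∃ (ζ ρ : X.M → ℝ) (K : Set X.M) (C₀ : ℝ), ContMDiff (𝓡 n) 𝓘(ℝ, ℝ) ∞ ζ ∧ Continuous ρ ∧
    IsCompact K ∧ K ⊆ O ∧ (∀ p ∈ K₀, ζ p = 1) ∧ (∀ p ∉ K, ρ p = 0) ∧
    (∀ p, |ζ p| ≤ ρ p ∧ ρ p ≤ 1) ∧ (∀ b, ∀ p ∈ X.U b, ‖grad X b ζ p‖ ≤ C₀ * ρ p) ∧
    ∀ δ : ℝ, 0 < δ → ∃ C : ℝ, 0 ≤ C ∧ ∀ ψ : X.M → Eu N, ContMDiffOn (𝓡 n) 𝓘(ℝ, Eu N) ∞ ψ O →
      eLpNorm (fun p => ρ p • ψ p) 2 μ ≤ ENNReal.ofReal δ * (eLpNorm (fun p => ζ p • ψ p) 2 μ +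
        eLpNorm (X.dirac S a fun p => ζ p • ψ p) 2 μ) + ENNReal.ofReal C * ∫⁻ p in K, ‖ψ p‖ₑ ∂μ

open Classical in
/-- C1 (from BG1, FIN, COC, GAU, SMO): pointwise calculus on the covering -/
def St_C1 : Prop := ∀ (G : Type) [Group G] (m N : ℕ) (x : Sing G m) (S : Spinor (m + 1) N),
  (∀ ξ, Sm x S ξ → Sm x S (Dt x S ξ) ∧ ∀ a i g, ∀ p ∈ Om x a i,
    comp x S a i g (Dt x S ξ) p = x.X.dirac S a (comp x S a i g ξ) p) ∧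
  (∀ ξ ξ', Sm x S ξ → Sm x S ξ' → ∀ a i g, ∀ p ∈ Om x a i, Gam x S ξ ξ' ((kap x i p)⁻¹ * g) p =
    ∑ j, ⟪nab x.X S a j (comp x S a i g ξ) p, nab x.X S a j (comp x S a i g ξ') p⟫_ℝ) ∧
  (∀ a i g ψ, Tst x a i ψ → Sm x S (x.sec S a i g ψ) ∧
    Dt x S (x.sec S a i g ψ) = x.sec S a i g (x.X.dirac S a ψ) ∧
    ∀ g', ∀ p ∈ Om x a i, comp x S a i g' (x.sec S a i g ψ) p = if g' = g then ψ p else 0) ∧
  (∀ ξ ξ' (r : ℝ), Sm x S ξ → Sm x S ξ' → Sm x S (r • ξ + ξ') ∧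
    Dt x S (r • ξ + ξ') = r • Dt x S ξ + Dt x S ξ') ∧
  Sm x S 0 ∧ Dt x S 0 = 0

/-- C2: Leibniz rules on the covering -/
def St_C2 : Prop := ∀ (G : Type) [Group G] (m N : ℕ) (x : Sing G m) (S : Spinor (m + 1) N),
  (∀ ξ (φ : x.X.M → ℝ), Sm x S ξ → ContMDiff (𝓡 (m + 1)) 𝓘(ℝ, ℝ) ∞ φ →
    Sm x S (fun γ p => φ p • ξ γ p) ∧ ∀ γ p, Dt x S (fun γ p => φ p • ξ γ p) γ p =
      φ p • Dt x S ξ γ p + S.c (ι _ (grad x.X (x.X.fr p) φ p)) (ξ γ p)) ∧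
  (Even (m + 1) → ∀ ξ, Sm x S ξ → Sm x S (fun γ p => S.gr (ξ γ p)) ∧
    ∀ γ p, Dt x S (fun γ p => S.gr (ξ γ p)) γ p = -S.gr (Dt x S ξ γ p)) ∧
  ∀ Ψ, Cut Ψ → ∃ C : ℝ, 0 ≤ C ∧ ∀ ξ, Sm x S ξ →
    Sm x S (fun γ p => Ψ (‖ξ γ p‖ ^ 2) • ξ γ p) ∧ ∀ γ p,
      0 ≤ Gam x S ξ (fun γ p => Ψ (‖ξ γ p‖ ^ 2) • ξ γ p) γ p ∧
      ‖Dt x S (fun γ p => Ψ (‖ξ γ p‖ ^ 2) • ξ γ p) γ p‖ ^ 2 ≤
        2 * ‖Dt x S ξ γ p‖ ^ 2 + C * Gam x S ξ ξ γ p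

/-- C3 (from BG1, FIN): a smooth field with compact support is a finite sum of test sections -/
def St_C3 : Prop := ∀ (G : Type) [Group G] (m N : ℕ) (x : Sing G m) (S : Spinor (m + 1) N) (ξ),
  Sm x S ξ → ∃ (r : ℕ) (a i : Fin r → ℕ) (g : Fin r → G) (ψ : Fin r → x.X.M → Eu N),
    (∀ l, Tst x (a l) (i l) (ψ l)) ∧ ξ = ∑ l, x.sec S (a l) (i l) (g l) (ψ l)

/-- C4 (from BG1, FIN, COC, LOC, SMO, SEC, C1, C3): classes and the integrated identities -/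
def St_C4 : Prop := ∀ (G : Type) [Group G] (m N : ℕ) (x : Sing G m) (S : Spinor (m + 1) N)
  (μ : Measure x.X.M), x.X.IsVol μ → (∀ ξ, Sm x S ξ → ∃ ξ', Cls μ ξ ξ') ∧
  ∀ ξ ξ' (u u' d d' : V G (Lp (Eu N) 2 μ)), Sm x S ξ → Sm x S ξ' → Cls μ ξ u → Cls μ ξ' u' →
    Cls μ (Dt x S ξ) d → Cls μ (Dt x S ξ') d' → ⟪d, u'⟫_ℝ = ⟪u, d'⟫_ℝ ∧
    (∀ γ, Integrable (Gam x S ξ ξ' γ) μ) ∧
    (∀ γ, Integrable (fun p => x.X.scal p / 4 * ⟪ξ γ p, ξ' γ p⟫_ℝ) μ) ∧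
    HasSum (fun γ => ∫ p, (Gam x S ξ ξ' γ p + x.X.scal p / 4 * ⟪ξ γ p, ξ' γ p⟫_ℝ) ∂μ) ⟪d, d'⟫_ℝ

/-- NL (from C1, C2, C4): the two inequalities -/
def St_NL : Prop := ∀ (G : Type) [Group G] (m N : ℕ) (x : Sing G m) (S : Spinor (m + 1) N)
  (μ : Measure x.X.M), 4 ∣ m + 1 → x.X.IsVol μ → ∀ v c, Pot x v c →
  ∀ T : Lp (Eu N) 2 μ →L[ℝ] Lp (Eu N) 2 μ, IsMul μ (fun p => v p • S.gr) T →
  (∀ q ∈ Grf x S μ, c * ‖q.1‖ ^ 2 ≤ ‖q.2 + amp G T q.1‖ ^ 2) ∧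
  ∀ Ψ, Cut Ψ → ∃ C : ℝ, ∀ q ∈ Grf x S μ, ∃ q' ∈ Grf x S μ,
    (∀ γ, q'.1 γ =ᵐ[μ] fun p => Ψ (‖q.1 γ p‖ ^ 2) • q.1 γ p) ∧
    c * ⟪q.1, q'.1⟫_ℝ ≤ ⟪q.2 + amp G T q.1, q'.2 + amp G T q'.1⟫_ℝ ∧
    ‖q'.2‖ ≤ C * (‖q.2‖ + ‖q.1‖)

open Classical in
/-- UNF (from BG1, FIN, COC, MUL): the change of trivialisation -/
def St_UNF : Prop := ∀ (G : Type) [Group G] (m N : ℕ) (x : Sing G m) (μ : Measure x.X.M) (i : ℕ),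
  ∃ U U' : V G (Lp (Eu N) 2 μ) →L[ℝ] V G (Lp (Eu N) 2 μ), U * U' = 1 ∧ U' * U = 1 ∧
    (∀ ξ η, ⟪U ξ, η⟫_ℝ = ⟪ξ, U' η⟫_ℝ) ∧ U ∈ FS G _ ∧ U' ∈ FS G _ ∧
    (∀ ξ g, U ξ g =ᵐ[μ] fun p => ξ ((kap x i p)⁻¹ * g) p) ∧
    (∀ ξ γ, U' ξ γ =ᵐ[μ] fun p => ξ (kap x i p * γ) p) ∧
    (∀ m ξ, Bd m ξ → Bd m (U ξ) ∧ Bd m (U' ξ)) ∧
    (∀ (ξ : G → x.X.M → Eu N) ξ' g, Cls μ ξ ξ' → U ξ' g =ᵐ[μ] fun p => ξ ((kap x i p)⁻¹ * g) p) ∧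
    (∀ s g γ, U' (sg g s) γ =ᵐ[μ] fun p => if kap x i p * γ = g then s p else 0) ∧
    ∀ a T, IsMul μ a T → U * amp G T = amp G T * U

/-- PAT (from VOL, K0, MUL, EHR, C1, C2, C4, UNF): the patches -/
def St_PAT : Prop := ∀ (G : Type) [Group G] (m N : ℕ) (x : Sing G m) (S : Spinor (m + 1) N)
  (μ : Measure x.X.M), 4 ∣ m + 1 → x.X.IsVol μ → ∀ (a i : ℕ) (K₀ : Set x.X.M), IsCompact K₀ →
  K₀ ⊆ Om x a i → ∃ (P : Patch G μ N) (k : Lp (Eu N) 2 μ →L[ℝ] Lp (Eu N) 2 μ) (ζ : x.X.M → ℝ),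
    IsMul μ (fun p => ζ p • (1 : Eu N →L[ℝ] Eu N)) P.Z ∧ (∀ p ∈ K₀, ζ p = 1) ∧
    (∀ b T, IsMul μ b T → P.U * amp G T = amp G T * P.U) ∧ IsCompactOperator k ∧
    (∀ g, ∀ q ∈ Grf x S μ, (P.U' (sg g (P.Z (P.U q.1 g))),
      P.U' (sg g (P.Z (P.U q.2 g) + P.C (P.U q.1 g)))) ∈ Grf x S μ ∧
      k (P.Z (P.U (q.2 + amp G (S.gr.compLpL 2 μ) q.1) g) + P.C (P.U q.1 g)) = P.Z (P.U q.1 g)) ∧
    ∀ δ : ℝ, 0 < δ → ∃ C : ℝ, ∀ q ∈ Grf x S μ, ∀ g, ‖P.Y (P.U q.1 g)‖ ≤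
      δ * (‖P.Z (P.U q.1 g)‖ + ‖P.Z (P.U q.2 g) + P.C (P.U q.1 g)‖) +
        C * ∫ p in P.K, ‖P.U q.1 g p‖ ∂μ

/-- RES (from SMO, SEC, DEN, C1, C2, C3, C4): the resolvent on the graph -/
def St_RES : Prop := ∀ (G : Type) [Group G] (m N : ℕ) (x : Sing G m) (S : Spinor (m + 1) N)
  (μ : Measure x.X.M), 4 ∣ m + 1 → (∀ y, 0 < x.N.scal y) → x.X.IsVol μ →
  (∀ e, x.IsGraph S μ e → ∀ q ∈ Grf x S μ,
    (e - amp G (((1 / 2 : ℝ) • (1 - S.gr)).compLpL 2 μ))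
      (q.2 + amp G (S.gr.compLpL 2 μ) q.1) = q.1) ∧
  Dense ((fun q => q.2 + amp G (S.gr.compLpL 2 μ) q.1) '' Grf x S μ) ∧
  ∀ q ∈ Grf x S μ, (amp G (S.gr.compLpL 2 μ) q.1, -amp G (S.gr.compLpL 2 μ) q.2) ∈ Grf x S μ

/-- PACK (from BG1, CUT, MUL, C4, NL, PAT, RES) -/
def St_PACK : Prop := ∀ (G : Type) [Group G] (m N : ℕ) (x : Sing G m) (S : Spinor (m + 1) N)
  (μ : Measure x.X.M), 4 ∣ m + 1 → (∀ y, 0 < x.N.scal y) → x.X.IsVol μ → ∀ e, x.IsGraph S μ e →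
  Nonempty (Pack (S.gr.compLpL 2 μ) (e - amp G (((1 / 2 : ℝ) • (1 - S.gr)).compLpL 2 μ)))

/-- the theorem of this route -/
def St_MAIN : Prop := ∃ (G : Type) (_ : Group G), Group.FG G ∧ ∃ z : BCH.K0 (Cr G),
  ∀ (k N : ℕ) (S : Spinor (8 * k + 7 + 1) N) (x : Sing G (8 * k + 7)), (∀ y, 0 < x.N.scal y) →
    ¬ x.IsIndex S z

theorem compLpL_half {M : Type} [MeasurableSpace M] (μ : Measure M) {N : ℕ}
    (w : Eu N →L[ℝ] Eu N) : (((1 / 2 : ℝ) • (1 - w)).compLpL 2 μ : Lp (Eu N) 2 μ →L[ℝ] _) =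
      (1 / 2 : ℝ) • (1 - w.compLpL 2 μ) := by
  ext s
  filter_upwards [((1 / 2 : ℝ) • (1 - w)).coeFn_compLpL s, w.coeFn_compLpL s,
    Lp.coeFn_smul (1 / 2 : ℝ) (s - w.compLpL 2 μ s), Lp.coeFn_sub s (w.compLpL 2 μ s)]
    with p h1 h2 h3 h4
  rw [h1]
  change _ = ((1 / 2 : ℝ) • (s - w.compLpL 2 μ s)) p
  rw [h3, Pi.smul_apply, h4, Pi.sub_apply, h2]
  simp

theorem mem_RA_of_redAlg {G : Type} [Group G] {p : V G ℝ →L[ℝ] V G ℝ} (hp : p ∈ IT.redAlg G) :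
    p ∈ RA G ℝ := by
  refine closure_minimal (t := (RR G ℝ ℝ : Set _)) ?_ isClosed_RR hp
  refine Submodule.span_le.2 ?_
  rintro T ⟨g, hg⟩
  have : T = tw g 1 := op_ext fun ξ y => hg ξ y
  rw [this]
  exact tw_mem _ _

theorem main_of (hDG : DG.St_MAIN) (hKTR : St_KTR) (hMFU : St_MFU) (hABS : St_ABS)
    (hPACK : St_PACK) : St_MAIN := by
  obtain ⟨G, _, hfg, p, hp, hpp, -, hne⟩ := hDG
  obtain ⟨τ, hτ⟩ := hKTR G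
  let p' : Cr G := ⟨p, mem_RA_of_redAlg hp⟩
  have hp' : (!![p'] : Matrix (Fin 1) (Fin 1) (Cr G)) * !![p'] = !![p'] := by
    ext i j : 1; fin_cases i; fin_cases j
    have : p' * p' = p' := Subtype.ext hpp
    simp [this]
  refine ⟨G, inferInstance, hfg, BCH.cls !![p'], fun k N S x hx ⟨μ, hμ, e, he, hg, hi⟩ => ?_⟩
  obtain ⟨X⟩ := hPACK G _ N x S μ ⟨2 * k + 2, by ring⟩ hx hμ e hg
  obtain ⟨h1, h2, z, h3, r, a, q, h4, h5⟩ := hABS G _ μ N _ _ _ X τ hτ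
    (sub_mem he (amp_mem _)) (compLpL_half μ S.gr)
  rw [add_sub_cancel] at h2 h3
  have h6 := hMFU G _ e _ _ _ he h2 h1 hi h3
  rw [← h6, hτ 1 _ hp', Fin.sum_univ_one] at h5
  exact hne r a h4 1 q (by simpa using h5)

end Pool.Agent.Lib.L1I
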