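import Pool.Agent.Lib.L1I.C2

/-! Block C1: pointwise calculus on the covering. -/

noncomputable section

open Set Filter Topology MeasureTheory BCO CliffordAlgebra
open scoped Manifold ContDiff RealInnerProductSpace

namespace Pool.Agent.Lib.L1I

namespace C1

open CX ANA PS

theorem nab_inner {n N : ℕ} {X : SM n} {S : Spinor n N} {a b : ℕ} {p : X.M} {u φ : X.M → Eu N}
    (ha : p ∈ X.U a) (hb : p ∈ X.U b) (hu : MDifferentiableAt (𝓡 n) 𝓘(ℝ, Eu N) u p)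
    (hφ : MDifferentiableAt (𝓡 n) 𝓘(ℝ, Eu N) φ p) :
    ∑ j, ⟪Fm.nab (X.F a) (gam S) j (fun y => S.c (X.s a b y) (u y)) p,
      Fm.nab (X.F a) (gam S) j (fun y => S.c (X.s a b y) (φ y)) p⟫ =
      ∑ j, ⟪Fm.nab (X.F b) (gam S) j u p, Fm.nab (X.F b) (gam S) j φ p⟫ := by
  have ho := SMG.orth_rot' (X.spin a b p ⟨ha, hb⟩)
  symm
  calc _ = ∑ j, ⟪S.c (X.s a b p) (Fm.nab (X.F b) (gam S) j u p),
        S.c (X.s a b p) (Fm.nab (X.F b) (gam S) j φ p)⟫ := by
        simp only [S.inner_spin (SMG.s_mem X ha hb)]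
    _ = ∑ k, ∑ i, (∑ j, SMG.rot (X.F a) (X.F b) k j p * SMG.rot (X.F a) (X.F b) i j p) *
        ⟪Fm.nab (X.F a) (gam S) i (fun y => S.c (X.s a b y) (u y)) p,
          Fm.nab (X.F a) (gam S) k (fun y => S.c (X.s a b y) (φ y)) p⟫ := by
        simp only [SMG.nab_gauge X S ha hb hu, SMG.nab_gauge X S ha hb hφ, sum_inner, inner_sum,
          real_inner_smul_left, real_inner_smul_right, Finset.sum_mul]
        rw [Finset.sum_comm]
        refine Finset.sum_congr rfl fun i _ => ?_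
        rw [Finset.sum_comm]
        exact Finset.sum_congr rfl fun k _ => Finset.sum_congr rfl fun j _ => by ring
    _ = _ := by simp [ho]

variable {G : Type} [Group G] {m N : ℕ} {x : Sing G m} {S : Spinor (m + 1) N} {a i : ℕ} {g γ : G}
  {ξ ζ : G → x.X.M → Eu N} {p : x.X.M} {u u' : x.X.M → Eu N}

theorem dirac_congr (h : u =ᶠ[𝓝 p] u') : x.X.dirac S a u p = x.X.dirac S a u' p := by
  rw [dirac_eq, dirac_eq, Fm.dir_congr _ h]

theorem dirac_zero (h : u =ᶠ[𝓝 p] 0) : x.X.dirac S a u p = 0 := by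
  rw [dirac_eq, Fm.dir_zero _ h]

theorem lc_Dt (hξ : Ts x S ξ) (ha : p ∈ Wp x a i) :
    lc x S a i g (Dt x S ξ) p = x.X.dirac S a (lc x S a i g ξ) p := by
  rw [dirac_congr (lc_ev ha (mem_Wp p)),
    SMG.dirac_gauge _ S ha.1 (mem_fr _ p) (hξ.md (mem_Wp p) _)]
  rfl

theorem sm_Dt (hξ : Ts x S ξ) : Sm x S (Dt x S ξ) := by
  obtain ⟨K, k1, k2⟩ := hξ.cpt
  obtain ⟨T, t⟩ := hξ.fin
  refine ⟨⟨T, fun γ hγ => funext fun p => dirac_zero (Eventually.of_forall (t _ _ _ hγ))⟩,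
    ⟨K, k1, fun γ p hp => dirac_zero ?_⟩, fun a i g p hp => ?_⟩
  · filter_upwards [k1.isClosed.isOpen_compl.mem_nhds hp] with y hy
    rw [comp, k2 _ y hy, map_zero]
    rfl
  · have h1 := (sm x.X a).dir_smooth hp.1 (hξ.sm a i g p hp) (gam S)
    rw [← dirac_eq] at h1
    exact h1.contMDiffWithinAt.congr (fun y hy => lc_Dt hξ hy) (lc_Dt hξ hp)

theorem Dt_sec (hu : El x a i u) : Dt x S (x.sec S a i g u) = x.sec S a i g (x.X.dirac S a u) := by
  classical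
  funext γ p
  by_cases h1 : p ∈ tsupport u
  · rw [of_lc (S := S) (hu.sub h1) (Dt x S _) γ, lc_Dt (hu.ts g) (hu.sub h1),
      dirac_congr (lc_sec_ev (hu.sub h1)), Sing.sec]
    split_ifs
    · rfl
    · rw [dirac_zero EventuallyEq.rfl, map_zero]
  · rw [sec_zero (dirac_zero (notMem_tsupport_iff_eventuallyEq.1 h1))]
    exact dirac_zero (lc_sec_zero h1)

end C1

open PS CX ANA C1 in
theorem stC1 : St_C1 := by
  intro G _ m N x S
  refine ⟨fun ξ hξ => ⟨sm_Dt (ts_of_sm hξ), fun a i g p hp => lc_Dt (ts_of_sm hξ) hp⟩,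
    fun ξ ζ hξ hζ a i g p hp => ?_, fun a i g ψ hψ => ?_, fun ξ ζ r hξ hζ => ?_, Ts.zero.toSm,
    funext fun γ => funext fun p => dirac_zero (Eventually.of_forall fun _ => map_zero _)⟩
  · replace hξ := ts_of_sm hξ
    replace hζ := ts_of_sm hζ
    simp only [Gam_eq, nab_eq]
    rw [← nab_inner (a := a) hp.1 (mem_fr _ p) (hξ.md (mem_Wp p) _) (hζ.md (mem_Wp p) _)]
    refine Finset.sum_congr rfl fun j _ => ?_
    exact congrArg₂ _ (Fm.nab_congr _ (lc_ev hp (mem_Wp p))).symm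
      (Fm.nab_congr _ (lc_ev hp (mem_Wp p))).symm
  · have hu : El x a i ψ := ⟨hψ.1, hψ.2.1, hψ.2.2⟩
    exact ⟨(hu.ts g).toSm, Dt_sec hu, fun g' p hp => lc_sec hp⟩
  · replace hξ := ts_of_sm hξ
    replace hζ := ts_of_sm hζ
    have h1 : Ts x S fun γ p => r • ξ γ p :=
      hξ.smul (θ := fun _ _ => r) fun _ _ _ _ _ => contMDiffAt_const
    refine ⟨(h1.add hζ).toSm, funext fun γ => funext fun p => ?_⟩
    have h2 := h1.Bg_add (w := 0) (v := fun _ => 0) hζ γ p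
    rw [hξ.Bg_smul, Bg_zero_eq, Bg_zero_eq, Bg_zero_eq] at h2
    exact h2

end Pool.Agent.Lib.L1I
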