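import Pool.Agent.Lib.L1I.NL

/-! Block C2: Leibniz rules on the covering. -/

noncomputable section

open Set Filter Topology MeasureTheory BCO CliffordAlgebra
open scoped Manifold ContDiff RealInnerProductSpace

namespace Pool.Agent.Lib.L1I

namespace PS

open CX ANA

theorem nab_eq {n N : ℕ} (X : SM n) (S : Spinor n N) (a : ℕ) (i : Fin n) (u : X.M → Eu N) :
    nab X S a i u = Fm.nab (X.F a) (gam S) i u := by
  funext x
  simp only [nab, Fm.nab, Fm.con, LICH.lam, gam, map_mul, _root_.smul_apply,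
    _root_.sum_apply, dd_eq, ga_eq]

theorem norm_sum_gam {n N : ℕ} (S : Spinor n N) (t : Fin n → ℝ) (y : Eu N) :
    ‖∑ i, t i • gam S i y‖ ^ 2 = ∑ i, (t i * ‖y‖) ^ 2 := by
  have h1 : ∑ i, t i • gam S i y = S.c (ι _ (∑ i, t i • bv i)) y := by simp [gam]
  have h2 : ‖(∑ i, t i • bv i : Eu n)‖ ^ 2 = ∑ i, t i ^ 2 := by
    rw [EuclideanSpace.real_norm_sq_eq]
    simp [bv, Pi.single_apply]
  simp only [h1, S.norm_ι, mul_pow, h2, Finset.sum_mul]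

variable {G : Type} [Group G] {m N : ℕ} {x : Sing G m} {S : Spinor (m + 1) N} {a i : ℕ} {g : G}
  {ξ : G → x.X.M → Eu N}

theorem Dt_eq (γ : G) (p : x.X.M) : Dt x S ξ γ p =
    Fm.dir (x.X.F (x.X.fr p)) (gam S) (lc x S (x.X.fr p) (x.f p).ix γ ξ) p := by
  rw [Dt, dirac_eq]
  rfl

theorem Gam_eq (ζ : G → x.X.M → Eu N) (γ : G) (p : x.X.M) : Gam x S ξ ζ γ p =
    ∑ j, ⟪Fm.nab (x.X.F (x.X.fr p)) (gam S) j (lc x S (x.X.fr p) (x.f p).ix γ ξ) p,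
      Fm.nab (x.X.F (x.X.fr p)) (gam S) j (lc x S (x.X.fr p) (x.f p).ix γ ζ) p⟫ := by
  simp only [Gam, nab_eq]
  rfl

theorem lc_gr (h : Even (m + 1)) {p : x.X.M} (hp : p ∈ Wp x a i) :
    lc x S a i g (fun γ p => S.gr (ξ γ p)) =ᶠ[𝓝 p] fun p => S.gr (lc x S a i g ξ p) := by
  filter_upwards [(isOpen_Wp a i).mem_nhds hp] with y hy
  exact (S.gr_spin h (SMG.s_mem _ hy.1 (mem_fr _ y)) _).symm

end PS

open PS CX ANA in
theorem stC2 : St_C2 := by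
  intro G _ m N x S
  refine ⟨fun ξ φ hξ hφ => ?_, fun h ξ hξ => ?_, fun Ψ hΨ => ?_⟩
  · replace hξ := ts_of_sm hξ
    refine ⟨(hξ.smul (θ := fun _ p => φ p) fun _ _ _ p _ => hφ p).toSm, fun γ p => ?_⟩
    rw [Dt_eq, Dt_eq, lc_smul fun _ p => φ p, Fm.dir_smul _ ((hφ p).mdifferentiableAt (by simp))
      (hξ.md (mem_Wp p) γ), lc_self, c_grad]
    rfl
  · have hT := ts_of_sm hξ
    refine ⟨⟨hξ.fin.imp fun s hs γ hγ => funext fun p => by simp [hs γ hγ],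
      hξ.cpt.imp fun K hK => ⟨hK.1, fun γ p hp => by simp [hK.2 γ p hp]⟩, fun a i g p hp =>
        ((contMDiffAt_const.clm_apply (hT.sm a i g p hp)).congr_of_eventuallyEq
          (lc_gr h hp)).contMDiffWithinAt⟩, fun γ p => ?_⟩
    rw [Dt_eq, Dt_eq, Fm.dir_congr _ (lc_gr h (mem_Wp p)),
      Fm.dir_anti (γ := gam S) _ (fun _ => S.gr_mul_ι h _) (hT.md (mem_Wp p) γ)]
  · obtain ⟨L, hL⟩ := exists_deriv_bound hΨ.1 hΨ.2.2.2
    refine ⟨8 * L ^ 2, by positivity, fun ξ hξ => ?_⟩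
    replace hξ := ts_of_sm hξ
    refine ⟨(hξ.psi hΨ.1).toSm, fun γ p => ?_⟩
    have hd := hΨ.2.1.deriv_nonneg (x := ‖ξ γ p‖ ^ 2)
    have hp := cut_mem hΨ (‖ξ γ p‖ ^ 2)
    have e := fun j => (Fm.nab_congr (γ := gam S) (i := j) (x.X.F (x.X.fr p))
      (lc_psi (ξ := ξ) (S := S) (g := γ) Ψ (mem_Wp p))).trans
        (nab_psi (gam_cl S) (hΨ.1.differentiable (by simp)) (hξ.md (mem_Wp p) γ) j)
    simp only [lc_self] at e
    simp only [Gam_eq, Dt_eq, Fm.dir, e]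
    obtain ⟨z, hz⟩ : ∃ z : Fin (m + 1) → Eu N, ∀ j,
      Fm.nab (x.X.F (x.X.fr p)) (gam S) j (lc x S (x.X.fr p) (x.f p).ix γ ξ) p = z j := ⟨_, fun _ => rfl⟩
    simp only [hz]
    constructor
    · refine Finset.sum_nonneg fun j _ => ?_
      rw [inner_add_right, real_inner_smul_right, real_inner_smul_right]
      nlinarith [mul_nonneg hd (mul_self_nonneg ⟪z j, ξ γ p⟫),
        mul_nonneg hp.1 (real_inner_self_nonneg (x := z j))]
    · simp only [map_add, map_smul, Finset.sum_add_distrib, ← Finset.smul_sum]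
      have h1 : ‖Ψ (‖ξ γ p‖ ^ 2) • ∑ j, gam S j (z j)‖ ≤ ‖∑ j, gam S j (z j)‖ := by
        rw [norm_smul, Real.norm_of_nonneg hp.1]
        exact mul_le_of_le_one_left (norm_nonneg _) hp.2
      have h2 : ‖∑ j, (deriv Ψ (‖ξ γ p‖ ^ 2) * (2 * ⟪z j, ξ γ p⟫)) • gam S j (ξ γ p)‖ ^ 2 ≤
          4 * L ^ 2 * ∑ j, ⟪z j, z j⟫ := by
        rw [norm_sum_gam, Finset.mul_sum]
        refine Finset.sum_le_sum fun j _ => ?_
        rw [real_inner_self_eq_norm_sq, show 4 * L ^ 2 * ‖z j‖ ^ 2 = (2 * (L * ‖z j‖)) ^ 2 by ring,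
          sq_le_sq, abs_mul, abs_mul, abs_mul, abs_of_nonneg hd, abs_two, abs_norm]
        have a1 := abs_real_inner_le_norm (z j) (ξ γ p)
        have a2 := mul_le_mul_of_nonneg_right (hL _ (sq_nonneg ‖ξ γ p‖)) (norm_nonneg (z j))
        have a3 : deriv Ψ (‖ξ γ p‖ ^ 2) * (2 * |⟪z j, ξ γ p⟫|) * ‖ξ γ p‖ ≤
            deriv Ψ (‖ξ γ p‖ ^ 2) * (2 * (‖z j‖ * ‖ξ γ p‖)) * ‖ξ γ p‖ := by gcongr
        exact le_trans (by nlinarith) (le_abs_self _)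
      refine (pow_le_pow_left₀ (norm_nonneg _) ((norm_add_le _ _).trans
        (add_le_add h1 le_rfl)) 2).trans (add_sq_le.trans ?_)
      linarith

end Pool.Agent.Lib.L1I
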