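import Pool.Agent.Lib.L1I.Blue
import Pool.Agent.Lib.ANA.Div
import Pool.Agent.Lib.CX.Sec
import Pool.Agent.Lib.SMG.Gauge

/-! A smooth field with compact support on the covering is a finite sum of test sections. -/

noncomputable section

open Set Function Filter Topology
open scoped Manifold ContDiff

namespace Pool.Agent.Lib.L1I

open CX

namespace C3

variable {G : Type} [Group G] {m N : ℕ} (x : Sing G m) (S : Spinor (m + 1) N)

theorem isOpen_Om (a i : ℕ) : IsOpen (Om x a i) := (x.X.isOpen a).inter (x.isOpen_t i)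

theorem mem_Om (p : x.X.M) : p ∈ Om x (x.X.fr p) (x.f p).ix :=
  ⟨x.X.mem_U_fr p, BG1.t_ix _⟩

/-- A cut-off of a function that is smooth on `Om` is a test function. -/
theorem tst_smul {a i : ℕ} {θ : x.X.M → ℝ} {u : x.X.M → Eu N}
    (h1 : ContMDiff (𝓡 (m + 1)) 𝓘(ℝ, ℝ) ∞ θ) (h2 : HasCompactSupport θ)
    (h3 : tsupport θ ⊆ Om x a i) (hu : ContMDiffOn (𝓡 (m + 1)) 𝓘(ℝ, Eu N) ∞ u (Om x a i)) :
    Tst x a i fun p => θ p • u p := by
  have h4 : tsupport (fun p => θ p • u p) ⊆ tsupport θ := tsupport_smul_subset_left θ u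
  exact ⟨contMDiff_of_tsupport fun p hp => (h1 p).smul
    (hu.contMDiffAt ((isOpen_Om x a i).mem_nhds (h3 (h4 hp)))), h2.smul_right, h4.trans h3⟩

/-- The sum over the sheets. -/
theorem sum_sec {a i : ℕ} {θ : x.X.M → ℝ} (h3 : tsupport θ ⊆ Om x a i) (ξ : G → x.X.M → Eu N)
    (T : Finset G) (γ : G) (p : x.X.M) (hT : kap x i p * γ ∉ T → ξ γ p = 0) :
    ∑ g ∈ T, x.sec S a i g (fun q => θ q • comp x S a i g ξ q) γ p = θ p • ξ γ p := by
  classical
  have h1 : x.sec S a i (kap x i p * γ) (fun q => θ q • comp x S a i (kap x i p * γ) ξ q) γ p =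
      θ p • ξ γ p := by
    refine (if_pos rfl).trans ?_
    rw [map_smul, comp, inv_mul_cancel_left]
    by_cases h : θ p = 0
    · simp [h]
    · have h2 := SMG.s_inv x.X (x.X.mem_U_fr p) (h3 (subset_tsupport _ h)).1
      rw [← mul_apply_eq_comp, ← map_mul, h2, map_one, one_apply_eq_self]
  refine (Finset.sum_eq_single (kap x i p * γ) (fun g _ hg => ?_) fun h => ?_).trans h1
  · exact if_neg fun h => hg h.symm
  · exact h1.trans (by rw [hT h, smul_zero])

end C3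

theorem stC3 : St_C3 := by
  classical
  intro G _ m N x S ξ ⟨⟨s, hs⟩, ⟨K, hK, hK0⟩, hsm⟩
  obtain ⟨r, p, θ, h1, h2⟩ := ANA.exists_part' hK (fun y => Om x (x.X.fr y) (x.f y).ix)
    fun y _ => (C3.isOpen_Om x _ _).mem_nhds (C3.mem_Om x y)
  obtain ⟨_, F, hF⟩ := x.exists_fin
  let T : Finset G := (F ×ˢ s).image fun z => z.1 * z.2
  let e := (Fintype.equivFin (Fin r × T)).symm
  refine ⟨_, fun l => x.X.fr (p (e l).1), fun l => (x.f (p (e l).1)).ix, fun l => (e l).2,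
    fun l q => θ (e l).1 q • comp x S (x.X.fr (p (e l).1)) (x.f (p (e l).1)).ix (e l).2 ξ q,
    fun l => C3.tst_smul x (h1 _).2.1 (h1 _).2.2.1 (h1 _).2.2.2 (hsm _ _ _), ?_⟩
  rw [e.sum_comp fun z : Fin r × T => x.sec S (x.X.fr (p z.1)) (x.f (p z.1)).ix z.2
    fun q => θ z.1 q • comp x S (x.X.fr (p z.1)) (x.f (p z.1)).ix z.2 ξ q, Fintype.sum_prod_type]
  funext γ q
  simp only [Finset.sum_apply]
  have h3 : ∀ l, ∑ g : T, x.sec S (x.X.fr (p l)) (x.f (p l)).ix g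
      (fun q => θ l q • comp x S (x.X.fr (p l)) (x.f (p l)).ix g ξ q) γ q = θ l q • ξ γ q :=
    fun l => by
      rw [← C3.sum_sec x S (h1 l).2.2.2 ξ T γ q fun h => congrFun (hs γ fun hγ =>
        h (Finset.mem_image.2 ⟨(_, γ), Finset.mem_product.2 ⟨(hF q).2 _ _, hγ⟩, rfl⟩)) q]
      exact Finset.sum_coe_sort T fun g => x.sec S (x.X.fr (p l)) (x.f (p l)).ix g
        (fun q => θ l q • comp x S (x.X.fr (p l)) (x.f (p l)).ix g ξ q) γ q
  rw [Finset.sum_congr rfl fun l _ => h3 l, ← Finset.sum_smul]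
  by_cases hq : q ∈ K
  · rw [h2.self_of_nhdsSet q hq, one_smul]
  · rw [hK0 γ q hq, smul_zero]

end Pool.Agent.Lib.L1I
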