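import Pool.Agent.Lib.L1I.Blue
import Pool.Agent.Lib.CX.Sec

/-! Classes of smooth fields on the covering and the integrated identities. -/

noncomputable section

open Set Function Filter Topology MeasureTheory CliffordAlgebra BCO
open scoped Manifold ContDiff InnerProductSpace ENNReal

namespace Pool.Agent.Lib.L1I

open CX

namespace C460

section Base

variable {n N : ℕ} {X : SM n} {S : Spinor n N} {u v : X.M → Eu N} {p : X.M}

theorem nab_congr (h : u =ᶠ[𝓝 p] v) (a : ℕ) (j : Fin n) : nab X S a j u p = nab X S a j v p := by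
  unfold nab SM.dd
  rw [h.mfderiv_eq, h.eq_of_nhds]

theorem nab_zero (h : u =ᶠ[𝓝 p] 0) (a : ℕ) (j : Fin n) : nab X S a j u p = 0 := by
  rw [nab_congr h]
  unfold nab SM.dd
  have : mfderiv (𝓡 n) 𝓘(ℝ, Eu N) (0 : X.M → Eu N) p = 0 := mfderiv_const
  rw [this]
  simp
  rfl

theorem dirac_nab (a : ℕ) (u : X.M → Eu N) (p : X.M) :
    X.dirac S a u p = ∑ j, S.c (ι (Qn n) (bv j)) (nab X S a j u p) := rfl

theorem dirac_congr (h : u =ᶠ[𝓝 p] v) (a : ℕ) : X.dirac S a u p = X.dirac S a v p := by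
  simp only [dirac_nab, nab_congr h]

theorem dirac_zero (h : u =ᶠ[𝓝 p] 0) (a : ℕ) : X.dirac S a u p = 0 := by
  simp only [dirac_nab, nab_zero h, map_zero, Finset.sum_const_zero]

theorem nab_add (hu : MDifferentiableAt (𝓡 n) 𝓘(ℝ, Eu N) u p)
    (hv : MDifferentiableAt (𝓡 n) 𝓘(ℝ, Eu N) v p) (a : ℕ) (j : Fin n) :
    nab X S a j (u + v) p = nab X S a j u p + nab X S a j v p := by
  have h : X.dd a j (u + v) p = X.dd a j u p + X.dd a j v p := by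
    unfold SM.dd
    rw [(hu.hasMFDerivAt.add hv.hasMFDerivAt).mfderiv]
    rfl
  simp only [nab, h, Pi.add_apply, map_add, smul_add, Finset.sum_add_distrib]
  abel

end Base

variable {G : Type} [Group G] {m N : ℕ} {x : Sing G m} {S : Spinor (m + 1) N}
  {μ : Measure x.X.M}

variable (μ) in
/-- integrable functions on the covering and their integral -/
def Unf (h : G → x.X.M → ℝ) (r : ℝ) : Prop :=
  (∀ γ, Integrable (h γ) μ) ∧ HasSum (fun γ => ∫ p, h γ p ∂μ) r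

theorem Unf.add {h h' : G → x.X.M → ℝ} {r r' : ℝ} (a : Unf μ h r) (b : Unf μ h' r') :
    Unf μ (fun γ p => h γ p + h' γ p) (r + r') := by
  refine ⟨fun γ => (a.1 γ).add (b.1 γ), ?_⟩
  have := a.2.add b.2
  simpa only [← integral_add (a.1 _) (b.1 _)] using this

theorem Unf.zero : Unf μ (fun (_ : G) (_ : x.X.M) => (0 : ℝ)) 0 :=
  ⟨fun _ => integrable_zero _ _ _, by simp⟩

theorem Unf.unique {h : G → x.X.M → ℝ} {r r' : ℝ} (a : Unf μ h r) (b : Unf μ h r') : r = r' :=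
  a.2.unique b.2

theorem unf_inner {ξ ζ : G → x.X.M → Eu N} {u v : V G (Lp (Eu N) 2 μ)} (hu : Cls μ ξ u)
    (hv : Cls μ ζ v) : Unf μ (fun γ p => ⟪ξ γ p, ζ γ p⟫_ℝ) ⟪u, v⟫_ℝ := by
  have e : ∀ γ, (fun p => ⟪u γ p, v γ p⟫_ℝ) =ᵐ[μ] fun p => ⟪ξ γ p, ζ γ p⟫_ℝ := by
    intro γ
    filter_upwards [hu γ, hv γ] with p h1 h2
    rw [h1, h2]
  refine ⟨fun γ => (L2.integrable_inner (𝕜 := ℝ) (u γ) (v γ)).congr (e γ), ?_⟩
  have := lp.hasSum_inner (𝕜 := ℝ) u v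
  simpa only [L2.inner_def, integral_congr_ae (e _)] using this

open Classical in
/-- `h` lives on the sheet `g_i = g`, with values `H` -/
def On (i : ℕ) (g : G) (h : G → x.X.M → ℝ) (H : x.X.M → ℝ) : Prop :=
  ∀ γ p, h γ p = if kap x i p * γ = g then H p else 0

theorem exists_T (i : ℕ) (g : G) : ∃ T : Finset G, ∀ p, (kap x i p)⁻¹ * g ∈ T := by
  classical
  obtain ⟨_, s, hs⟩ := x.exists_fin
  exact ⟨s.image fun h => h⁻¹ * g, fun p => Finset.mem_image_of_mem _ ((hs p).2 i _)⟩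

variable {i : ℕ} {g : G} {h : G → x.X.M → ℝ} {H : x.X.M → ℝ}

theorem On.sum (o : On i g h H) : ∃ T : Finset G, (∀ γ ∉ T, ∀ p, h γ p = 0) ∧
    ∀ p, ∑ γ ∈ T, h γ p = H p := by
  classical
  obtain ⟨T, hT⟩ := exists_T (x := x) i g
  refine ⟨T, fun γ hγ p => ?_, fun p => ?_⟩
  · rw [o, if_neg]
    rintro rfl
    exact hγ (by simpa using hT p)
  · rw [Finset.sum_eq_single_of_mem _ (hT p), o, if_pos (mul_inv_cancel_left _ _)]
    intro γ _ hγ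
    rw [o, if_neg]
    rintro rfl
    exact hγ (by simp)

theorem On.unf (o : On i g h H) (hi : ∀ γ, Integrable (h γ) μ) : Unf μ h (∫ p, H p ∂μ) := by
  obtain ⟨T, h1, h2⟩ := o.sum
  refine ⟨hi, ?_⟩
  have : ∫ p, H p ∂μ = ∑ γ ∈ T, ∫ p, h γ p ∂μ := by
    rw [← integral_finsetSum _ fun γ _ => hi γ]
    simp only [h2]
  rw [this]
  exact hasSum_sum_of_ne_finset_zero fun γ hγ => by simp [h1 γ hγ]

theorem On.int (o : On i g h H) (hH : Integrable H μ) (γ : G) : Integrable (h γ) μ := by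
  classical
  have : h γ = (x.sheet i (g * γ⁻¹)).indicator H := by
    funext p
    rw [o]
    simp only [indicator_apply, Sing.sheet, mem_ofPred_eq, eq_mul_inv_iff_mul_eq, kap]
    congr
  rw [this]
  exact hH.indicator (x.measurableSet_sheet i _)

theorem On.add {h' : G → x.X.M → ℝ} {H' : x.X.M → ℝ} (o : On i g h H) (o' : On i g h' H') :
    On i g (fun γ p => h γ p + h' γ p) fun p => H p + H' p := by
  intro γ p
  simp only [o γ p, o' γ p]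
  split_ifs <;> simp

theorem isOpen_Om (a i : ℕ) : IsOpen (Om x a i) := (x.X.isOpen a).inter (x.isOpen_t i)

theorem mem_Om (p : x.X.M) : p ∈ Om x (x.X.fr p) (x.f p).ix := ⟨SM.mem_U_fr p, BG1.t_ix _⟩

theorem inner_comp {a : ℕ} {p : x.X.M} (hp : p ∈ Om x a i) (ξ ζ : G → x.X.M → Eu N) (γ : G) :
    ⟪ξ γ p, ζ γ p⟫_ℝ = ⟪comp x S a i (kap x i p * γ) ξ p, comp x S a i (kap x i p * γ) ζ p⟫_ℝ := by
  unfold comp
  rw [S.inner_spin (x.X.spin _ _ p ⟨hp.1, SM.mem_U_fr p⟩).1, inv_mul_cancel_left]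

theorem md {ξ : G → x.X.M → Eu N} (hξ : Sm x S ξ) {a : ℕ} {p : x.X.M} (hp : p ∈ Om x a i)
    (g : G) : MDifferentiableAt (𝓡 (m + 1)) 𝓘(ℝ, Eu N) (comp x S a i g ξ) p :=
  ((hξ.sm a i g).contMDiffAt ((isOpen_Om a i).mem_nhds hp)).mdifferentiableAt (by simp)

theorem gam_add {ξ ζ ζ' : G → x.X.M → Eu N} (h : Sm x S ζ) (h' : Sm x S ζ') (γ : G) (p : x.X.M) :
    Gam x S ξ (ζ + ζ') γ p = Gam x S ξ ζ γ p + Gam x S ξ ζ' γ p := by
  have e : comp x S (x.X.fr p) (x.f p).ix γ (ζ + ζ') =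
      comp x S (x.X.fr p) (x.f p).ix γ ζ + comp x S (x.X.fr p) (x.f p).ix γ ζ' := by
    funext y
    simp [comp]
  simp only [Gam, e, nab_add (md h (mem_Om p) γ) (md h' (mem_Om p) γ), inner_add_right,
    Finset.sum_add_distrib]

theorem cls_add {ξ ζ : G → x.X.M → Eu N} {u v : V G (Lp (Eu N) 2 μ)} (hu : Cls μ ξ u)
    (hv : Cls μ ζ v) : Cls μ (ξ + ζ) (u + v) := by
  intro γ
  filter_upwards [hu γ, hv γ, Lp.coeFn_add (u γ) (v γ)] with p h1 h2 h3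
  change (u γ + v γ) p = _
  rw [h3, Pi.add_apply, h1, h2]
  rfl

theorem cls_zero : Cls μ (0 : G → x.X.M → Eu N) 0 := fun _ => Lp.coeFn_zero _ _ _

variable (x S μ) in
/-- the identities for a pair of fields -/
structure Idt (ξ ζ : G → x.X.M → Eu N) : Prop where
  sm : Sm x S ζ
  sym : ∃ r, Unf μ (fun γ p => ⟪Dt x S ξ γ p, ζ γ p⟫_ℝ) r ∧
    Unf μ (fun γ p => ⟪ξ γ p, Dt x S ζ γ p⟫_ℝ) r
  i1 : ∀ γ, Integrable (Gam x S ξ ζ γ) μ
  i2 : ∀ γ, Integrable (fun p => x.X.scal p / 4 * ⟪ξ γ p, ζ γ p⟫_ℝ) μ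
  lic : ∃ r, Unf μ (fun γ p => Gam x S ξ ζ γ p + x.X.scal p / 4 * ⟪ξ γ p, ζ γ p⟫_ℝ) r ∧
    Unf μ (fun γ p => ⟪Dt x S ξ γ p, Dt x S ζ γ p⟫_ℝ) r

theorem idt_zero (hC1 : St_C1) (ξ : G → x.X.M → Eu N) : Idt x S μ ξ 0 := by
  obtain ⟨-, -, -, -, h1, h2⟩ := hC1 G m N x S
  have e : Gam x S ξ 0 = fun _ _ => 0 := by
    funext γ p
    have : comp x S (x.X.fr p) (x.f p).ix γ (0 : G → x.X.M → Eu N) =ᶠ[𝓝 p] 0 :=
      Eventually.of_forall fun y => by simp [comp]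
    simp only [Gam, nab_zero this, inner_zero_right, Finset.sum_const_zero]
  refine ⟨h1, ⟨0, ?_, ?_⟩, fun γ => ?_, fun γ => ?_, 0, ?_, ?_⟩
  · simpa using Unf.zero
  · simpa [h2] using Unf.zero
  · simp [e]
  · simp
  · simpa [e] using Unf.zero
  · simpa [h2] using Unf.zero

theorem Idt.add (hC1 : St_C1) {ξ ζ ζ' : G → x.X.M → Eu N} (a : Idt x S μ ξ ζ)
    (b : Idt x S μ ξ ζ') : Idt x S μ ξ (ζ + ζ') := by
  obtain ⟨-, -, -, h, -⟩ := hC1 G m N x S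
  obtain ⟨h1, h2⟩ := h ζ ζ' 1 a.sm b.sm
  simp only [one_smul] at h1 h2
  obtain ⟨r, a1, a2⟩ := a.sym
  obtain ⟨r', b1, b2⟩ := b.sym
  obtain ⟨t, a3, a4⟩ := a.lic
  obtain ⟨t', b3, b4⟩ := b.lic
  refine ⟨h1, ⟨r + r', ?_, ?_⟩, fun γ => ?_, fun γ => ?_, t + t', ?_, ?_⟩
  · simpa only [Pi.add_apply, inner_add_right] using a1.add b1
  · simpa only [h2, Pi.add_apply, inner_add_right] using a2.add b2
  · have : Gam x S ξ (ζ + ζ') γ = Gam x S ξ ζ γ + Gam x S ξ ζ' γ :=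
      funext fun p => gam_add a.sm b.sm γ p
    rw [this]
    exact (a.i1 γ).add (b.i1 γ)
  · simp only [Pi.add_apply, inner_add_right, mul_add]
    exact (a.i2 γ).add (b.i2 γ)
  · convert a3.add b3 using 3 with γ p
    rw [gam_add a.sm b.sm, Pi.add_apply, Pi.add_apply, inner_add_right]
    ring
  · simpa only [h2, Pi.add_apply, inner_add_right] using a4.add b4

theorem idt_sec (hLOC : St_LOC) (hC1 : St_C1) (hμ : x.X.IsVol μ)
    (hc : ∀ ξ, Sm x S ξ → ∃ ξ', Cls μ ξ ξ') {ξ : G → x.X.M → Eu N} (hξ : Sm x S ξ) {a : ℕ}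
    {ψ : x.X.M → Eu N} (hψ : Tst x a i ψ) (g : G) : Idt x S μ ξ (x.sec S a i g ψ) := by
  classical
  obtain ⟨c1, c2, c3, -⟩ := hC1 G m N x S
  obtain ⟨hB, -, hB'⟩ := c3 a i g ψ hψ
  set B := x.sec S a i g ψ with hBd
  have hin : ∀ {A A' : G → x.X.M → Eu N}, Sm x S A → Sm x S A' → ∀ γ,
      Integrable (fun p => ⟪A γ p, A' γ p⟫_ℝ) μ := by
    intro A A' h h'
    obtain ⟨u, hu⟩ := hc A h
    obtain ⟨v, hv⟩ := hc A' h'
    exact (unf_inner hu hv).1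
  have ev1 : ∀ p ∈ Om x a i, comp x S a i g B =ᶠ[𝓝 p] ψ := fun p hp => by
    filter_upwards [(isOpen_Om a i).mem_nhds hp] with y hy
    rw [hB' g y hy, if_pos rfl]
  have ev2 : ∀ p ∈ Om x a i, ∀ g' ≠ g, comp x S a i g' B =ᶠ[𝓝 p] 0 := fun p hp g' hg => by
    filter_upwards [(isOpen_Om a i).mem_nhds hp] with y hy
    rw [hB' g' y hy, if_neg hg]
    rfl
  have ev3 : ∀ p ∉ Om x a i, ψ =ᶠ[𝓝 p] 0 := fun p hp =>
    notMem_tsupport_iff_eventuallyEq.1 fun h => hp (hψ.2.2 h)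
  have z : ∀ y, ψ y = 0 → ∀ γ, B γ y = 0 := fun y hy γ => by simp [hBd, Sing.sec, hy]
  have ev4 : ∀ p ∉ Om x a i, ∀ b j γ, comp x S b j γ B =ᶠ[𝓝 p] 0 := fun p hp b j γ => by
    filter_upwards [ev3 p hp] with y hy
    simp [comp, z y hy]
  have o0 : ∀ A : G → x.X.M → Eu N, On i g (fun γ p => ⟪A γ p, B γ p⟫_ℝ)
      fun p => ⟪comp x S a i g A p, ψ p⟫_ℝ := by
    intro A γ p
    by_cases hp : p ∈ Om x a i
    · simp only [inner_comp (S := S) hp A B γ, hB' _ p hp]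
      split_ifs with e
      · rw [e]
      · simp
    · simp [z p (ev3 p hp).eq_of_nhds, (ev3 p hp).eq_of_nhds]
  have o1 : ∀ A : G → x.X.M → Eu N, On i g (fun γ p => ⟪A γ p, Dt x S B γ p⟫_ℝ)
      fun p => ⟪comp x S a i g A p, x.X.dirac S a ψ p⟫_ℝ := by
    intro A γ p
    by_cases hp : p ∈ Om x a i
    · simp only [inner_comp (S := S) hp A (Dt x S B) γ, (c1 B hB).2 a i _ p hp]
      split_ifs with e
      · rw [e, dirac_congr (ev1 p hp)]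
      · rw [dirac_zero (ev2 p hp _ e), inner_zero_right]
    · simp [Dt, dirac_zero (ev4 p hp _ _ _), dirac_zero (ev3 p hp)]
  have o2 : On i g (Gam x S ξ B)
      fun p => ∑ j, ⟪nab x.X S a j (comp x S a i g ξ) p, nab x.X S a j ψ p⟫_ℝ := by
    intro γ p
    by_cases hp : p ∈ Om x a i
    · have := c2 ξ B hξ hB a i (kap x i p * γ) p hp
      rw [inv_mul_cancel_left] at this
      rw [this]
      split_ifs with e
      · simp only [e, nab_congr (ev1 p hp)]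
      · simp only [nab_zero (ev2 p hp _ e), inner_zero_right, Finset.sum_const_zero]
    · simp [Gam, nab_zero (ev4 p hp _ _ _), nab_zero (ev3 p hp)]
  have o3 : On i g (fun γ p => x.X.scal p / 4 * ⟪ξ γ p, B γ p⟫_ℝ)
      fun p => x.X.scal p / 4 * ⟪comp x S a i g ξ p, ψ p⟫_ℝ := by
    intro γ p
    have := o0 ξ γ p
    simp only at this ⊢
    rw [this]
    split_ifs <;> simp
  obtain ⟨l1, l2, l3, l4⟩ := hLOC _ N x.X S μ hμ a (Om x a i) (comp x S a i g ξ) ψ (isOpen_Om a i)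
    inter_subset_left (hξ.sm a i g) hψ.1 hψ.2.1 hψ.2.2
  have e1 : (fun p => ⟪comp x S a i g (Dt x S ξ) p, ψ p⟫_ℝ) =
      fun p => ⟪x.X.dirac S a (comp x S a i g ξ) p, ψ p⟫_ℝ := by
    funext p
    by_cases hp : p ∈ Om x a i
    · rw [(c1 ξ hξ).2 a i g p hp]
    · simp [(ev3 p hp).eq_of_nhds]
  have e2 : (fun p => ⟪comp x S a i g (Dt x S ξ) p, x.X.dirac S a ψ p⟫_ℝ) =
      fun p => ⟪x.X.dirac S a (comp x S a i g ξ) p, x.X.dirac S a ψ p⟫_ℝ := by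
    funext p
    by_cases hp : p ∈ Om x a i
    · rw [(c1 ξ hξ).2 a i g p hp]
    · simp [dirac_zero (ev3 p hp)]
  refine ⟨hB, ⟨_, ?_, (o1 ξ).unf (hin hξ (c1 B hB).1)⟩, o2.int l2, o3.int l3, _,
    (o2.add o3).unf fun γ => (o2.int l2 γ).add (o3.int l3 γ), ?_⟩
  · rw [← l1, ← e1]
    exact (o0 (Dt x S ξ)).unf (hin (c1 ξ hξ).1 hB)
  · rw [← l4, ← e2]
    exact (o1 (Dt x S ξ)).unf (hin (c1 ξ hξ).1 (c1 B hB).1)

end C460

open C460 in
theorem stC4 (hLOC : St_LOC) (hSEC : St_SEC) (hC1 : St_C1) (hC3 : St_C3) : St_C4 := by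
  intro G _ m N x S μ hμ
  have hc : ∀ ξ, Sm x S ξ → ∃ ξ', Cls μ ξ ξ' := by
    intro ξ hξ
    obtain ⟨r, a, i, g, ψ, h, rfl⟩ := hC3 G m N x S ξ hξ
    refine Finset.sum_induction _ (fun ξ => ∃ ξ', Cls μ ξ ξ') ?_ ⟨0, cls_zero⟩ fun l _ => ?_
    · rintro _ _ ⟨u, hu⟩ ⟨v, hv⟩
      exact ⟨_, cls_add hu hv⟩
    · exact hSEC G m N x S μ hμ _ _ _ _ (h l).1.continuous (h l).2.1 (h l).2.2
  refine ⟨hc, fun ξ ξ' u u' d d' hξ hξ' hu hu' hd hd' => ?_⟩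
  have I : Idt x S μ ξ ξ' := by
    obtain ⟨r, a, i, g, ψ, h, rfl⟩ := hC3 G m N x S ξ' hξ'
    exact Finset.sum_induction _ (Idt x S μ ξ) (fun _ _ => Idt.add hC1) (idt_zero hC1 ξ)
      fun l _ => idt_sec hLOC hC1 hμ hc hξ (h l) _
  obtain ⟨r, a1, a2⟩ := I.sym
  obtain ⟨t, a3, a4⟩ := I.lic
  refine ⟨((unf_inner hd hu').unique a1).trans (a2.unique (unf_inner hu hd')), I.i1, I.i2, ?_⟩
  rw [(unf_inner hd hd').unique a4]
  exact a3.2

end Pool.Agent.Lib.L1I
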