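import Pool.Agent.Lib.L1I.Blue
import Pool.Agent.Lib.MFI.CXGlue

/-! Block CJ: invariance of the index under an equivalence of idempotents. -/

noncomputable section

open BCO

namespace Pool.Agent.Lib.L1I

open CX

namespace CJ

variable {G : Type} [Group G] {E : Type} [NormedAddCommGroup E] [NormedSpace ℝ E] {r : ℕ}

theorem blk_apply (a : V G E →L[ℝ] V G E) (q : Matrix (Fin r) (Fin r) (Cr G))
    (ξ : V G (E × (Fin r → ℝ))) (x : G) : blk a q ξ x = (a (amp G (.fst ℝ E _) ξ) x,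
      fun i => ∑ j, (q i j).1 (amp G (.proj j ∘L .snd ℝ E _) ξ) x) := by
  change (a (amp G (.fst ℝ E _) ξ) x, 0) + (∑ i, ∑ j, amp G (.inr ℝ E _ ∘L
    .single ℝ (fun _ => ℝ) i) ∘L (q i j).1 ∘L amp G (.proj j ∘L .snd ℝ E _)) ξ x = _
  simp only [sum_apply']
  ext i
  · simp [Prod.fst_sum]
  · simp [Prod.snd_sum, Pi.single_apply]

theorem fst_blk (a : V G E →L[ℝ] V G E) (q : Matrix (Fin r) (Fin r) (Cr G))
    (ξ : V G (E × (Fin r → ℝ))) :
    amp G (.fst ℝ E _) (blk a q ξ) = a (amp G (.fst ℝ E _) ξ) :=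
  lp.ext (funext fun x => by rw [amp_apply, blk_apply]; rfl)

theorem snd_blk (a : V G E →L[ℝ] V G E) (q : Matrix (Fin r) (Fin r) (Cr G))
    (ξ : V G (E × (Fin r → ℝ))) (i : Fin r) :
    amp G (.proj i ∘L .snd ℝ E _) (blk a q ξ) =
      ∑ j, (q i j).1 (amp G (.proj j ∘L .snd ℝ E _) ξ) :=
  lp.ext (funext fun x => by rw [amp_apply, blk_apply, lp.coeFn_sum, Finset.sum_apply]; rfl)

theorem blk_mul (a b : V G E →L[ℝ] V G E) (p q : Matrix (Fin r) (Fin r) (Cr G)) :
    blk a p * blk b q = blk (a * b) (p * q) := by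
  refine op_ext fun ξ x => ?_
  change blk a p (blk b q ξ) x = _
  rw [blk_apply, blk_apply, fst_blk]
  refine Prod.ext rfl (funext fun i => ?_)
  have h1 : ∀ j, (p i j).1 (amp G (.proj j ∘L .snd ℝ E _) (blk b q ξ)) x =
      ∑ l, (p i j * q j l).1 (amp G (.proj l ∘L .snd ℝ E _) ξ) x := fun j => by
    rw [snd_blk, map_sum, lp.coeFn_sum, Finset.sum_apply]
    rfl
  have h2 : ∀ l, ((p * q) i l).1 (amp G (.proj l ∘L .snd ℝ E _) ξ) x =
      ∑ j, (p i j * q j l).1 (amp G (.proj l ∘L .snd ℝ E _) ξ) x := fun l => by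
    rw [Matrix.mul_apply, AddSubmonoidClass.coe_finsetSum, sum_apply']
  simp only [h1, h2]
  exact Finset.sum_comm

theorem blk_sub (a b : V G E →L[ℝ] V G E) :
    blk a (0 : Matrix (Fin r) (Fin r) (Cr G)) - blk b 0 =
      amp G (.inl ℝ E _) ∘L (a - b) ∘L amp G (.fst ℝ E _) := by
  unfold blk
  rw [add_sub_add_right_eq_sub, ContinuousLinearMap.sub_comp, ContinuousLinearMap.comp_sub]

end CJ

theorem stCJ : St_CJ := by
  intro G _ E _ _ _ e e' P x y z _ hx hy he he' hP h1 h2 hK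
  rintro ⟨r, p, q, hp, hq, X, hX, Y, hY, h3, h4, h5, rfl⟩
  have me : e ∈ RA G E := h1 ▸ mul_mem hy hx
  have me' : e' ∈ RA G E := h2 ▸ mul_mem hx hy
  have m1 : blk (e' * x * e) q ∈ RA G _ := MFI.blk_mem ⟨_, mul_mem (mul_mem me' hx) me⟩ q
  have m2 : blk (e * y * e') q ∈ RA G _ := MFI.blk_mem ⟨_, mul_mem (mul_mem me hy) me'⟩ q
  have a1 : e' * x * e * (e * y * e') = e' := by
    calc e' * x * e * (e * y * e') = e' * (x * (e * e) * y) * e' := by simp only [mul_assoc]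
      _ = e' * ((x * y) * (x * y)) * e' := by rw [he, ← h1]; simp only [mul_assoc]
      _ = e' := by rw [h2, he', he', he']
  have a2 : e * y * e' * e' * (e' * x * e) = e := by
    calc e * y * e' * e' * (e' * x * e) = e * (y * (e' * e' * e') * x) * e := by
          simp only [mul_assoc]
      _ = e * ((y * x) * (y * x)) * e := by rw [he', he', ← h2]; simp only [mul_assoc]
      _ = e := by rw [h1, he, he, he]
  refine ⟨r, p, q, hp, hq, X * blk (e' * x * e) q, mul_mem hX m1, blk (e * y * e') q * Y,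
    mul_mem m2 hY, ?_, ?_, ?_, rfl⟩
  · rw [mul_assoc, ← mul_assoc _ _ Y, CJ.blk_mul, a1, hq, ← h4, ← mul_assoc, ← mul_assoc, h3,
      mul_assoc, h3, CJ.blk_mul, hP, hp]
  · rw [mul_assoc, ← mul_assoc Y, h4, ← mul_assoc, CJ.blk_mul, CJ.blk_mul, a2, hq, hq]
  · have a3 : X * blk (e' * x * e) q - blk (P * e) 0 =
        (X - blk (P * e') 0) * blk (e' * x * e) q + (blk (P * (e' * x * e)) 0 - blk (P * e) 0) := by
      rw [sub_mul, CJ.blk_mul, zero_mul, mul_assoc P, ← mul_assoc e', ← mul_assoc e', he',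
        sub_add_sub_cancel]
    rw [a3, CJ.blk_sub]
    exact add_mem (MFI.KK_mul_mem h5 m1) (MFI.sand_mem_KK (amp_mem _) hK (amp_mem _))

end Pool.Agent.Lib.L1I
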