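import Pool.Agent.Lib.L1I.Blue
import Pool.Agent.Lib.ANA.CylY
import Pool.Agent.Lib.AN.GAU

/-! Block CUT: a potential with small gradient. -/

noncomputable section

open Set Function Filter Topology
open scoped Manifold ContDiff InnerProductSpace

namespace Pool.Agent.Lib.L1I

open CX ANA.Cyl

theorem norm_grad_sq {n : ℕ} (X : SM n) (a : ℕ) (φ : X.M → ℝ) (p : X.M) :
    ‖grad X a φ p‖ ^ 2 = ∑ i, X.dd a i φ p ^ 2 := by
  rw [EuclideanSpace.real_norm_sq_eq]
  refine Finset.sum_congr rfl fun i _ => ?_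
  simp [grad, bv, Finset.sum_apply, Pi.single_apply]

theorem dd_const_mul {n : ℕ} (X : SM n) (a : ℕ) (i : Fin n) (c : ℝ) {φ : X.M → ℝ} {p : X.M}
    (h : MDifferentiableAt (𝓡 n) 𝓘(ℝ, ℝ) φ p) :
    X.dd a i (fun y => c * φ y) p = c * X.dd a i φ p := by
  have := const_smul_mfderiv h c
  exact congrArg (fun L : TangentSpace (𝓡 n) p →L[ℝ] ℝ => L (X.e a i p)) this

theorem stCUT : St_CUT := by
  intro G _ m x hp
  have hG : ∀ (n : ℕ) (Y : SM n) a b p, p ∈ Y.U a → p ∈ Y.U b →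
      ∑ i, ∑ j, Y.riem a i j j i p = ∑ i, ∑ j, Y.riem b i j j i p := fun n Y a b p ha hb =>
    ((AN.stGAU n 0 Y (AN.sp0 n)).scal ha).trans ((AN.stGAU n 0 Y (AN.sp0 n)).scal hb).symm
  obtain ⟨κ, C, hκ, hC, h1, h2⟩ := scal_lower x (hG _ x.N) (hG _) hp
  have hl : 0 < C + κ + 1 := by positivity
  obtain ⟨ρ, r1, r2, -, r4, r5⟩ := exists_cutoff x (K := x.core) x.core_cpt
    (ε := κ / 8 / (C + κ + 1)) (by positivity)
  refine ⟨fun p => (C + κ + 1) * ρ p, κ / 8, contMDiff_const.mul r1, r2.mul_left, by positivity,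
    fun p => ?_⟩
  have h3 : ‖grad x.X (x.X.fr p) (fun p => (C + κ + 1) * ρ p) p‖ ≤ κ / 8 := by
    refine (sq_le_sq₀ (norm_nonneg _) (by positivity)).1 ?_
    rw [norm_grad_sq]
    simp only [dd_const_mul x.X _ _ _ (r1.mdifferentiableAt (by simp)), mul_pow, ← Finset.mul_sum]
    refine (mul_le_mul_of_nonneg_left (r5 p) (sq_nonneg _)).trans_eq ?_
    field_simp
  rcases le_or_gt (ht x p) 1 with h | h
  · rw [r4 p ((mem_core_iff x).2 h), mul_one]
    have := neg_abs_le (x.X.scal p)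
    have := h2 p
    nlinarith
  · have := h1 p (one_pos.trans h)
    have := sq_nonneg ((C + κ + 1) * ρ p)
    linarith

end Pool.Agent.Lib.L1I
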