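import Pool.Agent.Lib.L1I.Patch

/-! The a priori bound for the resolvent family and the continuity method. -/

noncomputable section

open scoped ENNReal Topology
open Filter Set

namespace Pool.Agent.Lib.L1I

variable {H J ι : Type*} [NormedAddCommGroup H] [NormedSpace ℝ H]
  {π : J → H →L[ℝ] H}

theorem Cells.rn_ins (h : Cells π) {L T A Q Q' : H →L[ℝ] H} {l ε m : ℝ≥0∞} (hε : ε ≤ 1)
    (hL : rn π L ≤ l) (hA : rn π A ≤ l) (hL' : rn π (L * (1 - Q')) ≤ ε)
    (hA' : rn π ((1 - Q) * A) ≤ ε) (hm : rn π (Q' * T * Q) ≤ m) :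
    rn π (L * T * A) ≤ l * m * l + ε * (2 * l + 1) * rn π T := by
  have e : L * T * A = L * (Q' * T * Q) * A + (L * (1 - Q') * T * A +
      (L - L * (1 - Q')) * T * ((1 - Q) * A)) := by noncomm_ring
  have h1 : rn π (L * (Q' * T * Q) * A) ≤ l * m * l :=
    (h.rn_mul _ _).trans (mul_le_mul' ((h.rn_mul _ _).trans (mul_le_mul' hL hm)) hA)
  have h2 : rn π (L * (1 - Q') * T * A) ≤ ε * rn π T * l :=
    (h.rn_mul _ _).trans (mul_le_mul' ((h.rn_mul _ _).trans (mul_le_mul' hL' le_rfl)) hA)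
  have h3 : rn π ((L - L * (1 - Q')) * T * ((1 - Q) * A)) ≤ (l + 1) * rn π T * ε :=
    (h.rn_mul _ _).trans (mul_le_mul' ((h.rn_mul _ _).trans (mul_le_mul'
      ((rn_sub _ _).trans (add_le_add hL (hL'.trans hε))) le_rfl)) hA')
  rw [e]
  refine (rn_add _ _).trans ((add_le_add h1 ((rn_add _ _).trans (add_le_add h2 h3))).trans_eq ?_)
  ring

/-- The continuity method. -/
theorem Cells.rn_ne_top_of_apriori (h : Cells π) {R : ℝ → H →L[ℝ] H} {w : H →L[ℝ] H} {σ : ℝ}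
    (hw : rn π w ≤ 1) (hσ : rn π (R σ) ≠ ⊤)
    (hres : ∀ s ∈ Icc 0 σ, ∀ s' ∈ Icc 0 σ, R s = R s' + (s' - s) • (R s' * w * R s))
    {C : ℝ≥0∞} (hC : C ≠ ⊤) (hap : ∀ s ∈ Icc 0 σ, rn π (R s) ≠ ⊤ → rn π (R s) ≤ C) :
    ∀ s ∈ Icc 0 σ, rn π (R s) ≤ C := by
  obtain ⟨t, ht, htC⟩ := ENNReal.exists_nnreal_pos_mul_lt hC (b := 2⁻¹) (by simp)
  have ht' : (0 : ℝ) < t := ht
  have key : ∀ n : ℕ, ∀ s ∈ Icc 0 σ, σ - s ≤ n * (t : ℝ) → rn π (R s) ≤ C := by
    intro n
    induction n with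
    | zero =>
      intro s hs h0
      have : s = σ := le_antisymm hs.2 (by simpa using h0)
      exact hap s hs (this ▸ hσ)
    | succ n ih =>
      intro s hs h0
      have hs' : min σ (s + t) ∈ Icc 0 σ :=
        ⟨le_min (hs.1.trans hs.2) (by linarith [hs.1]), min_le_left _ _⟩
      have h1 := ih _ hs' (by
        rcases le_total σ (s + t) with h' | h'
        · rw [min_eq_left h', sub_self]; positivity
        · rw [min_eq_right h']; push_cast at h0; linarith)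
      have h2 : |min σ (s + t) - s| ≤ t := by
        rw [abs_le]
        have := min_le_right σ (s + t)
        have := le_min hs.2 (show s ≤ s + t by linarith)
        constructor <;> linarith
      have h3 : rn π ((min σ (s + t) - s) • (R (min σ (s + t)) * w)) ≤ 2⁻¹ := by
        refine (rn_smul _ _).trans (le_trans ?_ htC.le)
        refine mul_le_mul' ((ENNReal.ofReal_le_ofReal h2).trans_eq ENNReal.ofReal_coe_nnreal) ?_
        simpa using (h.rn_mul _ _).trans (mul_le_mul' h1 hw)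
      have h4 := h.rn_fix (X := R s) (A := R (min σ (s + t))) h3 (by
        rw [smul_mul_assoc]; exact hres s hs _ hs')
      exact hap s hs (ne_top_of_le_ne_top (ENNReal.mul_ne_top ENNReal.ofNat_ne_top
        (ne_top_of_le_ne_top hC h1)) h4)
  intro s hs
  obtain ⟨n, hn⟩ := exists_nat_ge ((σ - s) / t)
  exact key n s hs ((div_le_iff₀ ht').1 hn)

variable [CompleteSpace H] {N : ι → Finset J} {M : ℕ} {η c : ι → H →L[ℝ] H} {C σ : ℝ}
  {R : ℝ → H →L[ℝ] H} {w W : H →L[ℝ] H}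

/-- The resolvents `R s = (D + w (W + s))⁻¹`, `0 ≤ s ≤ σ`, have finite row norm. -/
theorem Pou.rn_family (h : Pou π N M η c C (R σ))
    (hB : M ^ 2 * ENNReal.ofReal (‖R σ‖ * C) ≤ 2⁻¹) (hww : w * w = 1) (hw : rn π w ≤ 1)
    (hW : rn π W ≠ ⊤) (hwη : ∀ j, w * η j = η j * w) (hWη : ∀ j, W * η j = η j * W)
    (hres : ∀ s ∈ Icc 0 σ, ∀ s' ∈ Icc 0 σ, R s = R s' + (s' - s) • (R s' * w * R s))
    (hres' : ∀ s ∈ Icc 0 σ, R s = R σ + (σ - s) • (R s * w * R σ))
    (hsq : ∀ s ∈ Icc 0 σ, R σ * w * R s =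
      (-w + R σ * ((2 : ℝ) • W + (s + σ) • 1)) * (R s * R s))
    (hP : ∀ δ > 0, ∃ (P P' : ι → H →L[ℝ] H) (p : ℝ) (m : ℝ≥0∞), m ≠ ⊤ ∧ LL π N P ∧ RL π N P' ∧
      (∀ j, ‖P j‖ ≤ p) ∧ (∀ j, ‖P' j‖ ≤ p) ∧
      (∀ Y ∈ ({1, w, W} : Set (H →L[ℝ] H)), ∀ j, ‖(1 - P j) * η j * Y * R σ‖ ≤ δ ∧
        ‖R σ * Y * η j * (1 - P' j)‖ ≤ δ) ∧
      ∀ s ∈ Icc 0 σ, ∀ j, ∑' j', en (P' j * (R s * R s) * P j') ≤ m) :
    ∃ C' : ℝ≥0∞, C' ≠ ⊤ ∧ ∀ s ∈ Icc 0 σ, rn π (R s) ≤ C' := by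
  have hc := h.cells
  set B := R σ with hBdef
  set b := rn π B with hb
  have hbt : b ≠ ⊤ := ne_top_of_le_ne_top (ENNReal.mul_ne_top ENNReal.ofNat_ne_top
    (ENNReal.mul_ne_top (by simp) (en_ne_top B))) (h.rn_le hB)
  set τ := ENNReal.ofReal σ with hτ
  have hτt : τ ≠ ⊤ := ENNReal.ofReal_ne_top
  set z := 2 * rn π W + 2 * τ with hz
  have hzt : z ≠ ⊤ := by finiteness
  set u := 1 + b * z with hu
  set l := b * u with hl
  set κ := M ^ 2 * (1 + ENNReal.ofReal C * b) * (1 + b * (2 + 2 * τ)) with hκ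
  have hκt : κ ≠ ⊤ := by finiteness
  obtain ⟨δ, hδ, hδκ⟩ := ENNReal.exists_nnreal_pos_mul_lt
    (a := κ * (1 + τ * τ * 3 * (2 * l + 1))) (b := 2⁻¹) (by finiteness) (by simp)
  obtain ⟨P, P', p, m, hm, hPL, hPR, hp, hp', hY, hT⟩ := hP δ hδ
  obtain ⟨Q, hQ, hQY⟩ := h.exists_right hPL hp
  obtain ⟨Q', hQ', hQY'⟩ := h.exists_left hPR hp'
  set ε₀ := M ^ 2 * (δ : ℝ≥0∞) * (1 + ENNReal.ofReal C * b) with hε₀
  set ε := (δ : ℝ≥0∞) * κ with hε
  have hεe : ε = ε₀ * (1 + b * (2 + 2 * τ)) := by rw [hε, hκ, hε₀]; ring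
  have hε0 : ε₀ ≤ ε := hεe ▸ le_mul_of_one_le_right' le_self_add
  have hε2 : ε * (1 + τ * τ * 3 * (2 * l + 1)) ≤ 2⁻¹ := by rw [hε, mul_assoc]; exact hδκ.le
  have hε1 : ε ≤ 1 := (le_mul_of_one_le_right' le_self_add).trans (hε2.trans (by simp))
  have hr : ∀ Y ∈ ({1, w, W} : Set (H →L[ℝ] H)), rn π ((1 - Q) * (Y * B)) ≤ ε₀ ∧
      rn π (B * Y * (1 - Q')) ≤ ε₀ := fun Y hY' => by
    have hcm : ∀ j, Y * η j = η j * Y := by
      rcases hY' with rfl | rfl | rfl
      exacts [fun j => by simp, hwη, hWη]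
    exact ⟨by simpa using hQY Y δ hcm fun j => (hY Y hY' j).1,
      by simpa using hQY' Y δ δ.2 hcm fun j => (hY Y hY' j).2⟩
  obtain ⟨r1, l1⟩ := hr 1 (by simp)
  obtain ⟨rw', lw⟩ := hr w (by simp)
  obtain ⟨-, lW⟩ := hr W (by simp)
  rw [one_mul] at r1
  rw [mul_one] at l1
  have hbl : b ≤ l := le_mul_of_one_le_right' le_self_add
  have hBw : rn π (B * w) ≤ b := by simpa using (hc.rn_mul B w).trans (mul_le_mul' le_rfl hw)
  have hwB : rn π (w * B) ≤ b := by simpa using (hc.rn_mul w B).trans (mul_le_mul' hw le_rfl)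
  refine ⟨b + τ * (u * (2 * (b * b + τ * (b * b * b) + τ * (b * b * b) +
    τ * τ * 3 * (l * (M ^ 2 * m) * l)))), by finiteness,
    hc.rn_ne_top_of_apriori hw hbt hres (by finiteness) fun s hs hfin => ?_⟩
  have hσs : σ ∈ Icc 0 σ := ⟨hs.1.trans hs.2, le_rfl⟩
  set T := R s * R s with hTdef
  set Z : H →L[ℝ] H := (2 : ℝ) • W + (s + σ) • 1 with hZ
  set U := -w + B * Z with hU
  set t := σ - s with ht
  have htτ : ENNReal.ofReal |t| ≤ τ := ENNReal.ofReal_le_ofReal (by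
    rw [abs_le]; constructor <;> linarith [hs.1, hs.2])
  have hsτ : ENNReal.ofReal |s + σ| ≤ 2 * τ := by
    rw [hτ, ← ENNReal.ofReal_ofNat 2, ← ENNReal.ofReal_mul zero_le_two]
    exact ENNReal.ofReal_le_ofReal (by rw [abs_le]; constructor <;> linarith [hs.1, hs.2])
  have h2 : ENNReal.ofReal |(2 : ℝ)| = 2 := by simp
  have hsm : ∀ X, rn π (t • X) ≤ τ * rn π X := fun X =>
    (rn_smul t X).trans (mul_le_mul' htτ le_rfl)
  have hZr : rn π Z ≤ z := (rn_add _ _).trans (add_le_add ((rn_smul _ _).trans_eq (by rw [h2]))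
    ((rn_smul _ _).trans (by simpa using mul_le_mul' hsτ hc.rn_one)))
  have hUr : rn π U ≤ u := (rn_add _ _).trans (add_le_add ((rn_neg w).trans_le hw)
    ((hc.rn_mul _ _).trans (mul_le_mul' le_rfl hZr)))
  have hZs : rn π (B * Z * (1 - Q')) ≤ ε₀ * (2 + 2 * τ) := by
    have e : B * Z * (1 - Q') = (2 : ℝ) • (B * W * (1 - Q')) + (s + σ) • (B * (1 - Q')) := by
      simp only [hZ, mul_add, add_mul, mul_smul_comm, smul_mul_assoc, mul_one]
    rw [e]
    refine (rn_add _ _).trans ((add_le_add ((rn_smul _ _).trans (mul_le_mul' h2.le lW))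
      ((rn_smul _ _).trans (mul_le_mul' hsτ l1))).trans_eq ?_)
    ring
  have hR1 : R s = B + t • (U * T) := by rw [hU, hTdef, hZ, ← hsq s hs]; exact hres s hs σ hσs
  have hL1 : rn π (B * U * (1 - Q')) ≤ ε := by
    have e : B * U * (1 - Q') = -(B * w * (1 - Q')) + B * (B * Z * (1 - Q')) := by
      rw [hU]; noncomm_ring
    rw [e, hεe]
    refine (rn_add _ _).trans ((add_le_add ((rn_neg _).trans_le lw)
      ((hc.rn_mul _ _).trans (mul_le_mul' le_rfl hZs))).trans_eq ?_)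
    ring
  have hL2 : rn π (B * w * U * (1 - Q')) ≤ ε := by
    have e : B * w * U * (1 - Q') = -(B * (w * w) * (1 - Q')) + B * w * (B * Z * (1 - Q')) := by
      rw [hU]; noncomm_ring
    rw [e, hεe, hww, mul_one]
    refine (rn_add _ _).trans ((add_le_add ((rn_neg _).trans_le l1)
      ((hc.rn_mul _ _).trans (mul_le_mul' hBw hZs))).trans_eq ?_)
    ring
  have hmT := (h.rn_compress hQ hQ' (hT s hs))
  have k1 := hc.rn_ins hε1 ((hc.rn_mul B U).trans (mul_le_mul' le_rfl hUr)) (hwB.trans hbl) hL1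
    (rw'.trans hε0) hmT
  have k2 := hc.rn_ins hε1 ((hc.rn_mul (B * w) U).trans (mul_le_mul' hBw hUr)) hbl hL2
    (r1.trans hε0) hmT
  have k3 := hc.rn_ins hε1 (hBw.trans hbl) (hwB.trans hbl) (lw.trans hε0) (rw'.trans hε0) hmT
  have eT : T = B * B + t • (B * B * (w * B)) + t • (B * w * B * B) +
      t • t • (B * U * T * (w * B) + B * w * U * T * B + B * w * T * (w * B)) := by
    have a1 := hres s hs σ hσs
    have a2 := hres' s hs
    rw [← ht] at a1 a2
    have a3 : T = B * B + t • (B * R s * (w * B)) + t • (B * w * R s * B) +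
        t • t • (B * w * T * (w * B)) := by
      calc T = (B + t • (B * w * R s)) * (B + t • (R s * w * B)) := by rw [← a1, ← a2]
        _ = _ := by
          simp only [hTdef, mul_add, add_mul, mul_smul_comm, smul_mul_assoc, mul_assoc, smul_add]
          abel
    have a4 : B * R s * (w * B) = B * B * (w * B) + t • (B * U * T * (w * B)) := by
      conv_lhs => rw [hR1]
      simp only [mul_add, add_mul, mul_smul_comm, smul_mul_assoc, mul_assoc]
    have a5 : B * w * R s * B = B * w * B * B + t • (B * w * U * T * B) := by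
      conv_lhs => rw [hR1]
      simp only [mul_add, add_mul, mul_smul_comm, smul_mul_assoc, mul_assoc]
    rw [a4, a5] at a3
    refine a3.trans ?_
    simp only [smul_add]
    abel
  have hTt : rn π T ≠ ⊤ := ne_top_of_le_ne_top (ENNReal.mul_ne_top hfin hfin) (hc.rn_mul _ _)
  have hBB := hc.rn_mul B B
  have hTb : rn π T ≤ 2 * (b * b + τ * (b * b * b) + τ * (b * b * b) +
      τ * τ * 3 * (l * (M ^ 2 * m) * l)) := by
    refine le_of_le_add_mul (q := ε * (τ * τ * 3 * (2 * l + 1))) hTt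
      ((mul_le_mul' le_rfl le_add_self).trans hε2) ?_
    conv_lhs => rw [eT]
    refine (rn_add _ _).trans ((add_le_add ((rn_add _ _).trans (add_le_add ((rn_add _ _).trans
      (add_le_add hBB ((hsm _).trans (mul_le_mul' le_rfl
        ((hc.rn_mul _ _).trans (mul_le_mul' hBB hwB)))))) ((hsm _).trans (mul_le_mul' le_rfl
        ((hc.rn_mul _ _).trans (mul_le_mul' ((hc.rn_mul _ _).trans (mul_le_mul' hBw le_rfl))
          le_rfl)))))) ((hsm _).trans (mul_le_mul' le_rfl ((hsm _).trans (mul_le_mul' le_rfl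
        ((rn_add _ _).trans (add_le_add ((rn_add _ _).trans (add_le_add k1 k2)) k3))))))).trans_eq ?_)
    ring
  rw [hR1]
  exact (rn_add _ _).trans (add_le_add le_rfl ((hsm _).trans (mul_le_mul' le_rfl
    ((hc.rn_mul _ _).trans (mul_le_mul' hUr hTb)))))

end Pool.Agent.Lib.L1I
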