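import Pool.Agent.Lib.L1I.Blue
import Pool.Agent.Lib.RQ.Blue
import Pool.Agent.Lib.CX.ClifGr

/-! Block DEN: the test vectors span a dense subspace. -/

noncomputable section

open Set Function Filter Topology MeasureTheory BCO
open scoped Manifold ContDiff

namespace Pool.Agent.Lib.L1I

open CX

theorem DEN.dense_fst {W : Type} [NormedAddCommGroup W] [NormedSpace ℝ W] {𝒯 : Set (W × W)}
    {R : W → W} {A : Set W} (h : ∀ η, (η, R η) ∈ (Submodule.span ℝ 𝒯).topologicalClosure)
    (hA : ∀ q ∈ 𝒯, q.1 ∈ A) : Dense (Submodule.span ℝ A : Set W) := fun η => by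
  have : (Submodule.span ℝ 𝒯).topologicalClosure ≤
      (Submodule.span ℝ A).topologicalClosure.comap (LinearMap.fst ℝ W W) :=
    Submodule.topologicalClosure_minimal _
      (Submodule.span_le.2 fun q hq =>
        Submodule.le_topologicalClosure _ (Submodule.subset_span (hA q hq)))
      ((Submodule.isClosed_topologicalClosure _).preimage continuous_fst)
  exact this (h η)

theorem stDEN (hANA : RQ.St_ANA) (hALG : RQ.St_ALG) : St_DEN := by
  intro G _ m N x S μ h4 hx hμ
  have h2 : Even (m + 1) := even_iff_two_dvd.2 (Dvd.dvd.trans (by norm_num) h4)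
  have hg := S.gr_mul_gr h4
  obtain ⟨-, k, P, -, hc, hT⟩ :=
    hANA G m N x S ⟨hg, S.isSelfAdjoint_gr h4, S.gr_mul_ι h2⟩ hx μ hμ
  obtain ⟨R, -, -, -, hd, -⟩ := hALG G _ _ _ P _ hc hT
  refine DEN.dense_fst hd ?_
  rintro q ⟨a, i, g, u, h1, h3, h5, h6⟩
  have e : ∀ p, S.gr (S.gr (u p)) = u p := fun p => congrArg (fun T => T (u p)) hg
  refine ⟨a, i, g, fun p => S.gr (u p), ⟨S.gr.contMDiff.comp h1, h3.comp_left (map_zero _),
    (closure_mono (support_comp_subset (map_zero S.gr) u)).trans h5⟩, fun γ => ?_⟩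
  have e2 : ((fun p => S.gr (u p)) + x.X.dirac S a fun p => S.gr (S.gr (u p))) =
      fun p => x.X.dirac S a u p + S.gr (u p) := by
    funext p
    simp only [e, Pi.add_apply]
    rw [add_comm]
  rw [e2]
  exact (h6 γ).1

end Pool.Agent.Lib.L1I
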