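import Pool.Agent.Lib.L1I.Sob0

/-! The Sobolev inequality for the Dirac operator. -/

noncomputable section

open Set Function MeasureTheory CliffordAlgebra Topology Filter
open scoped Manifold ContDiff ENNReal NNReal RealInnerProductSpace

namespace Pool.Agent.Lib.L1I.SOB

open Pool.Agent.Lib.CX Pool.Agent.Lib.CX.SM Pool.Agent.Lib.TH

variable {n N : ℕ} {X : SM n} {μ : Measure X.M}

theorem cmp_meas (hμ : X.IsVol μ) {x₀ : X.M} {a : ℕ} {K : Set X.M} (hK : IsCompact K)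
    (h : K ⊆ X.W x₀ a) : ∃ C : ℝ≥0,
      μ.restrict K ≤ (C : ℝ≥0∞) • (volume.restrict (X.ct x₀ '' K)).map (X.ct x₀).symm ∧
      (volume.restrict (X.ct x₀ '' K)).map (X.ct x₀).symm ≤ (C : ℝ≥0∞) • μ.restrict K := by
  have hs : K ⊆ (X.ct x₀).source := fun p hp => (h hp).1
  have hK' := cpt_image hK hs
  have hO : X.ct x₀ '' K ⊆ X.Om x₀ a := image_mono h
  have hc := (contDiffOn_dens x₀ a).continuousOn.mono hO
  obtain ⟨m, hm0, hm⟩ := hK'.exists_forall_le' hc fun y hy => dens_pos a (Om_sub (hO hy))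
  obtain ⟨M, hM⟩ := hK'.bddAbove_image hc
  have hme : AEMeasurable (X.ct x₀).symm (volume.restrict (X.ct x₀ '' K)) :=
    ((X.ct x₀).continuousOn_symm.mono (hO.trans Om_sub)).aemeasurable hK'.measurableSet
  have e1 : ∀ A, MeasurableSet A → (volume.restrict (X.ct x₀ '' K)).map (X.ct x₀).symm A =
      volume (X.ct x₀ '' (A ∩ K)) := fun A hA => by
    rw [Measure.map_apply_of_aemeasurable hme hA, Measure.restrict_apply' hK'.measurableSet]
    congr 1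
    ext y
    constructor
    · rintro ⟨h1, p, hp, rfl⟩
      exact ⟨p, ⟨by rwa [mem_preimage, (X.ct x₀).left_inv (hs hp)] at h1, hp⟩, rfl⟩
    · rintro ⟨p, hp, rfl⟩
      exact ⟨by rw [mem_preimage, (X.ct x₀).left_inv (hs hp.2)]; exact hp.1, p, hp.2, rfl⟩
  have e2 : ∀ A, MeasurableSet A → μ.restrict K A =
      ∫⁻ y in X.ct x₀ '' (A ∩ K), ENNReal.ofReal (X.dens x₀ a y) := fun A hA => by
    rw [Measure.restrict_apply hA]
    exact hμ x₀ a _ (hA.inter hK.measurableSet) fun p hp => h hp.2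
  have e3 : ∀ A, MeasurableSet A → MeasurableSet (X.ct x₀ '' (A ∩ K)) := fun A hA =>
    measurableSet_image (hA.inter hK.measurableSet) fun p hp => hs hp.2
  refine ⟨(max M m⁻¹).toNNReal, Measure.le_iff.2 fun A hA => ?_, Measure.le_iff.2 fun A hA => ?_⟩
  · rw [Measure.smul_apply, e1 A hA, e2 A hA, smul_eq_mul, ← setLIntegral_const]
    exact setLIntegral_mono' (e3 A hA) fun y hy => ENNReal.ofReal_le_ofReal
      ((hM ⟨y, image_mono inter_subset_right hy, rfl⟩).trans (le_max_left _ _))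
  · rw [Measure.smul_apply, e1 A hA, e2 A hA, smul_eq_mul,
      ← lintegral_const_mul' _ _ ENNReal.coe_ne_top, ← setLIntegral_one]
    refine setLIntegral_mono' (e3 A hA) fun y hy => ?_
    have h1 := hm y (image_mono inter_subset_right hy)
    change _ ≤ ENNReal.ofReal _ * _
    rw [← ENNReal.ofReal_mul (le_max_of_le_right (inv_pos.2 hm0).le), ENNReal.one_le_ofReal]
    exact ((one_le_inv_mul₀ hm0).2 h1).trans
      (mul_le_mul_of_nonneg_right (le_max_right _ _) (hm0.le.trans h1))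

/-- Comparison of the norms on the manifold and in the chart. -/
theorem cmp {E : Type} [NormedAddCommGroup E] [NormedSpace ℝ E] (hμ : X.IsVol μ) {x₀ : X.M}
    {a : ℕ} {K : Set X.M} (hK : IsCompact K) (h : K ⊆ X.W x₀ a) (r : ℝ≥0∞) : ∃ C : ℝ≥0,
      ∀ g : X.M → E, AEStronglyMeasurable g μ → support g ⊆ K →
        eLpNorm g r μ ≤ C * eLpNorm (up x₀ g) r volume ∧
        eLpNorm (up x₀ g) r volume ≤ C * eLpNorm g r μ := by
  obtain ⟨C, h1, h2⟩ := cmp_meas hμ hK h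
  have hs : K ⊆ (X.ct x₀).source := fun p hp => (h hp).1
  have hK' := cpt_image hK hs
  have hO : X.ct x₀ '' K ⊆ (X.ct x₀).target := (image_mono h).trans Om_sub
  refine ⟨C ^ (1 / r).toReal, fun g hg hgs => ?_⟩
  have e : eLpNorm g r ((volume.restrict (X.ct x₀ '' K)).map (X.ct x₀).symm) =
      eLpNorm (up x₀ g) r volume := by
    rw [eLpNorm_map_measure (hg.restrict.mono_ac (Measure.absolutelyContinuous_of_le_smul h2))
      (((X.ct x₀).continuousOn_symm.mono hO).aemeasurable hK'.measurableSet),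
      ← eLpNorm_restrict_eq_of_support_subset (supp_up hgs)]
    refine eLpNorm_congr_ae ((ae_restrict_iff' hK'.measurableSet).2 (ae_of_all _ fun y hy => ?_))
    exact (indicator_of_mem (hO hy) _).symm
  rw [ENNReal.coe_rpow_of_nonneg _ ENNReal.toReal_nonneg, ← e,
    ← eLpNorm_restrict_eq_of_support_subset hgs]
  exact ⟨eLpNorm_le_of_measure_le_smul h1, eLpNorm_le_of_measure_le_smul h2⟩

theorem l2_eq {V : Type} [NormedAddCommGroup V] [NormedSpace ℝ V] {f : Eu n → V} (hf : Tst f) :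
    eLpNorm f 2 volume = ENNReal.ofReal √(∫ y, ‖f y‖ ^ 2) := by
  rw [(hf.cont.memLp_of_hasCompactSupport hf.cpt).eLpNorm_eq_integral_rpow_norm two_ne_zero
    ENNReal.ofNat_ne_top, Real.sqrt_eq_rpow]
  simp

/-- Gårding's inequality in a chart. -/
theorem gard (S : Spinor n N) {x₀ : X.M} {a : ℕ} {K : Set (Eu n)} (hK : IsCompact K)
    (h : K ⊆ X.Om x₀ a) : ∃ C : ℝ≥0, ∀ f : Eu n → Eu N, Tst f → tsupport f ⊆ K →
      eLpNorm (fderiv ℝ f) 2 volume ≤ C * (eLpNorm f 2 volume + eLpNorm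
        (Pfr (fun i _ => gam S i) (ech x₀ a) (zt S X a ∘ (X.ct x₀).symm) f) 2 volume) := by
  obtain ⟨α, b, c', ha, hc', hP, hE⟩ := globalize (r := fun _ => 1) (γ := fun i _ => gam S i)
    (X.isOpen_Om x₀ a) contDiffOn_const (fun _ => contDiffOn_const) (smooth_ech x₀ a)
    (smooth_zch S x₀ a) hK h
  obtain ⟨C, hC0, hC⟩ := garding (μ := volume) (b := b) ha hc' hK fun x hx L hL => by
    simpa [hE x hx] using ell_pos (gam_rel S) (span_ech (h hx)) hL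
  refine ⟨(√C).toNNReal, fun f hf hs => ?_⟩
  have h1 := hC f hf hs
  have h2 := Pop_tst (b := b) ha hc' hf
  rw [hP f hs] at h1 h2
  simp only [one_smul] at h1 h2
  rw [l2_eq hf.fd, l2_eq hf, l2_eq h2, ← ENNReal.ofReal_add (Real.sqrt_nonneg _) (Real.sqrt_nonneg _)]
  change _ ≤ ENNReal.ofReal _ * _
  rw [← ENNReal.ofReal_mul (Real.sqrt_nonneg _)]
  refine ENNReal.ofReal_le_ofReal ((Real.sqrt_le_sqrt h1).trans ?_)
  rw [Real.sqrt_mul hC0]
  refine mul_le_mul_of_nonneg_left (Real.sqrt_le_iff.2 ⟨by positivity, ?_⟩) (Real.sqrt_nonneg _)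
  rw [add_sq, Real.sq_sqrt (by positivity), Real.sq_sqrt (by positivity), add_comm]
  exact add_le_add (le_add_of_nonneg_right (by positivity)) le_rfl

theorem smooth_dd {E : Type} [NormedAddCommGroup E] [NormedSpace ℝ E] {a : ℕ} (i : Fin n)
    {ψ : X.M → E} {p : X.M} (hp : p ∈ X.U a) (h : ContMDiffAt (𝓡 n) 𝓘(ℝ, E) ∞ ψ p) :
    ContMDiffAt (𝓡 n) 𝓘(ℝ, E) ∞ (X.dd a i ψ) p := by
  have hs : p ∈ (X.ct p).source := mem_chart_source _ p
  have hW := (X.isOpen_W p a).mem_nhds ⟨hs, hp⟩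
  have h1 : ContDiffAt ℝ ∞ (ψ ∘ (X.ct p).symm) (X.ct p p) := contMDiffAt_iff_contDiffAt.1
    (ContMDiffAt.comp _ (by rwa [(X.ct p).left_inv hs]) (symm_smooth ((X.ct p).map_source hs)))
  have h2 := ((h1.fderiv_right (m := ∞) le_rfl).contMDiffAt.comp p (ct_smooth hs)).clm_apply
    ((contMDiffOn_J_apply p a (bv i)).contMDiffAt hW)
  refine h2.congr_of_eventuallyEq ?_
  filter_upwards [hW, (contMDiffAt_iff_contMDiffAt_nhds (n := 1) (by simp)).1 (h.of_le (by simp))]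
    with z hz h3 using dd_chart hz.1 a i (h3.mdifferentiableAt one_ne_zero)

theorem smooth_dirac (S : Spinor n N) {a : ℕ} {ψ : X.M → Eu N} {p : X.M} (hp : p ∈ X.U a)
    (h : ContMDiffAt (𝓡 n) 𝓘(ℝ, Eu N) ∞ ψ p) :
    ContMDiffAt (𝓡 n) 𝓘(ℝ, Eu N) ∞ (X.dirac S a ψ) p := by
  rw [funext (dirac_eq S a ψ)]
  exact (ContMDiffAt.sum fun i _ => contMDiffAt_const.clm_apply (smooth_dd i hp h)).add
    ((smooth_zt S a hp).clm_apply h)

theorem cont_of_cpt {E : Type} [NormedAddCommGroup E] {K : Set X.M} (hK : IsCompact K)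
    {g : X.M → E} (hg : ∀ p ∈ K, ContinuousAt g p) (hs : support g ⊆ K) : Continuous g :=
  continuous_iff_continuousAt.2 fun p => by
    by_cases hp : p ∈ K
    · exact hg p hp
    · refine (continuousAt_const (y := 0)).congr ?_
      filter_upwards [hK.isClosed.isOpen_compl.mem_nhds hp] with z hz
      exact (notMem_support.1 fun h => hz (hs h)).symm

theorem supp_dirac (S : Spinor n N) (a : ℕ) {K : Set X.M} (hK : IsClosed K) {ψ : X.M → Eu N}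
    (hs : support ψ ⊆ K) : support (X.dirac S a ψ) ⊆ K := fun p hp => by
  by_contra h
  exact hp (dirac_zero S a fun h' => h (closure_minimal hs hK h'))

theorem up_dirac (S : Spinor n N) {x₀ : X.M} (a : ℕ) {K : Set X.M} (hK : IsCompact K)
    (h : K ⊆ (X.ct x₀).source) {ψ : X.M → Eu N}
    (hψ : ∀ p ∈ K, ContMDiffAt (𝓡 n) 𝓘(ℝ, Eu N) ∞ ψ p) (hs : support ψ ⊆ K) :
    up x₀ (X.dirac S a ψ) =
      Pfr (fun i _ => gam S i) (ech x₀ a) (zt S X a ∘ (X.ct x₀).symm) (up x₀ ψ) := by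
  funext y
  by_cases hy : y ∈ X.ct x₀ '' K
  · obtain ⟨p, hp, rfl⟩ := hy
    rw [up_ct (h hp), dirac_chart S (h hp) a ((hψ p hp).mdifferentiableAt (by simp))]
  · rw [Pfr_zero fun h' => hy (tsupp_up hK h hs h')]
    exact notMem_support.1 fun h' => hy (supp_up (supp_dirac S a hK.isClosed hs) h')

/-- The derivative in a chart is controlled by the Dirac operator. -/
theorem gard_up (hμ : X.IsVol μ) (S : Spinor n N) {x₀ : X.M} {a : ℕ} {K : Set X.M}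
    (hK : IsCompact K) (h : K ⊆ X.W x₀ a) : ∃ C : ℝ≥0, ∀ ψ : X.M → Eu N,
      (∀ p ∈ K, ContMDiffAt (𝓡 n) 𝓘(ℝ, Eu N) ∞ ψ p) → support ψ ⊆ K →
      eLpNorm (fderiv ℝ (up x₀ ψ)) 2 volume ≤
        C * (eLpNorm ψ 2 μ + eLpNorm (X.dirac S a ψ) 2 μ) := by
  have hs : K ⊆ (X.ct x₀).source := fun p hp => (h hp).1
  obtain ⟨C₁, h1⟩ := gard S (cpt_image hK hs) (image_mono h : _ ⊆ X.Om x₀ a)
  obtain ⟨C₂, h2⟩ := cmp (E := Eu N) hμ hK h 2
  refine ⟨C₁ * C₂, fun ψ hψ hψs => (h1 _ (tst_up hK hs hψ hψs) (tsupp_up hK hs hψs)).trans ?_⟩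
  have hD := supp_dirac S a hK.isClosed hψs
  rw [← up_dirac S a hK hs hψ hψs, ENNReal.coe_mul, mul_assoc, mul_add (C₂ : ℝ≥0∞)]
  exact mul_le_mul_right (add_le_add
    (h2 _ (cont_of_cpt hK (fun p hp => (hψ p hp).continuousAt) hψs).aestronglyMeasurable hψs).2
    (h2 _ (cont_of_cpt hK (fun p hp => (smooth_dirac S (h hp).2 (hψ p hp)).continuousAt)
      hD).aestronglyMeasurable hD).2) _

/-- The Sobolev inequality in a chart. -/
theorem sob_loc (hμ : X.IsVol μ) (S : Spinor n N) {q : ℝ≥0} (hn : 0 < n)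
    (hq : (q : ℝ)⁻¹ = 2⁻¹ - (n : ℝ)⁻¹) {x₀ : X.M} {a : ℕ} {K : Set X.M}
    (hK : IsCompact K) (h : K ⊆ X.W x₀ a) : ∃ C : ℝ≥0, ∀ ψ : X.M → Eu N,
      (∀ p ∈ K, ContMDiffAt (𝓡 n) 𝓘(ℝ, Eu N) ∞ ψ p) → support ψ ⊆ K →
      eLpNorm ψ q μ ≤ C * (eLpNorm ψ 2 μ + eLpNorm (X.dirac S a ψ) 2 μ) := by
  have hs : K ⊆ (X.ct x₀).source := fun p hp => (h hp).1
  obtain ⟨C₁, h1⟩ := gard_up hμ S hK h
  obtain ⟨C₂, h2⟩ := cmp (E := Eu N) hμ hK h q
  refine ⟨C₂ * (eLpNormLESNormFDerivOfEqInnerConst (volume : Measure (Eu n)) (2 : ℝ≥0) * C₁),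
    fun ψ hψ hψs => ?_⟩
  have ht := tst_up hK hs hψ hψs
  have h3 := eLpNorm_le_eLpNorm_fderiv_of_eq_inner volume ht.one ht.cpt (p := 2) (p' := q)
    one_le_two (by simpa using hn) (by simpa using hq)
  refine (h2 _ (cont_of_cpt hK (fun p hp => (hψ p hp).continuousAt) hψs).aestronglyMeasurable
    hψs).1.trans ?_
  rw [ENNReal.coe_mul, ENNReal.coe_mul, mul_assoc, mul_assoc]
  exact mul_le_mul_right (h3.trans (mul_le_mul_right (h1 ψ hψ hψs) _)) _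

theorem glue {E T : Type} [NormedAddCommGroup E] {ν : Measure X.M} {K : Set X.M} (hK : IsCompact K)
    {ψ : T → X.M → E} (hψ : ∀ t, AEStronglyMeasurable (ψ t) ν) {R : T → ℝ≥0∞} {r : ℝ≥0∞}
    (hr : 1 ≤ r) (h : ∀ x ∈ K, ∃ A ∈ 𝓝 x, ∃ C : ℝ≥0, ∀ t, eLpNorm (ψ t) r (ν.restrict A) ≤ C * R t) :
    ∃ C : ℝ≥0, ∀ t, eLpNorm (ψ t) r (ν.restrict K) ≤ C * R t := by
  have H : ∃ B, MeasurableSet B ∧ K ⊆ B ∧
      ∃ C : ℝ≥0, ∀ t, eLpNorm (ψ t) r (ν.restrict B) ≤ C * R t := by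
    refine hK.induction_on (p := fun s => ∃ B, MeasurableSet B ∧ s ⊆ B ∧
      ∃ C : ℝ≥0, ∀ t, eLpNorm (ψ t) r (ν.restrict B) ≤ C * R t)
      ⟨∅, .empty, le_rfl, 0, fun t => by simp⟩
      (fun s t hst ⟨B, h1, h2, h3⟩ => ⟨B, h1, hst.trans h2, h3⟩) ?_ fun x hx => ?_
    · rintro s t ⟨B₁, a1, a2, C₁, a3⟩ ⟨B₂, b1, b2, C₂, b3⟩
      refine ⟨B₁ ∪ B₂, a1.union b1, union_subset_union a2 b2, C₁ + C₂, fun t => ?_⟩
      have h0 := (hψ t).restrict (s := B₁ ∪ B₂)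
      rw [← indicator_self_add_compl B₁ (ψ t), ENNReal.coe_add, add_mul]
      refine (eLpNorm_add_le (h0.indicator a1) (h0.indicator a1.compl) hr).trans ?_
      rw [eLpNorm_indicator_eq_eLpNorm_restrict a1, eLpNorm_indicator_eq_eLpNorm_restrict a1.compl,
        Measure.restrict_restrict a1, Measure.restrict_restrict a1.compl]
      exact add_le_add
        ((eLpNorm_mono_measure _ (Measure.restrict_mono inter_subset_left le_rfl)).trans (a3 t))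
        ((eLpNorm_mono_measure _ (Measure.restrict_mono (fun z hz => hz.2.resolve_left hz.1)
          le_rfl)).trans (b3 t))
    · obtain ⟨A, hA, C, hC⟩ := h x hx
      exact ⟨interior A, mem_nhdsWithin_of_mem_nhds (interior_mem_nhds.2 hA), interior A,
        isOpen_interior.measurableSet, le_rfl, C, fun t =>
        (eLpNorm_mono_measure _ (Measure.restrict_mono interior_subset le_rfl)).trans (hC t)⟩
  obtain ⟨B, -, h2, C, h3⟩ := H
  exact ⟨C, fun t => (eLpNorm_mono_measure _ (Measure.restrict_mono h2 le_rfl)).trans (h3 t)⟩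

theorem dirac_pow (S : Spinor n N) {a : ℕ} {χ : X.M → ℝ} (hχ : ContMDiff (𝓡 n) 𝓘(ℝ, ℝ) ∞ χ)
    (hc : HasCompactSupport χ) (hs : tsupport χ ⊆ X.U a) (h0 : ∀ p, 0 ≤ χ p) :
    ∃ C, 0 ≤ C ∧ ∀ (k : ℕ) (ψ : X.M → Eu N) p, MDifferentiableAt (𝓡 n) 𝓘(ℝ, Eu N) ψ p →
      ‖X.dirac S a (fun z => χ z ^ (k + 1) • ψ z) p‖ ≤
        χ p ^ (k + 1) * ‖X.dirac S a ψ p‖ + (k + 1) * C * (χ p ^ k * ‖ψ p‖) := by
  have hd : ∀ i, support (X.dd a i χ) ⊆ tsupport χ := fun i p hp => by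
    by_contra h
    exact hp (dd_zero a i h)
  choose B hB using fun i => (cont_of_cpt hc (fun p hp => (smooth_dd i (hs hp) (hχ p)).continuousAt)
    (hd i)).bounded_above_of_compact_support
    (hc.of_isClosed_subset (isClosed_tsupport _) (closure_minimal (hd i) (isClosed_tsupport _)))
  have hχ' : ∀ p, MDifferentiableAt (𝓡 n) 𝓘(ℝ, ℝ) χ p := fun p => (hχ p).mdifferentiableAt (by simp)
  have H : ∀ (ψ : X.M → Eu N) p, MDifferentiableAt (𝓡 n) 𝓘(ℝ, Eu N) ψ p →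
      ‖X.dirac S a (fun z => χ z • ψ z) p‖ ≤
        χ p * ‖X.dirac S a ψ p‖ + (∑ i, |B i| * ‖gam S i‖) * ‖ψ p‖ := fun ψ p hψ => by
    rw [dirac_smul S a (hχ' p) hψ, Finset.sum_mul]
    refine (norm_add_le _ _).trans (add_le_add (by rw [norm_smul, Real.norm_of_nonneg (h0 p)])
      ((norm_sum_le _ _).trans (Finset.sum_le_sum fun i _ => ?_)))
    rw [norm_smul, mul_assoc]
    exact mul_le_mul ((hB i p).trans (le_abs_self _)) ((gam S i).le_opNorm _) (norm_nonneg _)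
      (abs_nonneg _)
  refine ⟨∑ i, |B i| * ‖gam S i‖, by positivity, fun k ψ p hψ => ?_⟩
  induction k with
  | zero => simpa using H ψ p hψ
  | succ k ih =>
    have h1 := H (fun z => χ z ^ (k + 1) • ψ z) p
      (((hχ p).pow (k + 1)).mdifferentiableAt (by simp) |>.smul hψ)
    simp only [smul_smul, ← pow_succ'] at h1
    rw [norm_smul, Real.norm_of_nonneg (pow_nonneg (h0 p) _)] at h1
    have h2 := mul_le_mul_of_nonneg_left ih (h0 p)
    refine h1.trans ((add_le_add h2 le_rfl).trans (le_of_eq ?_))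
    push_cast
    ring

/-- The Caccioppoli and Sobolev estimate for powers of a cutoff function. -/
theorem core (hμ : X.IsVol μ) (S : Spinor n N) {q : ℝ≥0} (hn : 0 < n)
    (hq : (q : ℝ)⁻¹ = 2⁻¹ - (n : ℝ)⁻¹) {x₀ : X.M} {a : ℕ} {O : Set X.M} (hO : IsOpen O)
    {χ : X.M → ℝ} (hχ : ContMDiff (𝓡 n) 𝓘(ℝ, ℝ) ∞ χ) (hc : HasCompactSupport χ)
    (hs : tsupport χ ⊆ X.W x₀ a ∩ O) (h0 : ∀ p, χ p ∈ Icc (0 : ℝ) 1) (M : ℝ) (k : ℕ) :
    ∃ C : ℝ≥0, ∀ (ψ : X.M → Eu N) (f : X.M → ℝ), ContMDiffOn (𝓡 n) 𝓘(ℝ, Eu N) ∞ ψ O →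
      AEStronglyMeasurable f (μ.restrict O) →
      (∀ᵐ p ∂μ.restrict O, ‖X.dirac S a ψ p‖ ≤ M * ‖ψ p‖ + ‖f p‖) →
      eLpNorm (fun z => χ z ^ (k + 1) • ψ z) q μ ≤ C * (eLpNorm (fun z => χ z ^ k • ψ z) 2
        (μ.restrict O) + eLpNorm f 2 (μ.restrict O)) := by
  obtain ⟨C₁, h1⟩ := sob_loc hμ S hn hq hc fun p hp => (hs hp).1
  obtain ⟨C₂, hC₂, h2⟩ := dirac_pow S hχ hc (fun p hp => (hs hp).1.2) fun p => (h0 p).1
  refine ⟨C₁ * (1 + (|M| + (k + 1) * C₂).toNNReal), fun ψ f hψ hf hD => ?_⟩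
  have hsm : ∀ j : ℕ, ∀ p ∈ O, ContMDiffAt (𝓡 n) 𝓘(ℝ, Eu N) ∞ (fun z => χ z ^ j • ψ z) p :=
    fun j p hp => ((hχ p).pow j).smul (hψ.contMDiffAt (hO.mem_nhds hp))
  have hsu : support (fun z => χ z ^ (k + 1) • ψ z) ⊆ tsupport χ := fun p hp =>
    subset_tsupport _ fun h => hp (by simp [h])
  have hO' : tsupport χ ⊆ O := fun p hp => (hs hp).2
  have hme : AEStronglyMeasurable (fun z => χ z ^ k • ψ z) (μ.restrict O) :=
    ContinuousOn.aestronglyMeasurable (fun p hp => (hsm k p hp).continuousAt.continuousWithinAt)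
      hO.measurableSet
  have hn : ∀ (j : ℕ) p, ‖χ p ^ j • ψ p‖ = χ p ^ j * ‖ψ p‖ := fun j p => by
    rw [norm_smul, Real.norm_of_nonneg (pow_nonneg (h0 p).1 _)]
  have hp1 : ∀ p, χ p ^ (k + 1) ≤ χ p ^ k := fun p =>
    pow_le_pow_of_le_one (h0 p).1 (h0 p).2 k.le_succ
  refine (h1 _ (fun p hp => hsm _ p (hO' hp)) hsu).trans ?_
  rw [ENNReal.coe_mul, mul_assoc, ← eLpNorm_restrict_eq_of_support_subset (hsu.trans hO'),
    ← eLpNorm_restrict_eq_of_support_subset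
      ((supp_dirac S a (isClosed_tsupport _) hsu).trans hO')]
  refine mul_le_mul_right ?_ _
  have e1 : eLpNorm (fun z => χ z ^ (k + 1) • ψ z) 2 (μ.restrict O) ≤
      eLpNorm (fun z => χ z ^ k • ψ z) 2 (μ.restrict O) := eLpNorm_mono fun p => by
    rw [hn, hn]
    exact mul_le_mul_of_nonneg_right (hp1 p) (norm_nonneg _)
  have e2 : eLpNorm (X.dirac S a fun z => χ z ^ (k + 1) • ψ z) 2 (μ.restrict O) ≤
      eLpNorm ((fun z => (|M| + (k + 1) * C₂) * ‖χ z ^ k • ψ z‖) + fun z => ‖f z‖) 2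
        (μ.restrict O) := by
    refine eLpNorm_mono_ae_real ?_
    filter_upwards [hD, ae_restrict_mem hO.measurableSet] with p h3 hp
    refine (h2 k ψ p ((hψ.contMDiffAt (hO.mem_nhds hp)).mdifferentiableAt (by simp))).trans ?_
    have h4 : ‖X.dirac S a ψ p‖ ≤ |M| * ‖ψ p‖ + ‖f p‖ :=
      h3.trans (add_le_add (mul_le_mul_of_nonneg_right (le_abs_self _) (norm_nonneg _)) le_rfl)
    have h5 := mul_le_mul (hp1 p) h4 (norm_nonneg _) (pow_nonneg (h0 p).1 _)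
    have h6 := mul_le_of_le_one_left (norm_nonneg (f p)) (pow_le_one₀ (n := k) (h0 p).1 (h0 p).2)
    rw [Pi.add_apply, hn]
    linarith
  have e3 := eLpNorm_add_le (hme.norm.const_mul (|M| + (k + 1) * C₂)) hf.norm one_le_two
  have e4 : eLpNorm (fun z => (|M| + (k + 1) * C₂) * ‖χ z ^ k • ψ z‖) 2 (μ.restrict O) ≤
      (|M| + (k + 1) * C₂).toNNReal * eLpNorm (fun z => χ z ^ k • ψ z) 2 (μ.restrict O) :=
    eLpNorm_le_mul_eLpNorm_of_ae_le_mul (ae_of_all _ fun p => by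
      rw [Real.norm_of_nonneg (by positivity)]) 2
  rw [eLpNorm_norm] at e3
  refine (add_le_add e1 (e2.trans (e3.trans (add_le_add e4 le_rfl)))).trans ?_
  rw [ENNReal.coe_add, ENNReal.coe_one, mul_add (1 + _ : ℝ≥0∞), ← add_assoc]
  exact add_le_add (by rw [add_mul (1 : ℝ≥0∞), one_mul]) (le_mul_of_one_le_left' le_self_add)

theorem exists_bump {x : X.M} {O : Set X.M} (h : O ∈ 𝓝 x) : ∃ χ : X.M → ℝ,
    ContMDiff (𝓡 n) 𝓘(ℝ, ℝ) ∞ χ ∧ HasCompactSupport χ ∧ tsupport χ ⊆ O ∧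
      (∀ p, χ p ∈ Icc (0 : ℝ) 1) ∧ {p | χ p = 1} ∈ 𝓝 x :=
  let ⟨f, _, hf⟩ := (SmoothBumpFunction.nhds_basis_tsupport (I := 𝓡 n) x).mem_iff.1 h
  ⟨f, f.contMDiff, f.hasCompactSupport, hf, fun _ => f.mem_Icc, f.eventuallyEq_one⟩

theorem le_cut {E : Type} [NormedAddCommGroup E] [NormedSpace ℝ E] {χ : X.M → ℝ}
    (hχ : Continuous χ) (ψ : X.M → E) (k : ℕ) (r : ℝ≥0∞) (ν : Measure X.M) :
    eLpNorm ψ r (ν.restrict {p | χ p = 1}) ≤ eLpNorm (fun z => χ z ^ k • ψ z) r ν := by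
  refine le_trans (le_of_eq (eLpNorm_congr_ae ?_)) (eLpNorm_restrict_le _ _ _ {p | χ p = 1})
  filter_upwards [ae_restrict_mem (isClosed_eq hχ continuous_const).measurableSet] with p hp
  rw [show χ p = 1 from hp, one_pow, one_smul]

/-- **The interior Sobolev estimate.** -/
theorem sob_int (hμ : X.IsVol μ) (S : Spinor n N) {q : ℝ≥0} (hn : 0 < n) (hq1 : 1 ≤ q)
    (hq : (q : ℝ)⁻¹ = 2⁻¹ - (n : ℝ)⁻¹) {a : ℕ} {K O : Set X.M} (hK : IsCompact K) (hO : IsOpen O)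
    (hKO : K ⊆ O) (hKU : K ⊆ X.U a) : ∃ C : ℝ≥0, ∀ ψ : X.M → Eu N,
      ContMDiffOn (𝓡 n) 𝓘(ℝ, Eu N) ∞ ψ O → eLpNorm ψ q (μ.restrict K) ≤
        C * (eLpNorm ψ 2 (μ.restrict O) + eLpNorm (X.dirac S a ψ) 2 (μ.restrict O)) := by
  obtain ⟨C, hC⟩ := glue (ν := μ.restrict O) (r := q) hK
    (T := {ψ : X.M → Eu N // ContMDiffOn (𝓡 n) 𝓘(ℝ, Eu N) ∞ ψ O}) (ψ := fun t => t.1)
    (fun t => t.2.continuousOn.aestronglyMeasurable hO.measurableSet)
    (R := fun t => eLpNorm t.1 2 (μ.restrict O) + eLpNorm (X.dirac S a t.1) 2 (μ.restrict O))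
    (by exact_mod_cast hq1) fun x hx => by
      have hO' := hO.inter (X.isOpen a)
      obtain ⟨χ, h1, h2, h3, h4, h5⟩ := exists_bump (((X.isOpen_W x a).inter hO').mem_nhds
        ⟨⟨mem_chart_source _ x, hKU hx⟩, hKO hx, hKU hx⟩)
      obtain ⟨C, hC⟩ := core hμ S hn hq hO' h1 h2 h3 h4 0 0
      refine ⟨_, h5, C, fun t => (le_cut h1.continuous _ 1 _ _).trans
        ((eLpNorm_restrict_le _ _ _ _).trans ?_)⟩
      refine (hC t.1 (fun p => ‖X.dirac S a t.1 p‖) (t.2.mono inter_subset_left)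
        (ContinuousOn.aestronglyMeasurable (fun p hp => (smooth_dirac S hp.2 (t.2.contMDiffAt
          (hO.mem_nhds hp.1))).continuousAt.norm.continuousWithinAt) hO'.measurableSet)
        (ae_of_all _ fun p => by simp)).trans ?_
      simp only [pow_zero, one_smul, eLpNorm_norm]
      have := Measure.restrict_mono (inter_subset_left : O ∩ X.U a ⊆ O) (le_refl μ)
      exact mul_le_mul_right (add_le_add (eLpNorm_mono_measure _ this)
        (eLpNorm_mono_measure _ this)) _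
  exact ⟨C, fun ψ hψ => by simpa only [Measure.restrict_restrict_of_subset hKO] using hC ⟨ψ, hψ⟩⟩

/-- **The Sobolev estimate** for compactly supported spinors. -/
theorem sob (hμ : X.IsVol μ) (S : Spinor n N) {q : ℝ≥0} (hn : 0 < n) (hq1 : 1 ≤ q)
    (hq : (q : ℝ)⁻¹ = 2⁻¹ - (n : ℝ)⁻¹) {a : ℕ} {K : Set X.M} (hK : IsCompact K) (hKU : K ⊆ X.U a) :
    ∃ C : ℝ≥0, ∀ ψ : X.M → Eu N, ContMDiff (𝓡 n) 𝓘(ℝ, Eu N) ∞ ψ → support ψ ⊆ K →
      eLpNorm ψ q μ ≤ C * (eLpNorm ψ 2 μ + eLpNorm (X.dirac S a ψ) 2 μ) := by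
  obtain ⟨C, hC⟩ := sob_int hμ S hn hq1 hq hK isOpen_univ (subset_univ _) hKU
  exact ⟨C, fun ψ hψ hs => by
    simpa only [Measure.restrict_univ, eLpNorm_restrict_eq_of_support_subset hs]
      using hC ψ hψ.contMDiffOn⟩

/-- The Sobolev exponent. -/
theorem exists_exp (hn : 3 ≤ n) : ∃ q : ℝ≥0, 2 < q ∧ (q : ℝ)⁻¹ = 2⁻¹ - (n : ℝ)⁻¹ := by
  have h : (3 : ℝ) ≤ n := by exact_mod_cast hn
  have h1 : (0 : ℝ) < n - 2 := by linarith
  refine ⟨⟨2 * n / (n - 2), by positivity⟩, ?_, ?_⟩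
  · change (2 : ℝ) < 2 * n / (n - 2)
    rw [lt_div_iff₀ h1]
    linarith
  · change (2 * n / (n - 2) : ℝ)⁻¹ = _
    field_simp

theorem interp {α E : Type} [MeasurableSpace α] {ν : Measure α} [NormedAddCommGroup E]
    {g h u : α → E} (hh : AEStronglyMeasurable h ν) (hu : AEStronglyMeasurable u ν) {q : ℝ≥0}
    {θ : ℝ} (h0 : 0 ≤ θ) (h1 : θ ≤ 1) (hq : q ≠ 0) (he : 2 * θ / q + 2 * (1 - θ) = 1)
    (hp : ∀ p, ‖g p‖ ≤ ‖h p‖ ^ θ * ‖u p‖ ^ (1 - θ)) :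
    eLpNorm g 2 ν ≤ eLpNorm h q ν ^ θ * eLpNorm u 1 ν ^ (1 - θ) := by
  have h2 : 0 ≤ 1 - θ := sub_nonneg.2 h1
  have hq' : (q : ℝ) ≠ 0 := by exact_mod_cast hq
  have H := ENNReal.lintegral_mul_norm_pow_le (hh.enorm.pow_const (q : ℝ)) hu.enorm
    (by positivity) (by positivity) he
  rw [eLpNorm_eq_lintegral_rpow_enorm_toReal two_ne_zero ENNReal.ofNat_ne_top,
    eLpNorm_nnreal_eq_lintegral hq, eLpNorm_one_eq_lintegral_enorm]
  refine (ENNReal.rpow_le_rpow ((lintegral_mono fun p => ?_).trans H) (by simp)).trans (le_of_eq ?_)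
  · have h3 : ‖g p‖ₑ ≤ ‖h p‖ₑ ^ θ * ‖u p‖ₑ ^ (1 - θ) := by
      rw [← ofReal_norm, ← ofReal_norm, ← ofReal_norm, ENNReal.ofReal_rpow_of_nonneg
        (norm_nonneg _) h0, ENNReal.ofReal_rpow_of_nonneg (norm_nonneg _) h2,
        ← ENNReal.ofReal_mul (by positivity)]
      exact ENNReal.ofReal_le_ofReal (hp p)
    refine (ENNReal.rpow_le_rpow h3 (by simp)).trans (le_of_eq ?_)
    rw [ENNReal.mul_rpow_of_nonneg _ _ (by simp), ← ENNReal.rpow_mul, ← ENNReal.rpow_mul,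
      ← ENNReal.rpow_mul]
    congr 2
    · simp only [ENNReal.toReal_ofNat]; field_simp
    · simp only [ENNReal.toReal_ofNat]; ring
  · rw [ENNReal.mul_rpow_of_nonneg _ _ (by simp), ← ENNReal.rpow_mul, ← ENNReal.rpow_mul,
      ← ENNReal.rpow_mul]
    congr 2
    · simp only [ENNReal.toReal_ofNat]; field_simp
    · simp only [ENNReal.toReal_ofNat]; ring

theorem geom_le {θ : ℝ} (h0 : 0 ≤ θ) (h1 : θ ≤ 1) (A B : ℝ≥0∞) : A ^ θ * B ^ (1 - θ) ≤ A + B := by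
  refine (mul_le_mul' (ENNReal.rpow_le_rpow (le_self_add : A ≤ A + B) h0)
    (ENNReal.rpow_le_rpow (le_add_self : B ≤ A + B) (sub_nonneg.2 h1))).trans (le_of_eq ?_)
  rw [← ENNReal.rpow_add_of_nonneg _ _ h0 (sub_nonneg.2 h1), add_sub_cancel, ENNReal.rpow_one]

theorem young {θ : ℝ} (h0 : 0 ≤ θ) (h1 : θ < 1) {ε : ℝ≥0} (hε : ε ≠ 0) :
    ∃ D : ℝ≥0, ∀ A B : ℝ≥0∞, A ^ θ * B ^ (1 - θ) ≤ ε * A + D * B := by
  have h2 : 0 < 1 - θ := sub_pos.2 h1
  refine ⟨ε ^ (-θ / (1 - θ)), fun A B => le_trans (le_of_eq ?_) (geom_le h0 h1.le _ _)⟩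
  rw [ENNReal.mul_rpow_of_nonneg _ _ h0, ENNReal.mul_rpow_of_nonneg _ _ h2.le,
    ← ENNReal.coe_rpow_of_nonneg _ h0, ← ENNReal.coe_rpow_of_nonneg _ h2.le, ← NNReal.rpow_mul,
    div_mul_cancel₀ _ h2.ne', mul_mul_mul_comm, ← ENNReal.coe_mul, ← NNReal.rpow_add hε]
  simp

theorem absorb {θ : ℝ} (h0 : 0 ≤ θ) (h1 : θ < 1) (C : ℝ≥0) : ∃ C' : ℝ≥0, ∀ A B F G : ℝ≥0∞,
    A ≠ ⊤ → G ≤ A ^ θ * B ^ (1 - θ) → A ≤ C * (G + F) → G ≤ C' * (B + F) := by
  obtain ⟨D, hD⟩ := young h0 h1 (ε := (2 * (C + 1))⁻¹) (by positivity)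
  refine ⟨2 * (C * (D + 1)) + 1, fun A B F G hA hG h => ?_⟩
  have e : (C : ℝ≥0∞) * ((2 * (C + 1))⁻¹ : ℝ≥0) ≤ 2⁻¹ := by
    rw [← ENNReal.coe_mul, show (2⁻¹ : ℝ≥0∞) = (2⁻¹ : ℝ≥0) by simp, ENNReal.coe_le_coe,
      mul_inv, mul_left_comm]
    exact mul_le_of_le_one_right' (mul_inv_le_one_of_le₀ le_self_add zero_le)
  have h2 : A / 2 + A / 2 ≤ A / 2 + C * (D + 1) * (B + F) := by
    rw [ENNReal.add_halves]
    refine h.trans ((mul_le_mul_right (add_le_add (hG.trans (hD A B)) le_rfl) _).trans ?_)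
    rw [add_assoc, mul_add, ← mul_assoc, ENNReal.div_eq_inv_mul, mul_assoc _ _ (B + F)]
    refine add_le_add (mul_le_mul_left e _) (mul_le_mul_right ?_ _)
    rw [mul_add]
    exact add_le_add (mul_le_mul_left le_self_add _) (le_mul_of_one_le_left' le_add_self)
  have h3 := ENNReal.le_of_add_le_add_left (ENNReal.div_ne_top hA two_ne_zero) h2
  refine hG.trans ((geom_le h0 h1.le A B).trans ?_)
  push_cast
  rw [add_mul (2 * _ : ℝ≥0∞), one_mul, mul_assoc, two_mul, ← ENNReal.add_halves A]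
  exact add_le_add (add_le_add h3 h3) le_self_add

/-- **The reverse Hölder estimate** for solutions of `|D ψ| ≤ M |ψ| + |f|`. -/
theorem rh (hμ : X.IsVol μ) (S : Spinor n N) (hn : 3 ≤ n) {a : ℕ} {K O : Set X.M}
    (hK : IsCompact K) (hO : IsOpen O) (hKO : K ⊆ O) (hKU : K ⊆ X.U a) (M : ℝ) :
    ∃ C : ℝ≥0, ∀ (ψ : X.M → Eu N) (f : X.M → ℝ), ContMDiffOn (𝓡 n) 𝓘(ℝ, Eu N) ∞ ψ O →
      AEStronglyMeasurable f (μ.restrict O) →
      (∀ᵐ p ∂μ.restrict O, ‖X.dirac S a ψ p‖ ≤ M * ‖ψ p‖ + ‖f p‖) →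
      eLpNorm ψ 2 (μ.restrict K) ≤
        C * (eLpNorm ψ 1 (μ.restrict O) + eLpNorm f 2 (μ.restrict O)) := by
  obtain ⟨q, hq2, hq⟩ := exists_exp hn
  have hn' : (3 : ℝ) ≤ n := by exact_mod_cast hn
  have := hμ.isFiniteMeasureOnCompacts
  have h0 : (0 : ℝ) ≤ n / (n + 2) := by positivity
  have h1 : (n : ℝ) / (n + 2) < 1 := (div_lt_one (by positivity)).2 (by linarith)
  obtain ⟨C, hC⟩ := glue (ν := μ.restrict O) (r := 2) hK
    (T := {t : (X.M → Eu N) × (X.M → ℝ) // ContMDiffOn (𝓡 n) 𝓘(ℝ, Eu N) ∞ t.1 O ∧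
      AEStronglyMeasurable t.2 (μ.restrict O) ∧
      ∀ᵐ p ∂μ.restrict O, ‖X.dirac S a t.1 p‖ ≤ M * ‖t.1 p‖ + ‖t.2 p‖}) (ψ := fun t => t.1.1)
    (fun t => t.2.1.continuousOn.aestronglyMeasurable hO.measurableSet)
    (R := fun t => eLpNorm t.1.1 1 (μ.restrict O) + eLpNorm t.1.2 2 (μ.restrict O))
    one_le_two fun x hx => by
      obtain ⟨χ, c1, c2, c3, c4, c5⟩ := exists_bump (((X.isOpen_W x a).inter hO).mem_nhds
        ⟨⟨mem_chart_source _ x, hKU hx⟩, hKO hx⟩)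
      obtain ⟨C, hC⟩ := core hμ S (by omega) hq hO c1 c2 c3 c4 M n
      obtain ⟨C', hC'⟩ := absorb h0 h1 C
      refine ⟨_, c5, C', fun ⟨⟨ψ, f⟩, t1, t2, t3⟩ => (le_cut c1.continuous _ n _ _).trans ?_⟩
      have hsu : support (fun z => χ z ^ (n + 1) • ψ z) ⊆ tsupport χ := fun p hp =>
        subset_tsupport _ fun h => hp (by simp [h])
      have hco : Continuous fun z => χ z ^ (n + 1) • ψ z := cont_of_cpt c2 (fun p hp =>
        (c1.continuous.continuousAt.pow _).smul (t1.continuousOn.continuousAt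
          (hO.mem_nhds (c3 hp).2))) hsu
      refine hC' (eLpNorm (fun z => χ z ^ (n + 1) • ψ z) q (μ.restrict O)) _ _ _ ?_ ?_
        ((eLpNorm_restrict_le _ _ _ _).trans (hC ψ f t1 t2 t3))
      · exact ((eLpNorm_restrict_le _ _ _ _).trans_lt (hco.memLp_of_hasCompactSupport
          (c2.of_isClosed_subset (isClosed_tsupport _)
            (closure_minimal hsu (isClosed_tsupport _)))).2).ne
      refine interp hco.aestronglyMeasurable
        (t1.continuousOn.aestronglyMeasurable hO.measurableSet) h0 h1.le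
        (two_pos.trans hq2).ne' (by rw [div_eq_mul_inv _ (q : ℝ), hq]; field_simp; ring) fun p => ?_
      have d0 := (c4 p).1
      rw [norm_smul, norm_smul, Real.norm_of_nonneg (pow_nonneg d0 _),
        Real.norm_of_nonneg (pow_nonneg d0 _), Real.mul_rpow (pow_nonneg d0 _) (norm_nonneg _),
        mul_assoc, ← Real.rpow_add_of_nonneg (norm_nonneg _) h0 (sub_nonneg.2 h1.le),
        add_sub_cancel, Real.rpow_one, ← Real.rpow_natCast, ← Real.rpow_natCast,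
        ← Real.rpow_mul d0]
      refine mul_le_mul_of_nonneg_right (Real.rpow_le_rpow_of_exponent_ge' d0 (c4 p).2
        (by positivity) ?_) (norm_nonneg _)
      rw [← mul_div_assoc, div_le_iff₀ (by positivity)]
      push_cast
      nlinarith
  exact ⟨C, fun ψ f a1 a2 a3 => by
    simpa only [Measure.restrict_restrict_of_subset hKO] using hC ⟨⟨ψ, f⟩, a1, a2, a3⟩⟩

end Pool.Agent.Lib.L1I.SOB
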