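import Pool.Agent.Lib.L1I.Blue
import Pool.Agent.Lib.L1I.Sob
import Pool.Agent.Lib.ANA.Gn

/-! Blocks EHR, SMO and VOL. -/

noncomputable section

open Set Function MeasureTheory CliffordAlgebra Topology Filter
open scoped Manifold ContDiff ENNReal NNReal RealInnerProductSpace

namespace Pool.Agent.Lib.L1I

open CX SOB

theorem exists_cutoff {n : ℕ} {X : SM n} {K O : Set X.M} (hK : IsCompact K) (hO : IsOpen O)
    (h : K ⊆ O) : ∃ χ : X.M → ℝ, ContMDiff (𝓡 n) 𝓘(ℝ, ℝ) ∞ χ ∧ HasCompactSupport χ ∧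
      tsupport χ ⊆ O ∧ (∀ p, χ p ∈ Icc (0 : ℝ) 1) ∧ ∀ p ∈ K, χ p = 1 := by
  refine hK.induction_on (p := fun s => ∃ χ : X.M → ℝ, ContMDiff (𝓡 n) 𝓘(ℝ, ℝ) ∞ χ ∧
    HasCompactSupport χ ∧ tsupport χ ⊆ O ∧ (∀ p, χ p ∈ Icc (0 : ℝ) 1) ∧ ∀ p ∈ s, χ p = 1)
    ⟨fun _ => 0, contMDiff_const, HasCompactSupport.zero, by simp [tsupport], by simp, by simp⟩
    (fun s t hst ⟨χ, h1, h2, h3, h4, h5⟩ => ⟨χ, h1, h2, h3, h4, fun p hp => h5 p (hst hp)⟩) ?_
    fun x hx => ?_
  · rintro s t ⟨χ, a1, a2, a3, a4, a5⟩ ⟨φ, b1, b2, b3, b4, b5⟩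
    have hs : tsupport (fun p => 1 - (1 - χ p) * (1 - φ p)) ⊆ tsupport χ ∪ tsupport φ := by
      refine closure_minimal (fun p hp => ?_) ((isClosed_tsupport _).union (isClosed_tsupport _))
      by_contra hn
      rw [mem_union, not_or] at hn
      exact hp (by simp [image_eq_zero_of_notMem_tsupport hn.1,
        image_eq_zero_of_notMem_tsupport hn.2])
    refine ⟨fun p => 1 - (1 - χ p) * (1 - φ p),
      contMDiff_const.sub ((contMDiff_const.sub a1).mul (contMDiff_const.sub b1)),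
      (a2.union b2).of_isClosed_subset (isClosed_tsupport _) hs, hs.trans (union_subset a3 b3),
      fun p => ⟨?_, ?_⟩, ?_⟩
    · nlinarith [(a4 p).1, (a4 p).2, (b4 p).1, (b4 p).2]
    · nlinarith [(a4 p).1, (a4 p).2, (b4 p).1, (b4 p).2]
    · rintro p (hp | hp)
      · simp [a5 p hp]
      · simp [b5 p hp]
  · obtain ⟨χ, h1, h2, h3, h4, h5⟩ := exists_bump (hO.mem_nhds (h hx))
    exact ⟨_, mem_nhdsWithin_of_mem_nhds h5, χ, h1, h2, h3, h4, fun _ hp => hp⟩

theorem dd_pow {n : ℕ} {X : SM n} (a : ℕ) (i : Fin n) {χ : X.M → ℝ}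
    (hχ : ContMDiff (𝓡 n) 𝓘(ℝ, ℝ) ∞ χ) (p : X.M) (k : ℕ) :
    X.dd a i (fun z => χ z ^ (k + 1)) p = (k + 1) * χ p ^ k * X.dd a i χ p := by
  induction k with
  | zero => simp
  | succ k ih =>
    have h := dd_smul a i ((hχ p).mdifferentiableAt (by simp))
      (((hχ p).pow (k + 1)).mdifferentiableAt (by simp))
    simp only [smul_eq_mul, ← pow_succ'] at h
    rw [h, ih]
    push_cast
    ring

theorem stEHR : St_EHR := by
  intro n N X S μ hn hμ a O K₀ hO hOU hK₀ hKO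
  obtain ⟨χ, c1, c2, c3, c4, c5⟩ := exists_cutoff hK₀ hO hKO
  obtain ⟨q, hq2, hq⟩ := exists_exp hn
  have hn' : (3 : ℝ) ≤ n := by exact_mod_cast hn
  have h0 : (0 : ℝ) ≤ n / (n + 2) := by positivity
  have h1 : (n : ℝ) / (n + 2) < 1 := (div_lt_one (by positivity)).2 (by linarith)
  obtain ⟨B, hB⟩ := c2.isCompact.exists_bound_of_continuousOn (f := ANA.Fr.gn X χ)
    fun p _ => (ANA.Fr.continuousAt_gn (c1 p)).continuousWithinAt
  have hz : ∀ p ∉ tsupport χ, χ p ^ n = 0 := fun p hp => by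
    rw [image_eq_zero_of_notMem_tsupport hp, zero_pow (by omega)]
  obtain ⟨C, hC⟩ := sob hμ S (by omega) (one_le_two.trans hq2.le) hq c2.isCompact (c3.trans hOU)
  refine ⟨fun p => χ p ^ (n + 1), fun p => χ p ^ n, tsupport χ, n * ((n + 1) * B), c1.pow _,
    c1.continuous.pow _, c2, c3, fun p hp => by simp [c5 p hp], hz, fun p => ⟨?_, ?_⟩,
    fun b p hp => ?_, fun δ hδ => ?_⟩
  · rw [abs_of_nonneg (pow_nonneg (c4 p).1 _)]
    exact pow_le_pow_of_le_one (c4 p).1 (c4 p).2 n.le_succ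
  · exact pow_le_one₀ (c4 p).1 (c4 p).2
  · have h2 : ∀ i : Fin n, ‖X.dd b i (fun p => χ p ^ (n + 1)) p • (bv i : Eu n)‖ ≤
        (n + 1) * B * χ p ^ n := fun i => by
      rw [norm_smul, ANA.Fr.norm_bv, mul_one, dd_pow b i c1]
      by_cases h : p ∈ tsupport χ
      · have := pow_nonneg (c4 p).1 n
        rw [norm_mul, Real.norm_of_nonneg (by positivity), mul_right_comm _ B]
        exact mul_le_mul_of_nonneg_left ((ANA.Fr.abs_dd_le hp i).trans
          ((le_abs_self _).trans (hB p h))) (by positivity)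
      · simp [hz p h]
    refine (norm_sum_le _ _).trans ((Finset.sum_le_sum fun i _ => h2 i).trans (le_of_eq ?_))
    simp [mul_assoc]
  obtain ⟨D, hD⟩ := young h0 h1 (ε := δ.toNNReal / (C + 1))
    (div_pos (Real.toNNReal_pos.2 hδ) (by positivity)).ne'
  refine ⟨D, D.2, fun ψ hψ => ?_⟩
  have hsu : support (fun z => χ z ^ (n + 1) • ψ z) ⊆ tsupport χ := fun p hp =>
    subset_tsupport _ fun h => hp (by simp [h])
  have hsm : ContMDiff (𝓡 n) 𝓘(ℝ, Eu N) ∞ fun z => χ z ^ (n + 1) • ψ z :=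
    contMDiff_of_tsupport fun p hp => ((c1 p).pow _).smul (hψ.contMDiffAt (hO.mem_nhds
      (c3 (closure_minimal hsu (isClosed_tsupport _) hp))))
  have hm := (isClosed_tsupport χ).measurableSet
  have H := interp (ν := μ) (g := fun p => χ p ^ n • ψ p) (u := (tsupport χ).indicator ψ)
    hsm.continuous.aestronglyMeasurable
    ((aestronglyMeasurable_indicator_iff hm).2
      ((hψ.continuousOn.mono c3).aestronglyMeasurable hm)) h0 h1.le (two_pos.trans hq2).ne'
    (by rw [div_eq_mul_inv _ (q : ℝ), hq]; field_simp; ring) fun p => by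
      by_cases h : p ∈ tsupport χ
      · have d0 := (c4 p).1
        rw [indicator_of_mem h, norm_smul, norm_smul, Real.norm_of_nonneg (pow_nonneg d0 _),
          Real.norm_of_nonneg (pow_nonneg d0 _), Real.mul_rpow (pow_nonneg d0 _) (norm_nonneg _),
          mul_assoc, ← Real.rpow_add_of_nonneg (norm_nonneg _) h0 (sub_nonneg.2 h1.le),
          add_sub_cancel, Real.rpow_one, ← Real.rpow_natCast, ← Real.rpow_natCast,
          ← Real.rpow_mul d0]
        refine mul_le_mul_of_nonneg_right (Real.rpow_le_rpow_of_exponent_ge' d0 (c4 p).2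
          (by positivity) ?_) (norm_nonneg _)
        rw [← mul_div_assoc, div_le_iff₀ (by positivity)]
        push_cast
        nlinarith
      · rw [hz p h, zero_smul, norm_zero]
        positivity
  rw [eLpNorm_indicator_eq_eLpNorm_restrict hm, eLpNorm_one_eq_lintegral_enorm] at H
  refine H.trans ((hD _ _).trans (add_le_add ?_ (by rw [ENNReal.ofReal_coe_nnreal])))
  refine (mul_le_mul_right (hC _ hsm hsu) _).trans ?_
  rw [← mul_assoc, ← ENNReal.coe_mul]
  refine mul_le_mul_left (ENNReal.coe_le_coe.2 ?_) _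
  rw [div_mul_eq_mul_div, mul_div_assoc]
  exact mul_le_of_le_one_right' (div_le_one_of_le₀ le_self_add zero_le)

theorem stSMO : St_SMO := fun _ _ _ S _ _ _ hO hU h p hp =>
  (smooth_dirac S (hU hp) (h.contMDiffAt (hO.mem_nhds hp))).contMDiffWithinAt

theorem stVOL : St_VOL := fun _ _ _ hμ _ hK =>
  have := hμ.isFiniteMeasureOnCompacts
  hK.measure_lt_top.ne

end Pool.Agent.Lib.L1I
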