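import Pool.Agent.Lib.BCH.Op24

/-! The maximum principle for the square of a symmetric resolvent. -/

noncomputable section

open MeasureTheory Set BCO
open scoped InnerProductSpace ContDiff

namespace Pool.Agent.Lib.L1I

variable {G X E : Type} [MeasurableSpace X] {μ : Measure X} [NormedAddCommGroup E]
  [InnerProductSpace ℝ E]

theorem null_of_small {A : Set X} {κ : ℝ} (hκ : 0 < κ)
    (h : ∀ δ > 0, ∃ F : X → ℝ, Integrable F μ ∧ 0 ≤ᵐ[μ] F ∧ (∀ᵐ x ∂μ, x ∈ A → κ ≤ F x) ∧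
      ∫ x, F x ∂μ ≤ δ) : μ A = 0 := by
  have h1 : ∀ δ > 0, μ A ≠ ⊤ ∧ κ * μ.real A ≤ δ := fun δ hδ => by
    obtain ⟨F, hF, h0, hA, hI⟩ := h δ hδ
    have h2 : μ A ≤ μ {x | κ ≤ F x} := measure_mono_ae hA
    have h3 := (hF.measure_ge_lt_top hκ).ne
    exact ⟨ne_top_of_le_ne_top h3 h2, (mul_le_mul_of_nonneg_left (ENNReal.toReal_mono h3 h2)
      hκ.le).trans ((mul_meas_ge_le_integral_of_nonneg h0 hF κ).trans hI)⟩
  have h2 : κ * μ.real A ≤ 0 := le_of_forall_pos_le_add fun δ hδ => by simpa using (h1 δ hδ).2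
  have h3 : μ.real A = 0 :=
    le_antisymm (nonpos_of_mul_nonpos_right h2 hκ) measureReal_nonneg
  exact (measureReal_eq_zero_iff (h1 1 one_pos).1).1 h3

theorem test_pt {Ψ : ℝ → ℝ} {c m : ℝ} (hc : 0 < c) (h0 : ∀ s, 0 ≤ Ψ s)
    (h1 : ∀ s ≤ (m / c) ^ 2, Ψ s = 0) {φ y : E} (hφ : ‖φ‖ ≤ m) :
    Ψ (‖y‖ ^ 2) * (‖y‖ * (c * ‖y‖ - m)) ≤ ⟪c • y - φ, Ψ (‖y‖ ^ 2) • y⟫_ℝ ∧
      0 ≤ Ψ (‖y‖ ^ 2) * (‖y‖ * (c * ‖y‖ - m)) := by
  constructor
  · rw [real_inner_smul_right, inner_sub_left, real_inner_smul_left, real_inner_self_eq_norm_sq]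
    refine mul_le_mul_of_nonneg_left ?_ (h0 _)
    have := real_inner_le_norm φ y
    nlinarith [norm_nonneg y]
  · rcases le_total ‖y‖ (m / c) with h | h
    · rw [h1 _ (pow_le_pow_left₀ (norm_nonneg _) h 2), zero_mul]
    · have := (div_le_iff₀ hc).1 h
      exact mul_nonneg (h0 _) (mul_nonneg (norm_nonneg _) (by linarith))

/-- The `L^∞` bound for `Q²`. -/
theorem linf (Q : V G (Lp E 2 μ) →L[ℝ] V G (Lp E 2 μ)) (hQ : ∀ a b, ⟪Q a, b⟫_ℝ = ⟪a, Q b⟫_ℝ)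
    {D : Set (V G (Lp E 2 μ))} (hD : Dense D) {c : ℝ} (hc : 0 < c)
    (h : ∀ Ψ : ℝ → ℝ, ContDiff ℝ ∞ Ψ → Monotone Ψ → (∀ s, Ψ s ∈ Icc (0 : ℝ) 1) →
      (∃ T, ∀ s, T ≤ s → Ψ s = 1) → ∃ C : ℝ, ∀ β ∈ D, ∃ β₂,
        (∀ γ, Q β₂ γ =ᵐ[μ] fun x => Ψ (‖Q β γ x‖ ^ 2) • Q β γ x) ∧
        c * ⟪Q β, Q β₂⟫_ℝ ≤ ⟪β, β₂⟫_ℝ ∧ ‖β₂‖ ≤ C * ‖β‖)
    (f : V G (Lp E 2 μ)) (m : ℝ) (hf : ∀ γ, ∀ᵐ x ∂μ, ‖f γ x‖ ≤ m) (γ : G) :
    ∀ᵐ x ∂μ, ‖Q (Q f) γ x‖ ≤ m / c := by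
  rcases lt_or_ge m 0 with hm | hm
  · filter_upwards [hf γ] with x hx
    exact absurd ((norm_nonneg _).trans hx) (not_le.2 hm)
  have ha : 0 ≤ m / c := div_nonneg hm hc.le
  suffices H : ∀ ε > 0, μ {x | m / c + 2 * ε ≤ ‖Q (Q f) γ x‖} = 0 by
    have : ∀ᵐ x ∂μ, ∀ n : ℕ, ‖Q (Q f) γ x‖ < m / c + 2 * (1 / ((n : ℝ) + 1)) :=
      ae_all_iff.2 fun n => by
        rw [ae_iff]
        simpa only [not_lt] using H _ Nat.one_div_pos_of_nat
    filter_upwards [this] with x hx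
    refine le_of_forall_pos_le_add fun δ hδ => ?_
    obtain ⟨n, hn⟩ := exists_nat_one_div_lt (half_pos hδ)
    linarith [hx n]
  intro ε hε
  have hab : 0 < (m / c + ε) ^ 2 - (m / c) ^ 2 := by nlinarith
  set Ψ : ℝ → ℝ := fun s =>
    Real.smoothTransition ((s - (m / c) ^ 2) / ((m / c + ε) ^ 2 - (m / c) ^ 2)) with hΨ
  have hΨ0 : ∀ s ≤ (m / c) ^ 2, Ψ s = 0 := fun s hs =>
    Real.smoothTransition.zero_of_nonpos (div_nonpos_of_nonpos_of_nonneg (by linarith) hab.le)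
  have hΨ1 : ∀ s, (m / c + ε) ^ 2 ≤ s → Ψ s = 1 := fun s hs =>
    Real.smoothTransition.one_of_one_le ((one_le_div hab).2 (by linarith))
  have hΨp : ∀ s, 0 ≤ Ψ s := fun s => Real.smoothTransition.nonneg _
  obtain ⟨C, hC⟩ := h Ψ (Real.smoothTransition.contDiff.comp (by fun_prop))
    (fun s t hst => Real.smoothTransition.monotone (by gcongr))
    (fun s => ⟨hΨp s, Real.smoothTransition.le_one _⟩) ⟨_, hΨ1⟩
  refine null_of_small (κ := c * ε ^ 2) (by positivity) fun δ hδ => ?_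
  have hcont : Continuous fun β : V G (Lp E 2 μ) =>
      ‖β - Q f‖ * (C * ‖β‖) + c * ‖Q (Q f) γ - Q β γ‖ ^ 2 := by
    have := (lp.evalCLM ℝ (fun _ : G => Lp E 2 μ) 2 γ).continuous.comp Q.continuous
    have h2 : Continuous fun β : V G (Lp E 2 μ) => Q β γ := this
    fun_prop
  obtain ⟨β, hβ, hβD⟩ := hD.inter_open_nonempty _ (isOpen_lt hcont continuous_const (g := fun _ => δ))
    ⟨Q f, by simpa using hδ⟩
  obtain ⟨β₂, e1, e2, e3⟩ := hC β hβD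
  have hpt : ∀ g, ∀ᵐ x ∂μ, Ψ (‖Q β g x‖ ^ 2) * (‖Q β g x‖ * (c * ‖Q β g x‖ - m)) ≤
      ⟪(c • Q β - f) g x, Q β₂ g x⟫_ℝ ∧
      0 ≤ Ψ (‖Q β g x‖ ^ 2) * (‖Q β g x‖ * (c * ‖Q β g x‖ - m)) := fun g => by
    filter_upwards [hf g, e1 g, Lp.coeFn_sub (c • Q β g) (f g), Lp.coeFn_smul c (Q β g)]
      with x h1 h2 h3 h4
    have : (c • Q β - f) g x = c • Q β g x - f g x :=
      h3.trans (congrArg (· - f g x) h4)
    rw [this, h2]
    exact test_pt hc hΨp hΨ0 h1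
  have hle : ⟪(c • Q β - f) γ, Q β₂ γ⟫_ℝ ≤ ‖β - Q f‖ * (C * ‖β‖) := by
    refine (le_hasSum (lp.hasSum_inner (c • Q β - f) (Q β₂)) γ fun g _ => ?_).trans ?_
    · rw [L2.inner_def]
      exact integral_nonneg_of_ae ((hpt g).mono fun x hx => hx.2.trans hx.1)
    · rw [inner_sub_left, real_inner_smul_left, ← hQ f]
      refine (sub_le_sub_right e2 _).trans ?_
      rw [← inner_sub_left]
      exact (real_inner_le_norm _ _).trans (mul_le_mul_of_nonneg_left e3 (norm_nonneg _))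
  set d := Q (Q f) γ - Q β γ with hd
  have i1 := L2.integrable_inner (𝕜 := ℝ) ((c • Q β - f) γ) (Q β₂ γ)
  have i2 := (L2.integrable_inner (𝕜 := ℝ) d d).const_mul c
  refine ⟨_, i1.add i2, ?_, ?_, ?_⟩
  · filter_upwards [hpt γ] with x hx
    exact add_nonneg (hx.2.trans hx.1) (mul_nonneg hc.le real_inner_self_nonneg)
  · filter_upwards [hpt γ, Lp.coeFn_sub (Q (Q f) γ) (Q β γ)] with x hx h1 hA
    rw [Pi.add_apply, real_inner_self_eq_norm_sq]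
    rcases le_total ε ‖d x‖ with h2 | h2
    · exact le_add_of_nonneg_of_le (hx.2.trans hx.1) (by gcongr)
    · have h3 : m / c + ε ≤ ‖Q β γ x‖ := by
        have := norm_sub_norm_le (Q (Q f) γ x) (Q β γ x)
        rw [← Pi.sub_apply, ← h1] at this
        have h4 : m / c + 2 * ε ≤ ‖Q (Q f) γ x‖ := hA
        linarith
      refine le_add_of_le_of_nonneg (le_trans ?_ hx.1) (by positivity)
      rw [hΨ1 _ (pow_le_pow_left₀ (by positivity) h3 2), one_mul]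
      have h5 : c * (m / c) = m := by field_simp
      have h6 : c * ε ≤ c * ‖Q β γ x‖ - m := by nlinarith
      nlinarith [mul_pos hc hε]
  · simp only [Pi.add_apply]
    rw [integral_add i1 i2, integral_const_mul, ← L2.inner_def, ← L2.inner_def,
      real_inner_self_eq_norm_sq]
    exact (add_le_add hle le_rfl).trans hβ.le

end Pool.Agent.Lib.L1I
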