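import Pool.Agent.Lib.L1I.Blue
import Pool.Agent.Lib.L1I.Linf
import Pool.Agent.Lib.MFI.CXGlue
import Pool.Agent.Lib.CX.Mul
import Pool.Agent.Lib.CX.Sec
import Pool.Agent.Lib.ANA.Div
import Pool.Agent.Lib.SMG.Gauge

/-! The facts that come from the libraries of the main route. -/

noncomputable section

open Set Function Filter Topology MeasureTheory CliffordAlgebra BCO
open scoped Manifold ContDiff InnerProductSpace ENNReal

namespace Pool.Agent.Lib.L1I

open CX ANA

theorem stMFU : St_MFU := fun G _ E _ _ _ e P z z' he h1 h2 h h' =>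
  MFI.isInd_unique he (amp_mem P) h1 (by
    rw [← ampA_apply, ← map_mul, h2]) h h'

theorem stLINF : St_LINF := by
  rintro G _ M _ μ N Q c hc hQ ⟨D, hD, h⟩ m f - hf γ
  exact linf Q hQ hD hc (fun Ψ h1 h2 h3 h4 => h Ψ ⟨h1, h2, fun t => (h3 t).1, h4⟩) f m hf γ

theorem stMUL : St_MUL := fun _ _ μ _ a C ha hC =>
  ⟨mulOp μ a, mulOp_coe (memLp_top_of_bound ha C (Eventually.of_forall hC))⟩

theorem stVOL : St_VOL := fun _ _ _ hμ _ hK =>
  have := hμ.isFiniteMeasureOnCompacts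
  hK.measure_lt_top.ne

theorem stCOC : St_COC := fun _ _ i j g => BG.isOpen_co i j g

theorem nab_eq {n N : ℕ} (X : SM n) (S : Spinor n N) (a : ℕ) (i : Fin n) (u : X.M → Eu N) :
    nab X S a i u = Fm.nab (X.F a) (gam S) i u := by
  funext x
  simp only [nab, Fm.nab, Fm.con, LICH.lam, gam, map_mul, _root_.smul_apply,
    _root_.sum_apply, dd_eq, ga_eq]

theorem stGAU : St_GAU := by
  intro n N X S a b p ha hb ψ ψ' h h'
  refine ⟨SMG.dirac_gauge X S hb ha h, ?_⟩
  simp only [nab_eq]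
  have e1 : ∀ j, ⟪Fm.nab (X.F a) (gam S) j ψ p, Fm.nab (X.F a) (gam S) j ψ' p⟫_ℝ =
      ∑ i, ∑ k, SMG.rot (X.F b) (X.F a) i j p * SMG.rot (X.F b) (X.F a) k j p *
        ⟪Fm.nab (X.F b) (gam S) i (fun y => S.c (X.s b a y) (ψ y)) p,
          Fm.nab (X.F b) (gam S) k (fun y => S.c (X.s b a y) (ψ' y)) p⟫_ℝ := fun j => by
    rw [← S.inner_spin (X.spin b a p ⟨hb, ha⟩).1, SMG.nab_gauge X S hb ha h,
      SMG.nab_gauge X S hb ha h', sum_inner]
    refine Finset.sum_congr rfl fun i _ => ?_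
    rw [inner_sum]
    refine Finset.sum_congr rfl fun k _ => ?_
    rw [real_inner_smul_left, real_inner_smul_right, mul_assoc]
  simp only [e1]
  rw [Finset.sum_comm (s := Finset.univ) (t := Finset.univ)]
  refine Finset.sum_congr rfl fun i _ => ?_
  rw [Finset.sum_comm (s := Finset.univ) (t := Finset.univ)]
  simp only [← Finset.sum_mul, SMG.orth_rot' (X.spin b a p ⟨hb, ha⟩)]
  simp

theorem stSMO : St_SMO := by
  intro n N X S a O ψ hO hU hψ p hp
  rw [dirac_eq]
  exact ((sm X a).dir_smooth (hU hp) (hψ.contMDiffAt (hO.mem_nhds hp)) _).contMDiffWithinAt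

theorem stLOC : St_LOC := by
  intro n N X S μ hμ a O ψ ψ' hO hU hψ hψ' hc hs
  have hs' := hs.trans hU
  have hu : ∀ x ∈ tsupport ψ', ContMDiffAt (𝓡 n) 𝓘(ℝ, Eu N) ∞ ψ x := fun x hx =>
    hψ.contMDiffAt (hO.mem_nhds (hs hx))
  have h0 := fun x (hx : x ∉ tsupport ψ') => notMem_tsupport_iff_eventuallyEq.1 hx
  have i2 : ∀ j, Integrable (fun p => ⟪Fm.nab (X.F a) (gam S) j ψ p,
      Fm.nab (X.F a) (gam S) j ψ' p⟫_ℝ) μ := fun j => integrable_inner hμ hc
    (fun x hx => ((sm X a).nab_smooth (hs' hx) (hu x hx) _ j).continuousAt)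
    (fun x hx => ((sm X a).nab_smooth (hs' hx) (hψ' x) _ j).continuousAt)
    fun x hx => Fm.nab_zero _ (h0 x hx)
  have i3 : Integrable (fun p => X.scal p / 4 * ⟪ψ p, ψ' p⟫_ℝ) μ :=
    integrable_of_supp hμ hc (fun x hx => by simp [image_eq_zero_of_notMem_tsupport hx])
      fun x hx => ((SMG.scal_smooth X x).continuousAt.div_const 4).mul
        ((hu x hx).continuousAt.inner (hψ' x).continuousAt)
  have i4 := integrable_finsetSum Finset.univ fun j _ => i2 j
  simp only [nab_eq, dirac_eq]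
  refine ⟨integral_dir hμ (sm X a) (on_F X a) (gam_cl S)
    (fun x hx => (hu x hx).of_le (by norm_cast)) (fun x _ => (hψ' x).of_le (by norm_cast)) hc hs',
    i4, i3, ?_⟩
  rw [integral_lich hμ (sm X a) (on_F X a) (gam_cl S)
    (fun x hx => (hu x hx).of_le (by norm_cast)) (fun x _ => (hψ' x).of_le (by norm_cast)) hc hs',
    integral_add i4 i3, integral_finsetSum _ fun j _ => i2 j]
  congr 2
  funext p
  by_cases hp : p ∈ tsupport ψ'
  · rw [SMG.scal_gauge X (hs' hp)]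
  · simp [image_eq_zero_of_notMem_tsupport hp]

theorem stSEC : St_SEC := by
  intro G _ m N x S μ hμ a i g φ hφ hc hs
  have := hμ.isFiniteMeasureOnCompacts
  obtain ⟨ξ, -, h⟩ := x.exists_vec S i g (μ := μ) (hφ.memLp_of_hasCompactSupport hc)
    fun p hp => image_eq_zero_of_notMem_tsupport fun h => hp (hs h).1
  exact ⟨ξ, h⟩

end Pool.Agent.Lib.L1I
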