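import Pool.Agent.Lib.L1I.Blue
import Pool.Agent.Lib.RQ.INV

/-! Block INV of the `l1` route: `RA` is closed under adjoints and under inverses. -/

noncomputable section

open BCO ContinuousLinearMap
open scoped InnerProductSpace

namespace Pool.Agent.Lib.L1I

namespace INV

variable {G : Type} [Group G] {E : Type} [NormedAddCommGroup E] [InnerProductSpace ℝ E]
  [CompleteSpace E]

theorem star_lam (g : G) : star (lam g : V G E →L[ℝ] V G E) = lam g⁻¹ := by
  have h1 : star (lam g : V G E →L[ℝ] V G E) * lam g = 1 :=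
    (norm_map_iff_adjoint_comp_self _).1 (norm_lam_apply g)
  have h2 : (lam g : V G E →L[ℝ] V G E) * lam g⁻¹ = 1 := op_ext fun ξ x => by simp
  rw [← mul_one (star _), ← h2, ← mul_assoc, h1, one_mul]

theorem star_amp (T : E →L[ℝ] E) : star (amp G T) = amp G (star T) := by
  symm
  rw [star_eq_adjoint (amp G T), eq_adjoint_iff]
  intro ξ η
  rw [lp.inner_eq_tsum, lp.inner_eq_tsum]
  refine tsum_congr fun x => ?_
  rw [amp_apply, amp_apply, star_eq_adjoint, adjoint_inner_left]

theorem star_tw (g : G) (T : E →L[ℝ] E) : star (tw g T) = tw g⁻¹ (star T) := by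
  have h : tw g T = amp G T * lam g := rfl
  rw [h, star_mul, star_lam, star_amp]
  exact op_ext fun _ _ => rfl

/-- the adjoint as a continuous real linear map -/
def stL {W : Type} [NormedAddCommGroup W] [InnerProductSpace ℝ W] [CompleteSpace W] :
    (W →L[ℝ] W) →L[ℝ] W →L[ℝ] W :=
  (starL' ℝ (A := W →L[ℝ] W)).toContinuousLinearMap

theorem isCS_RA : RQ.IsCS (RA G E) :=
  ⟨isClosed_RA, fun x hx => RR_map (stL (W := V G E)) _
    isClosed_RR (fun g T => by
      change star (tw g T) ∈ _
      rw [star_tw]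
      exact tw_mem _ _) hx⟩

end INV

theorem stINV : St_INV := fun _ _ _ _ _ _ W W' hW h1 h2 =>
  (RQ.stINV _ _ INV.isCS_RA).1 W hW W' h1 h2

end Pool.Agent.Lib.L1I
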