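import Pool.Agent.Lib.L1I.Blue
import Pool.Agent.Lib.AN.Blue
import Pool.Agent.Lib.CX.ClifGr

/-! Block K0: a compact operator that inverts `D + w` on sections supported in a compact set. -/

noncomputable section

open Set Function Filter Topology MeasureTheory BCO
open scoped Manifold ContDiff

namespace Pool.Agent.Lib.L1I

open CX

theorem stK0 (hANA : AN.St_ANA) (hCORE : AN.St_CORE) : St_K0 := by
  intro G _ m N x S μ h4 hμ a K hK hKU
  have h2 : Even (m + 1) := even_iff_two_dvd.2 (Dvd.dvd.trans (by norm_num) h4)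
  have hw : AN.Gr S S.gr := ⟨S.gr_gr h4, S.inner_gr h4, S.gr_ι h2⟩
  obtain ⟨r, φ, R, Nn, P⟩ := hANA G m N x S μ hμ S.gr hw
  have hm : MeasurableSet K := by
    haveI : BorelSpace x.X.M := ⟨rfl⟩
    exact hK.isClosed.measurableSet
  have hb : AN.Bm (K.indicator fun _ => (1 : ℝ)) :=
    ⟨measurable_const.indicator hm, 1, fun y => by by_cases h : y ∈ K <;> simp [h]⟩
  have hc : HasCompactSupport (K.indicator fun _ => (1 : ℝ)) :=
    HasCompactSupport.intro hK fun y hy => indicator_of_notMem hy _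
  refine ⟨_, P.cpt _ hb hc, fun ψ hψ hs s s' h1 h3 => ?_⟩
  have hE : AN.IsE x.X a univ ψ :=
    ⟨hψ, hK.of_isClosed_subset (isClosed_tsupport _) hs, fun y hy => ⟨hKU (hs hy), trivial⟩⟩
  obtain ⟨m1, -, m3⟩ := P.test.mem hE
  have e1 : s = AN.cl μ (AN.glob x.X S a ψ) := by
    rw [← P.l2.cl_coe s]
    exact P.l2.cl_congr h1
  have e2 : s' = AN.cl μ (AN.dw x.X S S.gr (AN.glob x.X S a ψ)) := by
    rw [← P.l2.cl_coe s', m3]
    exact P.l2.cl_congr h3
  rw [ContinuousLinearMap.mul_apply, e2, P.res.R_cl _ ((hCORE _ _ x.X S).glob hE).1,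
    (P.l2.mul_cl hb m1).2, e1]
  congr 1
  funext y
  by_cases h : y ∈ K
  · simp [h]
  · have : ψ y = 0 := image_eq_zero_of_notMem_tsupport fun h' => h (hs h')
    simp [h, AN.glob, this]

end Pool.Agent.Lib.L1I
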