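import Pool.Agent.Lib.L1I.K1a
import Pool.Agent.Lib.BCH.KApi
import Pool.Agent.Lib.DG.Blue

/-! The index of an idempotent with an absolutely summable compact kernel. -/

set_option linter.unusedSectionVars false

noncomputable section

open Filter Topology BCO BCK

namespace Pool.Agent.Lib.L1I.K1

section Abstract

variable {M : Type} [NormedRing M] [NormedAlgebra ℝ M] [CompleteSpace M]

/-- The corner of an idempotent. -/
def corner (p : M) : Submodule ℝ M where
  carrier := {x | p * x = x ∧ x * p = x}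
  add_mem' hx hy := ⟨by rw [mul_add, hx.1, hy.1], by rw [add_mul, hx.2, hy.2]⟩
  zero_mem' := ⟨mul_zero _, zero_mul _⟩
  smul_mem' r _ hx := ⟨by rw [mul_smul_comm, hx.1], by rw [smul_mul_assoc, hx.2]⟩

theorem abs_cut {e c : M} (he : e * e = e) (hc : c * c = c) {Λ : Type} {l : Filter Λ} [l.NeBot]
    (q : Λ → M) (hq : ∀ s, q s * q s = q s) (hcq : ∀ s, c * q s = q s * c)
    (h : Tendsto (fun s => q s * (e - c) * q s) l (𝓝 (e - c))) :
    ∃ (s : Λ) (z : M) (u : Mˣ), q s * z = z ∧ z * q s = z ∧ (c + z) * (c + z) = c + z ∧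
      e * u = u * (c + z) ∧ u = cu e (c + z) := by
  have h3 : Tendsto (fun s => c + q s * (e - c) * q s) l (𝓝 e) := by
    simpa using h.const_add c
  have h4 := (continuousAt_kap (good_of_idem he)).tendsto
  rw [kap_of_idem he] at h4
  obtain ⟨s, hg, hcl⟩ := ((h3.eventually (isOpen_good.mem_nhds (good_of_idem he))).and
    ((h4.comp h3).eventually (ContinuousAt.eventually_lt
      (f := fun f => ‖(e + e - 1) * (f - e)‖) (g := fun _ => 1) (by fun_prop) continuousAt_const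
      (by simp)))).exists
  have hf := kap_idem hg
  obtain ⟨u, hu, hv⟩ := exists_unit_cu he hf hcl
  have ha : q s * (e - c) * q s ∈ corner (q s) :=
    ⟨by rw [← mul_assoc, ← mul_assoc, hq], by rw [mul_assoc, hq]⟩
  generalize q s * (e - c) * q s = a at ha hf hu hv
  have cl : ∀ x ∈ corner (q s), c * x ∈ corner (q s) := fun x hx =>
    ⟨by rw [← mul_assoc, ← hcq, mul_assoc, hx.1], by rw [mul_assoc, hx.2]⟩
  have cr : ∀ x ∈ corner (q s), x * c ∈ corner (q s) := fun x hx =>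
    ⟨by rw [← mul_assoc, hx.1], by rw [mul_assoc, hcq, ← mul_assoc, hx.2]⟩
  have cm : ∀ x ∈ corner (q s), a * x ∈ corner (q s) := fun x hx =>
    ⟨by rw [← mul_assoc, ha.1], by rw [mul_assoc, hx.2]⟩
  obtain ⟨z, hz, hzf⟩ : ∃ z ∈ corner (q s), kap (c + a) = c + z := by
    have b1 : kap (c + a) - (c + a) ∈ corner (q s) := by
      refine kap_sub_mem _ ((isClosed_eq (by fun_prop) continuous_id).inter
        (isClosed_eq (by fun_prop) continuous_id)) ?_ fun x hx => ?_
      · have : (c + a) * (c + a) - (c + a) = c * a + a * c + a * a - a := by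
          rw [add_mul, mul_add, mul_add, hc]; abel
        rw [this]
        exact sub_mem (add_mem (add_mem (cl _ ha) (cr _ ha)) (cm _ ha)) ha
      · rw [add_mul]; exact add_mem (cl _ hx) (cm _ hx)
    exact ⟨_, add_mem b1 ha, by abel⟩
  rw [hzf] at hf hu hv
  exact ⟨s, z, u, hz.1, hz.2, hf, hv, hu⟩

end Abstract

section Hilbert

variable {E : Type} [NormedAddCommGroup E] [InnerProductSpace ℝ E] [CompleteSpace E]

theorem cut_compact {K : E →L[ℝ] E} (hK : IsCompactOperator K) {ε : ℝ} (hε : 0 < ε) :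
    ∃ s : Finset E, ∀ Q : E →L[ℝ] E, IsSelfAdjoint Q → ‖Q‖ ≤ 1 → (∀ v ∈ s, Q v = v) →
      ‖Q * K * Q - K‖ ≤ ε := by
  obtain ⟨t, -, ht, hc⟩ := (IsCompactOperator.isCompact_closure_image_closedBall
    (f := (K : E →ₗ[ℝ] E)) hK 1).finite_cover_balls (show 0 < ε / 4 by positivity)
  have := FiniteDimensional.span_of_finite ℝ ht
  set R := (Submodule.span ℝ t).starProjection with hR
  have h1 : ‖K - R * K‖ ≤ ε / 2 := by
    refine ContinuousLinearMap.opNorm_le_of_unit_norm (by positivity) fun x hx => ?_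
    obtain ⟨y, hy, h2⟩ := Set.mem_iUnion₂.1 (hc (subset_closure ⟨x, by simp [hx], rfl⟩))
    have h3 : ‖K x - y‖ < ε / 4 := mem_ball_iff_norm.1 h2
    have h4 : (K - R * K) x = (K x - y) - R (K x - y) := by
      rw [map_sub, Submodule.starProjection_eq_self_iff.2 (Submodule.subset_span hy)]
      simp
    rw [h4]
    linarith [norm_sub_le (K x - y) (R (K x - y)),
      (Submodule.span ℝ t).norm_starProjection_apply_le (K x - y)]
  refine ⟨(ht.union (ht.image (star K : E →L[ℝ] E))).toFinset, fun Q hQ hn hs => ?_⟩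
  have h2 : ∀ A B : E →L[ℝ] E, (∀ y ∈ t, A y = B y) → A * R = B * R := fun A B h =>
    ContinuousLinearMap.ext fun x => LinearMap.eqOn_span (f := (A : E →ₗ[ℝ] E))
      (g := (B : E →ₗ[ℝ] E)) h (Submodule.starProjection_apply_mem _ x)
  have h3 : Q * R = 1 * R := h2 _ _ fun y hy => hs y (by simp [hy])
  have h4 : Q * star K * R = star K * R := h2 _ _ fun y hy =>
    hs _ (by simp only [Set.Finite.mem_toFinset]; exact Or.inr ⟨y, hy, rfl⟩)
  have h5 := congrArg star h4
  rw [star_mul, star_mul, star_mul, star_star, hQ.star_eq,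
    (isSelfAdjoint_starProjection _).star_eq] at h5
  have h6 : Q * K * Q - K = Q * (K - R * K) * Q - (K - R * K) := by
    rw [mul_sub, sub_mul, ← mul_assoc, h3, one_mul, mul_assoc R, h5]
    abel
  have h7 : ‖Q * (K - R * K) * Q‖ ≤ ‖K - R * K‖ :=
    ((norm_mul_le _ _).trans (mul_le_of_le_one_right (norm_nonneg _) hn)).trans
      ((norm_mul_le _ _).trans (mul_le_of_le_one_left (norm_nonneg _) hn))
  rw [h6]
  linarith [norm_sub_le (Q * (K - R * K) * Q) (K - R * K)]

theorem exists_proj {P : E →L[ℝ] E} (hP : P * P = P) (hP' : IsSelfAdjoint P) (s : Finset E) :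
    ∃ (r : ℕ) (J : (Fin r → ℝ) →L[ℝ] E) (J' : E →L[ℝ] Fin r → ℝ), (∀ v, J' (J v) = v) ∧
      IsSelfAdjoint (J.comp J') ∧ ‖J.comp J'‖ ≤ 1 ∧ (∀ v ∈ s, J.comp J' v = v) ∧
      P * J.comp J' = J.comp J' * P := by
  have := FiniteDimensional.span_of_finite ℝ (s.finite_toSet.union (s.finite_toSet.image P))
  set W := Submodule.span ℝ ((s : Set E) ∪ P '' s) with hW
  let b := (Module.finBasis ℝ W).equivFunL
  have h1 : (W.subtypeL.comp b.symm.toContinuousLinearMap).comp
      (b.toContinuousLinearMap.comp W.orthogonalProjectionOnto) = W.starProjection :=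
    ContinuousLinearMap.ext fun x => congrArg Subtype.val (b.symm_apply_apply _)
  refine ⟨_, W.subtypeL.comp b.symm.toContinuousLinearMap,
    b.toContinuousLinearMap.comp W.orthogonalProjectionOnto, fun v => ?_, ?_⟩
  · exact (congrArg b (W.orthogonalProjectionOnto_mem_subspace_eq_self (b.symm v))).trans
      (b.apply_symm_apply v)
  rw [h1]
  refine ⟨isSelfAdjoint_starProjection W, W.starProjection_norm_le, fun v hv =>
    Submodule.starProjection_eq_self_iff.2 (Submodule.subset_span (Or.inl hv)), ?_⟩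
  have h2 : W ≤ W.comap (P : E →ₗ[ℝ] E) := Submodule.span_le.2 (by
    rintro _ (h | ⟨v, hv, rfl⟩)
    · exact Submodule.subset_span (Or.inr ⟨_, h, rfl⟩)
    · exact Submodule.subset_span (Or.inr ⟨v, hv, (congrArg (fun A : E →L[ℝ] E => A v) hP).symm⟩))
  have h3 : W.starProjection * (P * W.starProjection) = P * W.starProjection :=
    ContinuousLinearMap.ext fun x =>
      Submodule.starProjection_eq_self_iff.2 (h2 (W.starProjection_apply_mem x))
  have h4 := congrArg star h3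
  rw [star_mul, star_mul, hP'.star_eq, (isSelfAdjoint_starProjection W).star_eq, mul_assoc,
    h3] at h4
  exact h4

variable {G : Type} [Group G]

theorem tendsto_cut {Q : Finset E → E →L[ℝ] E} (h1 : ∀ s, IsSelfAdjoint (Q s))
    (h2 : ∀ s, ‖Q s‖ ≤ 1) (h3 : ∀ s, ∀ v ∈ s, Q s v = v) {a : LA G E}
    (ha : ∀ g, IsCompactOperator (coef g (op a))) :
    Tendsto (fun s => dl G (Q s) * a * dl G (Q s)) atTop (𝓝 a) := by
  rw [tendsto_iff_norm_sub_tendsto_zero]
  simp only [norm_eq, map_sub, coef_cut]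
  rw [← tsum_zero (β := G)]
  refine tendsto_tsum_of_dominated_convergence (bound := fun g => 2 * ‖coef g (op a)‖)
    (a.summable.mul_left 2) (fun g => Metric.tendsto_nhds.2 fun ε hε => ?_)
    (Eventually.of_forall fun s g => ?_)
  · obtain ⟨t, ht⟩ := cut_compact (ha g) (half_pos hε)
    filter_upwards [eventually_ge_atTop t] with s hs
    rw [dist_zero_right, norm_norm]
    exact (ht _ (h1 s) (h2 s) fun v hv => h3 s v (hs hv)).trans_lt (half_lt_self hε)
  · have h7 : ‖Q s * coef g (op a) * Q s‖ ≤ ‖coef g (op a)‖ :=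
      ((norm_mul_le _ _).trans (mul_le_of_le_one_right (norm_nonneg _) (h2 s))).trans
        ((norm_mul_le _ _).trans (mul_le_of_le_one_left (norm_nonneg _) (h2 s)))
    rw [norm_norm]
    linarith [norm_sub_le (Q s * coef g (op a) * Q s) (coef g (op a))]

end Hilbert

section Block

variable {G E F : Type} [Group G] [NormedAddCommGroup E] [NormedSpace ℝ E]
  [NormedAddCommGroup F] [NormedSpace ℝ F]

/-- A two by two block operator. -/
def blk2 (a : V G E →L[ℝ] V G E) (b : V G F →L[ℝ] V G E) (c : V G E →L[ℝ] V G F)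
    (d : V G F →L[ℝ] V G F) : V G (E × F) →L[ℝ] V G (E × F) :=
  amp G (.inl ℝ E F) ∘L a ∘L amp G (.fst ℝ E F) + amp G (.inl ℝ E F) ∘L b ∘L amp G (.snd ℝ E F) +
    (amp G (.inr ℝ E F) ∘L c ∘L amp G (.fst ℝ E F) + amp G (.inr ℝ E F) ∘L d ∘L amp G (.snd ℝ E F))

variable {a a' : V G E →L[ℝ] V G E} {b b' : V G F →L[ℝ] V G E} {c c' : V G E →L[ℝ] V G F}
  {d d' : V G F →L[ℝ] V G F}

theorem blk2_apply (ξ : V G (E × F)) (x : G) : blk2 a b c d ξ x =
    ((a (amp G (.fst ℝ E F) ξ) + b (amp G (.snd ℝ E F) ξ)) x,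
      (c (amp G (.fst ℝ E F) ξ) + d (amp G (.snd ℝ E F) ξ)) x) := by
  change ((_, 0) + (_, 0) + ((0, _) + (0, _)) : E × F) = _
  simp only [Prod.mk_add_mk, add_zero, zero_add]
  rfl

theorem blk2_mul : blk2 a b c d * blk2 a' b' c' d' =
    blk2 (a ∘L a' + b ∘L c') (a ∘L b' + b ∘L d') (c ∘L a' + d ∘L c') (c ∘L b' + d ∘L d') := by
  refine op_ext fun ξ x => ?_
  have h1 : amp G (.fst ℝ E F) (blk2 a' b' c' d' ξ) =
      a' (amp G (.fst ℝ E F) ξ) + b' (amp G (.snd ℝ E F) ξ) :=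
    lp.ext (funext fun y => congrArg Prod.fst (blk2_apply ξ y))
  have h2 : amp G (.snd ℝ E F) (blk2 a' b' c' d' ξ) =
      c' (amp G (.fst ℝ E F) ξ) + d' (amp G (.snd ℝ E F) ξ) :=
    lp.ext (funext fun y => congrArg Prod.snd (blk2_apply ξ y))
  rw [mul_apply_eq_comp, blk2_apply, blk2_apply, h1, h2]
  simp only [map_add, _root_.add_apply, ContinuousLinearMap.comp_apply]
  rw [add_add_add_comm, add_add_add_comm (c _)]

theorem blk2_sub : blk2 a b c d - blk2 a' 0 0 0 = blk2 (a - a') b c d := by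
  simp only [blk2, ContinuousLinearMap.sub_comp, ContinuousLinearMap.comp_sub,
    ContinuousLinearMap.zero_comp, ContinuousLinearMap.comp_zero]
  abel

theorem blk2_mem (ha : a ∈ RR G E E) (hb : b ∈ RR G F E) (hc : c ∈ RR G E F)
    (hd : d ∈ RR G F F) : blk2 a b c d ∈ RA G (E × F) :=
  mem_RA.2 (add_mem (add_mem (comp_mem (amp_mem _) (comp_mem ha (amp_mem _)))
    (comp_mem (amp_mem _) (comp_mem hb (amp_mem _))))
    (add_mem (comp_mem (amp_mem _) (comp_mem hc (amp_mem _)))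
    (comp_mem (amp_mem _) (comp_mem hd (amp_mem _)))))

theorem blk2_KR (ha : a ∈ KR G E E) (hb : b ∈ KR G F E) (hc : c ∈ KR G E F)
    (hd : d ∈ KR G F F) : blk2 a b c d ∈ KR G (E × F) (E × F) :=
  add_mem (add_mem (KR_left (amp_mem _) (KR_right ha (amp_mem _)))
    (KR_left (amp_mem _) (KR_right hb (amp_mem _))))
    (add_mem (KR_left (amp_mem _) (KR_right hc (amp_mem _)))
    (KR_left (amp_mem _) (KR_right hd (amp_mem _))))

variable {r : ℕ}

/-- The matrix of an operator on `ℓ²(G, ℝ^r)`. -/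
def ent (D : V G (Fin r → ℝ) →L[ℝ] V G (Fin r → ℝ)) (hD : D ∈ RR G (Fin r → ℝ) (Fin r → ℝ)) :
    Matrix (Fin r) (Fin r) (CX.Cr G) := fun i j =>
  ⟨amp G (.proj i) ∘L D ∘L amp G (.single ℝ (fun _ => ℝ) j),
    mem_RA.2 (comp_mem (amp_mem _) (comp_mem hD (amp_mem _)))⟩

theorem sum_sp (ξ : V G (Fin r → ℝ)) :
    ∑ i, amp G (.single ℝ (fun _ => ℝ) i) (amp G (ContinuousLinearMap.proj i) ξ) = ξ :=
  lp.ext (funext fun x => by
    rw [lp.coeFn_sum, Finset.sum_apply]
    exact Finset.univ_sum_single (ξ x))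

theorem ent_idem {D : V G (Fin r → ℝ) →L[ℝ] V G (Fin r → ℝ)}
    (hD : D ∈ RR G (Fin r → ℝ) (Fin r → ℝ)) (h : D ∘L D = D) : ent D hD * ent D hD = ent D hD := by
  ext1 i k
  refine Subtype.ext ?_
  rw [Matrix.mul_apply, AddSubmonoidClass.coe_finsetSum]
  ext1 ξ
  rw [_root_.sum_apply]
  change ∑ j, amp G (.proj i) (D (amp G (.single ℝ (fun _ => ℝ) j) (amp G (.proj j)
    (D (amp G (.single ℝ (fun _ => ℝ) k) ξ))))) = amp G (.proj i) (D _)
  rw [← map_sum, ← map_sum, sum_sp]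
  exact congrArg (fun A : V G (Fin r → ℝ) →L[ℝ] V G (Fin r → ℝ) => amp G (.proj i) (A _)) h

theorem blk_ent (a : V G E →L[ℝ] V G E) {D : V G (Fin r → ℝ) →L[ℝ] V G (Fin r → ℝ)}
    (hD : D ∈ RR G (Fin r → ℝ) (Fin r → ℝ)) : CX.blk a (ent D hD) = blk2 a 0 0 D := by
  simp only [blk2, CX.blk, ContinuousLinearMap.zero_comp, ContinuousLinearMap.comp_zero, add_zero,
    zero_add]
  congr 1
  ext1 ξ
  simp only [_root_.sum_apply]
  change ∑ i, ∑ j, amp G (.inr ℝ E _) (amp G (.single ℝ (fun _ => ℝ) i) (amp G (.proj i)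
    (D (amp G (.single ℝ (fun _ => ℝ) j) (amp G (.proj j) (amp G (.snd ℝ E _) ξ)))))) =
      amp G (.inr ℝ E _) (D (amp G (.snd ℝ E _) ξ))
  simp only [← map_sum, sum_sp]

theorem blk_zero (a : V G E →L[ℝ] V G E) :
    CX.blk a (0 : Matrix (Fin r) (Fin r) (CX.Cr G)) = blk2 a 0 0 0 := by
  simp [blk2, CX.blk]

end Block

section Main

variable {G E : Type} [Group G] [NormedAddCommGroup E] [InnerProductSpace ℝ E] [CompleteSpace E]

theorem tr_eq (T : V G ℝ →L[ℝ] V G ℝ) : IT.tr T = coef 1 T 1 := rfl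

theorem trace_nat {r : ℕ} {D : (Fin r → ℝ) →L[ℝ] Fin r → ℝ} (h : D ∘L D = D) :
    ∃ m : ℕ, ∑ i, D (Pi.single i 1) i = m := by
  have h1 : IsIdempotentElem (D : (Fin r → ℝ) →ₗ[ℝ] Fin r → ℝ) :=
    congrArg ContinuousLinearMap.toLinearMap h
  refine ⟨_, Eq.trans ?_ (LinearMap.IsIdempotentElem.isProj_range _ h1).trace⟩
  rw [LinearMap.trace_eq_matrix_trace ℝ (Pi.basisFun ℝ (Fin r))]
  simp [Matrix.trace]

theorem l1Idem {r : ℕ} (J : (Fin r → ℝ) →L[ℝ] E) (J' : E →L[ℝ] Fin r → ℝ) {x : LA G E}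
    (hx : x * x = x) (hq : x * dl G (J.comp J') = x) :
    DG.L1Idem fun i j g => J' (coef g (op x) (J (Pi.single j 1))) i := by
  let L : Fin r → Fin r → (E →L[ℝ] E) →L[ℝ] ℝ := fun i j =>
    ((ContinuousLinearMap.proj i).comp J').comp
      (ContinuousLinearMap.apply ℝ E (J (Pi.single j 1)))
  have h1 : ∀ g v, coef g (op x) (J (J' v)) = coef g (op x) v := fun g v => by
    conv_rhs => rw [← hq]
    exact congrArg (fun A : E →L[ℝ] E => A v) (coef_comp_amp g (op x) (J.comp J')).symm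
  have h2 : ∀ i j, Summable fun g => ‖L i j (coef g (op x))‖ := fun i j =>
    .of_nonneg_of_le (fun _ => norm_nonneg _) (fun g => (L i j).le_opNorm _)
      (x.summable.mul_left _)
  refine ⟨h2, fun i k g => ?_⟩
  change ∑ j, ∑' h, L i j (coef h (op x)) * L j k (coef (h⁻¹ * g) (op x)) = L i k (coef g (op x))
  have h3 : ∀ j, Summable fun h => L i j (coef h (op x)) * L j k (coef (h⁻¹ * g) (op x)) :=
    fun j => .of_norm_bounded ((h2 i j).mul_right (‖L j k‖ * ‖x‖)) fun h => by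
      rw [norm_mul]
      refine mul_le_mul_of_nonneg_left (((L j k).le_opNorm _).trans
        (mul_le_mul_of_nonneg_left ?_ (norm_nonneg _))) (norm_nonneg _)
      rw [norm_eq]
      exact x.summable.le_tsum _ fun _ _ => norm_nonneg _
  rw [← Summable.tsum_finsetSum fun j _ => h3 j]
  conv_rhs => rw [← hx, coef_mul,
    (L i k).map_tsum ((conv_sum x.summable x.summable).1 g).of_norm]
  refine tsum_congr fun h => ?_
  change ∑ j, J' (coef h (op x) (J (Pi.single j 1))) i *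
    J' (coef (h⁻¹ * g) (op x) (J (Pi.single k 1))) j =
      J' (coef h (op x) (coef (h⁻¹ * g) (op x) (J (Pi.single k 1)))) i
  generalize coef (h⁻¹ * g) (op x) (J (Pi.single k 1)) = v
  rw [← h1 h v]
  conv_rhs => rw [pi_eq_sum_univ' (J' v)]
  simp only [map_sum, map_smul, Finset.sum_apply, Pi.smul_apply, smul_eq_mul, mul_comm]

theorem main {P : E →L[ℝ] E} (hP : P * P = P) (hP' : IsSelfAdjoint P) {k : G → E →L[ℝ] E}
    (hk : Summable fun g => ‖k g‖) (hc : ∀ g, IsCompactOperator (k g)) {A : V G E →L[ℝ] V G E}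
    (hA : HasSum (fun g => tw g (k g)) A) (he : (amp G P + A) * (amp G P + A) = amp G P + A) :
    ∃ (r : ℕ) (p q : Matrix (Fin r) (Fin r) (CX.Cr G)) (e : Fin r → Fin r → G → ℝ) (m : ℕ),
      p * p = p ∧ q * q = q ∧ CX.IsInd (amp G P + A) (amp G P) (BCH.cls p - BCH.cls q) ∧
      DG.L1Idem e ∧ (∀ i, IT.tr (p i i).1 = e i i 1) ∧ ∑ i, IT.tr (q i i).1 = m := by
  choose r J J' h1 h2 h3 h4 h5 using exists_proj hP hP'
  let a : LA G E := ⟨A, k, hk, hA⟩
  have hAK : op a ∈ KR G E E := isClosed_KR.mem_of_tendsto hA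
    (Eventually.of_forall fun _ => sum_mem fun g _ => tw_mem_KR g (hc g))
  have hQ : ∀ s, (J s).comp (J' s) * (J s).comp (J' s) = (J s).comp (J' s) := fun s =>
    ContinuousLinearMap.ext fun v => congrArg (J s) (h1 s _)
  have hcc : dl G P * dl G P = dl G P := by rw [← map_mul, hP]
  obtain ⟨s, z, u, a1, a2, a3, a4, a5⟩ := abs_cut (e := dl G P + a) (c := dl G P) (l := atTop)
    (op_inj (by rw [map_mul]; exact he)) hcc (fun s => dl G ((J s).comp (J' s)))
    (fun s => by rw [← map_mul, hQ]) (fun s => by rw [← map_mul, ← map_mul, h5])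
    (by
      rw [add_sub_cancel_left]
      exact tendsto_cut h2 h3 h4 fun g => (coef_of_hasSum hA g).symm ▸ hc g)
  have hqq : dl G ((J s).comp (J' s)) * dl G ((J s).comp (J' s)) = dl G ((J s).comp (J' s)) := by
    rw [← map_mul, hQ]
  have hcq : dl G P * dl G ((J s).comp (J' s)) = dl G ((J s).comp (J' s)) * dl G P := by
    rw [← map_mul, ← map_mul, h5]
  have hJK : amp G (J s) ∈ KR G (Fin (r s) → ℝ) E :=
    tw_one (G := G) (J s) ▸ tw_mem_KR 1 (isCompactOperator_of_locallyCompactSpace_rng _)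
  have hJK' : amp G (J' s) ∈ KR G E (Fin (r s) → ℝ) :=
    tw_one (G := G) (J' s) ▸ tw_mem_KR 1 (isCompactOperator_of_locallyCompactSpace_dom _)
  have hq : ∀ ξ, op (dl G ((J s).comp (J' s))) ξ = amp G (J s) (amp G (J' s) ξ) := fun _ => rfl
  have hJJ : ∀ η, amp G (J' s) (amp G (J s) η) = η := fun η => lp.ext (funext fun x => h1 s _)
  have hqK : op (dl G ((J s).comp (J' s))) ∈ KR G E E := KR_right hJK (amp_mem _)
  have hPc : amp G P = op (dl G P) := rfl
  have hAa : A = op a := rfl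
  have hJ : amp G (J s) ∈ RR G (Fin (r s) → ℝ) E := amp_mem _
  have hJ' : amp G (J' s) ∈ RR G E (Fin (r s) → ℝ) := amp_mem _
  have hl1 := fun x hx hq => l1Idem (G := G) (J s) (J' s) (x := x) hx hq
  have htr : ∀ (x : LA G E) i, IT.tr (amp G (.proj i) ∘L (amp G (J' s) ∘L op x ∘L amp G (J s)) ∘L
      amp G (.single ℝ (fun _ => ℝ) i)) = J' s (coef 1 (op x) (J s (Pi.single i 1))) i := by
    intro x i
    rw [tr_eq, coef_amp_comp, coef_comp_amp, coef_amp_comp, coef_comp_amp]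
    rfl
  obtain ⟨m, hm⟩ := trace_nat (D := (J' s).comp (P.comp (J s))) (ContinuousLinearMap.ext fun v => by
    have := congrArg (fun A : E →L[ℝ] E => A (J s v)) ((congrArg (P * ·) (h5 s).symm).trans
      (by rw [← mul_assoc, hP]))
    change P (J s (J' s (P (J s v)))) = P (J s (J' s (J s v))) at this
    rw [h1] at this
    exact congrArg (J' s) this)
  have hm' : ∑ i, J' s (coef 1 (op (dl G P)) (J s (Pi.single i 1))) i = m := by
    rw [op_dl, ← tw_one, coef_tw, if_pos rfl]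
    exact hm
  generalize dl G ((J s).comp (J' s)) = q at *
  generalize dl G P = c at *
  generalize amp G (J s) = j at *
  generalize amp G (J' s) = j' at *
  have kl : ∀ (x : LA G E) {y : LA G E}, op y ∈ KR G E E → op (x * y) ∈ KR G E E :=
    fun x _ h => by rw [map_mul]; exact KR_left (op_mem x) h
  have kr : ∀ (x : LA G E) {y : LA G E}, op y ∈ KR G E E → op (y * x) ∈ KR G E E :=
    fun x _ h => by rw [map_mul]; exact KR_right h (op_mem x)
  obtain ⟨n, hn⟩ : ∃ n, n = c - c * q := ⟨_, rfl⟩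
  obtain ⟨f, hf⟩ : ∃ f, f = c * q + z := ⟨_, rfl⟩
  have nq : n * q = 0 := by rw [hn, sub_mul, mul_assoc, hqq, sub_self]
  have qn : q * n = 0 := by rw [hn, mul_sub, ← mul_assoc, ← hcq, mul_assoc, hqq, sub_self]
  have qf : q * f = f := by rw [hf, mul_add, a1, ← mul_assoc, ← hcq, mul_assoc, hqq]
  have fq : f * q = f := by rw [hf, add_mul, a2, mul_assoc, hqq]
  have nf : n * f = 0 := by rw [← qf, ← mul_assoc, nq, zero_mul]
  have fn : f * n = 0 := by rw [← fq, mul_assoc, qn, mul_zero]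
  have nc : n * c = n := by rw [hn, sub_mul, hcc, mul_assoc, ← hcq, ← mul_assoc, hcc]
  have cn : c * n = n := by rw [hn, mul_sub, ← mul_assoc, hcc]
  have nn : n * n = n := by
    nth_rewrite 2 [hn]
    rw [mul_sub, ← mul_assoc, nc, nq, sub_zero]
  have nfe : c + z = n + f := by rw [hn, hf]; abel
  have ff : f * f = f := by
    rw [nfe, add_mul, mul_add, mul_add, nn, nf, fn, add_zero, zero_add] at a3
    exact add_left_cancel a3
  have om : ∀ (x y : LA G E) ξ, op x (op y ξ) = op (x * y) ξ := fun x y ξ => by rw [map_mul]; rfl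
  have qj : ∀ η, op q (j η) = j η := fun η => by rw [hq, hJJ]
  have jq : ∀ ξ, j' (op q ξ) = j' ξ := fun ξ => by rw [hq, hJJ]
  have hD : j' ∘L op f ∘L j ∈ RR G _ _ := comp_mem hJ' (comp_mem (op_mem _) hJ)
  have hD' : j' ∘L op c ∘L j ∈ RR G _ _ := comp_mem hJ' (comp_mem (op_mem _) hJ)
  have i1 := ent_idem hD (ContinuousLinearMap.ext fun η => by
    change j' (op f (j (j' (op f (j η))))) = j' (op f (j η))
    rw [← hq, om, om, fq, ff])
  have i2 := ent_idem hD' (ContinuousLinearMap.ext fun η => by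
    change j' (op c (j (j' (op c (j η))))) = j' (op c (j η))
    rw [← hq, om, om, mul_assoc, ← hcq, ← mul_assoc, hcc, ← om, qj])
  refine ⟨r s, ent _ hD, ent _ hD', _, m, i1, i2, ⟨r s, _, _, i1, i2,
    blk2 (op (n * ↑u⁻¹)) (op c ∘L j) (j' ∘L op (f * ↑u⁻¹)) 0,
    blk2_mem (op_mem _) (comp_mem (op_mem _) hJ) (comp_mem hJ' (op_mem _)) (zero_mem _),
    blk2 (op (u * n)) (op (u * f) ∘L j) (j' ∘L op c) 0,
    blk2_mem (op_mem _) (comp_mem (op_mem _) hJ) (comp_mem hJ' (op_mem _)) (zero_mem _),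
    ?_, ?_, ?_, rfl⟩, hl1 f ff fq, htr f, (Finset.sum_congr rfl fun i _ => htr c i).trans hm'⟩
  · rw [blk2_mul, blk_ent, hPc]
    congr 1 <;> ext1 ξ <;>
      simp only [_root_.add_apply, ContinuousLinearMap.comp_apply, _root_.zero_apply, map_zero,
        add_zero, ← hq, om, mul_assoc, Units.inv_mul_cancel_left, nn, nf, fn, ff]
    rw [← _root_.add_apply, ← map_add, ← hcq, ← mul_assoc, hcc, hn, sub_add_cancel]
  · rw [blk2_mul, blk_ent, hPc, hAa, ← map_add]
    congr 1 <;> ext1 ξ <;>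
      simp only [_root_.add_apply, ContinuousLinearMap.comp_apply, _root_.zero_apply, map_zero,
        add_zero, ← hq, om]
    · rw [← _root_.add_apply, ← map_add]
      congr 2
      rw [← Units.mul_left_inj u, a4, nfe]
      simp only [add_mul, mul_add, mul_assoc, Units.inv_mul, mul_one, nn, qf, ff]
    · rw [mul_assoc, nc, ← qj, om, mul_assoc, nq, mul_zero, map_zero, _root_.zero_apply]
    · rw [← mul_assoc, cn, ← jq, om, ← mul_assoc, qn, zero_mul, map_zero, _root_.zero_apply,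
        map_zero]
    · rw [hcc]
  · rw [blk_zero, blk2_sub, hPc, hAa, ← map_add, ← map_mul, ← map_sub]
    refine blk2_KR ?_ (KR_left (op_mem _) hJK) (KR_right hJK' (op_mem _)) (zero_mem _)
    have b1 : op (c + z - (c + a)) ∈ KR G E E := by
      rw [add_sub_add_left_eq_sub, map_sub, ← a1]
      exact sub_mem (kr _ hqK) hAK
    have b2 : op ((↑u⁻¹ : LA G E) - 1) ∈ KR G E E := by
      rw [inv_sub_one, a5, cu_sub_one, map_neg]
      exact neg_mem (kl _ (kl _ b1))
    have b3 : n * ↑u⁻¹ - c * (c + a) = n * (↑u⁻¹ - 1) - c * q - c * a := by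
      rw [mul_sub, mul_add, hcc, mul_one]
      nth_rewrite 3 [hn]
      abel
    rw [b3, map_sub, map_sub]
    exact sub_mem (sub_mem (kl _ b2) (kl _ hqK)) (kl _ hAK)

theorem main' {P : E →L[ℝ] E} (hP : P * P = P) (hP' : IsSelfAdjoint P) {k : G → E →L[ℝ] E}
    (hk : Summable fun g => ‖k g‖) (hc : ∀ g, IsCompactOperator (k g)) {A : V G E →L[ℝ] V G E}
    (hA : HasSum (fun g => tw g (k g)) A) (he : (amp G P + A) * (amp G P + A) = amp G P + A) :
    ∃ z, CX.IsInd (amp G P + A) (amp G P) z ∧ ∃ (r : ℕ) (e : Fin r → Fin r → G → ℝ) (q : ℚ),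
      DG.L1Idem e ∧ ∀ τ : BCH.K0 (CX.Cr G) →+ ℝ,
        (∀ (l : ℕ) (p : Matrix (Fin l) (Fin l) (CX.Cr G)), p * p = p →
          τ (BCH.cls p) = ∑ i, IT.tr (p i i).1) → τ z = ∑ i, e i i 1 + q := by
  obtain ⟨r, p, q, e, m, h1, h2, h3, h4, h5, h6⟩ := main hP hP' hk hc hA he
  refine ⟨_, h3, r, e, -m, h4, fun τ hτ => ?_⟩
  rw [map_sub, hτ _ _ h1, hτ _ _ h2, h6, Finset.sum_congr rfl fun i _ => h5 i]
  push_cast
  ring

end Main

end Pool.Agent.Lib.L1I.K1
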