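import Pool.Agent.Lib.L1I.Blue
import Pool.Agent.Lib.L1I.K1b

/-! Block K1. -/

namespace Pool.Agent.Lib.L1I

theorem stK1 : St_K1 := by
  intro G _ E _ _ _ P k A τ hτ hP hS hk hc hA he
  obtain ⟨z, h1, r, e, q, h2, h3⟩ :=
    K1.main' hP (ContinuousLinearMap.isSelfAdjoint_iff_isSymmetric.2 hS) hk hc hA he
  exact ⟨z, h1, r, e, q, h2, h3 τ hτ⟩

end Pool.Agent.Lib.L1I
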