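import Pool.Agent.Lib.CX.Defs
import Pool.Agent.Lib.BC.Kap

/-! The Banach algebra of absolutely summable operator valued convolution kernels. -/

set_option linter.unusedSectionVars false

noncomputable section

open Filter Topology BCO

namespace Pool.Agent.Lib.L1I.K1

variable {G E F H : Type} [Group G] [NormedAddCommGroup E] [NormedSpace ℝ E]
  [NormedAddCommGroup F] [NormedSpace ℝ F] [NormedAddCommGroup H] [NormedSpace ℝ H]

open Classical in
/-- The coefficient of an operator at `g`. -/
def coef (g : G) : (V G E →L[ℝ] V G F) →L[ℝ] E →L[ℝ] F :=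
  (ContinuousLinearMap.compL ℝ E (V G F) F (lp.evalCLM ℝ (fun _ : G => F) 2 g)).comp
    ((ContinuousLinearMap.compL ℝ E (V G E) (V G F)).flip
      (lp.singleContinuousLinearMap ℝ (fun _ : G => E) 2 1))

open Classical in
theorem coef_apply (g : G) (T : V G E →L[ℝ] V G F) (v : E) :
    coef g T v = T (lp.single 2 1 v) g := rfl

open Classical in
theorem coef_tw (g h : G) (T : E →L[ℝ] F) : coef g (tw h T) = if h = g then T else 0 := by
  ext1 v
  rw [coef_apply, tw_apply, lp.single_apply, Pi.single_apply]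
  by_cases h1 : h = g
  · simp [h1]
  · simp [h1, inv_mul_eq_one]

theorem coef_amp_comp (g : G) (S : F →L[ℝ] H) (T : V G E →L[ℝ] V G F) :
    coef g ((amp G S).comp T) = S.comp (coef g T) := rfl

theorem coef_comp_amp (g : G) (T : V G F →L[ℝ] V G H) (S : E →L[ℝ] F) :
    coef g (T.comp (amp G S)) = (coef g T).comp S := by
  classical
  ext1 v
  change T (amp G S (lp.single 2 1 v)) g = T (lp.single 2 1 (S v)) g
  have : amp G S (lp.single 2 1 v) = (lp.single 2 1 (S v) : V G F) := by
    refine lp.ext (funext fun x => ?_)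
    rw [amp_apply, lp.single_apply, lp.single_apply, Pi.single_apply, Pi.single_apply]
    split_ifs <;> simp
  rw [this]

theorem coef_of_hasSum {k : G → E →L[ℝ] F} {T : V G E →L[ℝ] V G F}
    (h : HasSum (fun g => tw g (k g)) T) (g : G) : coef g T = k g := by
  classical
  have h1 := (coef g).hasSum h
  simp only [coef_tw] at h1
  refine h1.unique ?_
  convert hasSum_ite_eq g (k g) using 2 with x
  split_ifs with h2
  · rw [h2]
  · rfl

variable [CompleteSpace E]

theorem summable_tw {k : G → E →L[ℝ] E} (h : Summable fun g => ‖k g‖) :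
    Summable fun g => ‖tw g (k g)‖ :=
  .of_nonneg_of_le (fun _ => norm_nonneg _) (fun g => norm_tw_le g _) h

/-- The change of variables for the convolution. -/
def sh (G : Type) [Group G] : G × G ≃ G × G where
  toFun z := (z.2, z.2⁻¹ * z.1)
  invFun z := (z.1 * z.2, z.1)
  left_inv z := by simp
  right_inv z := by simp

theorem conv_sum {c d : G → E →L[ℝ] E} (hc : Summable fun g => ‖c g‖)
    (hd : Summable fun g => ‖d g‖) :
    (∀ g, Summable fun h => ‖c h * d (h⁻¹ * g)‖) ∧
      (Summable fun g => ‖∑' h, c h * d (h⁻¹ * g)‖) ∧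
      ∑' g, ‖∑' h, c h * d (h⁻¹ * g)‖ ≤ (∑' g, ‖c g‖) * ∑' g, ‖d g‖ := by
  have h0 := hc.mul_of_nonneg hd (fun _ => norm_nonneg _) fun _ => norm_nonneg _
  have h1 : Summable fun z : G × G => ‖c z.2‖ * ‖d (z.2⁻¹ * z.1)‖ := (sh G).summable_iff.2 h0
  have h2 := (summable_prod_of_nonneg fun _ => by positivity).1 h1
  have h3 : ∀ g, Summable fun h => ‖c h * d (h⁻¹ * g)‖ := fun g =>
    .of_nonneg_of_le (fun _ => norm_nonneg _) (fun _ => norm_mul_le _ _) (h2.1 g)
  have h4 : ∀ g, ‖∑' h, c h * d (h⁻¹ * g)‖ ≤ ∑' h, ‖c h‖ * ‖d (h⁻¹ * g)‖ := fun g =>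
    (norm_tsum_le_tsum_norm (h3 g)).trans ((h3 g).tsum_le_tsum (fun _ => norm_mul_le _ _) (h2.1 g))
  have h5 := Summable.of_nonneg_of_le (fun _ => norm_nonneg _) h4 h2.2
  refine ⟨h3, h5, (h5.tsum_le_tsum h4 h2.2).trans (le_of_eq ?_)⟩
  rw [hc.tsum_mul_tsum hd h0, ← (sh G).tsum_eq]
  exact h1.tsum_prod.symm

theorem conv_hasSum {c d : G → E →L[ℝ] E} (hc : Summable fun g => ‖c g‖)
    (hd : Summable fun g => ‖d g‖) {S T : V G E →L[ℝ] V G E}
    (hS : HasSum (fun g => tw g (c g)) S) (hT : HasSum (fun g => tw g (d g)) T) :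
    HasSum (fun g => tw g (∑' h, c h * d (h⁻¹ * g))) (S * T) := by
  have h0 := summable_mul_of_summable_norm (f := fun g => tw g (c g)) (g := fun g => tw g (d g))
    (summable_tw hc) (summable_tw hd)
  have h1 := HasSum.mul (f := fun g => tw g (c g)) (g := fun g => tw g (d g)) hS hT h0
  rw [← (sh G).hasSum_iff] at h1
  refine h1.prod_fiberwise fun g => ?_
  have h2 := (twL g).hasSum ((conv_sum hc hd).1 g).of_norm.hasSum
  have h3 : ∀ h, twL g (c h * d (h⁻¹ * g)) = tw h (c h) * tw (h⁻¹ * g) (d (h⁻¹ * g)) := fun h => by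
    rw [tw_mul, mul_inv_cancel_left, twL_apply]
  simp only [h3] at h2
  exact h2

theorem amp_ker (T : E →L[ℝ] E) : ∃ k : G → E →L[ℝ] E, (Summable fun g => ‖k g‖) ∧
    HasSum (fun g => tw g (k g)) (amp G T) := by
  classical
  refine ⟨fun g => if g = 1 then T else 0,
    (hasSum_single 1 fun g hg => by simp [hg]).summable, ?_⟩
  have := hasSum_single (f := fun g : G => tw g (if g = 1 then T else 0)) 1 fun g hg => by
    rw [if_neg hg, tw_zero]
  rwa [if_pos rfl, tw_one] at this

variable (G E) in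
/-- Operators with an absolutely summable kernel. -/
def sub : Subalgebra ℝ (V G E →L[ℝ] V G E) where
  carrier := {T | ∃ k : G → E →L[ℝ] E, (Summable fun g => ‖k g‖) ∧ HasSum (fun g => tw g (k g)) T}
  mul_mem' := fun ⟨_, hc, hS⟩ ⟨_, hd, hT⟩ => ⟨_, (conv_sum hc hd).2.1, conv_hasSum hc hd hS hT⟩
  add_mem' := fun ⟨c, hc, hS⟩ ⟨d, hd, hT⟩ => ⟨fun g => c g + d g,
    .of_nonneg_of_le (fun _ => norm_nonneg _) (fun _ => norm_add_le _ _) (hc.add hd), by
      simpa only [tw_add] using hS.add hT⟩
  algebraMap_mem' r := (ampA G (E := E)).commutes r ▸ amp_ker (algebraMap ℝ _ r)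

variable (G E) in
/-- The convolution algebra. -/
def LA : Type := sub G E

instance : Ring (LA G E) := inferInstanceAs (Ring (sub G E))

instance : Algebra ℝ (LA G E) := inferInstanceAs (Algebra ℝ (sub G E))

/-- The operator of a kernel. -/
def op : LA G E →ₐ[ℝ] (V G E →L[ℝ] V G E) := (sub G E).val

theorem op_inj : Function.Injective (op : LA G E → _) := Subtype.val_injective

theorem LA.summable (x : LA G E) : Summable fun g => ‖coef g (op x)‖ := by
  obtain ⟨k, h1, h2⟩ := x.2
  exact h1.congr fun g => congrArg norm (coef_of_hasSum h2 g).symm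

theorem LA.hasSum (x : LA G E) : HasSum (fun g => tw g (coef g (op x))) (op x) := by
  obtain ⟨k, -, h2⟩ := x.2
  have h3 : ∀ g, coef g (op x) = k g := coef_of_hasSum h2
  simp only [h3]
  exact h2

theorem coef_mul (x y : LA G E) (g : G) :
    coef g (op (x * y)) = ∑' h, coef h (op x) * coef (h⁻¹ * g) (op y) :=
  coef_of_hasSum (conv_hasSum x.summable y.summable x.hasSum y.hasSum) g

/-- The kernel as an element of `ℓ¹`. -/
def toL : LA G E →ₗ[ℝ] lp (fun _ : G => E →L[ℝ] E) 1 where
  toFun x := ⟨fun g => coef g (op x), memℓp_gen (by simpa using x.summable)⟩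
  map_add' x y := lp.ext (funext fun g => map_add (coef g) (op x) (op y))
  map_smul' r x := lp.ext (funext fun g => map_smul (coef g) r (op x))

theorem toL_inj : Function.Injective (toL : LA G E → _) := fun x y h =>
  op_inj (x.hasSum.unique (by
    convert y.hasSum using 3 with g
    exact congrArg (fun z : lp (fun _ : G => E →L[ℝ] E) 1 => z g) h))

theorem toL_surj : Function.Surjective (toL : LA G E → _) := fun k => by
  have h1 : Summable fun g => ‖k g‖ := by
    simpa using (lp.memℓp k).summable (by norm_num)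
  have h2 := (summable_tw h1).of_norm.hasSum
  exact ⟨⟨_, k, h1, h2⟩, lp.ext (funext fun g => coef_of_hasSum h2 g)⟩

theorem norm_toL (x : LA G E) : ‖toL x‖ = ∑' g, ‖coef g (op x)‖ := by
  rw [lp.norm_eq_tsum_rpow (by norm_num)]
  simp [toL]

instance : NormedRing (LA G E) :=
  { (inferInstance : Ring (LA G E)), NormedAddCommGroup.induced (LA G E) _ toL toL_inj with
    norm_mul_le := fun x y => by
      change ‖toL (x * y)‖ ≤ ‖toL x‖ * ‖toL y‖
      simp only [norm_toL, coef_mul]
      exact (conv_sum x.summable y.summable).2.2 }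

theorem norm_eq (x : LA G E) : ‖x‖ = ∑' g, ‖coef g (op x)‖ := norm_toL x

instance : NormedAlgebra ℝ (LA G E) :=
  { (inferInstance : Algebra ℝ (LA G E)) with
    norm_smul_le := fun r x => by
      change ‖toL (r • x)‖ ≤ ‖r‖ * ‖toL x‖
      rw [map_smul]
      exact norm_smul_le _ _ }

instance : CompleteSpace (LA G E) :=
  (completeSpace_congr (e := Equiv.ofBijective toL ⟨toL_inj, toL_surj⟩)
    (Isometry.isUniformEmbedding (fun _ _ => rfl))).2 inferInstance

theorem norm_op_le (x : LA G E) : ‖op x‖ ≤ ‖x‖ := by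
  rw [norm_eq]
  exact x.hasSum.norm_le_of_bounded x.summable.hasSum fun g => norm_tw_le g _

theorem continuous_op : Continuous (op : LA G E → _) :=
  AddMonoidHomClass.continuous_of_bound op 1 fun x => by rw [one_mul]; exact norm_op_le x

theorem op_mem (x : LA G E) : op x ∈ RR G E E :=
  isClosed_RR.mem_of_tendsto x.hasSum
    (Eventually.of_forall fun _ => sum_mem fun g _ => tw_mem g _)

variable (G) in
/-- The kernels supported at the identity. -/
def dl : (E →L[ℝ] E) →ₐ[ℝ] LA G E := (ampA G).codRestrict (sub G E) amp_ker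

theorem op_dl (T : E →L[ℝ] E) : op (dl G T) = amp G T := rfl

theorem coef_cut (S T : E →L[ℝ] E) (x : LA G E) (g : G) :
    coef g (op (dl G S * x * dl G T)) = S * coef g (op x) * T :=
  coef_comp_amp g ((amp G S).comp (op x)) T

/-! ### Compact kernels -/

variable (G E F) in
/-- The closed span of the operators `λ(g) ⊗ T` with `T` compact. -/
def KR : Submodule ℝ (V G E →L[ℝ] V G F) :=
  (Submodule.span ℝ {A | ∃ (g : G) (T : E →L[ℝ] F), IsCompactOperator T ∧
    A = tw g T}).topologicalClosure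

omit [CompleteSpace E]

theorem isClosed_KR : IsClosed (KR G E F : Set (V G E →L[ℝ] V G F)) :=
  Submodule.isClosed_topologicalClosure _

theorem tw_mem_KR (g : G) {T : E →L[ℝ] F} (h : IsCompactOperator T) : tw g T ∈ KR G E F :=
  Submodule.le_topologicalClosure _ (Submodule.subset_span ⟨g, T, h, rfl⟩)

theorem KR_map {W : Type*} [AddCommGroup W] [Module ℝ W] [TopologicalSpace W]
    (φ : (V G E →L[ℝ] V G F) →L[ℝ] W) (S : Submodule ℝ W) (hS : IsClosed (S : Set W))
    (h : ∀ (g : G) (T : E →L[ℝ] F), IsCompactOperator T → φ (tw g T) ∈ S)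
    {A : V G E →L[ℝ] V G F} (hA : A ∈ KR G E F) : φ A ∈ S := by
  have : KR G E F ≤ S.comap φ.toLinearMap :=
    Submodule.topologicalClosure_minimal _
      (Submodule.span_le.2 (by rintro _ ⟨g, T, hT, rfl⟩; exact h g T hT))
      (hS.preimage φ.continuous)
  exact this hA

theorem KR_left {A : V G F →L[ℝ] V G H} {B : V G E →L[ℝ] V G F} (hA : A ∈ RR G F H)
    (hB : B ∈ KR G E F) : A.comp B ∈ KR G E H := by
  refine RR_map ((ContinuousLinearMap.compL ℝ (V G E) (V G F) (V G H)).flip B) (KR G E H)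
    isClosed_KR (fun g T => ?_) hA
  refine KR_map (ContinuousLinearMap.compL ℝ (V G E) (V G F) (V G H) (tw g T)) (KR G E H)
    isClosed_KR (fun h S hS => ?_) hB
  change (tw g T).comp (tw h S) ∈ _
  rw [tw_comp]
  exact tw_mem_KR _ (hS.clm_comp T)

theorem KR_right {A : V G F →L[ℝ] V G H} {B : V G E →L[ℝ] V G F} (hA : A ∈ KR G F H)
    (hB : B ∈ RR G E F) : A.comp B ∈ KR G E H := by
  refine KR_map ((ContinuousLinearMap.compL ℝ (V G E) (V G F) (V G H)).flip B) (KR G E H)
    isClosed_KR (fun g T hT => ?_) hA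
  refine RR_map (ContinuousLinearMap.compL ℝ (V G E) (V G F) (V G H) (tw g T)) (KR G E H)
    isClosed_KR (fun h S => ?_) hB
  change (tw g T).comp (tw h S) ∈ _
  rw [tw_comp]
  exact tw_mem_KR _ (hT.comp_clm S)

end Pool.Agent.Lib.L1I.K1
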