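import Pool.Agent.Lib.L1I.Blue
import Pool.Agent.Lib.L1I.K1a
import Pool.Agent.Lib.MFI.CXGlue

/-! Block L1A: coefficients of operators. -/

noncomputable section

open Set BCO

namespace Pool.Agent.Lib.L1I

open CX

variable {G E : Type} [Group G] [NormedAddCommGroup E] [NormedSpace ℝ E]

theorem coef_eq (g : G) (A : V G E →L[ℝ] V G E) : coef g A = K1.coef g A := rfl

theorem apply_sg {A : V G E →L[ℝ] V G E} (hA : A ∈ RA G E) (h x : G) (v : E) :
    A (sg h v) x = coef (x * h⁻¹) A v := by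
  classical
  have := RR_map ((lp.evalCLM ℝ (fun _ : G => E) 2 x).comp (ContinuousLinearMap.apply ℝ _ (sg h v)) -
    (ContinuousLinearMap.apply ℝ _ v).comp (K1.coef (x * h⁻¹))) ⊥ (by simp) (fun g T => ?_) hA
  · exact sub_eq_zero.1 ((Submodule.mem_bot ℝ).1 this)
  refine (Submodule.mem_bot ℝ).2 (sub_eq_zero.2 ?_)
  change T (lp.single (E := fun _ : G => E) 2 h v (g⁻¹ * x)) =
    T (lp.single (E := fun _ : G => E) 2 1 v (g⁻¹ * (x * h⁻¹)))
  rw [lp.single_apply, lp.single_apply, Pi.single_apply, Pi.single_apply, ← mul_assoc]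
  simp only [mul_inv_eq_one]

theorem eq_of_coef {A B : V G E →L[ℝ] V G E} (hA : A ∈ RA G E) (hB : B ∈ RA G E)
    (h : ∀ g, coef g A = coef g B) : A = B := by
  classical
  refine lp.ext_continuousLinearMap ENNReal.ofNat_ne_top fun g => ContinuousLinearMap.ext fun v =>
    lp.ext (funext fun x => ?_)
  exact (apply_sg hA g x v).trans ((congrArg (· v) (h _)).trans (apply_sg hB g x v).symm)

variable [CompleteSpace E]

theorem hasSum_coef {A : V G E →L[ℝ] V G E} (hA : A ∈ RA G E) (h : Summable fun g => ‖coef g A‖) :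
    HasSum (fun g => tw g (coef g A)) A := by
  have h1 := (K1.summable_tw h).of_norm.hasSum
  have h2 : ∑' g, tw g (coef g A) ∈ RA G E :=
    isClosed_RA.mem_of_tendsto h1 (.of_forall fun s => (RA G E).sum_mem fun g _ => tw_mem g _)
  rwa [eq_of_coef h2 hA fun g => K1.coef_of_hasSum h1 g] at h1

theorem FS_sub {B : V G E →L[ℝ] V G E} (hB : B ∈ FS G E) : B ∈ K1.sub G E := by
  classical
  refine (Submodule.span_le (p := (K1.sub G E).toSubmodule)).2 ?_ hB
  rintro _ ⟨h, T, rfl⟩
  refine ⟨fun g => if g = h then T else 0, (hasSum_single h fun g hg => by simp [hg]).summable, ?_⟩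
  have := hasSum_single (f := fun g : G => tw g (if g = h then T else 0)) h fun g hg => by
    rw [if_neg hg, tw_zero]
  rwa [if_pos rfl] at this

theorem stL1A : St_L1A := by
  intro G _ E _ _ _
  refine ⟨fun A => hasSum_coef, fun A hA B hB B' hB' h => ?_, fun A hA g => ?_,
    fun A hA B hB => ⟨MFI.mul_mem_KK hB hA, MFI.KK_mul_mem hA hB⟩⟩
  · obtain ⟨k, h1, h2⟩ := mul_mem (mul_mem (FS_sub hB) (⟨_, h, hasSum_coef hA h⟩ : A ∈ K1.sub G E))
      (FS_sub hB')
    exact h1.congr fun g => congrArg norm (K1.coef_of_hasSum h2 g).symm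
  · classical
    refine MFI.KK_map (K1.coef g) (compactOperator (RingHom.id ℝ) E E)
      isClosed_setOf_isCompactOperator (fun h T hT => ?_) hA
    rw [K1.coef_tw]
    split_ifs
    exacts [hT, zero_mem _]

end Pool.Agent.Lib.L1I
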