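import Pool.Agent.Lib.L1I.Psi1
import Pool.Agent.Lib.SMG.Gauge
import Pool.Agent.Lib.CX.Sec

/-! Smooth sections on the covering. -/

noncomputable section

open Set Filter Topology MeasureTheory BCO
open scoped Manifold ContDiff RealInnerProductSpace

namespace Pool.Agent.Lib.L1I.PS

open CX ANA

section Gauge

variable {n N : ℕ} {X : SM n} {S : Spinor n N} {w : Eu N →L[ℝ] Eu N} {v : X.M → ℝ} {a b : ℕ}
  {p : X.M} {u φ : X.M → Eu N}

theorem GrF.spin (hw : GrF (gam S) w) (ha : p ∈ X.U a) (hb : p ∈ X.U b) (y : Eu N) :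
    w (S.c (X.s a b p) y) = S.c (X.s a b p) (w y) :=
  congrArg (· y) (SMG.comm_spin S.c hw.anti (SMG.s_mem X ha hb))

theorem Bl_gauge (hw : GrF (gam S) w) (ha : p ∈ X.U a) (hb : p ∈ X.U b)
    (hu : MDifferentiableAt (𝓡 n) 𝓘(ℝ, Eu N) u p) :
    Bl (X.F a) (gam S) w v (fun y => S.c (X.s a b y) (u y)) p =
      S.c (X.s a b p) (Bl (X.F b) (gam S) w v u p) := by
  have := SMG.dirac_gauge X S ha hb hu
  rw [dirac_eq, dirac_eq] at this
  rw [Bl, Bl, this, map_add, map_smul, hw.spin ha hb]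

theorem Zq_gauge (hw : GrF (gam S) w) (ha : p ∈ X.U a) (hb : p ∈ X.U b) (y z : Eu N) :
    Zq (X.F a) (gam S) w v p (S.c (X.s a b p) y) (S.c (X.s a b p) z) =
      Zq (X.F b) (gam S) w v p y z := by
  have h1 := congrArg (fun A : Eu N →L[ℝ] Eu N => ⟪A (w y), S.c (X.s a b p) z⟫)
    (SMG.cgrad_gauge X S ha hb v)
  simp only [mul_apply_eq_comp, S.inner_spin (SMG.s_mem X ha hb), _root_.sum_apply,
    _root_.smul_apply, sum_inner, real_inner_smul_left] at h1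
  rw [Zq, Zq, SMG.scal_gauge X ha, SMG.scal_gauge X hb, S.inner_spin (SMG.s_mem X ha hb),
    hw.spin ha hb]
  exact congrArg _ h1.symm

theorem En_gauge (hw : GrF (gam S) w) (ha : p ∈ X.U a) (hb : p ∈ X.U b)
    (hu : MDifferentiableAt (𝓡 n) 𝓘(ℝ, Eu N) u p) (hφ : MDifferentiableAt (𝓡 n) 𝓘(ℝ, Eu N) φ p) :
    En (X.F a) (gam S) w v (fun y => S.c (X.s a b y) (u y)) (fun y => S.c (X.s a b y) (φ y)) p =
      En (X.F b) (gam S) w v u φ p := by
  rw [En, En, Zq_gauge hw ha hb]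
  congr 1
  have ho := SMG.orth_rot' (X.spin a b p ⟨ha, hb⟩)
  symm
  calc _ = ∑ j, ⟪S.c (X.s a b p) (Fm.nab (X.F b) (gam S) j u p),
        S.c (X.s a b p) (Fm.nab (X.F b) (gam S) j φ p)⟫ := by
        simp only [S.inner_spin (SMG.s_mem X ha hb)]
    _ = ∑ k, ∑ i, (∑ j, SMG.rot (X.F a) (X.F b) k j p * SMG.rot (X.F a) (X.F b) i j p) *
        ⟪Fm.nab (X.F a) (gam S) i (fun y => S.c (X.s a b y) (u y)) p,
          Fm.nab (X.F a) (gam S) k (fun y => S.c (X.s a b y) (φ y)) p⟫ := by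
        simp only [SMG.nab_gauge X S ha hb hu, SMG.nab_gauge X S ha hb hφ, sum_inner, inner_sum,
          real_inner_smul_left, real_inner_smul_right, Finset.sum_mul]
        rw [Finset.sum_comm]
        refine Finset.sum_congr rfl fun i _ => ?_
        rw [Finset.sum_comm]
        exact Finset.sum_congr rfl fun k _ => Finset.sum_congr rfl fun j _ => by ring
    _ = _ := by simp [ho]

end Gauge

variable {G : Type} [Group G] {m N : ℕ} (x : Sing G m) (S : Spinor (m + 1) N)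
  (w : Eu N →L[ℝ] Eu N) (v : x.X.M → ℝ)

/-- The domain of the frame `a` and the join coordinate `i`. -/
def Wp (a i : ℕ) : Set x.X.M := x.X.U a ∩ {p | (x.f p).t i ≠ 0}

/-- The components in the frame `a` on the sheet `g_i = g`. -/
def lc (a i : ℕ) (g : G) (ξ : G → x.X.M → Eu N) (p : x.X.M) : Eu N :=
  S.c (x.X.s a (x.X.fr p) p) (ξ (((x.f p).co i (x.f p).ix)⁻¹ * g) p)

/-- The sheets that meet the support. -/
def Sup (ξ : G → x.X.M → Eu N) (T : Finset G) : Prop := ∀ a i, ∀ g ∉ T, ∀ p, lc x S a i g ξ p = 0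

/-- Smooth sections with compact support on the covering. -/
structure Ts (ξ : G → x.X.M → Eu N) : Prop where
  sm : ∀ a i g, ∀ p ∈ Wp x a i, ContMDiffAt (𝓡 (m + 1)) 𝓘(ℝ, Eu N) ∞ (lc x S a i g ξ) p
  cpt : ∃ K, IsCompact K ∧ ∀ γ, ∀ p ∉ K, ξ γ p = 0
  fin : ∃ T, Sup x S ξ T

/-- Elementary test functions. -/
structure El (a i : ℕ) (u : x.X.M → Eu N) : Prop where
  sm : ContMDiff (𝓡 (m + 1)) 𝓘(ℝ, Eu N) ∞ u
  cpt : HasCompactSupport u
  sub : tsupport u ⊆ Wp x a i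

/-- The operator `D + v w` on the covering. -/
def Bg (ξ : G → x.X.M → Eu N) (γ : G) (p : x.X.M) : Eu N :=
  Bl (x.X.F (x.X.fr p)) (gam S) w v (lc x S (x.X.fr p) (x.f p).ix γ ξ) p

/-- The energy density on the covering. -/
def Eg (ξ ζ : G → x.X.M → Eu N) (γ : G) (p : x.X.M) : ℝ :=
  En (x.X.F (x.X.fr p)) (gam S) w v (lc x S (x.X.fr p) (x.f p).ix γ ξ)
    (lc x S (x.X.fr p) (x.f p).ix γ ζ) p

variable {x S w v} {a b i j : ℕ} {g h γ : G} {p : x.X.M} {ξ ζ : G → x.X.M → Eu N}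
  {u : x.X.M → Eu N} {T : Finset G}

theorem isOpen_Wp (a i : ℕ) : IsOpen (Wp x a i) := (x.X.isOpen a).inter (x.isOpen_t i)

theorem mem_Wp (p : x.X.M) : p ∈ Wp x (x.X.fr p) (x.f p).ix := ⟨mem_fr _ p, BG1.t_ix _⟩

theorem co_self {q : BG G} (hq : q.t i ≠ 0) : q.co i i = 1 :=
  mul_eq_left.1 (BG1.co_mul q i i i hq hq hq)

theorem lc_self (ξ : G → x.X.M → Eu N) (γ : G) (p : x.X.M) :
    lc x S (x.X.fr p) (x.f p).ix γ ξ p = ξ γ p := by
  simp [lc, SMG.s_self _ (mem_fr _ p), co_self (BG1.t_ix _)]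

theorem lc_trans (ha : p ∈ Wp x a i) (hb : p ∈ Wp x b j) : lc x S a i g ξ p =
    S.c (x.X.s a b p) (lc x S b j (((x.f p).co i j)⁻¹ * g) ξ p) := by
  rw [lc, lc, ← mul_apply_eq_comp, ← map_mul, x.X.cocycle a b _ p ⟨⟨ha.1, hb.1⟩, mem_fr _ p⟩,
    ← BG1.co_mul _ i j _ ha.2 hb.2 (BG1.t_ix _), mul_inv_rev, mul_assoc]

theorem lc_ev (ha : p ∈ Wp x a i) (hb : p ∈ Wp x b j) : lc x S a i g ξ =ᶠ[𝓝 p] fun y =>
    S.c (x.X.s a b y) (lc x S b j (((x.f p).co i j)⁻¹ * g) ξ y) := by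
  filter_upwards [(isOpen_Wp a i).mem_nhds ha, (isOpen_Wp b j).mem_nhds hb,
    (x.isOpen_co i j _).mem_nhds ⟨ha.2, hb.2, rfl⟩] with y h1 h2 h3
  rw [lc_trans h1 h2, h3.2.2]

theorem of_lc (ha : p ∈ Wp x a i) (ξ : G → x.X.M → Eu N) (γ : G) : ξ γ p =
    S.c (x.X.s (x.X.fr p) a p) (lc x S a i ((x.f p).co i (x.f p).ix * γ) ξ p) := by
  rw [lc, ← mul_apply_eq_comp, ← map_mul, SMG.s_inv _ (mem_fr _ p) ha.1, map_one,
    inv_mul_cancel_left]
  rfl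

theorem inner_lc (ha : p ∈ x.X.U a) : ⟪lc x S a i g ξ p, lc x S a i g ζ p⟫ =
    ⟪ξ (((x.f p).co i (x.f p).ix)⁻¹ * g) p, ζ (((x.f p).co i (x.f p).ix)⁻¹ * g) p⟫ :=
  S.inner_spin (SMG.s_mem _ ha (mem_fr _ p)) _ _

theorem Ts.md (hξ : Ts x S ξ) (ha : p ∈ Wp x a i) (g : G) :
    MDifferentiableAt (𝓡 (m + 1)) 𝓘(ℝ, Eu N) (lc x S a i g ξ) p :=
  (hξ.sm a i g p ha).mdifferentiableAt (by simp)

theorem Bl_congr {n : ℕ} {X : SM n} {F : Fm n X.M} {γ : Fin n → Eu N →L[ℝ] Eu N} {v : X.M → ℝ}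
    {u u' : X.M → Eu N} {p : X.M} (h : u =ᶠ[𝓝 p] u') : Bl F γ w v u p = Bl F γ w v u' p := by
  rw [Bl, Bl, F.dir_congr h, h.self_of_nhds]

theorem Ts.lc_Bg (hw : GrF (gam S) w) (hξ : Ts x S ξ) (ha : p ∈ Wp x a i) :
    lc x S a i g (Bg x S w v ξ) p = Bl (x.X.F a) (gam S) w v (lc x S a i g ξ) p := by
  rw [Bl_congr (lc_ev ha (mem_Wp p)), Bl_gauge hw ha.1 (mem_fr _ p) (hξ.md (mem_Wp p) _)]
  rfl

theorem Ts.Eg_eq (hw : GrF (gam S) w) (hξ : Ts x S ξ) (hζ : Ts x S ζ) (ha : p ∈ Wp x a i) :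
    Eg x S w v ξ ζ γ p = En (x.X.F a) (gam S) w v (lc x S a i ((x.f p).co i (x.f p).ix * γ) ξ)
      (lc x S a i ((x.f p).co i (x.f p).ix * γ) ζ) p := by
  rw [En_congr (lc_ev ha (mem_Wp p)) (lc_ev ha (mem_Wp p)), En_gauge hw ha.1 (mem_fr _ p)
    (hξ.md (mem_Wp p) _) (hζ.md (mem_Wp p) _), inv_mul_cancel_left]
  rfl

theorem Sup.zero (h : Sup x S ξ T) (hγ : γ ∉ T) (p : x.X.M) : ξ γ p = 0 := by
  rw [← lc_self (S := S) ξ γ p, h _ _ _ hγ]

theorem Sup.Bg (h : Sup x S ξ T) (hγ : γ ∉ T) (p : x.X.M) : Bg x S w v ξ γ p = 0 :=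
  Bl_zero (Eventually.of_forall (h _ _ _ hγ))

theorem Sup.Eg (h : Sup x S ξ T) (hγ : γ ∉ T) (p : x.X.M) : Eg x S w v ξ ζ γ p = 0 :=
  En_zero' (Eventually.of_forall (h _ _ _ hγ))

theorem Ts.zero : Ts x S fun _ _ => 0 :=
  ⟨fun _ _ _ _ _ => contMDiffAt_const.congr_of_eventuallyEq (Eventually.of_forall fun _ =>
    map_zero _), ⟨∅, isCompact_empty, fun _ _ _ => rfl⟩, ∅, fun _ _ _ _ _ => map_zero _⟩

theorem lc_add : lc x S a i g (fun γ p => ξ γ p + ζ γ p) =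
    fun p => lc x S a i g ξ p + lc x S a i g ζ p := funext fun _ => map_add _ _ _

theorem lc_smul (θ : G → x.X.M → ℝ) : lc x S a i g (fun γ p => θ γ p • ξ γ p) =
    fun p => θ (((x.f p).co i (x.f p).ix)⁻¹ * g) p • lc x S a i g ξ p :=
  funext fun _ => map_smul _ _ _

theorem Ts.add (hξ : Ts x S ξ) (hζ : Ts x S ζ) : Ts x S fun γ p => ξ γ p + ζ γ p := by
  classical
  obtain ⟨K, k1, k2⟩ := hξ.cpt
  obtain ⟨K', k1', k2'⟩ := hζ.cpt
  obtain ⟨T, t⟩ := hξ.fin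
  obtain ⟨T', t'⟩ := hζ.fin
  refine ⟨fun a i g p hp => ?_, ⟨K ∪ K', k1.union k1', fun γ p hp => ?_⟩, T ∪ T',
    fun a i g hg p => ?_⟩
  · rw [lc_add]
    exact (hξ.sm a i g p hp).add (hζ.sm a i g p hp)
  · rw [k2 γ p fun h => hp (Or.inl h), k2' γ p fun h => hp (Or.inr h), add_zero]
  · rw [Finset.mem_union, not_or] at hg
    simp only [lc_add, t a i g hg.1, t' a i g hg.2, add_zero]

theorem Sup.smul (h : Sup x S ξ T) (θ : G → x.X.M → ℝ) : Sup x S (fun γ p => θ γ p • ξ γ p) T :=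
  fun a i g hg p => by simp only [lc_smul, h a i g hg, smul_zero]

theorem Ts.smul (hξ : Ts x S ξ) {θ : G → x.X.M → ℝ} (hθ : ∀ a i g, ∀ p ∈ Wp x a i,
    ContMDiffAt (𝓡 (m + 1)) 𝓘(ℝ, ℝ) ∞ (fun p => θ (((x.f p).co i (x.f p).ix)⁻¹ * g) p) p) :
    Ts x S fun γ p => θ γ p • ξ γ p := by
  obtain ⟨K, k1, k2⟩ := hξ.cpt
  obtain ⟨T, t⟩ := hξ.fin
  refine ⟨fun a i g p hp => ?_, ⟨K, k1, fun γ p hp => by rw [k2 γ p hp, smul_zero]⟩, T, t.smul θ⟩
  rw [lc_smul]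
  exact (hθ a i g p hp).smul (hξ.sm a i g p hp)

theorem Ts.Bg_add (hξ : Ts x S ξ) (hζ : Ts x S ζ) (γ : G) (p : x.X.M) :
    Bg x S w v (fun γ p => ξ γ p + ζ γ p) γ p = Bg x S w v ξ γ p + Bg x S w v ζ γ p := by
  simp only [Bg, Bl, lc_add, Fm.dir_add _ (hξ.md (mem_Wp p) _) (hζ.md (mem_Wp p) _), map_add,
    smul_add]
  abel

theorem Ts.Bg_smul (hξ : Ts x S ξ) (c : ℝ) (γ : G) (p : x.X.M) :
    Bg x S w v (fun γ p => c • ξ γ p) γ p = c • Bg x S w v ξ γ p := by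
  simp only [Bg, Bl, lc_smul (fun _ _ => c), Fm.dir_smul _ mdifferentiableAt_const
    (hξ.md (mem_Wp p) _), Fm.dd_const, zero_smul, Finset.sum_const_zero, add_zero, map_smul,
    smul_add, smul_comm c]

theorem Ts.Eg_add {ζ' : G → x.X.M → Eu N} (hζ : Ts x S ζ) (hζ' : Ts x S ζ') (γ : G) (p : x.X.M) :
    Eg x S w v ξ (fun γ p => ζ γ p + ζ' γ p) γ p = Eg x S w v ξ ζ γ p + Eg x S w v ξ ζ' γ p := by
  simp only [Eg, lc_add, En_add (hζ.md (mem_Wp p) _) (hζ'.md (mem_Wp p) _)]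

theorem Bg_zero (γ : G) (p : x.X.M) : Bg x S w v (fun _ _ => 0) γ p = 0 :=
  Bl_zero (Eventually.of_forall fun _ => map_zero _)

theorem Eg_zero (γ : G) (p : x.X.M) : Eg x S w v ξ (fun _ _ => 0) γ p = 0 :=
  En_zero (Eventually.of_forall fun _ => map_zero _)

open Classical in
theorem lc_sec (ha : p ∈ Wp x a i) :
    lc x S a i h (x.sec S a i g u) p = if h = g then u p else 0 := by
  rw [lc, Sing.sec, mul_inv_cancel_left]
  split_ifs
  · rw [← mul_apply_eq_comp, ← map_mul, SMG.s_inv _ ha.1 (mem_fr _ p), map_one]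
    rfl
  · exact map_zero _

open Classical in
theorem lc_sec_ev (ha : p ∈ Wp x a i) :
    lc x S a i h (x.sec S a i g u) =ᶠ[𝓝 p] if h = g then u else 0 := by
  filter_upwards [(isOpen_Wp a i).mem_nhds ha] with y hy
  rw [lc_sec hy]
  split_ifs <;> rfl

theorem sec_zero (hu : u p = 0) : x.sec S a i g u γ p = 0 := by simp [Sing.sec, hu]

theorem lc_sec_zero (hp : p ∉ tsupport u) : lc x S b j h (x.sec S a i g u) =ᶠ[𝓝 p] 0 := by
  filter_upwards [notMem_tsupport_iff_eventuallyEq.1 hp] with y hy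
  rw [lc, sec_zero hy, map_zero]
  rfl

theorem El.ts (hu : El x a i u) (g : G) : Ts x S (x.sec S a i g u) := by
  classical
  obtain ⟨_, s, hs⟩ := x.exists_fin
  refine ⟨fun b j h p hp => ?_, ⟨_, hu.cpt, fun γ p hp =>
    sec_zero (image_eq_zero_of_notMem_tsupport hp)⟩,
    (s ×ˢ s).image fun q => q.1 * q.2⁻¹ * g, fun b j h hh p => ?_⟩
  · by_cases h1 : p ∈ tsupport u
    · refine ContMDiffAt.congr_of_eventuallyEq ?_ (lc_ev hp (hu.sub h1))
      refine (SMG.cs_smooth _ S hp.1 (hu.sub h1).1).clm_apply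
        (ContMDiffAt.congr_of_eventuallyEq ?_ (lc_sec_ev (hu.sub h1)))
      split_ifs
      exacts [hu.sm p, contMDiffAt_const]
    · exact contMDiffAt_const.congr_of_eventuallyEq (lc_sec_zero h1)
  · rw [lc, Sing.sec, if_neg, map_zero]
    intro e
    exact hh (Finset.mem_image.2 ⟨(_, _), Finset.mk_mem_product ((hs p).2 j (x.f p).ix)
      ((hs p).2 i (x.f p).ix), by rw [← e]; group⟩)

theorem El.Bg_sec (hw : GrF (gam S) w) (hu : El x a i u) (γ : G) (p : x.X.M) :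
    Bg x S w v (x.sec S a i g u) γ p = x.sec S a i g (Bl (x.X.F a) (gam S) w v u) γ p := by
  classical
  by_cases h1 : p ∈ tsupport u
  · rw [of_lc (S := S) (hu.sub h1) (Bg x S w v _) γ, (hu.ts g).lc_Bg hw (hu.sub h1),
      Bl_congr (lc_sec_ev (hu.sub h1)), Sing.sec]
    split_ifs
    · rfl
    · rw [Bl_zero EventuallyEq.rfl, map_zero]
  · rw [sec_zero (Bl_zero (notMem_tsupport_iff_eventuallyEq.1 h1))]
    exact Bl_zero (lc_sec_zero h1)

/-- Test sections are finite sums of elementary ones. -/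
theorem Ts.ind {P : (G → x.X.M → Eu N) → Prop} (h0 : P fun _ _ => 0)
    (h1 : ∀ a i g u, El x a i u → P (x.sec S a i g u))
    (h2 : ∀ ξ ζ, Ts x S ξ → Ts x S ζ → P ξ → P ζ → P fun γ p => ξ γ p + ζ γ p)
    (hξ : Ts x S ξ) : P ξ := by
  classical
  obtain ⟨K, k1, k2⟩ := hξ.cpt
  obtain ⟨T, t⟩ := hξ.fin
  obtain ⟨s, φ, -, f2, f3, -, -, f6⟩ := exists_part k1
    (fun y => Wp x (x.X.fr y) (x.f y).ix) fun y _ => (isOpen_Wp _ _).mem_nhds (mem_Wp y)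
  let u : x.X.M × G → x.X.M → Eu N := fun q p =>
    φ q.1 p • lc x S (x.X.fr q.1) (x.f q.1).ix q.2 ξ p
  have hu : ∀ q ∈ s ×ˢ T, El x (x.X.fr q.1) (x.f q.1).ix (u q) := fun q hq => by
    have e : tsupport (u q) ⊆ Wp x (x.X.fr q.1) (x.f q.1).ix :=
      (tsupport_smul_subset_left _ _).trans (f3 _ (Finset.mem_product.1 hq).1)
    refine ⟨contMDiff_of_tsupport fun p hp => (f2 _ p).smul (hξ.sm _ _ _ p (e hp)),
      HasCompactSupport.intro k1 fun p hp => ?_, e⟩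
    simp [u, lc, k2 _ p hp]
  have key : ∀ R ⊆ s ×ˢ T,
      Ts x S (fun γ p => ∑ q ∈ R, x.sec S (x.X.fr q.1) (x.f q.1).ix q.2 (u q) γ p) ∧
      P fun γ p => ∑ q ∈ R, x.sec S (x.X.fr q.1) (x.f q.1).ix q.2 (u q) γ p := fun R => by
    induction R using Finset.induction_on with
    | empty => exact fun _ => ⟨Ts.zero, h0⟩
    | insert q R hq ih =>
      intro hR
      have a1 := hu q (hR (Finset.mem_insert_self _ _))
      have a2 := ih ((Finset.subset_insert _ _).trans hR)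
      simp only [Finset.sum_insert hq]
      exact ⟨(a1.ts _).add a2.1, h2 _ _ (a1.ts _) a2.1 (h1 _ _ _ _ a1) a2.2⟩
  convert (key _ subset_rfl).2 using 3 with γ p
  have e : ∀ y ∈ s, ∑ g ∈ T, x.sec S (x.X.fr y) (x.f y).ix g (u (y, g)) γ p = φ y p • ξ γ p :=
    fun y hy => by
      by_cases hp : φ y p = 0
      · rw [hp, zero_smul]
        exact Finset.sum_eq_zero fun g _ => sec_zero (by simp [u, hp])
      · have hW := f3 y hy (subset_tsupport _ hp)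
        refine (Finset.sum_eq_single ((x.f p).co (x.f y).ix (x.f p).ix * γ)
          (fun g _ hg => ?_) fun hg => ?_).trans ?_
        · exact if_neg hg.symm
        · exact sec_zero (by simp [u, t _ _ _ hg])
        rw [of_lc (S := S) hW ξ γ, ← map_smul]
        exact if_pos rfl
  rw [Finset.sum_product, Finset.sum_congr rfl e, ← Finset.sum_smul]
  by_cases hp : p ∈ K
  · rw [f6 p hp, one_smul]
  · rw [k2 γ p hp, smul_zero]

end Pool.Agent.Lib.L1I.PS
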