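import Pool.Agent.Lib.L1I.Blue
import Pool.Agent.Lib.L1I.Psi2

/-! Block NL: the global Lichnerowicz formula on the covering and the two inequalities. -/

noncomputable section

open Set Filter Topology MeasureTheory BCO CliffordAlgebra
open scoped Manifold ContDiff RealInnerProductSpace

namespace Pool.Agent.Lib.L1I

namespace PS

open CX ANA

variable {G : Type} [Group G] {m N : ℕ} {x : Sing G m} {S : Spinor (m + 1) N}
  {w : Eu N →L[ℝ] Eu N} {v : x.X.M → ℝ} {a i : ℕ} {g : G} {ξ ζ : G → x.X.M → Eu N}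
  {u : x.X.M → Eu N} {T : Finset G} {μ : Measure x.X.M} {ξ' ζ' β : V G (Lp (Eu N) 2 μ)}

theorem ts_of_sm (h : Sm x S ξ) : Ts x S ξ := by
  classical
  obtain ⟨s, hs⟩ := h.fin
  obtain ⟨_, F, hF⟩ := x.exists_fin
  refine ⟨fun a i g p hp => (h.sm a i g).contMDiffAt ((isOpen_Wp a i).mem_nhds hp), h.cpt,
    (F ×ˢ s).image fun q => q.1 * q.2, fun a i g hg p => ?_⟩
  rw [lc, hs, Pi.zero_apply, map_zero]
  exact fun e => hg (Finset.mem_image.2 ⟨(_, _), Finset.mk_mem_product ((hF p).2 i (x.f p).ix) e,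
    mul_inv_cancel_left _ _⟩)

theorem Ts.toSm (h : Ts x S ξ) : Sm x S ξ :=
  ⟨h.fin.imp fun _ t _ hγ => funext (t.zero hγ), h.cpt,
    fun a i g p hp => (h.sm a i g p hp).contMDiffWithinAt⟩

theorem Bg_eq (γ : G) (p : x.X.M) : Bg x S w v ξ γ p = Dt x S ξ γ p + v p • w (ξ γ p) := by
  rw [Bg, Bl, lc_self, Dt, dirac_eq]
  rfl

theorem Bg_zero_eq : Bg x S w (fun _ => 0) ξ = Dt x S ξ := by
  funext γ p
  rw [Bg_eq, zero_smul, add_zero]

theorem cls_unique (h : Cls μ ξ ξ') (h' : Cls μ ξ ζ') : ξ' = ζ' :=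
  lp.ext (funext fun γ => Lp.ext ((h γ).trans (h' γ).symm))

theorem cls_add (h : Cls μ ξ ξ') (h' : Cls μ ζ ζ') :
    Cls μ (fun γ p => ξ γ p + ζ γ p) (ξ' + ζ') := fun γ =>
  (Lp.coeFn_add (ξ' γ) (ζ' γ)).trans ((h γ).add (h' γ))

theorem cls_zero : Cls μ (fun (_ : G) _ => (0 : Eu N)) 0 := fun _ => Lp.coeFn_zero _ _ _

theorem inner_cls (h : Cls μ ξ ξ') (h' : Cls μ ζ ζ') (hT : ∀ γ ∉ T, ∀ p, ξ γ p = 0) :
    Integrable (fun p => ∑ γ ∈ T, ⟪ξ γ p, ζ γ p⟫) μ ∧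
      ⟪ξ', ζ'⟫ = ∫ p, ∑ γ ∈ T, ⟪ξ γ p, ζ γ p⟫ ∂μ := by
  have e : ∀ γ, (fun p => ⟪ξ' γ p, ζ' γ p⟫) =ᵐ[μ] fun p => ⟪ξ γ p, ζ γ p⟫ := fun γ => by
    filter_upwards [h γ, h' γ] with p h1 h2
    rw [h1, h2]
  have i1 := fun γ => (L2.integrable_inner (𝕜 := ℝ) (ξ' γ) (ζ' γ)).congr (e γ)
  refine ⟨integrable_finsetSum _ fun γ _ => i1 γ, ?_⟩
  rw [integral_finsetSum _ fun γ _ => i1 γ]
  refine (lp.hasSum_inner ξ' ζ').unique ?_
  simp only [L2.inner_def, integral_congr_ae (e _)]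
  exact hasSum_sum_of_ne_finset_zero fun γ hγ => by simp [hT γ hγ]

theorem El.bl (hv : ContMDiff (𝓡 (m + 1)) 𝓘(ℝ, ℝ) ∞ v) (hu : El x a i u) :
    El x a i (Bl (x.X.F a) (gam S) w v u) := by
  have e : tsupport (Bl (x.X.F a) (gam S) w v u) ⊆ tsupport u :=
    closure_minimal (fun p hp => of_not_not fun h =>
      hp (Bl_zero (notMem_tsupport_iff_eventuallyEq.1 h))) (isClosed_tsupport u)
  exact ⟨contMDiff_of_tsupport fun p hp => smooth_Bl (ANA.sm _ a) (hu.sub (e hp)).1 (hv p) (hu.sm p),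
    hu.cpt.of_isClosed_subset (isClosed_tsupport _) e, e.trans hu.sub⟩

theorem El.cls (hμ : x.X.IsVol μ) (hu : El x a i u) (g : G) : ∃ ξ', Cls μ (x.sec S a i g u) ξ' :=
  have := hμ.isFiniteMeasureOnCompacts
  (x.exists_vec S i g (hu.sm.continuous.memLp_of_hasCompactSupport hu.cpt) fun _ hp =>
    image_eq_zero_of_notMem_tsupport fun h => hp (hu.sub h).1).imp fun _ h => h.2

theorem Ts.cls (hμ : x.X.IsVol μ) (hξ : Ts x S ξ) : ∃ ξ', Cls μ ξ ξ' :=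
  hξ.ind (P := fun ξ => ∃ ξ', Cls μ ξ ξ') ⟨0, cls_zero⟩ (fun _ _ g _ hu => hu.cls hμ g)
    fun _ _ _ _ ⟨_, h⟩ ⟨_, h'⟩ => ⟨_, cls_add h h'⟩

open Classical in
theorem sum_sec {f : G → G → ℝ} {p : x.X.M} (h0 : ∀ γ ∉ T, ∀ h, f γ h = 0) :
    ∑ γ ∈ T, (if (x.f p).co i (x.f p).ix * γ = g then f γ g else 0) =
      f (((x.f p).co i (x.f p).ix)⁻¹ * g) g := by
  refine (Finset.sum_eq_single (((x.f p).co i (x.f p).ix)⁻¹ * g) (fun γ _ hγ => ?_)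
    fun hγ => ?_).trans (if_pos (mul_inv_cancel_left _ _))
  · exact if_neg fun e => hγ (eq_inv_mul_of_mul_eq e)
  · rw [h0 _ hγ, ite_self]

/-- The global Lichnerowicz formula. -/
theorem Ts.lich (hμ : x.X.IsVol μ) (hw : GrF (gam S) w) (hv : ContMDiff (𝓡 (m + 1)) 𝓘(ℝ, ℝ) ∞ v)
    (hξ : Ts x S ξ) (hT : Sup x S ξ T) (hβ : Cls μ (Bg x S w v ξ) β) (hζ : Ts x S ζ) :
    ∃ β', Cls μ (Bg x S w v ζ) β' ∧ Integrable (fun p => ∑ γ ∈ T, Eg x S w v ξ ζ γ p) μ ∧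
      ⟪β, β'⟫ = ∫ p, ∑ γ ∈ T, Eg x S w v ξ ζ γ p ∂μ := by
  classical
  refine hζ.ind (P := fun ζ => ∃ β', Cls μ (Bg x S w v ζ) β' ∧
    Integrable (fun p => ∑ γ ∈ T, Eg x S w v ξ ζ γ p) μ ∧
      ⟪β, β'⟫ = ∫ p, ∑ γ ∈ T, Eg x S w v ξ ζ γ p ∂μ) ⟨0, ?_, ?_⟩ (fun a i g u hu => ?_) ?_
  · exact fun γ => (cls_zero γ).trans (Eventually.of_forall fun p => (Bg_zero γ p).symm)
  · simp [Eg_zero]
  · obtain ⟨β', h1⟩ := (hu.bl (S := S) (w := w) hv).cls (S := S) hμ g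
    obtain ⟨h2, h3⟩ := integral_Bl hμ (ANA.sm _ a) (on_F _ a) (gam_cl S) hw hv
      (fun p hp => hξ.sm a i g p (hu.sub hp)) (fun p _ => hu.sm p) hu.cpt
      (hu.sub.trans inter_subset_left)
    have e1 : ∀ p, ∑ γ ∈ T, Eg x S w v ξ (x.sec S a i g u) γ p =
        En (x.X.F a) (gam S) w v (lc x S a i g ξ) u p := fun p => by
      by_cases hp : p ∈ tsupport u
      · have hW := hu.sub hp
        have := sum_sec (T := T) (i := i) (g := g) (p := p) (f := fun γ _ =>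
          Eg x S w v ξ (x.sec S a i g u) γ p) fun γ hγ _ => hT.Eg hγ p
        rw [hξ.Eg_eq hw (hu.ts g) hW, mul_inv_cancel_left,
          En_congr EventuallyEq.rfl (lc_sec_ev hW), if_pos rfl] at this
        rw [← this]
        refine Finset.sum_congr rfl fun γ _ => ?_
        split_ifs with h
        · rfl
        · rw [hξ.Eg_eq hw (hu.ts g) hW, En_congr EventuallyEq.rfl (lc_sec_ev hW), if_neg h,
            En_zero EventuallyEq.rfl]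
      · rw [En_zero (notMem_tsupport_iff_eventuallyEq.1 hp)]
        exact Finset.sum_eq_zero fun γ _ => En_zero (lc_sec_zero hp)
    have e2 : ∀ p, ∑ γ ∈ T, ⟪Bg x S w v ξ γ p, x.sec S a i g (Bl (x.X.F a) (gam S) w v u) γ p⟫ =
        ⟪Bl (x.X.F a) (gam S) w v (lc x S a i g ξ) p, Bl (x.X.F a) (gam S) w v u p⟫ := fun p => by
      by_cases hp : p ∈ tsupport u
      · have hW := hu.sub hp
        have := sum_sec (T := T) (i := i) (g := g) (p := p) (f := fun γ _ => ⟪Bg x S w v ξ γ p,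
          x.sec S a i g (Bl (x.X.F a) (gam S) w v u) γ p⟫) fun γ hγ _ => by simp [hT.Bg hγ p]
        rw [← inner_lc (S := S) hW.1, hξ.lc_Bg hw hW, lc_sec hW, if_pos rfl] at this
        rw [← this]
        refine Finset.sum_congr rfl fun γ _ => ?_
        split_ifs with h
        · rfl
        · rw [Sing.sec, if_neg h, inner_zero_right]
      · have := Bl_zero (F := x.X.F a) (γ := gam S) (w := w) (v := v)
          (notMem_tsupport_iff_eventuallyEq.1 hp)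
        simp [sec_zero this, this]
    refine ⟨β', fun γ => (h1 γ).trans (Eventually.of_forall fun p => (hu.Bg_sec hw γ p).symm),
      by simpa only [e1] using h2, ?_⟩
    simp only [(inner_cls hβ h1 fun γ hγ => hT.Bg hγ).2, e1, e2, h3]
  · rintro ζ ζ' hζ hζ' ⟨β₁, a1, a2, a3⟩ ⟨β₂, b1, b2, b3⟩
    refine ⟨β₁ + β₂, fun γ => (cls_add a1 b1 γ).trans
      (Eventually.of_forall fun p => (hζ.Bg_add hζ' γ p).symm), ?_⟩
    simp only [hζ.Eg_add hζ', Finset.sum_add_distrib]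
    exact ⟨a2.add b2, by rw [inner_add_right, a3, b3, integral_add a2 b2]⟩

theorem Ts.cls_Bg (hμ : x.X.IsVol μ) (hw : GrF (gam S) w) (hv : ContMDiff (𝓡 (m + 1)) 𝓘(ℝ, ℝ) ∞ v)
    (hζ : Ts x S ζ) : ∃ β', Cls μ (Bg x S w v ζ) β' :=
  (Ts.zero.lich hμ hw hv (T := ∅) (fun _ _ _ _ _ => map_zero _) (fun γ => (cls_zero γ).trans
    (Eventually.of_forall fun p => (Bg_zero γ p).symm)) hζ).imp fun _ h => h.1

theorem lc_psi (Ψ : ℝ → ℝ) {p : x.X.M} (hp : p ∈ Wp x a i) :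
    lc x S a i g (fun γ p => Ψ (‖ξ γ p‖ ^ 2) • ξ γ p) =ᶠ[𝓝 p]
      fun p => Ψ (‖lc x S a i g ξ p‖ ^ 2) • lc x S a i g ξ p := by
  filter_upwards [(isOpen_Wp a i).mem_nhds hp] with y hy
  rw [lc_smul fun γ p => Ψ (‖ξ γ p‖ ^ 2), ← real_inner_self_eq_norm_sq (lc x S a i g ξ y),
    inner_lc hy.1, real_inner_self_eq_norm_sq]

theorem Ts.psi {Ψ : ℝ → ℝ} (hΨ : ContDiff ℝ ∞ Ψ) (hξ : Ts x S ξ) :
    Ts x S fun γ p => Ψ (‖ξ γ p‖ ^ 2) • ξ γ p := by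
  refine hξ.smul fun a i g p hp => ?_
  refine (hΨ.contDiffAt.contMDiffAt.comp p (smooth_inner le_rfl (hξ.sm a i g p hp)
    (hξ.sm a i g p hp))).congr_of_eventuallyEq ?_
  filter_upwards [(isOpen_Wp a i).mem_nhds hp] with y hy
  rw [Function.comp_apply, inner_lc hy.1, real_inner_self_eq_norm_sq]

theorem cut_mem {Ψ : ℝ → ℝ} (h : Cut Ψ) (s : ℝ) : Ψ s ∈ Icc (0 : ℝ) 1 := by
  obtain ⟨T, hT⟩ := h.2.2.2
  exact ⟨h.2.2.1 s, (h.2.1 (le_max_left s T)).trans_eq (hT _ (le_max_right _ _))⟩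

theorem grF (h : 4 ∣ m + 1) : GrF (gam S) S.gr :=
  ⟨fun _ => S.gr_mul_ι (even_iff_two_dvd.2 (dvd_trans ⟨2, rfl⟩ h)) _, S.inner_gr h, S.gr_gr h⟩

theorem c_grad {n : ℕ} (X : SM n) (S : Spinor n N) (a : ℕ) (φ : X.M → ℝ) (p : X.M) (y : Eu N) :
    S.c (ι _ (grad X a φ p)) y = ∑ i, X.dd a i φ p • gam S i y := by
  simp [grad, gam]

theorem pot_le (hw : GrF (gam S) w) {c : ℝ} (h : Pot x v c) (p : x.X.M) (y : Eu N) :
    c * ⟪y, y⟫ ≤ Zq (x.X.F (x.X.fr p)) (gam S) w v p y y := by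
  have h1 : ‖w y‖ = ‖y‖ := by
    rw [norm_eq_sqrt_real_inner, hw.sym, hw.sq, ← norm_eq_sqrt_real_inner]
  have h2 := abs_real_inner_le_norm (S.c (ι _ (grad x.X (x.X.fr p) v p)) (w y)) y
  rw [S.norm_ι, h1, c_grad, sum_inner, mul_assoc, ← sq, ← real_inner_self_eq_norm_sq] at h2
  simp only [real_inner_smul_left] at h2
  have h3 := mul_le_mul_of_nonneg_right (h.le p) (real_inner_self_nonneg (x := y))
  have h4 := neg_le_of_abs_le h2
  rw [add_mul] at h3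
  exact le_trans (by linarith) (add_le_add h3 h4)

theorem cls_B {A : Lp (Eu N) 2 μ →L[ℝ] Lp (Eu N) 2 μ} (hA : IsMul μ (fun p => v p • w) A)
    (h : Cls μ ξ ξ') (h' : Cls μ (Dt x S ξ) β) : Cls μ (Bg x S w v ξ) (β + amp G A ξ') := fun γ => by
  filter_upwards [Lp.coeFn_add (β γ) (A (ξ' γ)), h γ, h' γ, hA (ξ' γ)] with p h1 h2 h3 h4
  refine h1.trans ?_
  rw [Pi.add_apply, h3, h4, h2, Bg_eq]
  rfl

end PS

open PS CX in
theorem stNL : St_NL := by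
  intro G _ m N x S μ h4 hμ v c hv A hA
  have hw := grF (S := S) h4
  have key : ∀ Ψ, Cut Ψ → ∃ L : ℝ, 0 ≤ L ∧ ∀ q ∈ Grf x S μ, ∃ q' ∈ Grf x S μ,
      (∀ γ, q'.1 γ =ᵐ[μ] fun p => Ψ (‖q.1 γ p‖ ^ 2) • q.1 γ p) ∧
      c * ⟪q.1, q'.1⟫ ≤ ⟪q.2 + amp G A q.1, q'.2 + amp G A q'.1⟫ ∧
      ‖q'.2 + amp G A q'.1‖ ≤ L * ‖q.2 + amp G A q.1‖ := fun Ψ hΨ => by
    obtain ⟨L, hL⟩ := exists_deriv_bound hΨ.1 hΨ.2.2.2
    have hL0 : 0 ≤ L := by simpa using hL 0 le_rfl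
    refine ⟨1 + 2 * L, by positivity, ?_⟩
    rintro q ⟨ξ, hξ, c1, c2⟩
    replace hξ := ts_of_sm hξ
    obtain ⟨T, hT⟩ := hξ.fin
    have hζ := hξ.psi hΨ.1
    obtain ⟨u', d1⟩ := hζ.cls hμ
    obtain ⟨d', d2⟩ := hζ.cls_Bg hμ hw (v := fun _ => 0) contMDiff_const
    rw [Bg_zero_eq] at d2
    have b1 := cls_B hA c1 c2
    have b2 := cls_B hA d1 d2
    obtain ⟨_, e1, e2, e3⟩ := hξ.lich hμ hw hv.sm hT b1 hξ
    obtain ⟨_, f1, f2, f3⟩ := hξ.lich hμ hw hv.sm hT b1 hζ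
    obtain ⟨_, g1, g2, g3⟩ := hζ.lich hμ hw hv.sm (hT.smul _) b2 hζ
    obtain rfl := cls_unique b1 e1
    obtain rfl := cls_unique b2 f1
    obtain rfl := cls_unique b2 g1
    obtain ⟨k1, k2⟩ := inner_cls c1 d1 fun γ hγ => hT.zero hγ
    have pt := fun γ p => En_psi (ANA.gam_cl S) (hΨ.1.differentiable (by simp)) hΨ.2.1 (cut_mem hΨ)
      hL hv.pos.le (pot_le hw hv p) (hξ.md (mem_Wp p) γ)
    refine ⟨(u', d'), ⟨_, hζ.toSm, d1, d2⟩, fun γ => ?_, ?_, ?_⟩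
    · filter_upwards [d1 γ, c1 γ] with p h1 h2
      rw [h2, h1]
    · rw [f3, k2, ← integral_const_mul]
      refine integral_mono (k1.const_mul c) f2 fun p => ?_
      simp only [Finset.mul_sum]
      refine Finset.sum_le_sum fun γ _ => ?_
      rw [Eg, En_congr EventuallyEq.rfl (lc_psi Ψ (mem_Wp p))]
      simpa only [lc_self] using (pt γ p).1
    · refine (sq_le_sq₀ (norm_nonneg _) (by positivity)).1 ?_
      rw [mul_pow, ← real_inner_self_eq_norm_sq, ← real_inner_self_eq_norm_sq, g3, e3,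
        ← integral_const_mul]
      refine integral_mono g2 (e2.const_mul _) fun p => ?_
      simp only [Finset.mul_sum]
      refine Finset.sum_le_sum fun γ _ => ?_
      rw [Eg, En_congr (lc_psi Ψ (mem_Wp p)) (lc_psi Ψ (mem_Wp p))]
      exact (pt γ p).2
  have lb : ∀ q ∈ Grf x S μ, c * ‖q.1‖ ^ 2 ≤ ‖q.2 + amp G A q.1‖ ^ 2 := fun q hq => by
    obtain ⟨ξ, hξ, c1, c2⟩ := hq
    have hT := ts_of_sm hξ
    obtain ⟨T, t⟩ := hT.fin
    obtain ⟨_, e1, e2, e3⟩ := hT.lich hμ hw hv.sm t (cls_B hA c1 c2) hT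
    obtain rfl := cls_unique (cls_B hA c1 c2) e1
    obtain ⟨k1, k2⟩ := inner_cls c1 c1 fun γ hγ => t.zero hγ
    rw [← real_inner_self_eq_norm_sq, ← real_inner_self_eq_norm_sq, e3, k2, ← integral_const_mul]
    refine integral_mono (k1.const_mul c) e2 fun p => ?_
    simp only [Finset.mul_sum]
    refine Finset.sum_le_sum fun γ _ => ?_
    rw [Eg, En, lc_self]
    exact le_add_of_nonneg_of_le (Finset.sum_nonneg fun _ _ => real_inner_self_nonneg)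
      (pot_le hw hv p _)
  refine ⟨lb, fun Ψ hΨ => ?_⟩
  obtain ⟨L, hL0, hL⟩ := key Ψ hΨ
  have hc := Real.sqrt_pos.2 hv.pos
  refine ⟨(1 + ‖amp G A‖ * (√c)⁻¹) * (L * (1 + ‖amp G A‖)), fun q hq => ?_⟩
  obtain ⟨q', hq', h1, h2, h3⟩ := hL q hq
  refine ⟨q', hq', h1, h2, ?_⟩
  have h5 : ‖q'.1‖ ≤ (√c)⁻¹ * ‖q'.2 + amp G A q'.1‖ := by
    rw [le_inv_mul_iff₀ hc, ← sq_le_sq₀ (by positivity) (norm_nonneg _), mul_pow,
      Real.sq_sqrt hv.pos.le]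
    exact lb q' hq'
  have h6 : ‖q.2 + amp G A q.1‖ ≤ (1 + ‖amp G A‖) * (‖q.2‖ + ‖q.1‖) := by
    have := (amp G A).le_opNorm q.1
    have := norm_add_le q.2 (amp G A q.1)
    nlinarith [norm_nonneg (amp G A), norm_nonneg q.1, norm_nonneg q.2]
  have h7 : ‖q'.2‖ ≤ (1 + ‖amp G A‖ * (√c)⁻¹) * ‖q'.2 + amp G A q'.1‖ := by
    have a1 := norm_sub_le (q'.2 + amp G A q'.1) (amp G A q'.1)
    rw [add_sub_cancel_right] at a1
    have a2 := ((amp G A).le_opNorm q'.1).trans (mul_le_mul_of_nonneg_left h5 (norm_nonneg _))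
    linarith
  rw [mul_assoc, mul_assoc]
  exact h7.trans (mul_le_mul_of_nonneg_left (h3.trans (mul_le_mul_of_nonneg_left h6 hL0))
    (by positivity))

end Pool.Agent.Lib.L1I
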