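import Pool.Agent.Lib.L1I.Blue
import Pool.Agent.Lib.CX.Mul
import Pool.Agent.Lib.CX.Sec

/-! PACK: the analytic package on the covering. -/

noncomputable section

open Set Function Filter Topology MeasureTheory CliffordAlgebra BCO
open scoped Manifold ContDiff InnerProductSpace ENNReal

namespace Pool.Agent.Lib.L1I

open CX

namespace PK18

section Mul

variable {M : Type} [MeasurableSpace M] {μ : Measure M} {N : ℕ}

theorem isMul_mul {a b : M → Eu N →L[ℝ] Eu N} {S T : Lp (Eu N) 2 μ →L[ℝ] Lp (Eu N) 2 μ}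
    (hS : IsMul μ a S) (hT : IsMul μ b T) : IsMul μ (fun p => a p * b p) (S * T) := by
  intro s
  filter_upwards [hS (T s), hT s] with p h1 h2
  exact h1.trans (congrArg (a p) h2)

theorem isMul_ext {a b : M → Eu N →L[ℝ] Eu N} {S T : Lp (Eu N) 2 μ →L[ℝ] Lp (Eu N) 2 μ}
    (hS : IsMul μ a S) (hT : IsMul μ b T) (h : ∀ p, a p = b p) : S = T := by
  obtain rfl : a = b := funext h
  exact ContinuousLinearMap.ext fun s => Lp.ext ((hS s).trans (hT s).symm)

theorem isMul_const (w : Eu N →L[ℝ] Eu N) : IsMul μ (fun _ => w) (w.compLpL 2 μ) :=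
  fun s => w.coeFn_compLpL s

theorem isMul_one : IsMul μ (fun _ => (1 : Eu N →L[ℝ] Eu N)) 1 := fun _ => EventuallyEq.rfl

theorem isMul_mulS {c : M → ℝ} (hc : MemLp c ∞ μ) :
    IsMul μ (fun p => c p • (1 : Eu N →L[ℝ] Eu N)) (mulS μ (Eu N) c) :=
  fun s => mulS_coe hc s

theorem comm {a : M → Eu N →L[ℝ] Eu N} {c : M → ℝ} {Z T : Lp (Eu N) 2 μ →L[ℝ] Lp (Eu N) 2 μ}
    (hZ : IsMul μ (fun p => c p • (1 : Eu N →L[ℝ] Eu N)) Z) (hT : IsMul μ a T) :
    Z * T = T * Z :=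
  isMul_ext (isMul_mul hZ hT) (isMul_mul hT hZ) fun p =>
    ContinuousLinearMap.ext fun u => (map_smul (a p) (c p) u).symm

theorem absorb {c d : M → ℝ} {Z : Lp (Eu N) 2 μ →L[ℝ] Lp (Eu N) 2 μ}
    (hZ : IsMul μ (fun p => c p • (1 : Eu N →L[ℝ] Eu N)) Z) (hd : MemLp d ∞ μ)
    (h : ∀ p, d p ≠ 0 → c p = 1) : Z * mulS μ (Eu N) d = mulS μ (Eu N) d :=
  isMul_ext (isMul_mul hZ (isMul_mulS hd)) (isMul_mulS hd) fun p =>
    ContinuousLinearMap.ext fun u => by
      change c p • d p • u = d p • u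
      by_cases hp : d p = 0
      · rw [hp, zero_smul, smul_zero]
      · rw [h p hp, one_smul]

end Mul

theorem memTop {n : ℕ} {X : SM n} (μ : Measure X.M) {c : X.M → ℝ} (hc : Continuous c)
    (hk : HasCompactSupport c) : MemLp c ∞ μ :=
  hc.memLp_top_of_hasCompactSupport hk μ

theorem exists_part {G : Type} [Group G] {m : ℕ} (x : Sing G m) {K : Set x.X.M}
    (hK : IsCompact K) : ∃ (r : ℕ) (a i : Fin r → ℕ) (f : Fin r → x.X.M → ℝ),
      (∀ l, Continuous (f l)) ∧ (∀ l, HasCompactSupport (f l)) ∧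
      (∀ l, tsupport (f l) ⊆ Om x (a l) (i l)) ∧ ∀ p ∈ K, ∑ l, f l p = 1 := by
  have ho : ∀ j : ℕ × ℕ, IsOpen (Om x j.1 j.2) := fun j => (x.X.isOpen j.1).inter (x.isOpen_t j.2)
  obtain ⟨t, ht⟩ := hK.elim_finite_subcover (fun j : ℕ × ℕ => Om x j.1 j.2) ho fun p _ =>
    mem_iUnion.2 ⟨(x.X.fr p, (x.f p).ix), SM.mem_U_fr p, BG1.t_ix _⟩
  obtain ⟨f, h1, h2, -, h3⟩ := exists_continuous_sum_one_of_isOpen_isCompact
    (s := fun l : Fin t.card => Om x (t.equivFin.symm l).1.1 (t.equivFin.symm l).1.2)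
    (fun l => ho _) hK fun p hp => by
      obtain ⟨j, hj, hp⟩ := mem_iUnion₂.1 (ht hp)
      exact mem_iUnion.2 ⟨t.equivFin ⟨j, hj⟩, by simpa using hp⟩
  refine ⟨_, _, _, fun l => f l, fun l => (f l).continuous, h3, h1, fun p hp => ?_⟩
  simpa using h2 hp

end PK18

open PK18 in
theorem stPACK (hCUT : St_CUT) (hC4 : St_C4) (hNL : St_NL) (hPAT : St_PAT) (hRES : St_RES) :
    St_PACK := by
  intro G _ m N x S μ h4 hs hμ e he
  obtain ⟨v, c, hv⟩ := hCUT G m x hs
  obtain ⟨r, a, i, f, fc, fk, fs, f1⟩ := exists_part x hv.cpt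
  choose P k ζ hZ hζ hU hk hcm hehr using fun l =>
    hPAT G m N x S μ h4 hμ (a l) (i l) (tsupport (f l)) (fk l) (fs l)
  obtain ⟨r1, r2, r3⟩ := hRES G m N x S μ h4 hs hμ
  have mv : MemLp v ∞ μ := memTop μ hv.sm.continuous hv.cpt
  have mf : ∀ l, MemLp (f l) ∞ μ := fun l => memTop μ (fc l) (fk l)
  have mF : MemLp (fun p => ∑ l, f l p) ∞ μ := memTop_sum _ fun l _ => mf l
  have hw := isMul_const (μ := μ) S.gr
  have hV := isMul_mulS (N := N) mv
  have hT : IsMul μ (fun p => v p • S.gr) (mulS μ (Eu N) v * S.gr.compLpL 2 μ) :=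
    isMul_mul hV hw
  obtain ⟨n1, n2⟩ := hNL G m N x S μ h4 hμ v c hv _ hT
  have hz : ∀ l p, f l p ≠ 0 → ζ l p = 1 := fun l p hp => hζ l p (subset_tsupport _ hp)
  refine ⟨{
    Gr := Grf x S μ
    v := mulS μ (Eu N) v
    η := mulS μ (Eu N) fun p => ∑ l, f l p
    c := c
    r := r
    P := P
    v' := fun l => mulS μ (Eu N) fun p => v p * f l p
    η' := fun l => mulS μ (Eu N) (f l)
    k := k
    ww := isMul_ext (isMul_mul hw hw) isMul_one fun _ => S.gr_mul_gr h4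
    symw := ?_
    res := r1 e he
    dense := r2
    sym := ?_
    gr := r3
    symv := inner_mulS mv
    vw := comm hV hw
    ηw := comm (isMul_mulS mF) hw
    ηv := absorb (isMul_mulS mF) mv fun p hp => f1 p (subset_tsupport _ hp)
    cpos := hv.pos
    lb := n1
    nl := n2
    cm := fun l g q hq => (hcm l g q hq).1
    ehr := hehr
    com := ?_
    kc := hk
    cpt := fun l g q hq => (hcm l g q hq).2
    decv := ?_
    decη := ?_ }⟩
  · rw [← mulOp_const]
    exact inner_mulOp (memLp_top_const _) (memLp_top_const _)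
      (ae_of_all _ fun _ => S.inner_gr h4)
  · rintro q ⟨ξ, h1, h2, h3⟩ q' ⟨ξ', h1', h2', h3'⟩
    exact ((hC4 G m N x S μ hμ).2 ξ ξ' _ _ _ _ h1 h1' h2 h2' h3 h3').1
  · rintro l T (rfl | rfl)
    · exact ⟨hU l _ _ hw, comm (hZ l) hw⟩
    · exact ⟨hU l _ _ hV, comm (hZ l) hV⟩
  · have h1 : ∀ l, mulS μ (Eu N) (fun p => v p * f l p) * (P l).Z =
        mulS μ (Eu N) fun p => v p * f l p := fun l => by
      rw [← comm (hZ l) (isMul_mulS (memTop_mulS mv (mf l)))]
      exact absorb (hZ l) (memTop_mulS mv (mf l)) fun p hp => hz l p (right_ne_zero_of_mul hp)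
    simp only [h1]
    rw [← mulS_sum _ fun l _ => memTop_mulS mv (mf l)]
    congr 1
    funext p
    rw [← Finset.mul_sum]
    by_cases hp : v p = 0
    · rw [hp, zero_mul]
    · rw [f1 p (subset_tsupport _ hp), mul_one]
  · simp only [fun l => absorb (hZ l) (mf l) (hz l)]
    exact mulS_sum _ fun l _ => mf l

end Pool.Agent.Lib.L1I
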