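import Pool.Agent.Lib.L1I.Blue
import Pool.Agent.Lib.CX.Sec
import Pool.Agent.Lib.CX.Mul
import Pool.Agent.Lib.ANA.Chart

/-! PAT: the patches. -/

noncomputable section

open Set Function Filter Topology MeasureTheory CliffordAlgebra BCO
open scoped Manifold ContDiff InnerProductSpace ENNReal

namespace Pool.Agent.Lib.L1I

open CX

namespace PAT

section Base

variable {n N : ℕ} (X : SM n) (S : Spinor n N)

theorem s_self {a : ℕ} {p : X.M} (hp : p ∈ X.U a) : X.s a a p = 1 := by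
  have h1 := X.cocycle a a a p ⟨⟨hp, hp⟩, hp⟩
  have h2 := spinGroup.star_mul_self_of_mem (X.spin a a p ⟨hp, hp⟩).1
  calc X.s a a p = star (X.s a a p) * (X.s a a p * X.s a a p) := by rw [← mul_assoc, h2, one_mul]
    _ = 1 := by rw [h1, h2]

theorem c_c {a b : ℕ} {p : X.M} (ha : p ∈ X.U a) (hb : p ∈ X.U b) (u : Eu N) :
    S.c (X.s a b p) (S.c (X.s b a p) u) = u := by
  rw [← mul_apply_eq_comp, ← map_mul, X.cocycle a b a p ⟨⟨ha, hb⟩, ha⟩, s_self X ha, map_one]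
  rfl

theorem measurable_grad {ζ : X.M → ℝ} (hζ : ContMDiff (𝓡 n) 𝓘(ℝ, ℝ) ∞ ζ) :
    Measurable fun p => grad X (X.fr p) ζ p := by
  classical
  have hc : ∀ b, ContinuousOn (grad X b ζ) (X.U b) := fun b =>
    continuousOn_finsetSum _ fun j _ => ContinuousOn.smul
      (fun p hp => ((ANA.sm X b).dd_smooth hp (hζ p) j).continuousAt.continuousWithinAt)
      continuousOn_const
  have h := measurable_diag (SM.measurable_fr' (X := X))
    (f := fun b => (X.U b).piecewise (grad X b ζ) 0) fun b =>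
      (hc b).measurable_piecewise continuousOn_const (X.isOpen b).measurableSet
  convert h using 2 with p
  simp [SM.mem_U_fr]

/-- Clifford multiplication by vectors as a continuous linear map -/
def cv : Eu n →L[ℝ] Eu N →L[ℝ] Eu N :=
  LinearMap.toContinuousLinearMap (S.c.toLinearMap ∘ₗ ι (Qn n))

theorem cv_apply (v : Eu n) : cv S v = S.c (ι (Qn n) v) := rfl

end Base

end PAT

open PAT in
theorem stPAT (hVOL : St_VOL) (hK0 : St_K0) (hEHR : St_EHR) (hC1 : St_C1) (hC2 : St_C2)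
    (hUNF : St_UNF) : St_PAT := by
  classical
  intro G _ m N x S μ h4 hμ a i K₀ hK₀ hK₀O
  have hev : Even (m + 1) := by obtain ⟨c, hc⟩ := h4; exact ⟨2 * c, by omega⟩
  have hO : IsOpen (Om x a i) := (x.X.isOpen a).inter (x.isOpen_t i)
  have hOU : Om x a i ⊆ x.X.U a := inter_subset_left
  obtain ⟨ζ, ρ, K, C₀, hζ, hρ, hK, hKO, hζ1, hρ0, hle, hgr, hehr⟩ :=
    hEHR (m + 1) N x.X S μ (by obtain ⟨c, hc⟩ := h4; omega) hμ a _ K₀ hO hOU hK₀ hK₀O
  obtain ⟨U, U', uu, uu', adj, fs, fs', -, -, hbd, hU, hU', hcom⟩ := hUNF G m N x μ i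
  obtain ⟨k, hk, hkk⟩ := hK0 G m N x S μ h4 hμ a K hK (hKO.trans hOU)
  obtain ⟨c1, -, c3, -⟩ := hC1 G m N x S
  obtain ⟨d1, -⟩ := hC2 G m N x S
  have hρn : ∀ p, 0 ≤ ρ p := fun p => (abs_nonneg _).trans (hle p).1
  have hζ0 : ∀ p ∉ K, ζ p = 0 := fun p hp => abs_nonpos_iff.1 (hρ0 p hp ▸ (hle p).1)
  have hg : ∀ p, ‖grad x.X (x.X.fr p) ζ p‖ ≤ C₀ * ρ p := fun p => hgr _ p (SM.mem_U_fr p)
  have hg0 : ∀ p ∉ K, grad x.X (x.X.fr p) ζ p = 0 := fun p hp =>
    norm_le_zero_iff.1 (by simpa [hρ0 p hp] using hg p)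
  have mζ : MemLp ζ ∞ μ := memLp_top_of_bound hζ.continuous.aestronglyMeasurable 1
    (ae_of_all _ fun p => (hle p).1.trans (hle p).2)
  have mρ : MemLp ρ ∞ μ := memLp_top_of_bound hρ.aestronglyMeasurable 1
    (ae_of_all _ fun p => by rw [Real.norm_eq_abs, abs_of_nonneg (hρn p)]; exact (hle p).2)
  have mg : MemLp (fun p => grad x.X (x.X.fr p) ζ p) ∞ μ :=
    memLp_top_of_bound (measurable_grad x.X hζ).aestronglyMeasurable |C₀|
      (ae_of_all _ fun p => (hg p).trans ((mul_le_mul_of_nonneg_right (le_abs_self _) (hρn p)).trans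
        (mul_le_of_le_one_right (abs_nonneg _) (hle p).2)))
  set cg : x.X.M → Eu N →L[ℝ] Eu N := fun p => S.c (ι _ (grad x.X (x.X.fr p) ζ p)) with hcg
  have mc : MemLp cg ∞ μ := (cv S).comp_memLp' mg
  have hZ : IsMul μ (fun p => ζ p • (1 : Eu N →L[ℝ] Eu N)) (mulS μ (Eu N) ζ) := fun s =>
    mulOp_coe (memTop_smul_const mζ 1) s
  let P : Patch G μ N :=
    { U := U, U' := U', Z := mulS μ (Eu N) ζ, C := mulOp μ cg, Y := mulS μ (Eu N) ρ, K := K
      C0 := C₀, uu := uu, uu' := uu', adj := adj, fs := fs, fs' := fs'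
      bd := fun m ξ h => (hbd m ξ h).1
      bd' := fun m ξ h => (hbd m ξ h).2
      symZ := inner_mulS mζ
      skewC := fun s t => by
        rw [inner_mulOp mc mc.neg (ae_of_all _ fun p u v => by
          simpa [hcg] using S.skew _ u v) s t]
        have := mulOp_neg mc
        rw [show (-cg) = fun p => -cg p from rfl, this]
        simp
      zc := mulS_comm_mulOp mc mζ
      zy := fun s => by
        refine Lp.norm_le_norm_of_ae_le ?_
        filter_upwards [mulS_coe mζ s, mulS_coe mρ s] with p h1 h2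
        rw [h1, h2, norm_smul, norm_smul, Real.norm_eq_abs, Real.norm_eq_abs, abs_of_nonneg (hρn p)]
        exact mul_le_mul_of_nonneg_right (hle p).1 (norm_nonneg _)
      cy := fun s => by
        refine Lp.norm_le_mul_norm_of_ae_le_mul ?_
        filter_upwards [mulOp_coe mc s, mulS_coe mρ s] with p h1 h2
        rw [h1, h2, hcg, S.norm_ι, norm_smul, Real.norm_eq_abs, abs_of_nonneg (hρn p), ← mul_assoc]
        exact mul_le_mul_of_nonneg_right (hg p) (norm_nonneg _)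
      mK := hK.isClosed.measurableSet
      fK := hVOL _ _ μ hμ K hK
      uz := hcom _ _ hZ }
  -- the pointwise facts
  have key : ∀ ξ, Sm x S ξ → ∀ g, Tst x a i (fun p => ζ p • comp x S a i g ξ p) ∧
      tsupport (fun p => ζ p • comp x S a i g ξ p) ⊆ K ∧
      (∀ p, x.X.tr S a (fun p => ζ p • comp x S a i g ξ p) p = ζ p • ξ ((kap x i p)⁻¹ * g) p) ∧
      (∀ p ∉ K, x.X.dirac S a (fun p => ζ p • comp x S a i g ξ p) p = 0) ∧
      ∀ p, x.X.tr S a (x.X.dirac S a fun p => ζ p • comp x S a i g ξ p) p =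
        ζ p • Dt x S ξ ((kap x i p)⁻¹ * g) p + cg p (ξ ((kap x i p)⁻¹ * g) p) := by
    intro ξ hξ g
    have hs : tsupport (fun p => ζ p • comp x S a i g ξ p) ⊆ K :=
      closure_minimal (fun p hp => by
        by_contra h
        exact hp (by simp [hζ0 p h])) hK.isClosed
    have hz : ∀ p ∉ K, (fun p => ζ p • comp x S a i g ξ p) =ᶠ[𝓝 p] 0 := fun p hp =>
      notMem_tsupport_iff_eventuallyEq.1 fun h => hp (hs h)
    have hd : ∀ p ∉ K, x.X.dirac S a (fun p => ζ p • comp x S a i g ξ p) p = 0 := fun p hp => by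
      rw [ANA.dirac_eq]; exact ANA.Fm.dir_zero _ (hz p hp)
    refine ⟨⟨fun p => ?_, hK.of_isClosed_subset (isClosed_tsupport _) hs, hs.trans hKO⟩, hs,
      fun p => ?_, hd, fun p => ?_⟩
    · by_cases hp : p ∈ K
      · exact (hζ p).smul ((hξ.sm a i g).contMDiffAt (hO.mem_nhds (hKO hp)))
      · exact contMDiffAt_const.congr_of_eventuallyEq (hz p hp)
    · by_cases hp : p ∈ K
      · simp only [SM.tr, comp, map_smul, c_c x.X S (SM.mem_U_fr p) (hOU (hKO hp))]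
      · simp [SM.tr, hζ0 p hp]
    · by_cases hp : p ∈ K
      · obtain ⟨e1, e2⟩ := d1 ξ ζ hξ hζ
        have e3 := (c1 _ e1).2 a i g p (hKO hp)
        have e4 : comp x S a i g (fun γ p => ζ p • ξ γ p) = fun p => ζ p • comp x S a i g ξ p :=
          funext fun p => by simp only [comp, map_smul]
        rw [e4] at e3
        rw [SM.tr, ← e3, comp, c_c x.X S (SM.mem_U_fr p) (hOU (hKO hp)), e2]
      · simp [SM.tr, hd p hp, hζ0 p hp, hcg, hg0 p hp]
  have cls : ∀ ξ (q : V G (Lp (Eu N) 2 μ) × V G (Lp (Eu N) 2 μ)), Sm x S ξ → Cls μ ξ q.1 →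
      Cls μ (Dt x S ξ) q.2 → ∀ g,
      (P.Z (P.U q.1 g) =ᵐ[μ] x.X.tr S a fun p => ζ p • comp x S a i g ξ p) ∧
      (P.Z (P.U q.2 g) + P.C (P.U q.1 g) : Lp (Eu N) 2 μ) =ᵐ[μ]
        x.X.tr S a (x.X.dirac S a fun p => ζ p • comp x S a i g ξ p) := by
    intro ξ q hξ h1 h2 g
    obtain ⟨-, -, k1, -, k2⟩ := key ξ hξ g
    constructor
    · filter_upwards [mulS_coe' mζ (hU ξ q.1 g h1)] with p e1
      rw [k1]; exact e1
    · filter_upwards [mulS_coe' mζ (hU _ q.2 g h2), mulOp_coe' mc (hU ξ q.1 g h1),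
        Lp.coeFn_add (P.Z (P.U q.2 g)) (P.C (P.U q.1 g))] with p e1 e2 e3
      rw [k2, e3, Pi.add_apply, ← e1, ← e2]
  have sgc : ∀ (g : G) (s : Lp (Eu N) 2 μ) (φ : x.X.M → Eu N), s =ᵐ[μ] x.X.tr S a φ →
      Cls μ (x.sec S a i g φ) (U' (sg g s)) := by
    intro g s φ hs γ
    filter_upwards [hU' s g γ, hs] with p e1 e2
    rw [e1, e2]; rfl
  refine ⟨P, k, ζ, hZ, hζ1, hcom, hk, ?_, ?_⟩
  · rintro g q ⟨ξ, hξ, h1, h2⟩
    obtain ⟨k0, ks, k1, -, -⟩ := key ξ hξ g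
    obtain ⟨l1, l2⟩ := cls ξ q hξ h1 h2 g
    obtain ⟨n1, n2, -⟩ := c3 a i g _ k0
    refine ⟨⟨_, n1, sgc g _ _ l1, n2 ▸ sgc g _ _ l2⟩, hkk _ k0.1 ks _ _ l1 ?_⟩
    have h3 : Cls μ (fun γ p => S.gr (ξ γ p)) (amp G (S.gr.compLpL 2 μ) q.1) := fun γ => by
      filter_upwards [S.gr.coeFn_compLpL (q.1 γ), h1 γ] with p e1 e2
      rw [amp_apply, e1, e2]
    have e0 : P.Z (P.U (q.2 + amp G (S.gr.compLpL 2 μ) q.1) g) + P.C (P.U q.1 g) =
        (P.Z (P.U q.2 g) + P.C (P.U q.1 g)) + P.Z (P.U (amp G (S.gr.compLpL 2 μ) q.1) g) := by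
      rw [map_add, lp.coeFn_add, Pi.add_apply, map_add]; abel
    rw [e0]
    filter_upwards [l2, mulS_coe' mζ (hU _ _ g h3), Lp.coeFn_add (P.Z (P.U q.2 g) + P.C (P.U q.1 g))
      (P.Z (P.U (amp G (S.gr.compLpL 2 μ) q.1) g))] with p e1 e2 e3
    rw [e3, Pi.add_apply, e1, map_add]
    congr 1
    refine e2.trans ?_
    by_cases hp : p ∈ K
    · rw [← S.gr_spin hev (x.X.spin _ a p ⟨SM.mem_U_fr p, hOU (hKO hp)⟩).1, ← map_smul, ← k1]
      rfl
    · simp [hζ0 p hp]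
  · intro δ hδ
    obtain ⟨C, hC, hh⟩ := hehr δ hδ
    refine ⟨C, ?_⟩
    rintro q ⟨ξ, hξ, h1, h2⟩ g
    obtain ⟨-, -, -, kd, -⟩ := key ξ hξ g
    obtain ⟨l1, l2⟩ := cls ξ q hξ h1 h2 g
    have hn : ∀ p ∈ K, ‖comp x S a i g ξ p‖ = ‖ξ ((kap x i p)⁻¹ * g) p‖ := fun p hp =>
      S.norm_spin (x.X.spin a _ p ⟨hOU (hKO hp), SM.mem_U_fr p⟩).1 _
    have h := hh _ (hξ.sm a i g)
    have f1 : eLpNorm (fun p => ρ p • comp x S a i g ξ p) 2 μ =
        ENNReal.ofReal ‖P.Y (P.U q.1 g)‖ := by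
      rw [ofReal_norm, Lp.enorm_def]
      refine eLpNorm_congr_norm_ae ?_
      filter_upwards [mulS_coe' mρ (hU ξ q.1 g h1)] with p e1
      refine Eq.trans ?_ (congrArg norm e1).symm
      by_cases hp : p ∈ K
      · rw [norm_smul, norm_smul, hn p hp]
      · simp [hρ0 p hp]
    have f2 : eLpNorm (fun p => ζ p • comp x S a i g ξ p) 2 μ =
        ENNReal.ofReal ‖P.Z (P.U q.1 g)‖ := by
      rw [ofReal_norm, Lp.enorm_def]
      refine eLpNorm_congr_norm_ae ?_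
      filter_upwards [l1] with p e1
      rw [e1, SM.norm_tr S fun p hp => by simp [hζ0 p fun h => hp (hOU (hKO h))]]
    have f3 : eLpNorm (x.X.dirac S a fun p => ζ p • comp x S a i g ξ p) 2 μ =
        ENNReal.ofReal ‖P.Z (P.U q.2 g) + P.C (P.U q.1 g)‖ := by
      rw [ofReal_norm, Lp.enorm_def]
      refine eLpNorm_congr_norm_ae ?_
      filter_upwards [l2] with p e1
      rw [e1, SM.norm_tr S fun p hp => kd p fun h => hp (hOU (hKO h))]
    have f4 : ∫⁻ p in K, ‖comp x S a i g ξ p‖ₑ ∂μ =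
        ENNReal.ofReal (∫ p in K, ‖P.U q.1 g p‖ ∂μ) := by
      have : IsFiniteMeasure (μ.restrict K) := isFiniteMeasure_restrict.2 P.fK
      have hi : Integrable (P.U q.1 g) (μ.restrict K) :=
        ((Lp.memLp (P.U q.1 g)).restrict K).integrable one_le_two
      rw [ofReal_integral_norm_eq_lintegral_enorm hi]
      refine lintegral_congr_ae ?_
      filter_upwards [ae_restrict_of_ae (hU ξ q.1 g h1), ae_restrict_mem P.mK] with p e1 e2
      rw [← ofReal_norm, ← ofReal_norm, hn p e2, ← e1]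
    have i0 : 0 ≤ ∫ p in K, ‖P.U q.1 g p‖ ∂μ := integral_nonneg fun p => norm_nonneg _
    rw [f1, f2, f3, f4, ← ENNReal.ofReal_add (norm_nonneg _) (norm_nonneg _),
      ← ENNReal.ofReal_mul hδ.le, ← ENNReal.ofReal_mul hC,
      ← ENNReal.ofReal_add (by positivity) (by positivity)] at h
    exact (ENNReal.ofReal_le_ofReal_iff (by positivity)).1 h

end Pool.Agent.Lib.L1I
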