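import Pool.Agent.Lib.L1I.Band

/-! Patching of a resolvent, smoothing and the compressed operator in the row norm. -/

noncomputable section

open scoped ENNReal Topology
open Filter

namespace Pool.Agent.Lib.L1I

variable {H J ι : Type*} [NormedAddCommGroup H] [NormedSpace ℝ H] [CompleteSpace H]

/-- A quadratic partition of unity `η` with commutators `c` for the resolvent `B`. -/
structure Pou (π : J → H →L[ℝ] H) (N : ι → Finset J) (M : ℕ) (η c : ι → H →L[ℝ] H) (C : ℝ)
    (B : H →L[ℝ] H) : Prop where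
  cells : Cells π
  loc : Loc N M
  ηL : LL π N η
  ηR : RL π N η
  cL : LL π N c
  cR : RL π N c
  η_le : ∀ j, ‖η j‖ ≤ 1
  c_le : ∀ j, ‖c j‖ ≤ C
  sum : ∀ x, HasSum (fun j => η j (η j x)) x
  comm : ∀ j, η j * B = B * η j + B * c j * B

variable {π : J → H →L[ℝ] H} {N : ι → Finset J} {M : ℕ} {η c : ι → H →L[ℝ] H} {C : ℝ}
  {B : H →L[ℝ] H}

omit [CompleteSpace H] in
theorem norm_mul_le_of {S T : H →L[ℝ] H} {a b : ℝ} (hS : ‖S‖ ≤ a) (hT : ‖T‖ ≤ b) :
    ‖S * T‖ ≤ a * b :=
  (norm_mul_le S T).trans (mul_le_mul hS hT (norm_nonneg _) ((norm_nonneg _).trans hS))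

/-- The resolvent has finite row norm as soon as it is small. -/
theorem Pou.rn_le (h : Pou π N M η c C B) (hB : M ^ 2 * ENNReal.ofReal (‖B‖ * C) ≤ 2⁻¹) :
    rn π B ≤ 2 * (M ^ 2 * en B) := by
  obtain ⟨A, hA, hA'⟩ := exists_sum (E := fun j => η j * B * η j) (δ := ‖B‖) h.cells h.loc
    (by simpa only [mul_assoc] using h.ηL.mul fun j => B * η j) (h.ηR.mul _) fun j => by
      simpa using norm_mul_le_of (norm_mul_le_of (h.η_le j) (le_refl ‖B‖)) (h.η_le j)
  obtain ⟨K, hK, hK'⟩ := exists_sum (E := fun j => η j * B * c j) (δ := ‖B‖ * C) h.cells h.loc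
    (by simpa only [mul_assoc] using h.ηL.mul fun j => B * c j) (h.cR.mul _) fun j => by
      simpa using norm_mul_le_of (norm_mul_le_of (h.η_le j) (le_refl ‖B‖)) (h.c_le j)
  refine (h.cells.rn_fix (A := A) (hK'.trans hB) ?_).trans (mul_le_mul_right hA' _)
  ext x
  refine (h.sum (B x)).unique (((hA x).add (hK (B x))).congr' ?_ |>.trans_eq' rfl)
  refine Eventually.of_forall fun s => Finset.sum_congr rfl fun j _ => ?_
  have := congrArg (fun T : H →L[ℝ] H => η j (T x)) (h.comm j)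
  simpa using this.symm

theorem Pou.exists_right (h : Pou π N M η c C B) {P : ι → H →L[ℝ] H} (hP : LL π N P) {p : ℝ}
    (hp : ∀ j, ‖P j‖ ≤ p) : ∃ Q : H →L[ℝ] H, (∀ x, HasSum (fun j => P j (η j (η j x))) (Q x)) ∧
      ∀ (Y : H →L[ℝ] H) (δ : ℝ), (∀ j, Y * η j = η j * Y) → (∀ j, ‖(1 - P j) * η j * Y * B‖ ≤ δ) →
        rn π ((1 - Q) * (Y * B)) ≤
          M ^ 2 * ENNReal.ofReal δ * (1 + ENNReal.ofReal C * rn π B) := by
  obtain ⟨Q, hQ, -⟩ := exists_sum (E := fun j => P j * (η j * η j)) (δ := p * (1 * 1)) h.cells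
    h.loc (hP.mul _) ((h.ηR.mul _).mul _) fun j =>
      norm_mul_le_of (hp j) (norm_mul_le_of (h.η_le j) (h.η_le j))
  refine ⟨Q, hQ, fun Y δ hY hδ => ?_⟩
  have hL : LL π N fun j => (1 - P j) * η j * Y * B := fun j k hk => by
    have h1 := hP j k hk
    have h2 := h.ηL j k hk
    calc _ = (π k * η j - π k * P j * η j) * Y * B := by noncomm_ring
      _ = 0 := by rw [h1, h2]; simp
  obtain ⟨A, hA, hA'⟩ := exists_sum (δ := δ * 1) h.cells h.loc (hL.mul η) (h.ηR.mul _) fun j =>
    norm_mul_le_of (hδ j) (h.η_le j)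
  obtain ⟨K, hK, hK'⟩ := exists_sum (δ := δ * C) h.cells h.loc (hL.mul c) (h.cR.mul _) fun j =>
    norm_mul_le_of (hδ j) (h.c_le j)
  have e : (1 - Q) * (Y * B) = A + K * B := by
    ext x
    refine ((h.sum (Y (B x))).sub (hQ (Y (B x)))).unique
      (((hA x).add (hK (B x))).congr' ?_ |>.trans_eq' rfl)
    refine Eventually.of_forall fun s => Finset.sum_congr rfl fun j _ => ?_
    have h1 : (1 - P j) * η j * Y * B * η j + (1 - P j) * η j * Y * B * c j * B =
        η j * η j * Y * B - P j * (η j * η j) * Y * B := by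
      calc _ = (1 - P j) * η j * Y * (B * η j + B * c j * B) := by noncomm_ring
        _ = (1 - P j) * η j * (Y * η j) * B := by rw [← h.comm j]; noncomm_ring
        _ = _ := by rw [hY j]; noncomm_ring
    exact congrArg (fun T : H →L[ℝ] H => T x) h1
  rw [e]
  rcases le_total δ 0 with h0 | h0
  · have hA0 : rn π A = 0 := by simpa [ENNReal.ofReal_of_nonpos h0] using hA'
    obtain ⟨K', hK2, hK2'⟩ := exists_sum (δ := 0) h.cells h.loc (hL.mul c) (h.cR.mul _) fun j => by
      simpa using norm_mul_le_of ((hδ j).trans h0) (h.c_le j)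
    have : K = K' := by
      ext x
      exact (hK x).unique (hK2 x)
    have hK0 : rn π K = 0 := by simpa [this] using hK2'
    refine (rn_add _ _).trans ((add_le_add le_rfl (h.cells.rn_mul K B)).trans ?_)
    simp [hA0, hK0]
  · refine (rn_add _ _).trans ((add_le_add hA' ((h.cells.rn_mul K B).trans
      (mul_le_mul_left hK' _))).trans_eq ?_)
    rw [mul_one, ENNReal.ofReal_mul h0]
    ring

theorem Pou.exists_left (h : Pou π N M η c C B) {P : ι → H →L[ℝ] H} (hP : RL π N P) {p : ℝ}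
    (hp : ∀ j, ‖P j‖ ≤ p) : ∃ Q : H →L[ℝ] H, (∀ x, HasSum (fun j => η j (η j (P j x))) (Q x)) ∧
      ∀ (Y : H →L[ℝ] H) (δ : ℝ), 0 ≤ δ → (∀ j, Y * η j = η j * Y) →
        (∀ j, ‖B * Y * η j * (1 - P j)‖ ≤ δ) → rn π (B * Y * (1 - Q)) ≤
          M ^ 2 * ENNReal.ofReal δ * (1 + ENNReal.ofReal C * rn π B) := by
  obtain ⟨Q, hQ, -⟩ := exists_sum (E := fun j => η j * η j * P j) (δ := 1 * 1 * p) h.cells
    h.loc ((h.ηL.mul _).mul _) (hP.mul _) fun j =>
      norm_mul_le_of (norm_mul_le_of (h.η_le j) (h.η_le j)) (hp j)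
  refine ⟨Q, hQ, fun Y δ h0 hY hδ => ?_⟩
  have hR : RL π N fun j => B * Y * η j * (1 - P j) := fun j k hk => by
    have h1 := hP j k hk
    have h2 := h.ηR j k hk
    calc _ = B * Y * (η j * π k - η j * (P j * π k)) := by noncomm_ring
      _ = 0 := by rw [h1, h2]; simp
  obtain ⟨A, hA, hA'⟩ := exists_sum (δ := 1 * δ) h.cells h.loc (h.ηL.mul _) (hR.mul η) fun j =>
    norm_mul_le_of (h.η_le j) (hδ j)
  obtain ⟨K, hK, hK'⟩ := exists_sum (δ := C * δ) h.cells h.loc (h.cL.mul _) (hR.mul c) fun j =>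
    norm_mul_le_of (h.c_le j) (hδ j)
  have e : B * Y * (1 - Q) = A - B * K := by
    ext x
    refine (((h.sum x).sub (hQ x)).mapL (B * Y)).unique
      (((hA x).sub ((hK x).mapL B)).congr' ?_ |>.trans_eq' rfl)
    refine Eventually.of_forall fun s => Finset.sum_congr rfl fun j _ => ?_
    have h1 : η j * (B * Y * η j * (1 - P j)) - B * (c j * (B * Y * η j * (1 - P j))) =
        B * Y * (η j * η j - η j * η j * P j) := by
      calc _ = (η j * B - B * c j * B) * Y * η j * (1 - P j) := by noncomm_ring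
        _ = B * (η j * Y) * η j * (1 - P j) := by rw [h.comm j]; noncomm_ring
        _ = _ := by rw [← hY j]; noncomm_ring
    exact congrArg (fun T : H →L[ℝ] H => T x) h1
  rw [e]
  refine (rn_sub _ _).trans ((add_le_add hA' ((h.cells.rn_mul B K).trans
    (mul_le_mul_right hK' _))).trans_eq ?_)
  rw [one_mul, mul_comm C, ENNReal.ofReal_mul h0]
  ring

omit [CompleteSpace H] in
/-- The row norm of the compressed operator. -/
theorem Pou.rn_compress (h : Pou π N M η c C B) {P P' : ι → H →L[ℝ] H} {Q Q' T : H →L[ℝ] H}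
    (hQ : ∀ x, HasSum (fun j => P j (η j (η j x))) (Q x))
    (hQ' : ∀ x, HasSum (fun j => η j (η j (P' j x))) (Q' x)) {m : ℝ≥0∞}
    (hm : ∀ j, ∑' j', en (P' j * T * P j') ≤ m) : rn π (Q' * T * Q) ≤ M ^ 2 * m := by
  refine iSup_le fun i => ?_
  obtain ⟨S, hS, hS'⟩ := h.loc.mult i
  have h1 : π i * Q' = ∑ j ∈ S, π i * (η j * η j * P' j) := by
    ext x
    rw [sum_apply]
    refine ((hQ' x).mapL (π i)).unique (hasSum_sum_of_ne_finset_zero fun j hj => ?_)
    exact congrArg (fun A : H →L[ℝ] H => A (η j (P' j x))) (h.ηL j i fun hi => hj (hS' j hi))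
  have h2 : ∀ j j', ∑' k, en (π i * (η j * η j * P' j) * T * (P j' * (η j' * η j')) * π k) ≤
      M * en (P' j * T * P j') := fun j j' => by
    rw [tsum_eq_sum (s := N j') fun k hk => by
      rw [mul_assoc, mul_assoc (P j'), mul_assoc (η j'), h.ηR j' k hk]
      simp]
    refine (Finset.sum_le_card_nsmul _ _ (en (P' j * T * P j')) fun k _ => en_le ?_).trans ?_
    · have e : π i * (η j * η j * P' j) * T * (P j' * (η j' * η j')) * π k =
          π i * (η j * η j * (P' j * T * P j') * (η j' * η j')) * π k := by noncomm_ring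
      rw [e]
      refine (h.cells.norm_entry_le _ _ _).trans ?_
      simpa using norm_mul_le_of (norm_mul_le_of (norm_mul_le_of (h.η_le j) (h.η_le j))
        (le_refl ‖P' j * T * P j'‖)) (norm_mul_le_of (h.η_le j') (h.η_le j'))
    · rw [nsmul_eq_mul]
      gcongr
      exact h.loc.card j'
  calc ∑' k, en (π i * (Q' * T * Q) * π k)
      ≤ ∑' k, ∑ j ∈ S, ∑' j',
          en (π i * (η j * η j * P' j) * T * (P j' * (η j' * η j')) * π k) :=
        ENNReal.tsum_le_tsum fun k => by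
          rw [← mul_assoc, ← mul_assoc, h1, Finset.sum_mul, Finset.sum_mul, Finset.sum_mul]
          refine (en_sum S _).trans (Finset.sum_le_sum fun j _ => en_le_tsum fun x => ?_)
          exact (hQ (π k x)).mapL (π i * (η j * η j * P' j) * T)
    _ = ∑ j ∈ S, ∑' j', ∑' k,
          en (π i * (η j * η j * P' j) * T * (P j' * (η j' * η j')) * π k) := by
        rw [Summable.tsum_finsetSum fun _ _ => ENNReal.summable]
        exact Finset.sum_congr rfl fun j _ => ENNReal.tsum_comm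
    _ ≤ ∑ j ∈ S, M * m := Finset.sum_le_sum fun j _ => by
        refine (ENNReal.tsum_le_tsum (h2 j)).trans ?_
        rw [ENNReal.tsum_mul_left]
        exact mul_le_mul_right (hm j) _
    _ ≤ _ := by
        rw [Finset.sum_const, nsmul_eq_mul, sq, mul_assoc]
        gcongr

end Pool.Agent.Lib.L1I
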