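import Pool.Agent.Lib.ANA.Div

/-! The Lichnerowicz formula for `D + v w` in a frame and the nonlinear test sections. -/

noncomputable section

open Set Filter Topology MeasureTheory
open scoped Manifold ContDiff RealInnerProductSpace

namespace Pool.Agent.Lib.L1I.PS

open CX ANA ANA.Fm

variable {n : ℕ} {X : SM n} {U : Set X.M} {μ : Measure X.M}
  {S : Type} [NormedAddCommGroup S] [InnerProductSpace ℝ S]
  (F : Fm n X.M) (γ : Fin n → S →L[ℝ] S) (w : S →L[ℝ] S) (v : X.M → ℝ)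

/-- The operator `D + v w`. -/
def Bl (u : X.M → S) (x : X.M) : S := F.dir γ u x + v x • w (u x)

/-- The term of order zero of `(D + v w)²` as a form. -/
def Zq (x : X.M) (y z : S) : ℝ :=
  (F.scal x / 4 + v x ^ 2) * ⟪y, z⟫ + ∑ i, F.dd i v x * ⟪γ i (w y), z⟫

/-- The energy density. -/
def En (u φ : X.M → S) (x : X.M) : ℝ :=
  ∑ i, ⟪F.nab γ i u x, F.nab γ i φ x⟫ + Zq F γ w v x (u x) (φ x)

/-- The grading. -/
structure GrF : Prop where
  anti : ∀ i, w * γ i = -(γ i * w)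
  sym : ∀ a b, ⟪w a, b⟫ = ⟪a, w b⟫
  sq : ∀ a, w (w a) = a

variable {F γ w v} {u φ : X.M → S} {x : X.M}

theorem Zq_smul (s t : ℝ) (y z : S) : Zq F γ w v x (s • y) (t • z) = s * t * Zq F γ w v x y z := by
  simp only [Zq, map_smul, real_inner_smul_left, real_inner_smul_right, mul_add, Finset.mul_sum]
  congr 1
  · ring
  · exact Finset.sum_congr rfl fun i _ => by ring

theorem Zq_add (y z z' : S) :
    Zq F γ w v x y (z + z') = Zq F γ w v x y z + Zq F γ w v x y z' := by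
  simp only [Zq, inner_add_right, mul_add, Finset.sum_add_distrib]
  ring

theorem Bl_zero (h : u =ᶠ[𝓝 x] 0) : Bl F γ w v u x = 0 := by
  simp [Bl, F.dir_zero h, h.self_of_nhds]

theorem En_zero (h : φ =ᶠ[𝓝 x] 0) : En F γ w v u φ x = 0 := by
  simp [En, Zq, F.nab_zero h, h.self_of_nhds]

theorem En_zero' (h : u =ᶠ[𝓝 x] 0) : En F γ w v u φ x = 0 := by
  simp [En, Zq, F.nab_zero h, h.self_of_nhds]

theorem En_congr {u' φ' : X.M → S} (h : u =ᶠ[𝓝 x] u') (h' : φ =ᶠ[𝓝 x] φ') :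
    En F γ w v u φ x = En F γ w v u' φ' x := by
  simp only [En, F.nab_congr h, F.nab_congr h', h.self_of_nhds, h'.self_of_nhds]

theorem En_add {φ' : X.M → S} (h : MDifferentiableAt (𝓡 n) 𝓘(ℝ, S) φ x)
    (h' : MDifferentiableAt (𝓡 n) 𝓘(ℝ, S) φ' x) :
    En F γ w v u (fun y => φ y + φ' y) x = En F γ w v u φ x + En F γ w v u φ' x := by
  simp only [En, F.nab_add h h', inner_add_right, Finset.sum_add_distrib, Zq_add]
  ring

theorem En_smul (t : ℝ) (h : MDifferentiableAt (𝓡 n) 𝓘(ℝ, S) φ x) :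
    En F γ w v u (fun y => t • φ y) x = t * En F γ w v u φ x := by
  have := Zq_smul (F := F) (γ := γ) (w := w) (v := v) (x := x) 1 t (u x) (φ x)
  rw [one_smul, one_mul] at this
  simp only [En, F.nab_smul mdifferentiableAt_const h, F.dd_const, zero_smul, add_zero,
    real_inner_smul_right, this, mul_add, Finset.mul_sum]

theorem smooth_Bl (hF : F.Sm U) (hx : x ∈ U) (hv : ContMDiffAt (𝓡 n) 𝓘(ℝ, ℝ) ∞ v x)
    (hu : ContMDiffAt (𝓡 n) 𝓘(ℝ, S) ∞ u x) : ContMDiffAt (𝓡 n) 𝓘(ℝ, S) ∞ (Bl F γ w v u) x :=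
  (hF.dir_smooth hx hu γ).add (hv.smul (contMDiffAt_const.clm_apply hu))

/-- The integrated Lichnerowicz formula for `D + v w`. -/
theorem integral_Bl [SigmaCompactSpace X.M] (hμ : X.IsVol μ) (hF : F.Sm U) (hO : ON X F U)
    (hγ : Cl γ) (hw : GrF γ w) (hv : ContMDiff (𝓡 n) 𝓘(ℝ, ℝ) ∞ v)
    (hu : ∀ x ∈ tsupport φ, ContMDiffAt (𝓡 n) 𝓘(ℝ, S) ∞ u x)
    (hφ : ∀ x ∈ tsupport φ, ContMDiffAt (𝓡 n) 𝓘(ℝ, S) ∞ φ x) (hc : HasCompactSupport φ)
    (hs : tsupport φ ⊆ U) : Integrable (En F γ w v u φ) μ ∧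
      ∫ x, ⟪Bl F γ w v u x, Bl F γ w v φ x⟫ ∂μ = ∫ x, En F γ w v u φ x ∂μ := by
  have h0 := fun x (hx : x ∉ tsupport φ) => notMem_tsupport_iff_eventuallyEq.1 hx
  have hz : ∀ x ∈ tsupport φ, ContMDiffAt (𝓡 n) 𝓘(ℝ, S) ∞ (fun y => v y • w (u y)) x :=
    fun x hx => (hv x).smul (contMDiffAt_const.clm_apply (hu x hx))
  have l1 := integral_lich hμ hF hO hγ (fun x hx => (hu x hx).of_le (by norm_cast))
    (fun x hx => (hφ x hx).of_le (by norm_cast)) hc hs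
  have l2 := integral_dir hμ hF hO hγ (fun x hx => (hz x hx).of_le (by norm_cast))
    (fun x hx => (hφ x hx).of_le (by norm_cast)) hc hs
  have dφ := fun x hx => (hF.dir_smooth (hs hx) (hφ x hx) γ).continuousAt
  have d0 := fun x hx => F.dir_zero (γ := γ) (h0 x hx)
  have i1 := integrable_inner hμ hc
    (fun x hx => (hF.dir_smooth (hs hx) (hu x hx) γ).continuousAt) dφ d0
  have i2 := fun i => integrable_inner hμ hc
    (fun x hx => (hF.nab_smooth (hs hx) (hu x hx) γ i).continuousAt)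
    (fun x hx => (hF.nab_smooth (hs hx) (hφ x hx) γ i).continuousAt)
    fun x hx => F.nab_zero (h0 x hx)
  have i3 : Integrable (fun x => F.scal x / 4 * ⟪u x, φ x⟫) μ :=
    integrable_of_supp hμ hc (fun x hx => by simp [image_eq_zero_of_notMem_tsupport hx])
      fun x hx => ((hF.scal_smooth (hs hx)).continuousAt.div_const 4).mul
        ((hu x hx).continuousAt.inner (hφ x hx).continuousAt)
  have i4 := integrable_inner hμ hc (fun x hx => (hF.dir_smooth (hs hx) (hz x hx) γ).continuousAt)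
    (fun x hx => (hφ x hx).continuousAt) fun x hx => image_eq_zero_of_notMem_tsupport hx
  have i5 := integrable_inner hμ hc (fun x hx => (hz x hx).continuousAt) dφ d0
  have i6 := integrable_inner hμ hc
    (fun x hx => (smooth_Bl (γ := γ) (w := w) hF (hs hx) (hv x) (hu x hx)).continuousAt)
    (fun x hx => (smooth_Bl (γ := γ) (w := w) hF (hs hx) (hv x) (hφ x hx)).continuousAt)
    fun x hx => Bl_zero (h0 x hx)
  have i7 := integrable_finsetSum Finset.univ fun i _ => i2 i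
  have e : En F γ w v u φ = fun x => ⟪Bl F γ w v u x, Bl F γ w v φ x⟫ +
      ((∑ i, ⟪F.nab γ i u x, F.nab γ i φ x⟫ + F.scal x / 4 * ⟪u x, φ x⟫ -
        ⟪F.dir γ u x, F.dir γ φ x⟫) + (⟪F.dir γ (fun y => v y • w (u y)) x, φ x⟫ -
          ⟪v x • w (u x), F.dir γ φ x⟫)) := by
    funext x
    by_cases hx : x ∈ tsupport φ
    · have h1 := (hu x hx).mdifferentiableAt (by simp)
      rw [F.dir_smul ((hv x).mdifferentiableAt (by simp))
        ((contMDiffAt_const.clm_apply (hu x hx)).mdifferentiableAt (by simp)), F.dir_anti hw.anti h1]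
      simp only [En, Zq, Bl, inner_add_left, inner_add_right, real_inner_smul_left,
        real_inner_smul_right, sum_inner, inner_neg_left, hw.sym, hw.sq]
      ring
    · simp [En_zero (h0 x hx), Bl_zero (h0 x hx), d0 x hx, F.nab_zero (h0 x hx),
        image_eq_zero_of_notMem_tsupport hx]
  have j0 := i7.fun_add i3
  have j1 := j0.sub' i1
  have j2 := i4.sub' i5
  have j3 := j1.fun_add j2
  rw [e]
  refine ⟨i6.add j3, ?_⟩
  beta_reduce
  rw [integral_add i6 j3, integral_add j1 j2, integral_sub j0 i1,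
    integral_sub i4 i5, integral_add i7 i3, integral_finsetSum _ fun i _ => i2 i, l1, l2]
  ring

theorem nab_psi (hγ : Cl γ) {Ψ : ℝ → ℝ} (hΨ : Differentiable ℝ Ψ)
    (hu : MDifferentiableAt (𝓡 n) 𝓘(ℝ, S) u x) (i : Fin n) :
    F.nab γ i (fun y => Ψ (‖u y‖ ^ 2) • u y) x = Ψ (‖u x‖ ^ 2) • F.nab γ i u x +
      (deriv Ψ (‖u x‖ ^ 2) * (2 * ⟪F.nab γ i u x, u x⟫)) • u x := by
  have h1 : MDifferentiableAt (𝓡 n) 𝓘(ℝ, ℝ) (fun y => ⟪u y, u y⟫) x :=
    mdiff_self.2 ((mdiff_self.1 hu).inner ℝ (mdiff_self.1 hu))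
  simp only [← real_inner_self_eq_norm_sq]
  rw [F.nab_smul (f := fun y => Ψ ⟪u y, u y⟫) ((hΨ _).mdifferentiableAt.comp x h1) hu, F.dd_comp (hΨ _) h1,
    F.dd_inner_nab hγ hu hu, real_inner_comm (F.nab γ i u x) (u x), fderiv_eq_smul_deriv, smul_eq_mul]
  congr 2
  ring

/-- The test with `Ψ (|u|²) u`. -/
theorem En_psi (hγ : Cl γ) {Ψ : ℝ → ℝ} (hΨ : Differentiable ℝ Ψ) (hm : Monotone Ψ)
    (h0 : ∀ s, Ψ s ∈ Icc (0 : ℝ) 1) {L c : ℝ} (hL : ∀ s, 0 ≤ s → deriv Ψ s * s ≤ L) (hc : 0 ≤ c)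
    (hZ : ∀ y, c * ⟪y, y⟫ ≤ Zq F γ w v x y y) (hu : MDifferentiableAt (𝓡 n) 𝓘(ℝ, S) u x) :
    c * ⟪u x, Ψ (‖u x‖ ^ 2) • u x⟫ ≤ En F γ w v u (fun y => Ψ (‖u y‖ ^ 2) • u y) x ∧
      En F γ w v (fun y => Ψ (‖u y‖ ^ 2) • u y) (fun y => Ψ (‖u y‖ ^ 2) • u y) x ≤
        (1 + 2 * L) ^ 2 * En F γ w v u u x := by
  have hd : 0 ≤ deriv Ψ (‖u x‖ ^ 2) := hm.deriv_nonneg
  have hL0 : 0 ≤ L := by simpa using hL 0 le_rfl
  have hp := (h0 (‖u x‖ ^ 2)).1
  have hp1 := (h0 (‖u x‖ ^ 2)).2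
  have hZ0 : 0 ≤ Zq F γ w v x (u x) (u x) := (mul_nonneg hc real_inner_self_nonneg).trans (hZ _)
  constructor
  · have := Zq_smul (F := F) (γ := γ) (w := w) (v := v) (x := x) 1 (Ψ (‖u x‖ ^ 2)) (u x) (u x)
    rw [one_smul, one_mul] at this
    simp only [En, nab_psi hγ hΨ hu, this]
    refine le_add_of_nonneg_of_le (Finset.sum_nonneg fun i _ => ?_) ?_
    · rw [inner_add_right, real_inner_smul_right, real_inner_smul_right]
      have := mul_self_nonneg ⟪F.nab γ i u x, u x⟫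
      have := real_inner_self_nonneg (x := F.nab γ i u x)
      nlinarith [mul_nonneg hd (mul_self_nonneg ⟪F.nab γ i u x, u x⟫)]
    · rw [real_inner_smul_right, mul_left_comm]
      exact mul_le_mul_of_nonneg_left (hZ _) hp
  · simp only [En, nab_psi hγ hΨ hu, Zq_smul, mul_add, Finset.mul_sum]
    refine add_le_add (Finset.sum_le_sum fun i _ => ?_) (mul_le_mul_of_nonneg_right ?_ hZ0)
    · rw [real_inner_self_eq_norm_sq, real_inner_self_eq_norm_sq, ← mul_pow]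
      refine pow_le_pow_left₀ (norm_nonneg _) ((norm_add_le _ _).trans ?_) 2
      rw [norm_smul, norm_smul, Real.norm_of_nonneg hp, norm_mul, norm_mul, Real.norm_of_nonneg hd,
        Real.norm_two]
      have h1 := norm_inner_le_norm (𝕜 := ℝ) (F.nab γ i u x) (u x)
      have h2 := hL _ (sq_nonneg ‖u x‖)
      have h3 := norm_nonneg (F.nab γ i u x)
      have h4 : deriv Ψ (‖u x‖ ^ 2) * (2 * ‖⟪F.nab γ i u x, u x⟫‖) * ‖u x‖ ≤
          deriv Ψ (‖u x‖ ^ 2) * (2 * (‖F.nab γ i u x‖ * ‖u x‖)) * ‖u x‖ := by gcongr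
      nlinarith
    · nlinarith

theorem exists_deriv_bound {Ψ : ℝ → ℝ} (hΨ : ContDiff ℝ ∞ Ψ) (h1 : ∃ T, ∀ s, T ≤ s → Ψ s = 1) :
    ∃ L, ∀ s, 0 ≤ s → deriv Ψ s * s ≤ L := by
  obtain ⟨T, hT⟩ := h1
  obtain ⟨L, hL⟩ := (isCompact_Icc (a := (0 : ℝ)) (b := T)).bddAbove_image
    (((hΨ.continuous_deriv (by norm_cast)).mul continuous_id).continuousOn)
  refine ⟨max L 0, fun s hs => ?_⟩
  rcases le_or_gt s T with h | h
  · exact (hL ⟨s, ⟨hs, h⟩, rfl⟩).trans (le_max_left _ _)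
  · have : Ψ =ᶠ[𝓝 s] fun _ => 1 := by
      filter_upwards [Ioi_mem_nhds h] with t ht using hT t (le_of_lt ht)
    rw [this.deriv_eq, deriv_const, zero_mul]
    exact le_max_right _ _

end Pool.Agent.Lib.L1I.PS
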