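import Pool.Agent.Lib.L1I.Blue

/-! Block QEX: the resolvent `Q = (D + v w)⁻¹` exists. -/

noncomputable section

open Set Function Filter Topology MeasureTheory BCO
open scoped InnerProductSpace

namespace Pool.Agent.Lib.L1I

open CX

namespace QEX

section Abs

variable {H : Type} [NormedAddCommGroup H] [InnerProductSpace ℝ H] {Gr : Set (H × H)}
  {ω T R : H →L[ℝ] H}

omit [InnerProductSpace ℝ H] in
theorem ind {s : Set H} (hs : Dense s) {P : H → Prop} (h : ∀ a ∈ s, P a) (hc : IsClosed {a | P a})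
    (a : H) : P a := closure_minimal (t := {a | P a}) h hc (hs a)

theorem sym_of (hω : Sym ω) (res : ∀ q ∈ Gr, R (q.2 + ω q.1) = q.1)
    (den : Dense ((fun q => q.2 + ω q.1) '' Gr))
    (sym : ∀ q ∈ Gr, ∀ q' ∈ Gr, ⟪q.2, q'.1⟫_ℝ = ⟪q.1, q'.2⟫_ℝ) : Sym R := by
  intro u v
  refine ind den (P := fun u => ⟪R u, v⟫_ℝ = ⟪u, R v⟫_ℝ) ?_
    (isClosed_eq (by fun_prop) (by fun_prop)) u
  rintro _ ⟨q, hq, rfl⟩
  refine ind den (P := fun v => ⟪R (q.2 + ω q.1), v⟫_ℝ = ⟪q.2 + ω q.1, R v⟫_ℝ) ?_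
    (isClosed_eq (by fun_prop) (by fun_prop)) v
  rintro _ ⟨q', hq', rfl⟩
  simp only [res q hq, res q' hq', inner_add_left, inner_add_right, sym q hq q' hq', hω q.1]

theorem anti_of (ww : ω * ω = 1) (res : ∀ q ∈ Gr, R (q.2 + ω q.1) = q.1)
    (den : Dense ((fun q => q.2 + ω q.1) '' Gr)) (gr : ∀ q ∈ Gr, (ω q.1, -ω q.2) ∈ Gr) :
    ω * R + R * ω = 2 * (R * R) := by
  have h0 : ∀ u, ω (ω u) = u := fun u => by
    rw [← mul_apply_eq_comp, ww, one_apply_eq_self]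
  ext u
  refine ind den (P := fun u => (ω * R + R * ω) u = (2 * (R * R)) u) ?_ ?_ u
  · rintro _ ⟨q, hq, rfl⟩
    have h1 := res _ (gr q hq)
    simp only [h0, map_add, map_neg] at h1
    simp only [two_mul, _root_.add_apply, mul_apply_eq_comp, res q hq]
    rw [map_add, map_add, h0, ← h1]
    abel
  · exact isClosed_eq (by fun_prop) (by fun_prop)

theorem lb_of {c : ℝ} (res : ∀ q ∈ Gr, R (q.2 + ω q.1) = q.1)
    (den : Dense ((fun q => q.2 + ω q.1) '' Gr))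
    (lb : ∀ q ∈ Gr, c * ‖q.1‖ ^ 2 ≤ ‖q.2 + ω q.1 + T q.1‖ ^ 2) (u : H) :
    c * ‖R u‖ ^ 2 ≤ ‖(1 + T * R) u‖ ^ 2 := by
  refine ind den (P := fun u => c * ‖R u‖ ^ 2 ≤ ‖(1 + T * R) u‖ ^ 2) ?_ ?_ u
  · rintro _ ⟨q, hq, rfl⟩
    simpa only [_root_.add_apply, mul_apply_eq_comp,
      one_apply_eq_self, res q hq] using lb q hq
  · exact isClosed_le (by fun_prop) (by fun_prop)

theorem inv_of [CompleteSpace H] {c : ℝ} (hc : 0 < c) (hR : Sym R) (hT : Sym T)
    (lb : ∀ u, c * ‖R u‖ ^ 2 ≤ ‖(1 + T * R) u‖ ^ 2) :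
    ∃ W' : H →L[ℝ] H, (1 + T * R) * W' = 1 ∧ W' * (1 + T * R) = 1 := by
  set W : H →L[ℝ] H := 1 + T * R with hW
  have hWu : ∀ u, W u = u + T (R u) := fun u => rfl
  have hs : 0 < √c := Real.sqrt_pos.2 hc
  have h1 : ∀ u, ‖R u‖ ≤ (√c)⁻¹ * ‖W u‖ := fun u => by
    rw [inv_mul_eq_div, le_div_iff₀ hs]
    refine abs_le_of_sq_le_sq' ?_ (norm_nonneg _) |>.2
    rw [mul_pow, Real.sq_sqrt hc.le, mul_comm]
    exact lb u
  have h2 : ∀ u, ‖u‖ ≤ (1 + ‖T‖ * (√c)⁻¹) * ‖W u‖ := fun u => by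
    have h3 : u = W u - T (R u) := by rw [hWu]; abel
    calc ‖u‖ = ‖W u - T (R u)‖ := by rw [← h3]
      _ ≤ ‖W u‖ + ‖T‖ * ‖R u‖ := (norm_sub_le _ _).trans (by gcongr; exact T.le_opNorm _)
      _ ≤ ‖W u‖ + ‖T‖ * ((√c)⁻¹ * ‖W u‖) := by gcongr; exact h1 u
      _ = _ := by ring
  have hK : 0 ≤ 1 + ‖T‖ * (√c)⁻¹ := by positivity
  have ha : AntilipschitzWith ⟨_, hK⟩ W := W.antilipschitz_of_bound h2
  have hcl : IsClosed (W.range : Set H) := ha.isClosed_range W.uniformContinuous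
  have hker : W.ker = ⊥ := LinearMap.ker_eq_bot.2 ha.injective
  have hran : W.range = ⊤ := by
    have : CompleteSpace W.range := hcl.completeSpace_coe
    rw [← Submodule.orthogonal_eq_bot_iff, Submodule.eq_bot_iff]
    intro f hf
    have h4 : f + R (T f) = 0 := by
      rw [← inner_self_eq_zero (𝕜 := ℝ)]
      have h5 := (Submodule.mem_orthogonal _ _).1 hf (W (f + R (T f))) ⟨_, rfl⟩
      rwa [hWu, inner_add_left, hT, hR, ← inner_add_right] at h5
    have h6 : W (T f) = 0 := by rw [hWu, ← map_add, h4, map_zero]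
    have h7 : T f = 0 := ha.injective (by rw [h6, map_zero])
    simpa [h7] using h4
  let e := ContinuousLinearEquiv.ofBijective W hker hran
  refine ⟨e.symm, ?_, ?_⟩
  · ext u
    exact e.apply_symm_apply u
  · ext u
    exact e.symm_apply_apply u

theorem sym_inv {W' : H →L[ℝ] H} (hR : Sym R) (hT : Sym T) (h : (1 + T * R) * W' = 1) :
    Sym (R * W') := by
  have h1 : ∀ u, W' u + T (R (W' u)) = u := fun u => by
    simpa using congrArg (fun A : H →L[ℝ] H => A u) h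
  intro u v
  rw [mul_apply_eq_comp, mul_apply_eq_comp]
  conv_lhs => rw [← h1 v]
  conv_rhs => rw [← h1 u]
  rw [inner_add_left, inner_add_right, hR, hT]

end Abs

theorem sym_amp {G : Type} [Group G] {E : Type} [NormedAddCommGroup E] [InnerProductSpace ℝ E]
    {T : E →L[ℝ] E} (h : Sym T) : Sym (amp G T) := fun ξ η => by
  rw [lp.inner_eq_tsum, lp.inner_eq_tsum]
  exact tsum_congr fun x => h _ _

end QEX

open QEX in
theorem stQEX (hINV : St_INV) : St_QEX := by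
  intro G _ M _ μ N w R X hR
  have hω : Sym (amp G w) := sym_amp X.symw
  have ww : amp G w * amp G w = 1 := by
    rw [← ampA_apply, ← map_mul, X.ww, map_one]
  have hsR := sym_of hω X.res X.dense X.sym
  have hT : Sym (amp G ((X.v - 1) * w)) := sym_amp fun s t => by
    have h1 : ∀ s, ((X.v - 1) * w) s = X.v (w s) - w s := fun _ => rfl
    have h2 : X.v (w t) = w (X.v t) := congrArg (fun A : _ →L[ℝ] _ => A t) X.vw
    rw [h1, h1, inner_sub_left, inner_sub_right, X.symv, X.symw, X.symw, h2]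
  have hl := lb_of (T := amp G ((X.v - 1) * w)) X.res X.dense fun q hq => by
    have h1 : amp G w + amp G ((X.v - 1) * w) = amp G (X.v * w) := by
      simp only [← ampA_apply, ← map_add]
      rw [sub_mul, one_mul, add_sub_cancel]
    rw [add_assoc, ← _root_.add_apply, h1]
    exact X.lb q hq
  obtain ⟨W', h1, h2⟩ := inv_of X.cpos hsR hT hl
  have hW' : W' ∈ RA G _ :=
    hINV G _ _ W' (add_mem (one_mem _) (mul_mem (amp_mem _) hR)) h1 h2
  exact ⟨R * W', hsR, anti_of ww X.res X.dense X.gr, mul_mem hR hW', sym_inv hsR hT h1,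
    W', hW', h1, h2, rfl⟩

end Pool.Agent.Lib.L1I
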