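import Pool.Agent.Lib.L1I.Blue
import Pool.Agent.Lib.CX.ClifGr

/-! Block RES: the resolvent on the graph. -/

noncomputable section

open Set Filter MeasureTheory BCO
open scoped InnerProductSpace Manifold ContDiff

namespace Pool.Agent.Lib.L1I

open CX

namespace Res

set_option linter.unusedSectionVars false

section Cl

variable {G : Type} [Group G] {M : Type} [MeasurableSpace M] {μ : Measure M} {N : ℕ}
  {ξ ξ' : G → M → Eu N} {u u' : V G (Lp (Eu N) 2 μ)}

theorem uniq (h : Cls μ ξ u) (h' : Cls μ ξ u') : u = u' :=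
  lp.ext (funext fun γ => Lp.ext ((h γ).trans (h' γ).symm))

theorem add (h : Cls μ ξ u) (h' : Cls μ ξ' u') : Cls μ (ξ + ξ') (u + u') := fun γ => by
  filter_upwards [h γ, h' γ, Lp.coeFn_add (u γ) (u' γ)] with p h1 h2 h3
  change (u γ + u' γ) p = ξ γ p + ξ' γ p
  rw [h3, Pi.add_apply, h1, h2]

theorem smul (r : ℝ) (h : Cls μ ξ u) : Cls μ (r • ξ) (r • u) := fun γ => by
  filter_upwards [h γ, Lp.coeFn_smul r (u γ)] with p h1 h3
  change (r • u γ) p = r • ξ γ p
  rw [h3, Pi.smul_apply, h1]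

theorem map (T : Eu N →L[ℝ] Eu N) (h : Cls μ ξ u) :
    Cls μ (fun γ p => T (ξ γ p)) (amp G (T.compLpL 2 μ) u) := fun γ => by
  filter_upwards [h γ, T.coeFn_compLpL (u γ)] with p h1 h3
  rw [amp_apply, h3, h1]

theorem zero : Cls μ (0 : G → M → Eu N) (0 : V G (Lp (Eu N) 2 μ)) := fun _ =>
  Lp.coeFn_zero (Eu N) 2 μ

end Cl

variable {G : Type} [Group G] {m N : ℕ} {x : Sing G m} (S : Spinor (m + 1) N) {a i : ℕ}
  {ψ : x.X.M → Eu N}

theorem tst_map (T : Eu N →L[ℝ] Eu N) (h : Tst x a i ψ) : Tst x a i fun p => T (ψ p) :=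
  ⟨T.contMDiff.comp h.1, h.2.1.comp_left (g := T) (map_zero T),
    (closure_mono (Function.support_comp_subset (g := T) (map_zero T) ψ)).trans h.2.2⟩

theorem sec_add (g : G) (φ φ' : x.X.M → Eu N) :
    x.sec S a i g (φ + φ') = x.sec S a i g φ + x.sec S a i g φ' := by
  funext γ p
  simp only [Sing.sec, Pi.add_apply]
  split_ifs <;> simp

theorem sec_smul (g : G) (r : ℝ) (φ : x.X.M → Eu N) :
    x.sec S a i g (r • φ) = r • x.sec S a i g φ := by
  funext γ p
  simp only [Sing.sec, Pi.smul_apply]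
  split_ifs <;> simp

theorem sec_gr (hn : Even (m + 1)) (g : G) (h : Tst x a i ψ) :
    x.sec S a i g (fun p => S.gr (ψ p)) = fun γ p => S.gr (x.sec S a i g ψ γ p) := by
  funext γ p
  simp only [Sing.sec]
  split_ifs
  · by_cases hp : p ∈ x.X.U a
    · have hf : p ∈ x.X.U (x.X.fr p) := Nat.sInf_mem (s := {a | p ∈ x.X.U a}) ⟨a, hp⟩
      exact (S.gr_spin hn (x.X.spin _ a p ⟨hf, hp⟩).1 _).symm
    · have : ψ p = 0 := image_eq_zero_of_notMem_tsupport fun h' => hp (h.2.2 h').1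
      simp [this]
  · simp

end Res

open Res in
theorem stRES (hDEN : St_DEN) (h1 : St_C1) (h2 : St_C2) (h3 : St_C3) (h4 : St_C4) : St_RES := by
  intro G _ m N x S μ hn hs hμ
  have hev : Even (m + 1) := even_iff_two_dvd.2 (Dvd.dvd.trans ⟨2, rfl⟩ hn)
  obtain ⟨a1, -, a3, a4, a5, a6⟩ := h1 G m N x S
  obtain ⟨-, b2, -⟩ := h2 G m N x S
  replace b2 := b2 hev
  obtain ⟨c1, -⟩ := h4 G m N x S μ hμ
  have b3 : ∀ ξ, Sm x S ξ → Dt x S (fun γ p => S.gr (ξ γ p)) =
      (-1 : ℝ) • fun γ p => S.gr (Dt x S ξ γ p) := fun ξ h => by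
    funext γ p
    rw [(b2 ξ h).2]
    simp
  refine ⟨fun e he q hq => ?_, ?_, ?_⟩
  · obtain ⟨ξ, hξ, hu, hd⟩ := hq
    obtain ⟨r, a, i, g, ψ, hψ, rfl⟩ := h3 G m N x S ξ hξ
    have key : ∀ s : Finset (Fin r), Sm x S (∑ l ∈ s, x.sec S (a l) (i l) (g l) (ψ l)) ∧
        ∀ u d, Cls μ (∑ l ∈ s, x.sec S (a l) (i l) (g l) (ψ l)) u →
        Cls μ (Dt x S (∑ l ∈ s, x.sec S (a l) (i l) (g l) (ψ l))) d →
        (e - amp G (((1 / 2 : ℝ) • (1 - S.gr)).compLpL 2 μ))
          (d + amp G (S.gr.compLpL 2 μ) u) = u := by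
      intro s
      induction s using Finset.induction_on with
      | empty =>
        refine ⟨by simpa using a5, fun u d hu hd => ?_⟩
        rw [Finset.sum_empty] at hu hd
        rw [a6] at hd
        rw [uniq hu zero, uniq hd zero]
        simp
      | insert l s hl ih =>
        rw [Finset.sum_insert hl]
        obtain ⟨s1, s2, -⟩ := a3 (a l) (i l) (g l) (ψ l) (hψ l)
        have k := a4 _ _ 1 s1 ih.1
        rw [one_smul, one_smul] at k
        refine ⟨k.1, fun u d hu hd => ?_⟩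
        obtain ⟨u1, hu1⟩ := c1 _ s1
        obtain ⟨d1, hd1⟩ := c1 _ (a1 _ s1).1
        obtain ⟨u2, hu2⟩ := c1 _ ih.1
        obtain ⟨d2, hd2⟩ := c1 _ (a1 _ ih.1).1
        rw [k.2] at hd
        have e2 := ih.2 u2 d2 hu2 hd2
        have t1 := tst_map S.gr (hψ l)
        obtain ⟨ξ0, η0, e0, h0⟩ := he (a l) (i l) (g l) _ t1.1 t1.2.1 t1.2.2
        simp only [S.gr_gr hn] at h0
        have f1 : ξ0 = d1 + amp G (S.gr.compLpL 2 μ) u1 := by
          refine uniq (fun γ => (h0 γ).1) ?_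
          rw [sec_add, sec_gr S hev _ (hψ l), add_comm d1]
          rw [s2] at hd1
          exact add (map S.gr hu1) hd1
        have t2 : Tst x (a l) (i l) fun p => (1 / 2 : ℝ) • (S.gr (ψ l p) + ψ l p) :=
          tst_map ((1 / 2 : ℝ) • (S.gr + 1)) (hψ l)
        have f2 : x.sec S (a l) (i l) (g l) (fun p => (1 / 2 : ℝ) • (S.gr (ψ l p) + ψ l p)) =
            (1 / 2 : ℝ) • (fun γ p => S.gr (x.sec S (a l) (i l) (g l) (ψ l) γ p)) +
              ((1 / 2 : ℝ) • x.sec S (a l) (i l) (g l) (ψ l) + 0) := by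
          rw [← sec_gr S hev _ (hψ l), add_zero, ← smul_add, ← sec_add, ← sec_smul]
          rfl
        have f3 : η0 = u1 + amp G (((1 / 2 : ℝ) • (1 - S.gr)).compLpL 2 μ)
            (d1 + amp G (S.gr.compLpL 2 μ) u1) := by
          refine uniq (fun γ => (h0 γ).2) ?_
          rw [sec_add, ← (a3 _ _ (g l) _ t2).2.1, f2,
            (a4 _ _ _ (b2 _ s1).1 (a4 _ _ (1 / 2 : ℝ) s1 a5).1).2, (a4 _ _ (1 / 2 : ℝ) s1 a5).2,
            a6, b3 _ s1]
          have := add hu1 (map ((1 / 2 : ℝ) • (1 - S.gr)) (add hd1 (map S.gr hu1)))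
          refine Eq.mp (congrArg (fun z => Cls μ z _) ?_) this
          funext γ p
          simp only [Pi.add_apply, Pi.smul_apply, _root_.smul_apply,
            _root_.sub_apply, one_apply_eq_self, map_add, S.gr_gr hn,
            Pi.zero_apply]
          module
        have e1 : (e - amp G (((1 / 2 : ℝ) • (1 - S.gr)).compLpL 2 μ))
            (d1 + amp G (S.gr.compLpL 2 μ) u1) = u1 := by
          rw [_root_.sub_apply, ← f1, e0, f3, ← f1, add_sub_cancel_right]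
        rw [uniq hu (add hu1 hu2), uniq hd (add hd1 hd2), map_add _ u1, add_add_add_comm,
          map_add _ (d1 + _), e1, e2]
    exact (key Finset.univ).2 _ _ hu hd
  · refine (hDEN G m N x S μ hn hs hμ).mono fun v hv => ?_
    induction hv using Submodule.span_induction with
    | mem v hv =>
      obtain ⟨a, i, g, ψ, hψ, hv⟩ := hv
      obtain ⟨s1, s2, -⟩ := a3 a i g _ (tst_map S.gr hψ)
      obtain ⟨u1, hu1⟩ := c1 _ s1
      obtain ⟨d1, hd1⟩ := c1 _ (a1 _ s1).1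
      refine ⟨(u1, d1), ⟨_, s1, hu1, hd1⟩, uniq ?_ hv⟩
      rw [sec_add, ← s2, add_comm (x.sec S a i g ψ)]
      refine add hd1 ?_
      have := map S.gr hu1
      rw [sec_gr S hev _ hψ] at this
      simpa only [S.gr_gr hn] using this
    | zero => exact ⟨(0, 0), ⟨0, a5, zero, by rw [a6]; exact zero⟩, by simp⟩
    | add v w _ _ hv hw =>
      obtain ⟨q, ⟨ξ, s1, s2, s3⟩, rfl⟩ := hv
      obtain ⟨q', ⟨ξ', t1, t2, t3⟩, rfl⟩ := hw
      have k := a4 _ _ 1 s1 t1
      rw [one_smul, one_smul] at k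
      refine ⟨q + q', ⟨_, k.1, add s2 t2, by rw [k.2]; exact add s3 t3⟩, ?_⟩
      simp only [Prod.fst_add, Prod.snd_add, map_add]
      abel
    | smul r v _ hv =>
      obtain ⟨q, ⟨ξ, s1, s2, s3⟩, rfl⟩ := hv
      have k := a4 _ _ r s1 a5
      rw [a6, add_zero, add_zero] at k
      refine ⟨r • q, ⟨_, k.1, smul r s2, by rw [k.2]; exact smul r s3⟩, ?_⟩
      simp only [Prod.smul_fst, Prod.smul_snd, map_smul, smul_add]
  · rintro q ⟨ξ, s1, s2, s3⟩
    refine ⟨_, (b2 ξ s1).1, map S.gr s2, ?_⟩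
    have := smul (-1 : ℝ) (map S.gr s3)
    rw [← b3 ξ s1, neg_one_smul] at this
    exact this

end Pool.Agent.Lib.L1I
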