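import Pool.Agent.Lib.L1I.Blue

noncomputable section

open Set Function MeasureTheory BCO
open scoped InnerProductSpace

namespace Pool.Agent.Lib.L1I

open CX

namespace RH

variable {G : Type} [Group G] {M : Type} [MeasurableSpace M] {μ : Measure M} {N : ℕ}

theorem inner_sg {E : Type} [NormedAddCommGroup E] [InnerProductSpace ℝ E] (g : G) (s t : E) :
    ⟪(sg g s : V G E), sg g t⟫_ℝ = ⟪s, t⟫_ℝ := by
  classical
  have h : ∀ s : E, (sg g s : V G E) = lp.single 2 g s := fun s => rfl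
  rw [h, h, lp.inner_single_left, lp.single_apply_self]

theorem inner_J (P : Patch G μ N) (g : G) (s t : Lp (Eu N) 2 μ) :
    ⟪P.U' (sg g s), P.U' (sg g t)⟫_ℝ = ⟪s, t⟫_ℝ := by
  rw [← P.adj, ← inner_sg g s t]
  exact congrArg (fun z => ⟪z, sg g t⟫_ℝ) (DFunLike.congr_fun P.uu (sg g s))

end RH

theorem stRH : St_RH := by
  intro G _ M _ μ N P Q hQ hC hE
  have h0 : 0 < 1 + 3 * |P.C0| := by positivity
  obtain ⟨C, hE⟩ := hE (1 / (2 * (1 + 3 * |P.C0|))) (by positivity)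
  refine ⟨(4 * |P.C0| + 2) * |C|, by positivity, fun f g hf => ?_⟩
  have h1 := hC (Q f) g
  have h2 := hC f g
  have h3 := hE (Q f) g
  rw [hf, zero_add] at h2
  set u := P.U (Q (Q f)) g
  set v := P.U (Q f) g
  set I := ∫ p in P.K, ‖u p‖ ∂μ
  have hI : 0 ≤ I := integral_nonneg fun _ => norm_nonneg _
  have h4 := hQ (P.U' (sg g (P.Z v + P.C u))) (P.U' (sg g (P.C v)))
  rw [h1, h2, RH.inner_J, RH.inner_J, inner_add_left, real_inner_self_eq_norm_sq] at h4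
  have h5 : ⟪P.Z u, P.C v⟫_ℝ = -⟪P.C u, P.Z v⟫_ℝ := by
    have h6 : P.C (P.Z u) = P.Z (P.C u) := (DFunLike.congr_fun P.zc u).symm
    rw [← P.symZ, ← h6, P.skewC, neg_neg]
  have h6 : ‖P.Z v‖ ≤ 2 * ‖P.C u‖ := by
    have h7 := abs_real_inner_le_norm (P.C u) (P.Z v)
    have h8 := neg_abs_le ⟪P.C u, P.Z v⟫_ℝ
    by_contra hc
    push Not at hc
    nlinarith [norm_nonneg (P.C u), norm_nonneg (P.Z v)]
  have h7 : ‖P.C u‖ ≤ |P.C0| * ‖P.Y u‖ :=
    (P.cy u).trans (mul_le_mul_of_nonneg_right (le_abs_self _) (norm_nonneg _))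
  have h8 := P.zy u
  have h9 : ‖P.Z u‖ + ‖P.Z v + P.C u‖ ≤ (1 + 3 * |P.C0|) * ‖P.Y u‖ := by
    have := norm_add_le (P.Z v) (P.C u)
    linarith
  have h10 : 1 / (2 * (1 + 3 * |P.C0|)) * (‖P.Z u‖ + ‖P.Z v + P.C u‖) ≤ ‖P.Y u‖ / 2 := by
    refine (mul_le_mul_of_nonneg_left h9 (by positivity)).trans_eq ?_
    field_simp
  have h11 : C * I ≤ |C| * I := mul_le_mul_of_nonneg_right (le_abs_self _) hI
  have h12 : ‖P.Y u‖ ≤ 2 * (|C| * I) := by linarith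
  have h13 : |P.C0| * ‖P.Y u‖ ≤ |P.C0| * (2 * (|C| * I)) :=
    mul_le_mul_of_nonneg_left h12 (abs_nonneg _)
  have h14 : 0 ≤ |C| * I := by positivity
  have h15 : 0 ≤ |P.C0| * (|C| * I) := by positivity
  constructor <;> nlinarith

end Pool.Agent.Lib.L1I
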