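import Mathlib

/-! The row norm of an operator with respect to a family of cells. -/

noncomputable section

open scoped ENNReal Topology
open Filter

namespace Pool.Agent.Lib.L1I

variable {H J : Type*} [NormedAddCommGroup H] [NormedSpace ℝ H]

/-- A resolution of the identity by orthogonal cells. -/
structure Cells (π : J → H →L[ℝ] H) : Prop where
  idem : ∀ j, π j * π j = π j
  orth : ∀ i j, i ≠ j → π i * π j = 0
  sum : ∀ x, HasSum (fun j => π j x) x
  pyth : ∀ x, HasSum (fun j => ‖π j x‖ ^ 2) (‖x‖ ^ 2)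

/-- The operator norm as an extended number. -/
def en (T : H →L[ℝ] H) : ℝ≥0∞ := ENNReal.ofReal ‖T‖

theorem en_add (S T : H →L[ℝ] H) : en (S + T) ≤ en S + en T :=
  (ENNReal.ofReal_le_ofReal (norm_add_le S T)).trans ENNReal.ofReal_add_le

theorem en_mul (S T : H →L[ℝ] H) : en (S * T) ≤ en S * en T :=
  (ENNReal.ofReal_le_ofReal (norm_mul_le S T)).trans_eq (ENNReal.ofReal_mul (norm_nonneg _))

theorem en_smul (c : ℝ) (T : H →L[ℝ] H) : en (c • T) = ENNReal.ofReal |c| * en T := by
  rw [en, norm_smul, ENNReal.ofReal_mul (norm_nonneg _), Real.norm_eq_abs, en]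

@[simp] theorem en_neg (T : H →L[ℝ] H) : en (-T) = en T := by simp [en]

@[simp] theorem en_zero : en (0 : H →L[ℝ] H) = 0 := by simp [en]

theorem en_ne_top (T : H →L[ℝ] H) : en T ≠ ⊤ := ENNReal.ofReal_ne_top

theorem en_le {T : H →L[ℝ] H} {c : ℝ} (h : ‖T‖ ≤ c) : en T ≤ ENNReal.ofReal c :=
  ENNReal.ofReal_le_ofReal h

/-- The row norm. -/
def rn (π : J → H →L[ℝ] H) (T : H →L[ℝ] H) : ℝ≥0∞ := ⨆ i, ∑' k, en (π i * T * π k)

variable {π : J → H →L[ℝ] H}

theorem Cells.norm_apply_le (h : Cells π) (j : J) (x : H) : ‖π j x‖ ≤ ‖x‖ :=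
  (sq_le_sq₀ (norm_nonneg _) (norm_nonneg _)).1 (le_hasSum (h.pyth x) j fun _ _ => sq_nonneg _)

theorem Cells.norm_le (h : Cells π) (j : J) : ‖π j‖ ≤ 1 :=
  ContinuousLinearMap.opNorm_le_bound _ zero_le_one fun x => by simpa using h.norm_apply_le j x

theorem Cells.norm_entry_le (h : Cells π) (T : H →L[ℝ] H) (i k : J) : ‖π i * T * π k‖ ≤ ‖T‖ := by
  have h1 := norm_mul_le (π i * T) (π k)
  have h2 := norm_mul_le (π i) T
  have h3 := h.norm_le i
  have h4 := h.norm_le k
  have h5 := norm_nonneg T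
  have h6 := norm_nonneg (π i * T)
  nlinarith

theorem row_le_rn (T : H →L[ℝ] H) (i : J) : ∑' k, en (π i * T * π k) ≤ rn π T :=
  le_iSup (fun i => ∑' k, en (π i * T * π k)) i

theorem rn_le {T : H →L[ℝ] H} {C : ℝ≥0∞}
    (h : ∀ i (s : Finset J), ∑ k ∈ s, en (π i * T * π k) ≤ C) : rn π T ≤ C :=
  iSup_le fun i => ENNReal.tsum_eq_iSup_sum.trans_le (iSup_le (h i))

theorem en_le_tsum {ι : Type*} {T : H →L[ℝ] H} {E : ι → H →L[ℝ] H}
    (h : ∀ x, HasSum (fun j => E j x) (T x)) : en T ≤ ∑' j, en (E j) := by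
  by_cases hf : ∑' j, en (E j) = ⊤
  · simp [hf]
  have hs : Summable fun j => ‖E j‖ := by
    have := ENNReal.summable_toReal hf
    simpa [en] using this
  have : ‖T‖ ≤ ∑' j, ‖E j‖ := ContinuousLinearMap.opNorm_le_bound _
    (tsum_nonneg fun _ => norm_nonneg _) fun x => by
      rw [← tsum_mul_right]
      exact (h x).norm_le_of_bounded (hs.mul_right _).hasSum fun j => (E j).le_opNorm x
  exact (en_le this).trans_eq (ENNReal.ofReal_tsum_of_nonneg (fun _ => norm_nonneg _) hs)

theorem Cells.en_mul_le (h : Cells π) (S T : H →L[ℝ] H) :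
    en (S * T) ≤ ∑' j, en (S * π j) * en (π j * T) := by
  refine (en_le_tsum (E := fun j => S * π j * (π j * T)) fun x => ?_).trans
    (ENNReal.tsum_le_tsum fun j => en_mul _ _)
  have := (h.sum (T x)).mapL S
  refine this.congr' ?_ |>.trans_eq' rfl
  refine Eventually.of_forall fun s => Finset.sum_congr rfl fun j _ => ?_
  have := congrArg (fun A : H →L[ℝ] H => A (T x)) (h.idem j)
  simp only [mul_apply_eq_comp] at this ⊢
  rw [this]

theorem Cells.en_row_le (h : Cells π) (T : H →L[ℝ] H) (i : J) : en (π i * T) ≤ rn π T :=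
  (en_le_tsum (E := fun k => π i * T * π k) fun x => (h.sum x).mapL (π i * T)).trans
    (row_le_rn T i)

theorem rn_add (S T : H →L[ℝ] H) : rn π (S + T) ≤ rn π S + rn π T :=
  iSup_le fun i => by
    refine le_trans (ENNReal.tsum_le_tsum fun k => ?_) (ENNReal.tsum_add.trans_le
      (add_le_add (row_le_rn S i) (row_le_rn T i)))
    rw [mul_add, add_mul]
    exact en_add _ _

theorem rn_smul (c : ℝ) (T : H →L[ℝ] H) : rn π (c • T) ≤ ENNReal.ofReal |c| * rn π T :=
  iSup_le fun i => by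
    refine le_trans (ENNReal.tsum_le_tsum fun k => ?_) (ENNReal.tsum_mul_left.trans_le
      (mul_le_mul_right (row_le_rn T i) _))
    rw [mul_smul_comm, smul_mul_assoc, en_smul]

theorem rn_neg (T : H →L[ℝ] H) : rn π (-T) = rn π T := by
  simp [rn]

theorem rn_sub (S T : H →L[ℝ] H) : rn π (S - T) ≤ rn π S + rn π T := by
  rw [sub_eq_add_neg, ← rn_neg T]
  exact rn_add _ _

theorem rn_zero : rn π 0 = 0 := by
  simp [rn]

theorem rn_sum {ι : Type*} (s : Finset ι) (T : ι → H →L[ℝ] H) :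
    rn π (∑ j ∈ s, T j) ≤ ∑ j ∈ s, rn π (T j) :=
  Finset.le_sum_of_subadditive (rn π) rn_zero.le rn_add s T

theorem Cells.rn_mul (h : Cells π) (S T : H →L[ℝ] H) : rn π (S * T) ≤ rn π S * rn π T :=
  iSup_le fun i => by
    calc ∑' k, en (π i * (S * T) * π k)
        ≤ ∑' k, ∑' j, en (π i * S * π j) * en (π j * T * π k) := ENNReal.tsum_le_tsum fun k => by
          have := h.en_mul_le (π i * S) (T * π k)
          simpa only [mul_assoc] using this
      _ = ∑' j, en (π i * S * π j) * ∑' k, en (π j * T * π k) := by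
          rw [ENNReal.tsum_comm]
          simp only [ENNReal.tsum_mul_left]
      _ ≤ ∑' j, en (π i * S * π j) * rn π T :=
          ENNReal.tsum_le_tsum fun j => mul_le_mul_right (row_le_rn T j) _
      _ ≤ _ := by
          rw [ENNReal.tsum_mul_right]
          exact mul_le_mul_left (row_le_rn S i) _

/-- An operator commuting with the cells has row norm at most its norm. -/
theorem Cells.rn_le_of_comm (h : Cells π) {T : H →L[ℝ] H} (hT : ∀ j, π j * T = T * π j) :
    rn π T ≤ en T :=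
  iSup_le fun i => by
    rw [tsum_eq_single i fun k hk => by
      rw [hT i, mul_assoc, h.orth i k hk.symm, mul_zero, en_zero]]
    exact en_le (h.norm_entry_le T i i)

theorem Cells.rn_one (h : Cells π) : rn π 1 ≤ 1 :=
  (h.rn_le_of_comm fun j => by simp).trans
    (ENNReal.ofReal_le_one.2 ContinuousLinearMap.norm_id_le)

theorem le_of_le_add_mul {x a q : ℝ≥0∞} (hx : x ≠ ⊤) (hq : q ≤ 2⁻¹) (h : x ≤ a + q * x) :
    x ≤ 2 * a := by
  have h1 : x ≤ a + 2⁻¹ * x := h.trans (by gcongr)
  have h2 : 2 * x ≤ 2 * a + x := by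
    calc 2 * x ≤ 2 * (a + 2⁻¹ * x) := by gcongr
      _ = 2 * a + x := by
        rw [mul_add, ← mul_assoc, ENNReal.mul_inv_cancel two_ne_zero ENNReal.ofNat_ne_top, one_mul]
  rw [two_mul x] at h2
  exact (ENNReal.add_le_add_iff_right hx).1 h2

/-- Neumann series in the row norm. -/
theorem Cells.rn_fix (h : Cells π) {X A K : H →L[ℝ] H} (hK : rn π K ≤ 2⁻¹) (hX : X = A + K * X) :
    rn π X ≤ 2 * rn π A := by
  refine rn_le fun i s => ?_
  set ρ : ℝ≥0∞ := ⨆ i, ∑ k ∈ s, en (π i * X * π k) with hρ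
  have hle : ∀ i, ∑ k ∈ s, en (π i * X * π k) ≤ ρ := fun i =>
    le_iSup (fun i => ∑ k ∈ s, en (π i * X * π k)) i
  have hfin : ρ ≠ ⊤ := by
    exact ne_top_of_le_ne_top (b := ∑ k ∈ s, en X) (ENNReal.sum_ne_top.2 fun _ _ => en_ne_top X)
      (iSup_le fun i => Finset.sum_le_sum fun k _ => en_le (h.norm_entry_le X i k))
  refine (hle i).trans (le_of_le_add_mul hfin hK (iSup_le fun i => ?_))
  calc ∑ k ∈ s, en (π i * X * π k)
      ≤ ∑ k ∈ s, (en (π i * A * π k) + ∑' j, en (π i * K * π j) * en (π j * X * π k)) :=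
        Finset.sum_le_sum fun k _ => by
          have h1 := h.en_mul_le (π i * K) (X * π k)
          have h2 : π i * X * π k = π i * A * π k + π i * K * (X * π k) := by
            conv_lhs => rw [hX]
            simp only [mul_add, add_mul, mul_assoc]
          rw [h2]
          refine (en_add _ _).trans (add_le_add le_rfl ?_)
          simpa only [mul_assoc] using h1
    _ = ∑ k ∈ s, en (π i * A * π k) + ∑' j, en (π i * K * π j) * ∑ k ∈ s, en (π j * X * π k) := by
        rw [Finset.sum_add_distrib, ← Summable.tsum_finsetSum fun _ _ => ENNReal.summable]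
        simp only [Finset.mul_sum]
    _ ≤ rn π A + rn π K * ρ := by
        refine add_le_add ((ENNReal.sum_le_tsum s).trans (row_le_rn A i)) ?_
        refine (ENNReal.tsum_le_tsum fun j => mul_le_mul_right (hle j) _).trans ?_
        rw [ENNReal.tsum_mul_right]
        exact mul_le_mul_left (row_le_rn K i) _

end Pool.Agent.Lib.L1I
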