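import Pool.Agent.Lib.L1I.ABS
import Pool.Agent.Lib.L1I.QEX

/-! Block SAND: the sandwiched idempotent. -/

noncomputable section

open Set Function Filter Topology MeasureTheory BCO
open scoped InnerProductSpace

namespace Pool.Agent.Lib.L1I

open CX

namespace SAND

section Ring

variable {A : Type} [Ring A] {F v η R W W' a : A}

theorem idem (hF : F * F = F) (hR : R * R = R - F * R - R * F) : (F + R) * (F + R) = F + R := by
  linear_combination (norm := noncomm_ring) hF + hR

theorem conj (hF : F * F = F) (hv : F * v = v * F) (hR : R * R = R - F * R - R * F)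
    (hW : W = 1 + (v - 1) * (1 - F - F) * R) : W * (F + R) = F * W + v * R := by
  subst hW
  linear_combination (norm := noncomm_ring) (v - 1) * (1 - F - F) * hR +
    (v - 1) * (hF + hF) * R - hv * (1 - F - F) * R + (v - 1) * (hF + hF) * R

theorem left (hF : F * F = F) (h : W * (F + R) = F * W + v * R) (hv : F * v = v * F)
    (hW : W = 1 + (v - 1) * (1 - F - F) * R) : F * (W * (F + R)) = F * (F + R) := by
  rw [h]
  subst hW
  linear_combination (norm := noncomm_ring) hF * ((v - 1) * (1 - F - F) * R) +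
    hv * (1 - F - F) * R + hv * R - (v - 1) * (hF + hF) * R

theorem nil (hη : F * η = η * F) (ha : η * a = a) :
    a * (1 - η) * (1 - F - F) * a = 0 := by
  linear_combination (norm := noncomm_ring) -(a * (1 - F - F) * ha) - a * (hη + hη) * a

theorem cut (hF : F * F = F) (hη : F * η = η * F) (ha : η * a = a)
    (hE : (F + a) * (F + a) = F + a) :
    (1 + a * (1 - η) * (1 - F - F)) * (F + a) * (1 - a * (1 - η) * (1 - F - F)) = F + a * η := by
  have h0 := nil hη ha
  have h1 : a * (1 - η) * F * a = 0 := by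
    linear_combination (norm := noncomm_ring) -(a * F * ha) + a * hη * a
  have h2 : (F + a) * a = a * (1 - F) := by
    linear_combination (norm := noncomm_ring) hE - hF
  have h3 : (1 + a * (1 - η) * (1 - F - F)) * (F + a) = F + a - a * (1 - η) * F := by
    linear_combination (norm := noncomm_ring) h0 - a * (1 - η) * (hF + hF)
  rw [h3]
  linear_combination (norm := noncomm_ring) h1 * ((1 - η) * (1 - F - F)) -
    h2 * ((1 - η) * (1 - F - F)) - a * hη * (1 - F - F) - a * (1 - η) * (hF + hF)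

end Ring

variable {G : Type} [Group G] {M : Type} [MeasurableSpace M] {μ : Measure M} {N : ℕ}
  {w : Lp (Eu N) 2 μ →L[ℝ] Lp (Eu N) 2 μ} {R : V G (Lp (Eu N) 2 μ) →L[ℝ] V G (Lp (Eu N) 2 μ)}

theorem local_eq (X : Pack w R) (a : Fin X.r) : amp G (X.P a).Z * (X.P a).U * R =
    amp G (X.k a) * (amp G (X.P a).Z * (X.P a).U + amp G (X.P a).C * (X.P a).U * R) := by
  refine ContinuousLinearMap.ext fun u => ?_
  refine QEX.ind X.dense (P := fun u => (amp G (X.P a).Z * (X.P a).U * R) u =
    (amp G (X.k a) * (amp G (X.P a).Z * (X.P a).U + amp G (X.P a).C * (X.P a).U * R)) u) ?_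
    (isClosed_eq (ContinuousLinearMap.continuous _) (ContinuousLinearMap.continuous _)) u
  rintro _ ⟨q, hq, rfl⟩
  simp only [_root_.add_apply, mul_apply_eq_comp, X.res q hq]
  exact lp.ext (funext fun g => (X.cpt a g q hq).symm)

theorem vR_mem (hL : St_L1A) (X : Pack w R) (hR : R ∈ RA G (Lp (Eu N) 2 μ)) :
    amp G X.v * R ∈ KK G (Lp (Eu N) 2 μ) := by
  obtain ⟨-, -, -, l4⟩ := hL G (Lp (Eu N) 2 μ)
  rw [X.decv, amp_sum', Finset.sum_mul]
  refine Submodule.sum_mem _ fun a _ => ?_
  have hk : amp G (X.k a) ∈ KK G (Lp (Eu N) 2 μ) := Submodule.le_topologicalClosure _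
    (Submodule.subset_span ⟨1, _, X.kc a, (tw_one _).symm⟩)
  have hU := FS_le_RA (X.P a).fs
  have h1 : amp G (X.v' a * (X.P a).Z) * R =
      amp G (X.v' a) * (X.P a).U' * (amp G (X.P a).Z * (X.P a).U * R) := by
    rw [amp_mul', ← (X.P a).uz, mul_assoc _ (X.P a).U', ← mul_assoc (X.P a).U',
      ← mul_assoc (X.P a).U', (X.P a).uu', one_mul, mul_assoc]
  rw [h1, local_eq]
  exact (l4 _ (l4 _ hk _ (add_mem (mul_mem (amp_mem _) hU)
    (mul_mem (mul_mem (amp_mem _) hU) hR))).2 _
    (mul_mem (amp_mem _) (FS_le_RA (X.P a).fs'))).1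

end SAND

open SAND in
theorem stSAND (hL : St_L1A) (hCJ : St_CJ) : St_SAND := by
  intro G _ M _ μ N w F R Q X hR hQ hF
  obtain ⟨W', hW', h1, h2, rfl⟩ := hQ.inv
  obtain ⟨-, -, -, l4⟩ := hL G (Lp (Eu N) 2 μ)
  have hw : w = 1 - F - F := by rw [hF]; module
  have hω : amp G w = 1 - amp G F - amp G F := by
    rw [hw]; simp only [← ampA_apply, map_sub, map_one]
  have hFF : F * F = F := by
    rw [hF, smul_mul_smul_comm, mul_sub, sub_mul, sub_mul, X.ww]
    simp only [one_mul, mul_one]
    module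
  have hc : ∀ T : Lp (Eu N) 2 μ →L[ℝ] Lp (Eu N) 2 μ, T * w = w * T →
      amp G F * amp G T = amp G T * amp G F := fun T h => by
    rw [← amp_mul', ← amp_mul', hF, smul_mul_assoc, mul_smul_comm, sub_mul, mul_sub, h, one_mul,
      mul_one]
  have aF : amp G F * amp G F = amp G F := by rw [← amp_mul', hFF]
  have aη : amp G X.η * amp G X.v = amp G X.v := by rw [← amp_mul', X.ηv]
  have aR : R * R = R - amp G F * R - R * amp G F := by
    have h := hQ.anti
    rw [hω] at h
    have h3 : (2 : ℝ) • (R * R) = (2 : ℝ) • (R - amp G F * R - R * amp G F) := by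
      rw [two_smul, two_smul, ← two_mul, ← h]
      noncomm_ring
    exact smul_right_injective _ two_ne_zero h3
  have hT : amp G ((X.v - 1) * w) = (amp G X.v - 1) * (1 - amp G F - amp G F) := by
    rw [amp_mul', hω]; simp only [← ampA_apply, map_sub, map_one]
  have mW : 1 + amp G ((X.v - 1) * w) * R ∈ RA G (Lp (Eu N) 2 μ) :=
    add_mem (one_mem _) (mul_mem (amp_mem _) hR)
  have hWd : 1 + amp G ((X.v - 1) * w) * R =
      1 + (amp G X.v - 1) * (1 - amp G F - amp G F) * R := by rw [hT]
  generalize 1 + amp G ((X.v - 1) * w) * R = W at h1 h2 mW hWd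
  have ka : amp G X.v * (R * W') ∈ KK G (Lp (Eu N) 2 μ) := by
    rw [← mul_assoc]
    exact (l4 _ (vR_mem hL X hR) _ hW').2
  have ma : amp G X.v * (R * W') ∈ RA G (Lp (Eu N) 2 μ) := mul_mem (amp_mem _) (mul_mem hR hW')
  have aa : amp G X.η * (amp G X.v * (R * W')) = amp G X.v * (R * W') := by rw [← mul_assoc, aη]
  have he := idem aF aR
  have hcj := conj aF (hc _ X.vw) aR hWd
  have hl := left aF hcj (hc _ X.vw) hWd
  have hE : W * (amp G F + R) * W' = amp G F + amp G X.v * (R * W') := by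
    rw [hcj, add_mul, mul_assoc, h1, mul_one, mul_assoc]
  generalize amp G X.v * (R * W') = a at ka ma aa hE
  have me : amp G F + R ∈ RA G (Lp (Eu N) 2 μ) := add_mem (amp_mem _) hR
  have hEE : (amp G F + a) * (amp G F + a) = amp G F + a := by
    rw [← hE, mul_assoc, ← mul_assoc W', ← mul_assoc W', h2, one_mul, ← mul_assoc, mul_assoc W, he]
  have hcut := cut aF (hc _ X.ηw) aa hEE
  have hn := nil (hc _ X.ηw) aa
  have mc : (1 - amp G X.η) * (1 - amp G F - amp G F) ∈ RA G (Lp (Eu N) 2 μ) :=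
    mul_mem (sub_mem (one_mem _) (amp_mem _))
      (sub_mem (sub_mem (one_mem _) (amp_mem _)) (amp_mem _))
  have kn : a * (1 - amp G X.η) * (1 - amp G F - amp G F) ∈ KK G (Lp (Eu N) 2 μ) := by
    rw [mul_assoc]
    exact (l4 _ ka _ mc).2
  have mn : a * (1 - amp G X.η) * (1 - amp G F - amp G F) ∈ RA G (Lp (Eu N) 2 μ) := by
    rw [mul_assoc]
    exact mul_mem ma mc
  have nn : a * (1 - amp G X.η) * (1 - amp G F - amp G F) *
      (a * (1 - amp G X.η) * (1 - amp G F - amp G F)) = 0 := by
    rw [← mul_assoc, ← mul_assoc, hn, zero_mul, zero_mul]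
  have k0 : a * amp G X.η ∈ KK G (Lp (Eu N) 2 μ) := (l4 _ ka _ (amp_mem _)).2
  generalize a * (1 - amp G X.η) * (1 - amp G F - amp G F) = n at hcut kn mn nn
  have n1 : (1 - n) * (1 + n) = 1 := by linear_combination (norm := noncomm_ring) -nn
  have hyx : (amp G F + R) * W' * (1 - n) * ((1 + n) * W * (amp G F + R)) = amp G F + R := by
    calc _ = (amp G F + R) * (W' * ((1 - n) * (1 + n)) * W) * (amp G F + R) := by
          simp only [mul_assoc]
      _ = _ := by rw [n1, mul_one, h2, mul_one, he]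
  have hxy : (1 + n) * W * (amp G F + R) * ((amp G F + R) * W' * (1 - n)) =
      amp G F + a * amp G X.η := by
    calc _ = (1 + n) * (W * ((amp G F + R) * (amp G F + R)) * W') * (1 - n) := by
          simp only [mul_assoc]
      _ = _ := by rw [he, hE, hcut]
  have mx : (1 + n) * W * (amp G F + R) ∈ RA G (Lp (Eu N) 2 μ) :=
    mul_mem (mul_mem (add_mem (one_mem _) mn) mW) me
  have my : (amp G F + R) * W' * (1 - n) ∈ RA G (Lp (Eu N) 2 μ) :=
    mul_mem (mul_mem me hW') (sub_mem (one_mem _) mn)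
  have hxe : (1 + n) * W * (amp G F + R) * (amp G F + R) = (1 + n) * W * (amp G F + R) := by
    rw [mul_assoc, he]
  have hfx : amp G F * ((1 + n) * W * (amp G F + R)) - amp G F * (amp G F + R) =
      amp G F * (n * (W * (amp G F + R))) := by
    linear_combination (norm := noncomm_ring) hl
  have kx := (l4 _ (l4 _ kn _ (mul_mem mW me)).2 _ (amp_mem F)).1
  rw [← hfx] at kx
  generalize (1 + n) * W * (amp G F + R) = x at hyx hxy mx hxe kx
  generalize (amp G F + R) * W' * (1 - n) = y at hyx hxy my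
  have hx : (amp G F + a * amp G X.η) * x = x := by rw [← hxy, mul_assoc, hyx, hxe]
  have h0 : (amp G F + a * amp G X.η) * (amp G F + a * amp G X.η) = amp G F + a * amp G X.η := by
    conv_lhs => rhs; rw [← hxy]
    rw [← mul_assoc, hx, hxy]
  refine ⟨he, k0, h0, fun z => hCJ G _ _ _ _ x y z (amp_mem _) mx my he h0 aF hyx hxy ?_⟩
  rwa [hx, hxe]

end Pool.Agent.Lib.L1I
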