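import Pool.Agent.Lib.L1I.Blue

/-! SUM: the coefficients of the resolvent between two patches are summable. -/

noncomputable section

open Set Function Filter Topology MeasureTheory BCO
open scoped InnerProductSpace ENNReal

namespace Pool.Agent.Lib.L1I

open CX

namespace SUM

section
variable {G : Type} [Group G] {E : Type} [NormedAddCommGroup E] [NormedSpace ℝ E]

theorem fs_fin {A : V G E →L[ℝ] V G E} (hA : A ∈ FS G E) :
    ∃ s : Finset G, ∀ (ξ : V G E) x, (∀ g ∈ s, ξ (g⁻¹ * x) = 0) → A ξ x = 0 := by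
  classical
  induction hA using Submodule.span_induction with
  | mem A hA =>
    obtain ⟨g, T, rfl⟩ := hA
    exact ⟨{g}, fun ξ x h => by rw [tw_apply, h g (Finset.mem_singleton_self g), map_zero]⟩
  | zero => exact ⟨∅, fun _ _ _ => rfl⟩
  | add A B _ _ hA hB =>
    obtain ⟨s, hs⟩ := hA
    obtain ⟨t, ht⟩ := hB
    refine ⟨s ∪ t, fun ξ x h => ?_⟩
    change A ξ x + B ξ x = 0
    rw [hs ξ x fun g hg => h g (Finset.mem_union_left _ hg),
      ht ξ x fun g hg => h g (Finset.mem_union_right _ hg), add_zero]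
  | smul c A _ hA =>
    obtain ⟨s, hs⟩ := hA
    refine ⟨s, fun ξ x h => ?_⟩
    change c • A ξ x = 0
    rw [hs ξ x h, smul_zero]

omit [Group G] in
theorem sg_ne {g x : G} (t : E) (h : x ≠ g) : (sg g t : V G E) x = 0 := by
  classical
  exact lp.single_apply_ne (E := fun _ : G => E) 2 g t h

omit [Group G] in
theorem sg_self (g : G) (t : E) : (sg g t : V G E) g = t := by
  classical
  exact lp.single_apply_self (E := fun _ : G => E) 2 g t

theorem amp_sg (T : E →L[ℝ] E) (g : G) (t : E) : amp G T (sg g t) = sg g (T t) := by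
  refine lp.ext (funext fun x => ?_)
  by_cases h : x = g
  · subst h; rw [amp_apply, sg_self, sg_self]
  · rw [amp_apply, sg_ne _ h, sg_ne _ h, map_zero]

theorem fs_fin2 {A B : V G E →L[ℝ] V G E} (hA : A ∈ FS G E) (hB : B ∈ FS G E) :
    ∃ s : Finset G, ∀ (t : E) g x, x * g⁻¹ ∉ s → A (B (sg g t)) x = 0 := by
  classical
  obtain ⟨s, hs⟩ := fs_fin hA
  obtain ⟨s', hs'⟩ := fs_fin hB
  refine ⟨Finset.image₂ (· * ·) s s', fun t g x h => hs _ _ fun a ha => hs' _ _ fun b hb =>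
    sg_ne _ fun e => h (Finset.mem_image₂.2 ⟨a, ha, b, hb, ?_⟩)⟩
  rw [← e]; group

theorem exists_half (T : E →L[ℝ] E) : ∃ s, ‖s‖ ≤ 1 ∧ ‖T‖ ≤ 2 * ‖T s‖ := by
  rcases (norm_nonneg T).eq_or_lt with h | h
  · exact ⟨0, by simp, by rw [← h]; positivity⟩
  · obtain ⟨s, h1, h2⟩ := T.exists_lt_apply_of_lt_opNorm (r := ‖T‖ / 2) (by linarith)
    exact ⟨s, h1.le, by linarith⟩

end

theorem inner_sg {G E : Type} [NormedAddCommGroup E] [InnerProductSpace ℝ E] (g : G) (t : E)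
    (ξ : V G E) : ⟪(sg g t : V G E), ξ⟫_ℝ = ⟪t, ξ g⟫_ℝ := by
  classical
  exact lp.inner_single_left (G := fun _ : G => E) g t ξ

variable {G : Type} [Group G] {M : Type} [MeasurableSpace M] {μ : Measure M} {N : ℕ}

theorem exists_dual (u : Lp (Eu N) 2 μ) {K : Set M} (hK : MeasurableSet K) (hf : μ K ≠ ⊤) :
    ∃ h : Lp (Eu N) 2 μ, (∀ᵐ p ∂μ, ‖h p‖ ≤ 1) ∧ ∫ p in K, ‖u p‖ ∂μ = ⟪h, u⟫_ℝ := by
  have hb : ∀ p, ‖‖u p‖⁻¹ • u p‖ ≤ 1 := fun p => by
    rw [norm_smul, norm_inv, norm_norm]; exact inv_mul_le_one_of_le₀ le_rfl (norm_nonneg _)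
  have hm : AEStronglyMeasurable (fun p => ‖u p‖⁻¹ • u p) μ :=
    (Lp.aestronglyMeasurable u).norm.aemeasurable.inv.aestronglyMeasurable.smul
      (Lp.aestronglyMeasurable u)
  haveI : IsFiniteMeasure (μ.restrict K) := ⟨by simpa using hf.lt_top⟩
  have h2 : MemLp (K.indicator fun p => ‖u p‖⁻¹ • u p) 2 μ :=
    (memLp_indicator_iff_restrict hK).2 (MemLp.of_bound hm.restrict 1 (.of_forall hb))
  refine ⟨h2.toLp _, ?_, ?_⟩
  · filter_upwards [h2.coeFn_toLp] with p hp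
    rw [hp]
    exact (norm_indicator_le_norm_self _ _).trans (hb p)
  · rw [L2.inner_def, ← integral_indicator hK]
    refine integral_congr_ae ?_
    filter_upwards [h2.coeFn_toLp] with p hp
    rw [hp]
    by_cases h : p ∈ K
    · rw [indicator_of_mem h, indicator_of_mem h, real_inner_smul_left, real_inner_self_eq_norm_sq]
      rcases eq_or_ne ‖u p‖ 0 with h0 | h0
      · rw [h0]; simp
      · field_simp
    · rw [indicator_of_notMem h, indicator_of_notMem h, inner_zero_left]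

theorem coe_sum {ι : Type} (F : Finset ι) (w : ι → Lp (Eu N) 2 μ) (ε : ι → ℝ) :
    ∀ᵐ p ∂μ, (∑ g ∈ F, ε g • w g : Lp (Eu N) 2 μ) p = ∑ g ∈ F, ε g • w g p := by
  classical
  induction F using Finset.induction_on with
  | empty => filter_upwards [Lp.coeFn_zero (Eu N) 2 μ] with p hp; simpa using hp
  | insert a F ha ih =>
    filter_upwards [ih, Lp.coeFn_add (ε a • w a) (∑ g ∈ F, ε g • w g), Lp.coeFn_smul (ε a) (w a)]
      with p h1 h2 h3
    rw [Finset.sum_insert ha, Finset.sum_insert ha, h2, Pi.add_apply, h1, h3, Pi.smul_apply]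

theorem norm_le_l1 (x : Eu N) : ‖x‖ ≤ ∑ i, |x i| := by
  have h : x = ∑ i, EuclideanSpace.single i (x i) := by
    ext j; simp [Pi.single_apply]
  calc ‖x‖ = ‖∑ i, EuclideanSpace.single i (x i)‖ := by rw [← h]
    _ ≤ ∑ i, ‖EuclideanSpace.single i (x i)‖ := norm_sum_le _ _
    _ = _ := by simp

theorem signs {ι : Type} (F : Finset ι) (w : ι → Lp (Eu N) 2 μ) (b : ℝ)
    (h : ∀ ε : ι → ℝ, (∀ g, |ε g| ≤ 1) → ∀ᵐ p ∂μ, ‖(∑ g ∈ F, ε g • w g : Lp (Eu N) 2 μ) p‖ ≤ b) :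
    ∀ᵐ p ∂μ, ∑ g ∈ F, ‖w g p‖ ≤ N * b := by
  classical
  have h1 : ∀ᵐ p ∂μ, ∀ S ∈ F.powerset,
      ‖∑ g ∈ F, (if g ∈ S then (1 : ℝ) else -1) • w g p‖ ≤ b := by
    refine (eventually_all_finset _).2 fun S _ => ?_
    filter_upwards [h (fun g => if g ∈ S then 1 else -1) fun g => by split_ifs <;> simp,
      coe_sum F w fun g => if g ∈ S then (1 : ℝ) else -1] with p h1 h2
    rwa [h2] at h1
  filter_upwards [h1] with p hp
  calc ∑ g ∈ F, ‖w g p‖ ≤ ∑ g ∈ F, ∑ i, |w g p i| := Finset.sum_le_sum fun g _ => norm_le_l1 _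
    _ = ∑ i, ∑ g ∈ F, |w g p i| := Finset.sum_comm
    _ ≤ ∑ _i : Fin N, b := by
      refine Finset.sum_le_sum fun i _ => ?_
      have h2 := hp (F.filter fun g => 0 ≤ w g p i) (Finset.mem_powerset.2 (Finset.filter_subset _ _))
      refine le_trans ?_ ((PiLp.norm_apply_le _ i).trans h2)
      refine le_trans (le_of_eq ?_) (le_abs_self _)
      rw [WithLp.ofLp_sum, Finset.sum_apply]
      refine Finset.sum_congr rfl fun g hg => ?_
      by_cases h0 : 0 ≤ w g p i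
      · simp [hg, h0, abs_of_nonneg h0]
      · simp [h0, abs_of_neg (not_le.1 h0)]
    _ = N * b := by simp

theorem bd_sum (F : Finset G) (h : G → Lp (Eu N) 2 μ) (hh : ∀ g, ∀ᵐ p ∂μ, ‖h g p‖ ≤ 1)
    (ε : G → ℝ) (hε : ∀ g, |ε g| ≤ 1) : Bd 1 (∑ g ∈ F, ε g • (sg g (h g) : V G _)) := by
  classical
  intro γ
  have e : (∑ g ∈ F, ε g • (sg g (h g) : V G (Lp (Eu N) 2 μ))) γ =
      if γ ∈ F then ε γ • h γ else 0 := by
    rw [lp.coeFn_sum, Finset.sum_apply, ← Finset.sum_ite_eq F γ fun g => ε g • h g]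
    refine Finset.sum_congr rfl fun g _ => ?_
    change ε g • (sg g (h g) : V G _) γ = _
    split_ifs with h0
    · subst h0; rw [sg_self]
    · rw [sg_ne _ h0, smul_zero]
  rw [e]
  split_ifs
  · filter_upwards [hh γ, Lp.coeFn_smul (ε γ) (h γ)] with p h1 h2
    rw [h2, Pi.smul_apply, norm_smul, Real.norm_eq_abs]
    exact mul_le_one₀ (hε γ) (norm_nonneg _) h1
  · filter_upwards [Lp.coeFn_zero (Eu N) 2 μ] with p hp
    rw [hp]; simp

end SUM

open SUM in
theorem stSUM : St_SUM := by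
  classical
  intro G _ M _ μ N P P' Q b hQ hb ⟨C, hC, hP⟩ ⟨C', hC', hP'⟩
  obtain ⟨T1, h1⟩ := fs_fin2 P.fs P'.fs'
  obtain ⟨T2, h2⟩ := fs_fin2 P'.fs P.fs'
  set A := fun g => coef g (amp G P.Z * P.U * Q * P'.U' * amp G P'.Z) with hA
  have hAs : ∀ g s, A g s = P.Z (P.U (Q (P'.U' (sg 1 (P'.Z s)))) g) := fun g s => by
    rw [← amp_sg]; rfl
  choose s hs1 hs2 using fun g => exists_half (A g)
  choose h hh1 hh2 using fun g =>
    exists_dual (P.U (Q (Q (P'.U' (sg 1 (P'.Z (s g)))))) g) P.mK P.fK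
  set w : G → Lp (Eu N) 2 μ := fun g => P'.U (Q (Q (P.U' (sg g (h g))))) 1 with hw
  haveI : IsFiniteMeasure (μ.restrict P'.K) := ⟨by simpa using P'.fK.lt_top⟩
  have hint : ∀ g, Integrable (fun p => ‖w g p‖) (μ.restrict P'.K) := fun g =>
    (((Lp.memLp (w g)).restrict _).integrable (by norm_num)).norm
  have key : ∀ g, g ∉ T1 ∪ T2.image (·⁻¹) → ‖A g‖ ≤ 2 * C * C' * ∫ p in P'.K, ‖w g p‖ ∂μ := by
    intro g hg
    have g1 : g * 1⁻¹ ∉ T1 := fun e => hg (Finset.mem_union_left _ (by simpa using e))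
    have g2 : 1 * g⁻¹ ∉ T2 := fun e => hg (Finset.mem_union_right _
      (Finset.mem_image.2 ⟨_, e, by simp⟩))
    have a1 := (hP _ g (by rw [h1 (P'.Z (s g)) 1 g g1, map_zero])).1
    have a2 := (hP' _ 1 (by rw [h2 (h g) g 1 g2, map_zero])).2
    have a3 : ∫ p in P.K, ‖P.U (Q (Q (P'.U' (sg 1 (P'.Z (s g)))))) g p‖ ∂μ = ⟪P'.Z (w g), s g⟫_ℝ := by
      rw [hh2, ← inner_sg, real_inner_comm, P.adj, hQ, hQ, real_inner_comm, ← P'.adj,
        real_inner_comm, inner_sg, real_inner_comm, P'.symZ]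
    have a4 : ⟪P'.Z (w g), s g⟫_ℝ ≤ ‖P'.Z (w g)‖ := (real_inner_le_norm _ _).trans
      (mul_le_of_le_one_right (norm_nonneg _) (hs1 g))
    rw [← hAs, a3] at a1
    have a5 := mul_le_mul_of_nonneg_left (a4.trans a2) hC
    have := hs2 g
    linarith
  have tot : ∀ F : Finset G, ∑ g ∈ F, ∫ p in P'.K, ‖w g p‖ ∂μ ≤ μ.real P'.K * (N * b) := by
    intro F
    rw [← integral_finsetSum _ fun g _ => hint g]
    have := signs F w b fun ε hε => by
      have e : ∑ g ∈ F, ε g • w g =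
          P'.U (Q (Q (P.U' (∑ g ∈ F, ε g • (sg g (h g) : V G _))))) 1 := by
        simp only [map_sum, map_smul]
        rw [lp.coeFn_sum, Finset.sum_apply]
        rfl
      rw [e]
      exact P'.bd _ _ (hb _ (P.bd' _ _ (bd_sum F h hh1 ε hε))) 1
    refine (integral_mono_ae (integrable_finsetSum _ fun g _ => hint g) (integrable_const _)
      (ae_restrict_of_ae this)).trans (le_of_eq ?_)
    simp
  refine summable_of_sum_le (fun g => norm_nonneg _)
    (c := 2 * C * C' * (μ.real P'.K * (N * b)) + ∑ g ∈ T1 ∪ T2.image (·⁻¹), ‖A g‖) fun F => ?_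
  calc ∑ g ∈ F, ‖A g‖ ≤ ∑ g ∈ F \ (T1 ∪ T2.image (·⁻¹)) ∪ (T1 ∪ T2.image (·⁻¹)), ‖A g‖ :=
        Finset.sum_le_sum_of_subset_of_nonneg
          (by rw [Finset.sdiff_union_self_eq_union]; exact Finset.subset_union_left)
          fun _ _ _ => norm_nonneg _
    _ = _ := Finset.sum_union Finset.sdiff_disjoint
    _ ≤ _ := by
      refine add_le_add ((Finset.sum_le_sum fun g hg => key g (Finset.mem_sdiff.1 hg).2).trans ?_) le_rfl
      rw [← Finset.mul_sum]
      exact mul_le_mul_of_nonneg_left (tot _) (by positivity)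

end Pool.Agent.Lib.L1I
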