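import Pool.Agent.Lib.CX.Vol
import Pool.Agent.Lib.TH.Flat5

/-! The Dirac operator in a chart. -/

noncomputable section

open Set Function MeasureTheory CliffordAlgebra Topology Filter
open scoped Manifold ContDiff ENNReal NNReal RealInnerProductSpace

namespace Pool.Agent.Lib.L1I.SOB

open Pool.Agent.Lib.CX Pool.Agent.Lib.CX.SM Pool.Agent.Lib.TH

variable {n N : ℕ} {X : SM n}

section chart

variable {E : Type} [NormedAddCommGroup E] [NormedSpace ℝ E]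

theorem symm_smooth {x₀ : X.M} {y : Eu n} (hy : y ∈ (X.ct x₀).target) :
    ContMDiffAt (𝓡 n) (𝓡 n) ∞ (X.ct x₀).symm y :=
  (contMDiffOn_chart_symm (I := 𝓡 n) (n := ∞) (x := x₀)).contMDiffAt
    ((X.ct x₀).open_target.mem_nhds hy)

theorem ct_smooth {x₀ p : X.M} (hp : p ∈ (X.ct x₀).source) :
    ContMDiffAt (𝓡 n) (𝓡 n) ∞ (X.ct x₀) p :=
  (contMDiffOn_chart (I := 𝓡 n) (n := ∞) (x := x₀)).contMDiffAt
    ((X.ct x₀).open_source.mem_nhds hp)

theorem diff_symm {x₀ p : X.M} (hp : p ∈ (X.ct x₀).source) {ψ : X.M → E}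
    (h : MDifferentiableAt (𝓡 n) 𝓘(ℝ, E) ψ p) :
    DifferentiableAt ℝ (ψ ∘ (X.ct x₀).symm) (X.ct x₀ p) := by
  rw [← mdifferentiableAt_iff_differentiableAt]
  refine MDifferentiableAt.comp _ (by rwa [(X.ct x₀).left_inv hp]) ?_
  exact (symm_smooth ((X.ct x₀).map_source hp)).mdifferentiableAt (by simp)

/-- The derivative along the frame, read in a chart. -/
theorem dd_chart {x₀ p : X.M} (hp : p ∈ (X.ct x₀).source) (a : ℕ) (i : Fin n) {ψ : X.M → E}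
    (h : MDifferentiableAt (𝓡 n) 𝓘(ℝ, E) ψ p) :
    X.dd a i ψ p = fderiv ℝ (ψ ∘ (X.ct x₀).symm) (X.ct x₀ p) (X.J x₀ a p (bv i)) := by
  have e : ψ =ᶠ[𝓝 p] (ψ ∘ (X.ct x₀).symm) ∘ X.ct x₀ := by
    filter_upwards [(X.ct x₀).open_source.mem_nhds hp] with z hz
    simp only [comp_apply, (X.ct x₀).left_inv hz]
  have h1 := mfderiv_comp p (diff_symm hp h).mdifferentiableAt
    ((ct_smooth hp).mdifferentiableAt (by simp))
  rw [SM.dd, e.mfderiv_eq, h1, mfderiv_eq_fderiv]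
  rfl

theorem dd_smul (a : ℕ) (i : Fin n) {θ : X.M → ℝ} {ψ : X.M → E} {p : X.M}
    (hθ : MDifferentiableAt (𝓡 n) 𝓘(ℝ, ℝ) θ p) (h : MDifferentiableAt (𝓡 n) 𝓘(ℝ, E) ψ p) :
    X.dd a i (fun z => θ z • ψ z) p = θ p • X.dd a i ψ p + X.dd a i θ p • ψ p := by
  have hp : p ∈ (X.ct p).source := mem_chart_source _ p
  change X.dd a i (θ • ψ) p = _
  rw [dd_chart hp a i (hθ.smul h), dd_chart hp a i hθ, dd_chart hp a i h]
  have := fderiv_fun_smul (diff_symm hp hθ) (diff_symm hp h)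
  rw [show (θ • ψ) ∘ (X.ct p).symm = fun y => (θ ∘ (X.ct p).symm) y • (ψ ∘ (X.ct p).symm) y from rfl,
    this]
  simp [(X.ct p).left_inv hp]

theorem dd_zero (a : ℕ) (i : Fin n) {ψ : X.M → E} {p : X.M} (hp : p ∉ tsupport ψ) :
    X.dd a i ψ p = 0 := by
  have e : ψ =ᶠ[𝓝 p] fun _ => 0 := notMem_tsupport_iff_eventuallyEq.1 hp
  rw [SM.dd, e.mfderiv_eq, mfderiv_const]
  rfl

/-- A function on the manifold read in a chart, extended by zero. -/
def up (x₀ : X.M) (ψ : X.M → E) : Eu n → E := (X.ct x₀).target.indicator (ψ ∘ (X.ct x₀).symm)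

theorem up_ct {x₀ p : X.M} (hp : p ∈ (X.ct x₀).source) (ψ : X.M → E) :
    up x₀ ψ (X.ct x₀ p) = ψ p := by
  rw [up, indicator_of_mem ((X.ct x₀).map_source hp), comp_apply, (X.ct x₀).left_inv hp]

theorem up_ev {x₀ : X.M} {y : Eu n} (hy : y ∈ (X.ct x₀).target) (ψ : X.M → E) :
    up x₀ ψ =ᶠ[𝓝 y] ψ ∘ (X.ct x₀).symm := by
  filter_upwards [(X.ct x₀).open_target.mem_nhds hy] with z hz using indicator_of_mem hz _

theorem cpt_image {x₀ : X.M} {K : Set X.M} (hK : IsCompact K) (h : K ⊆ (X.ct x₀).source) :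
    IsCompact (X.ct x₀ '' K) := hK.image_of_continuousOn ((X.ct x₀).continuousOn.mono h)

theorem supp_up {x₀ : X.M} {K : Set X.M} {ψ : X.M → E} (hs : support ψ ⊆ K) :
    support (up x₀ ψ) ⊆ X.ct x₀ '' K := fun y hy => by
  by_cases h : y ∈ (X.ct x₀).target
  · rw [mem_support, up, indicator_of_mem h] at hy
    exact ⟨_, hs hy, (X.ct x₀).right_inv h⟩
  · exact absurd (indicator_of_notMem h _) hy

theorem tsupp_up {x₀ : X.M} {K : Set X.M} (hK : IsCompact K) (h : K ⊆ (X.ct x₀).source)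
    {ψ : X.M → E} (hs : support ψ ⊆ K) : tsupport (up x₀ ψ) ⊆ X.ct x₀ '' K :=
  closure_minimal (supp_up hs) (cpt_image hK h).isClosed

theorem tst_up {x₀ : X.M} {K : Set X.M} (hK : IsCompact K) (h : K ⊆ (X.ct x₀).source)
    {ψ : X.M → E} (hψ : ∀ p ∈ K, ContMDiffAt (𝓡 n) 𝓘(ℝ, E) ∞ ψ p) (hs : support ψ ⊆ K) :
    Tst (up x₀ ψ) := by
  refine ⟨contDiff_iff_contDiffAt.2 fun y => ?_,
    (cpt_image hK h).of_isClosed_subset (isClosed_tsupport _) (tsupp_up hK h hs)⟩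
  by_cases hy : y ∈ tsupport (up x₀ ψ)
  · obtain ⟨p, hp, rfl⟩ := tsupp_up hK h hs hy
    have h1 := (X.ct x₀).map_source (h hp)
    refine ContDiffAt.congr_of_eventuallyEq ?_ (up_ev h1 ψ)
    rw [← contMDiffAt_iff_contDiffAt]
    exact ContMDiffAt.comp _ (by rw [(X.ct x₀).left_inv (h hp)]; exact hψ p hp) (symm_smooth h1)
  · exact (contDiffAt_const (c := 0)).congr_of_eventuallyEq (notMem_tsupport_iff_eventuallyEq.1 hy)

end chart

section coef

theorem sec_chart (x₀ : X.M) {V : ∀ x : X.M, TangentSpace (𝓡 n) x} {O : Set X.M}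
    (hV : ContMDiffOn (𝓡 n) (𝓡 n).tangent ∞
      (fun x => (⟨x, V x⟩ : TangentBundle (𝓡 n) X.M)) O) :
    ContMDiffOn (𝓡 n) 𝓘(ℝ, Eu n) ∞ (fun p => (mfderiv (𝓡 n) (𝓡 n) (X.ct x₀) p (V p) : Eu n))
      ((X.ct x₀).source ∩ O) := by
  have h1 := (contMDiffOn_chart (I := 𝓡 n) (n := ∞) (x := x₀)).contMDiffOn_tangentMapWithin
    (m := ∞) le_rfl (X.ct x₀).open_source.uniqueMDiffOn
  have h2 := (contMDiff_snd_tangentBundle_modelSpace (Eu n) (𝓡 n) (n := ∞)).comp_contMDiffOn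
    (h1.comp (hV.mono (inter_subset_right : (X.ct x₀).source ∩ O ⊆ _)) fun p hp => hp.1)
  refine h2.congr fun p hp => ?_
  change _ = mfderivWithin (𝓡 n) (𝓡 n) (X.ct x₀) (X.ct x₀).source p (V p)
  rw [mfderivWithin_of_isOpen (X.ct x₀).open_source hp.1]

/-- The frame in a chart as an isomorphism. -/
def Je {x₀ p : X.M} (a : ℕ) (hp : p ∈ (X.ct x₀).source) : Eu n ≃L[ℝ] Eu n :=
  (X.F a p).trans ((mdifferentiable_chart (I := 𝓡 n) x₀).mfderiv hp)

theorem Je_coe {x₀ p : X.M} (a : ℕ) (hp : p ∈ (X.ct x₀).source) :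
    (Je a hp : Eu n →L[ℝ] Eu n) = X.J x₀ a p := rfl

theorem smooth_cc (a : ℕ) (i j k : Fin n) {p : X.M} (hp : p ∈ X.U a) :
    ContMDiffAt (𝓡 n) 𝓘(ℝ, ℝ) ∞ (X.cc a i j k) p := by
  have hW := (X.isOpen_W p a).mem_nhds ⟨mem_chart_source _ p, hp⟩
  have : IsManifold (𝓡 n) (minSmoothness ℝ 2) X.M := by
    rw [minSmoothness_of_isRCLikeNormedField]; infer_instance
  have : IsManifold (𝓡 n) (((⊤ : ℕ∞) : WithTop ℕ∞) + 1) X.M := X.mf
  have hb : ContMDiffOn (𝓡 n) (𝓡 n).tangent ∞ (fun x => (⟨x, VectorField.mlieBracket (𝓡 n)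
      (X.e a i) (X.e a j) x⟩ : TangentBundle (𝓡 n) X.M)) (X.U a) := fun z hz =>
    (ContMDiffAt.mlieBracket_vectorField (m := ⊤) (n := ⊤)
      ((X.smooth a (bv i)).contMDiffAt ((X.isOpen a).mem_nhds hz))
      ((X.smooth a (bv j)).contMDiffAt ((X.isOpen a).mem_nhds hz)) (by simp)).contMDiffWithinAt
  have h1 := (sec_chart p hb).contMDiffAt hW
  have h2 : ContMDiffAt (𝓡 n) 𝓘(ℝ, Eu n →L[ℝ] Eu n) ∞ (X.J p a) p := by
    have h3 := ((contDiffOn_J p a).contDiffAt ((X.isOpen_Om p a).mem_nhds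
      ⟨p, ⟨mem_chart_source _ p, hp⟩, rfl⟩)).contMDiffAt.comp p (ct_smooth (mem_chart_source _ p))
    refine h3.congr_of_eventuallyEq ?_
    filter_upwards [hW] with z hz
    simp only [comp_apply, (X.ct p).left_inv hz.1]
  have h4 : ContMDiffAt (𝓡 n) 𝓘(ℝ, Eu n →L[ℝ] Eu n) ∞ (fun z => (X.J p a z).inverse) p := by
    have := contDiffAt_map_inverse (n := ∞) (Je (X := X) a (mem_chart_source _ p))
    rw [Je_coe] at this
    exact this.contMDiffAt.comp p h2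
  have h5 := ((EuclideanSpace.proj k : Eu n →L[ℝ] ℝ).contMDiff (n := ∞) _).comp p (h4.clm_apply h1)
  refine h5.congr_of_eventuallyEq ?_
  filter_upwards [hW] with z hz
  have : (X.J p a z).inverse (mfderiv (𝓡 n) (𝓡 n) (X.ct p) z
      (VectorField.mlieBracket (𝓡 n) (X.e a i) (X.e a j) z)) =
      (X.F a z).symm (VectorField.mlieBracket (𝓡 n) (X.e a i) (X.e a j) z) := by
    rw [← Je_coe a hz.1, ContinuousLinearMap.inverse_equiv]
    refine (Je a hz.1).symm_apply_eq.2 ?_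
    exact congrArg (mfderiv (𝓡 n) (𝓡 n) (X.ct p) z) ((X.F a z).apply_symm_apply _).symm
  exact (congrArg (fun v : Eu n => v k) this).symm

theorem smooth_ga (a : ℕ) (i j k : Fin n) {p : X.M} (hp : p ∈ X.U a) :
    ContMDiffAt (𝓡 n) 𝓘(ℝ, ℝ) ∞ (X.ga a i j k) p :=
  (((smooth_cc a i j k hp).sub (smooth_cc a j k i hp)).add (smooth_cc a k i j hp)).div_const 2

variable (S : Spinor n N)

/-- Clifford multiplication by a basis vector. -/
def gam (i : Fin n) : Eu N →L[ℝ] Eu N := S.c (ι (Qn n) (bv i))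

/-- The term of order zero. -/
def zt (X : SM n) (a : ℕ) (p : X.M) : Eu N →L[ℝ] Eu N :=
  ∑ i, gam S i ∘L ((1 / 4 : ℝ) • ∑ j, ∑ k, X.ga a i j k p • S.c (ι (Qn n) (bv j) * ι (Qn n) (bv k)))

theorem dirac_eq (a : ℕ) (ψ : X.M → Eu N) (p : X.M) :
    X.dirac S a ψ p = ∑ i, gam S i (X.dd a i ψ p) + zt S X a p (ψ p) := by
  simp only [SM.dirac, zt, gam, map_add, Finset.sum_add_distrib, ContinuousLinearMap.sum_apply,
    ContinuousLinearMap.comp_apply, ContinuousLinearMap.smul_apply]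

theorem smooth_zt (a : ℕ) {p : X.M} (hp : p ∈ X.U a) :
    ContMDiffAt (𝓡 n) 𝓘(ℝ, Eu N →L[ℝ] Eu N) ∞ (zt S X a) p := by
  refine ContMDiffAt.sum fun i _ => contMDiffAt_const.clm_comp ?_
  refine (contMDiffAt_const (I := 𝓡 n) (I' := 𝓘(ℝ, ℝ)) (c := (1 / 4 : ℝ))).smul
    (ContMDiffAt.sum fun j _ => ContMDiffAt.sum fun k _ => ?_)
  exact (smooth_ga a i j k hp).smul contMDiffAt_const

theorem dirac_smul (a : ℕ) {θ : X.M → ℝ} {ψ : X.M → Eu N} {p : X.M}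
    (hθ : MDifferentiableAt (𝓡 n) 𝓘(ℝ, ℝ) θ p) (h : MDifferentiableAt (𝓡 n) 𝓘(ℝ, Eu N) ψ p) :
    X.dirac S a (fun z => θ z • ψ z) p =
      θ p • X.dirac S a ψ p + ∑ i, X.dd a i θ p • gam S i (ψ p) := by
  simp only [dirac_eq, dd_smul a _ hθ h, map_add, map_smul, Finset.sum_add_distrib, smul_add,
    Finset.smul_sum]
  abel

theorem dirac_zero (a : ℕ) {ψ : X.M → Eu N} {p : X.M} (hp : p ∉ tsupport ψ) :
    X.dirac S a ψ p = 0 := by
  simp [dirac_eq, dd_zero a _ hp, image_eq_zero_of_notMem_tsupport hp]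

theorem gam_rel (i j : Fin n) (p q : Eu N) :
    ⟪gam S i p, gam S j q⟫ + ⟪gam S j p, gam S i q⟫ = if i = j then 2 * ⟪p, q⟫ else 0 := by
  have h := ι_mul_ι_add_swap (Q := Qn n) (bv i) (bv j)
  have h1 : QuadraticMap.polar (Qn n) (bv i) (bv j) = if i = j then -2 else 0 := by
    simp only [QuadraticMap.polar, Qn, _root_.neg_apply, LinearMap.BilinMap.toQuadraticMap_apply,
      innerₗ_apply_apply, inner_add_left, inner_add_right, bv]
    simp only [EuclideanSpace.inner_single_left, EuclideanSpace.single_apply]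
    by_cases e : i = j
    · simp [e]; norm_num
    · simp [e, Ne.symm e]
  have h2 := congrArg (fun c => S.c c q) h
  simp only [map_add, map_mul, AlgHom.commutes, ContinuousLinearMap.add_apply,
    ContinuousLinearMap.mul_apply, h1] at h2
  rw [gam, gam, S.skew, S.skew, ← neg_add, ← inner_add_right, h2]
  by_cases e : i = j
  · simp [e, Algebra.algebraMap_eq_smul_one, inner_smul_right]
  · simp [e]

/-- The frame in the chart. -/
def ech (x₀ : X.M) (a : ℕ) (i : Fin n) (y : Eu n) : Eu n := X.J x₀ a ((X.ct x₀).symm y) (bv i)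

theorem smooth_ech (x₀ : X.M) (a : ℕ) (i : Fin n) : ContDiffOn ℝ ∞ (ech x₀ a i) (X.Om x₀ a) :=
  (contDiffOn_J x₀ a).clm_apply contDiffOn_const

theorem smooth_zch (x₀ : X.M) (a : ℕ) :
    ContDiffOn ℝ ∞ (zt S X a ∘ (X.ct x₀).symm) (X.Om x₀ a) := fun y hy =>
  (contMDiffAt_iff_contDiffAt.1 ((smooth_zt S a (symm_mem_W hy).2).comp y
    (symm_smooth (Om_sub hy)))).contDiffWithinAt

theorem span_ech {x₀ : X.M} {a : ℕ} {y : Eu n} (hy : y ∈ X.Om x₀ a) :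
    Submodule.span ℝ (range fun i => ech x₀ a i y) = ⊤ := by
  have := (((EuclideanSpace.basisFun (Fin n) ℝ).toBasis).map
    (Je a (symm_mem_W hy).1).toLinearEquiv).span_eq
  rw [← this]
  congr 2
  funext i
  simp [ech, bv, ← Je_coe a (symm_mem_W hy).1]

/-- The Dirac operator in a chart. -/
theorem dirac_chart {x₀ p : X.M} (hp : p ∈ (X.ct x₀).source) (a : ℕ) {ψ : X.M → Eu N}
    (h : MDifferentiableAt (𝓡 n) 𝓘(ℝ, Eu N) ψ p) :
    X.dirac S a ψ p = Pfr (fun i _ => gam S i) (ech x₀ a) (zt S X a ∘ (X.ct x₀).symm) (up x₀ ψ)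
      (X.ct x₀ p) := by
  rw [dirac_eq, Pfr, (up_ev ((X.ct x₀).map_source hp) ψ).fderiv_eq, up_ct hp]
  simp only [dd_chart hp a _ h, ech, comp_apply, (X.ct x₀).left_inv hp]

end coef

end Pool.Agent.Lib.L1I.SOB
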