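import Pool.Agent.Lib.L1I.Blue

/-! Block TRF: transfer of the graph inequalities to the resolvent. -/

noncomputable section

open Set Function Filter Topology MeasureTheory BCO
open scoped InnerProductSpace ENNReal

namespace Pool.Agent.Lib.L1I

open CX

namespace TRF

variable {G : Type} [Group G] {E : Type} [NormedAddCommGroup E] [NormedSpace ℝ E]

theorem amp_mul (T S : E →L[ℝ] E) : amp G (T * S) = amp G T * amp G S :=
  op_ext fun _ _ => rfl

theorem amp_sub_one (T S : E →L[ℝ] E) (ξ : V G E) :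
    amp G ((T - 1) * S) ξ = amp G (T * S) ξ - amp G S ξ := by
  ext x
  simp [amp_apply, lp.coeFn_sub]

theorem sg_map (T : E →L[ℝ] E) (g : G) (s : E) : sg g (T s) = amp G T (sg g s) := by
  classical
  ext x
  rw [amp_apply]
  change lp.single (E := fun _ : G => E) 2 g (T s) x = T (lp.single (E := fun _ : G => E) 2 g s x)
  rw [lp.single_apply, lp.single_apply, Pi.single_apply, Pi.single_apply]
  split_ifs <;> simp

theorem cont_ev (g : G) : Continuous fun ξ : V G E => ξ g :=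
  (lp.evalCLM ℝ (fun _ : G => E) 2 g).continuous

variable {M : Type} [MeasurableSpace M] {μ : Measure M} {N : ℕ}

theorem cont_int {K : Set M} (hK : MeasurableSet K) (hf : μ K ≠ ⊤) :
    Continuous fun u : Lp (Eu N) 2 μ => ∫ p in K, ‖u p‖ ∂μ := by
  have h : (fun u : Lp (Eu N) 2 μ => ∫ p in K, ‖u p‖ ∂μ) = fun u =>
      ⟪indicatorConstLp 2 hK hf (1 : ℝ),
        (lipschitzWith_one_norm.compLp norm_zero u : Lp ℝ 2 μ)⟫_ℝ := by
    funext u
    rw [L2.inner_indicatorConstLp_one]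
    refine integral_congr_ae (ae_restrict_of_ae ?_)
    filter_upwards [lipschitzWith_one_norm.coeFn_compLp norm_zero u] with p hp
    rw [hp]; rfl
  rw [h]
  exact continuous_const.inner (lipschitzWith_one_norm.continuous_compLp norm_zero)

theorem cut_le {Ψ : ℝ → ℝ} (h : Cut Ψ) (t : ℝ) : Ψ t ≤ 1 := by
  obtain ⟨-, hm, -, T, hT⟩ := h
  rw [← hT (max t T) (le_max_right _ _)]
  exact hm (le_max_left _ _)

variable {w : Lp (Eu N) 2 μ →L[ℝ] Lp (Eu N) 2 μ}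
  {R Q : V G (Lp (Eu N) 2 μ) →L[ℝ] V G (Lp (Eu N) 2 μ)} {X : Pack w R}

theorem W_apply (X : Pack w R) {q : V G (Lp (Eu N) 2 μ) × V G (Lp (Eu N) 2 μ)} (hq : q ∈ X.Gr) :
    (1 + amp G ((X.v - 1) * w) * R : V G (Lp (Eu N) 2 μ) →L[ℝ] V G (Lp (Eu N) 2 μ))
      (q.2 + amp G w q.1) = q.2 + amp G (X.v * w) q.1 := by
  change (q.2 + amp G w q.1) + amp G ((X.v - 1) * w) (R (q.2 + amp G w q.1)) = _
  rw [X.res q hq, amp_sub_one]
  abel

theorem Q_apply (hQ : X.IsQ Q) {q : V G (Lp (Eu N) 2 μ) × V G (Lp (Eu N) 2 μ)} (hq : q ∈ X.Gr) :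
    Q (q.2 + amp G (X.v * w) q.1) = q.1 := by
  obtain ⟨W', -, -, h2, h3⟩ := hQ.inv
  have := congrArg (fun A => A (q.2 + amp G w q.1)) h2
  simp only [ContinuousLinearMap.mul_apply W', W_apply X hq, ContinuousLinearMap.one_apply] at this
  rw [h3, ContinuousLinearMap.mul_apply, this, X.res q hq]

theorem dense (hQ : X.IsQ Q) : Dense ((fun q => q.2 + amp G (X.v * w) q.1) '' X.Gr) := by
  obtain ⟨W', -, h1, -, -⟩ := hQ.inv
  have hs : Surjective (1 + amp G ((X.v - 1) * w) * R :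
      V G (Lp (Eu N) 2 μ) →L[ℝ] V G (Lp (Eu N) 2 μ)) := fun ξ =>
    ⟨W' ξ, congrArg (fun A => A ξ) h1⟩
  have := hs.denseRange.dense_image (1 + amp G ((X.v - 1) * w) * R :
      V G (Lp (Eu N) 2 μ) →L[ℝ] V G (Lp (Eu N) 2 μ)).continuous X.dense
  refine this.mono ?_
  rintro _ ⟨_, ⟨q, hq, rfl⟩, rfl⟩
  exact ⟨q, hq, (W_apply X hq).symm⟩

theorem nlq (hQ : X.IsQ Q) : NLQ Q X.c := by
  refine ⟨_, dense hQ, fun Ψ hΨ => ?_⟩
  obtain ⟨C, hC⟩ := X.nl Ψ hΨ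
  set A := amp G (X.v * w) with hA
  refine ⟨|C| * (1 + ‖A‖ * ‖Q‖ + ‖Q‖) + ‖A‖ * ‖Q‖, ?_⟩
  rintro _ ⟨q, hq, rfl⟩
  obtain ⟨q', hq', h1, h2, h3⟩ := hC q hq
  have e1 := Q_apply hQ hq
  have e2 := Q_apply hQ hq'
  rw [← hA] at e1 e2
  refine ⟨q'.2 + A q'.1, ?_, ?_, ?_⟩
  · intro γ
    rw [e1, e2]
    exact h1 γ
  · rw [e1, e2]
    exact h2
  · have n1 : ‖q'.1‖ ≤ ‖q.1‖ := by
      refine lp.norm_mono two_ne_zero fun γ => Lp.norm_le_norm_of_ae_le ?_
      filter_upwards [h1 γ] with p hp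
      rw [hp, norm_smul, Real.norm_of_nonneg (hΨ.2.2.1 _)]
      exact mul_le_of_le_one_left (norm_nonneg _) (cut_le hΨ _)
    set b := ‖q.2 + A q.1‖ with hb
    have n2 : ‖q.1‖ ≤ ‖Q‖ * b := by
      calc ‖q.1‖ = ‖Q (q.2 + A q.1)‖ := by rw [e1]
        _ ≤ _ := Q.le_opNorm _
    have n3 : ‖A q.1‖ ≤ ‖A‖ * (‖Q‖ * b) :=
      (A.le_opNorm _).trans (mul_le_mul_of_nonneg_left n2 (norm_nonneg _))
    have n4 : ‖A q'.1‖ ≤ ‖A‖ * (‖Q‖ * b) :=
      (A.le_opNorm _).trans (mul_le_mul_of_nonneg_left (n1.trans n2) (norm_nonneg _))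
    have n5 : ‖q.2‖ ≤ b + ‖A‖ * (‖Q‖ * b) := by
      calc ‖q.2‖ = ‖(q.2 + A q.1) - A q.1‖ := by rw [add_sub_cancel_right]
        _ ≤ b + ‖A q.1‖ := norm_sub_le _ _
        _ ≤ _ := by linarith
    have n6 : ‖q'.2‖ ≤ |C| * (b + ‖A‖ * (‖Q‖ * b) + ‖Q‖ * b) := by
      refine h3.trans ((mul_le_mul_of_nonneg_right (le_abs_self C) (by positivity)).trans ?_)
      exact mul_le_mul_of_nonneg_left (by linarith) (abs_nonneg _)
    calc ‖q'.2 + A q'.1‖ ≤ ‖q'.2‖ + ‖A q'.1‖ := norm_add_le _ _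
      _ ≤ |C| * (b + ‖A‖ * (‖Q‖ * b) + ‖Q‖ * b) + ‖A‖ * (‖Q‖ * b) := add_le_add n6 n4
      _ = _ := by ring

theorem U_amp (X : Pack w R) (a : Fin X.r) :
    (X.P a).U * amp G (X.v * w) = amp G (X.v * w) * (X.P a).U := by
  have h1 := (X.com a w (by simp)).1
  have h2 := (X.com a X.v (by simp)).1
  rw [amp_mul, ← mul_assoc, h2, mul_assoc, h1, mul_assoc]

theorem U'_amp (X : Pack w R) (a : Fin X.r) :
    (X.P a).U' * amp G (X.v * w) = amp G (X.v * w) * (X.P a).U' := by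
  calc (X.P a).U' * amp G (X.v * w)
      = (X.P a).U' * amp G (X.v * w) * ((X.P a).U * (X.P a).U') := by rw [(X.P a).uu, mul_one]
    _ = (X.P a).U' * (amp G (X.v * w) * (X.P a).U) * (X.P a).U' := by simp only [mul_assoc]
    _ = (X.P a).U' * (X.P a).U * amp G (X.v * w) * (X.P a).U' := by
        rw [← U_amp]; simp only [mul_assoc]
    _ = _ := by rw [(X.P a).uu', one_mul]

theorem Z_vw (X : Pack w R) (a : Fin X.r) (s : Lp (Eu N) 2 μ) :
    (X.P a).Z ((X.v * w) s) = (X.v * w) ((X.P a).Z s) := by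
  have h1 := (X.com a w (by simp)).2
  have h2 := (X.com a X.v (by simp)).2
  have : (X.P a).Z * (X.v * w) = X.v * w * (X.P a).Z := by
    rw [← mul_assoc, h2, mul_assoc, h1, mul_assoc]
  exact congrArg (fun A => A s) this

theorem ZU (X : Pack w R) (a : Fin X.r) (ξ ξ' : V G (Lp (Eu N) 2 μ)) (g : G) :
    (X.P a).Z ((X.P a).U (ξ' + amp G (X.v * w) ξ) g) =
      (X.P a).Z ((X.P a).U ξ' g) + (X.v * w) ((X.P a).Z ((X.P a).U ξ g)) := by
  have h : (X.P a).U (amp G (X.v * w) ξ) = amp G (X.v * w) ((X.P a).U ξ) :=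
    congrArg (fun A => A ξ) (U_amp X a)
  rw [map_add, h, lp.coeFn_add, Pi.add_apply, map_add, amp_apply, Z_vw]

theorem comm (hQ : X.IsQ Q) (a : Fin X.r) : (X.P a).Comm Q := by
  intro β g
  have c1 : Continuous fun β : V G (Lp (Eu N) 2 μ) => (X.P a).U β g :=
    (cont_ev g).comp (X.P a).U.continuous
  have c2 : Continuous fun β : V G (Lp (Eu N) 2 μ) => (X.P a).U (Q β) g := c1.comp Q.continuous
  refine (dense hQ).induction (P := fun β => Q ((X.P a).U' (sg g ((X.P a).Z ((X.P a).U β g) +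
    (X.P a).C ((X.P a).U (Q β) g)))) = (X.P a).U' (sg g ((X.P a).Z ((X.P a).U (Q β) g)))) ?_ ?_ β
  · rintro _ ⟨q, hq, rfl⟩
    have e := Q_apply hQ (X.cm a g q hq)
    have h : ∀ ξ, (X.P a).U' (amp G (X.v * w) ξ) = amp G (X.v * w) ((X.P a).U' ξ) := fun ξ =>
      congrArg (fun A => A ξ) (U'_amp X a)
    dsimp only at e ⊢
    rw [Q_apply hQ hq, ZU, add_right_comm, map_add (sg g), map_add (X.P a).U', sg_map (X.v * w), h]
    exact e
  · refine isClosed_eq ?_ ?_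
    · exact Q.continuous.comp ((X.P a).U'.continuous.comp ((sg g).continuous.comp
        (((X.P a).Z.continuous.comp c1).add ((X.P a).C.continuous.comp c2))))
    · exact (X.P a).U'.continuous.comp ((sg g).continuous.comp ((X.P a).Z.continuous.comp c2))

theorem ehr (hQ : X.IsQ Q) (a : Fin X.r) : (X.P a).Ehr Q := by
  intro δ hδ
  have hn : 0 < 1 + ‖X.v * w‖ := by positivity
  obtain ⟨C, hC⟩ := X.ehr a (δ / (1 + ‖X.v * w‖)) (div_pos hδ hn)
  refine ⟨C, fun β g => ?_⟩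
  have c1 : Continuous fun β : V G (Lp (Eu N) 2 μ) => (X.P a).U β g :=
    (cont_ev g).comp (X.P a).U.continuous
  have c2 : Continuous fun β : V G (Lp (Eu N) 2 μ) => (X.P a).U (Q β) g := c1.comp Q.continuous
  refine (dense hQ).induction (P := fun β => ‖(X.P a).Y ((X.P a).U (Q β) g)‖ ≤
    δ * (‖(X.P a).Z ((X.P a).U (Q β) g)‖ +
      ‖(X.P a).Z ((X.P a).U β g) + (X.P a).C ((X.P a).U (Q β) g)‖) +
      C * ∫ p in (X.P a).K, ‖(X.P a).U (Q β) g p‖ ∂μ) ?_ ?_ β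
  · rintro _ ⟨q, hq, rfl⟩
    dsimp only
    rw [Q_apply hQ hq, ZU]
    refine (hC q hq g).trans (add_le_add_left ?_ _)
    set z := (X.P a).Z ((X.P a).U q.1 g)
    set y := (X.P a).Z ((X.P a).U q.2 g)
    set x := (X.P a).C ((X.P a).U q.1 g)
    have h1 : ‖y + x‖ ≤ ‖y + (X.v * w) z + x‖ + ‖X.v * w‖ * ‖z‖ := by
      calc ‖y + x‖ = ‖(y + (X.v * w) z + x) - (X.v * w) z‖ := by congr 1; abel
        _ ≤ ‖y + (X.v * w) z + x‖ + ‖(X.v * w) z‖ := norm_sub_le _ _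
        _ ≤ _ := add_le_add_right ((X.v * w).le_opNorm z) _
    have h2 : ‖z‖ + ‖y + x‖ ≤ (1 + ‖X.v * w‖) * (‖z‖ + ‖y + (X.v * w) z + x‖) := by
      nlinarith [mul_nonneg (norm_nonneg (X.v * w)) (norm_nonneg (y + (X.v * w) z + x))]
    calc δ / (1 + ‖X.v * w‖) * (‖z‖ + ‖y + x‖)
        ≤ δ / (1 + ‖X.v * w‖) * ((1 + ‖X.v * w‖) * (‖z‖ + ‖y + (X.v * w) z + x‖)) :=
          mul_le_mul_of_nonneg_left h2 (div_pos hδ hn).le
      _ = _ := by field_simp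
  · refine isClosed_le ((X.P a).Y.continuous.comp c2).norm ?_
    exact (continuous_const.mul (((X.P a).Z.continuous.comp c2).norm.add
      (((X.P a).Z.continuous.comp c1).add ((X.P a).C.continuous.comp c2)).norm)).add
      (continuous_const.mul ((cont_int (X.P a).mK (X.P a).fK).comp c2))

end TRF

theorem stTRF : St_TRF := fun _ _ _ _ _ _ _ _ _ _ hQ =>
  ⟨TRF.nlq hQ, fun a => ⟨TRF.comm hQ a, TRF.ehr hQ a⟩⟩

end Pool.Agent.Lib.L1I
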