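import Pool.Agent.Lib.L1I.Blue
import Pool.Agent.Lib.CX.Mul
import Pool.Agent.Lib.CX.Sec

/-! Block UNF: the change of trivialisation. -/

noncomputable section

open Set Filter MeasureTheory BCO
open scoped InnerProductSpace

namespace Pool.Agent.Lib.L1I

open CX

namespace Unf

variable {G : Type} [Group G] {M : Type} [MeasurableSpace M] (μ : Measure M) (N : ℕ)
  (κ : M → G) (s : Finset G) (φ : G → G)

/-- the operator -/
def op : V G (Lp (Eu N) 2 μ) →L[ℝ] V G (Lp (Eu N) 2 μ) :=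
  ∑ h ∈ s, tw (φ h) (indOp μ (Eu N) {p | κ p = h})

theorem op_mem : op μ N κ s φ ∈ FS G _ :=
  Submodule.sum_mem _ fun _ _ => Submodule.subset_span ⟨_, _, rfl⟩

variable {μ N κ s} (hm : ∀ h, MeasurableSet {p | κ p = h}) (hs : ∀ p, κ p ∈ s)
include hm hs

theorem key {ξ : G → M → Eu N} {ξ' : V G (Lp (Eu N) 2 μ)} (h : Cls μ ξ ξ') (g : G) :
    op μ N κ s φ ξ' g =ᵐ[μ] fun p => ξ ((φ (κ p))⁻¹ * g) p := by
  classical
  have e : op μ N κ s φ ξ' g = ∑ k ∈ s, indOp μ (Eu N) {p | κ p = k} (ξ' ((φ k)⁻¹ * g)) := by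
    simp only [op, _root_.sum_apply, lp.coeFn_sum, Finset.sum_apply, tw_apply]
  rw [e]
  filter_upwards [Lp.coeFn_finsetSum s fun k => indOp μ (Eu N) {p | κ p = k} (ξ' ((φ k)⁻¹ * g)),
    (eventually_all_finset s).2 fun k _ => indOp_coe' (hm k) (h ((φ k)⁻¹ * g))] with p h1 h2
  rw [h1, Finset.sum_apply, Finset.sum_congr rfl h2, Finset.sum_eq_single_of_mem _ (hs p)
    fun k _ hk => indicator_of_notMem (fun h => hk h.symm) _]
  exact indicator_of_mem (s := {q | κ q = κ p}) rfl _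

theorem coe (ξ : V G (Lp (Eu N) 2 μ)) (g : G) :
    op μ N κ s φ ξ g =ᵐ[μ] fun p => ξ ((φ (κ p))⁻¹ * g) p :=
  key φ hm hs (ξ := fun γ => ξ γ) (fun _ => EventuallyEq.rfl) g

theorem inv (ψ : G → G) (h : ∀ g, ψ g = (φ g)⁻¹) : op μ N κ s φ * op μ N κ s ψ = 1 :=
  op_ext fun ξ g => Lp.ext <| (key φ hm hs (coe ψ hm hs ξ) g).trans
    (Eventually.of_forall fun p => by simp [h])

theorem bd (m : ℝ) (ξ : V G (Lp (Eu N) 2 μ)) (h : Bd m ξ) : Bd m (op μ N κ s φ ξ) := fun g => by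
  filter_upwards [coe φ hm hs ξ g, (eventually_all_finset s).2 fun k _ => h ((φ k)⁻¹ * g)]
    with p h1 h2
  rw [h1]
  exact h2 _ (hs p)

omit hm hs in
theorem inner_tw {E : Type} [NormedAddCommGroup E] [InnerProductSpace ℝ E] (g : G) {T : E →L[ℝ] E}
    (hT : ∀ u v, ⟪T u, v⟫_ℝ = ⟪u, T v⟫_ℝ) (ξ η : V G E) :
    ⟪tw g T ξ, η⟫_ℝ = ⟪ξ, tw g⁻¹ T η⟫_ℝ := by
  rw [lp.inner_eq_tsum, lp.inner_eq_tsum, ← (Equiv.mulLeft g).tsum_eq]
  simp [hT]

end Unf

open Unf in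
theorem stUNF : St_UNF := by
  intro G _ m N x μ i
  classical
  obtain ⟨_, s, h⟩ := x.exists_fin
  have hs : ∀ p, kap x i p ∈ s := fun p => (h p).2 _ _
  have hm : ∀ g, MeasurableSet {p | kap x i p = g} := x.measurableSet_sheet i
  have h1 : ∀ {ξ : G → x.X.M → Eu N} {ξ'}, Cls μ ξ ξ' → ∀ γ,
      op μ N (kap x i) s (·⁻¹) ξ' γ =ᵐ[μ] fun p => ξ (kap x i p * γ) p := fun h γ => by
    simpa only [inv_inv] using key (·⁻¹) hm hs h γ
  refine ⟨op μ N (kap x i) s id, op μ N (kap x i) s (·⁻¹), inv _ hm hs _ fun _ => rfl,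
    inv _ hm hs _ fun _ => (inv_inv _).symm, fun ξ η => ?_, op_mem _ _ _ _ _, op_mem _ _ _ _ _,
    coe id hm hs, fun ξ => h1 fun _ => EventuallyEq.rfl, fun m ξ h => ⟨bd _ hm hs m ξ h,
      bd _ hm hs m ξ h⟩, fun ξ ξ' g h => key id hm hs h g, fun t g => h1
        (ξ := fun γ p => if γ = g then t p else 0) fun γ => ?_, fun a T hT => op_ext fun ξ g => ?_⟩
  · simp only [op, _root_.sum_apply, sum_inner, inner_sum]
    exact Finset.sum_congr rfl fun k _ => inner_tw k (inner_indOp (hm k)) ξ η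
  · rcases eq_or_ne γ g with rfl | h
    · simp [sg]
    · have e : sg g t γ = 0 := lp.single_apply_ne (E := fun _ : G => Lp (Eu N) 2 μ) 2 g t h
      simp only [e, if_neg h]
      exact Lp.coeFn_zero (Eu N) 2 μ
  · refine Lp.ext ((key id hm hs (ξ := fun γ p => a p (ξ γ p)) (fun γ => hT (ξ γ)) g).trans ?_)
    filter_upwards [hT (op μ N (kap x i) s id ξ g), coe id hm hs ξ g] with p h1 h2
    exact (h1.trans (by rw [h2])).symm

end Pool.Agent.Lib.L1I
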